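import Pool.Agent.Lib.MP_d0e829_nt.GP.Spec

/-! # Module CVA: limits along the ultrafilter -/

set_option autoImplicit false

open NumberField MvPolynomial Filter Topology
open Pool.Agent.Lib.MP_d0e829_nt.SS Pool.Agent.Lib.MP_d0e829_nt.SI

namespace Pool.Agent.Lib.MP_d0e829_nt.GP

open scoped Classical

namespace CVAM

variable {k : Type} [Field k] [NumberField k]

lemma log_nrm_pair (v : Place k) {x y : k} (hx : x ≠ 0) (hy : y ≠ 0) {c : ℝ}
    (h1 : Real.log (absV v x) ≤ c) (h2 : Real.log (absV v y) ≤ c) :
    Real.log (nrm v ![x, y]) ≤ c := by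
  have hne : (![x, y] : Fin 2 → k) ≠ 0 := by
    intro h
    exact hx (congrFun h 0)
  rw [Real.log_le_iff_le_exp (nrm_pos v hne)]
  apply nrm_le v _ (Real.exp_pos c).le
  intro j
  fin_cases j
  · exact (Real.log_le_iff_le_exp (absV_pos v hx)).1 h1
  · exact (Real.log_le_iff_le_exp (absV_pos v hy)).1 h2

lemma vl_nonneg {M : ℕ} (v : Place k) (a : Fin M) {f : Fin M → k} (ha : f a ≠ 0) :
    0 ≤ vl v a f := by
  unfold vl
  have h := Real.log_le_log (absV_pos v ha) (absV_le_nrm v f a)
  linarith

lemma val_single {M : ℕ} (v : Place k) (a : Fin M) (f : Fin M → k) :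
    val v (Pi.single a 1) f = vl v a f := by
  unfold val vl
  rw [single_dotProduct, one_mul]

/-- the height of a pair of coordinates -/
lemma ht_pair_le {M : ℕ} (S : Finset (Place k)) (f : Fin M → k) (a b : Fin M) (ha : f a ≠ 0)
    (hb : f b ≠ 0) :
    ht ![f a, f b] ≤ (ht f - ∑ v ∈ S, vl v b f) + ∑ v ∈ S, |vl v b f - vl v a f| := by
  have hf : f ≠ 0 := by
    intro h
    exact ha (congrFun h a)
  have hne : (![f a, f b] : Fin 2 → k) ≠ 0 := by
    intro h
    exact ha (congrFun h 0)
  set g : Place k → ℝ := fun v => if v ∈ S then |vl v b f - vl v a f| - vl v b f else 0 with hg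
  have hgs : Function.support g ⊆ (S : Set (Place k)) := by
    intro v hv
    by_contra h
    apply hv
    simp only [hg]
    exact if_neg h
  have hgf : (Function.support g).Finite := S.finite_toSet.subset hgs
  have hnf := support_log_nrm_finite (x := f) hf
  have h1 : ht ![f a, f b] ≤ ∑ᶠ v : Place k, (Real.log (nrm v f) + g v) := by
    refine finsum_mono (support_log_nrm_finite hne) ?_ ?_
    · refine (hnf.union hgf).subset ?_
      exact Function.support_add _ _
    · intro v
      by_cases hv : v ∈ S
      · have hgv : g v = |vl v b f - vl v a f| - vl v b f := by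
          simp only [hg]
          exact if_pos hv
        rw [hgv]
        have e1 : vl v b f - vl v a f =
            Real.log (absV v (f a)) - Real.log (absV v (f b)) := by
          unfold vl
          ring
        apply log_nrm_pair v ha hb
        · have h2 := le_abs_self (vl v b f - vl v a f)
          unfold vl at h2 ⊢
          linarith
        · have h2 := abs_nonneg (vl v b f - vl v a f)
          unfold vl at h2 ⊢
          linarith
      · have hgv : g v = 0 := by
          simp only [hg]
          exact if_neg hv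
        rw [hgv, add_zero]
        exact log_nrm_pair v ha hb (Real.log_le_log (absV_pos v ha) (absV_le_nrm v f a))
          (Real.log_le_log (absV_pos v hb) (absV_le_nrm v f b))
  rw [finsum_add_distrib hnf hgf, finsum_eq_sum_of_support_subset g hgs] at h1
  have h2 : ∑ v ∈ S, g v = ∑ v ∈ S, |vl v b f - vl v a f| - ∑ v ∈ S, vl v b f := by
    rw [← Finset.sum_sub_distrib]
    refine Finset.sum_congr rfl fun v hv => ?_
    simp only [hg]
    exact if_pos hv
  rw [h2] at h1
  have h3 : (∑ᶠ v : Place k, Real.log (nrm v f)) = ht f := rfl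
  rw [h3] at h1
  linarith

end CVAM

open CVAM

theorem specCVA (hTRV : SS.SpecTRV) (hCVX : SI.SpecCVX) (hHUA : SpecHUA) : SpecCVA := by
  intro k _ _ Ω M f S U A q n e he hq hsys hIE
  have hmem : ∀ i : Fin q, e i ∈ Finset.univ.image e := fun i =>
    Finset.mem_image_of_mem e (Finset.mem_univ i)
  have hne : ∀ᶠ ω in (U : Filter Ω), ∀ a, f ω a ≠ 0 := by
    filter_upwards [hsys.mem] with ω hω using hsys.ne ω hω
  -- the ratios
  set r : Fin q → Place k → Ω → ℝ := fun i v ω => vl v (e i) (f ω) / ht (f ω) with hr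
  have hlim : ∀ (i : Fin q) (v : Place k), ∃ l : ℝ, v ∈ S → Tendsto (r i v) U (𝓝 l) := by
    intro i v
    by_cases hv : v ∈ S
    · obtain ⟨C, hC, hb⟩ := (hTRV k M).1 S (Pi.single (e i) 1)
      have hev : ∀ᶠ ω in (U : Filter Ω), r i v ω ∈ Set.Icc (0 : ℝ) 2 := by
        filter_upwards [hne, hsys.unb (max 1 C)] with ω h1 h2
        have hh1 : 1 ≤ ht (f ω) := (le_max_left _ _).trans h2
        have hh2 : C ≤ ht (f ω) := (le_max_right _ _).trans h2
        have hpos : 0 < ht (f ω) := by linarith
        have h3 : (Pi.single (e i) 1 : Fin M → k) ⬝ᵥ f ω ≠ 0 := by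
          rw [single_dotProduct, one_mul]
          exact h1 _
        have h4 := (hb (f ω) h3).2 {v} (Finset.singleton_subset_iff.2 hv)
        rw [Finset.sum_singleton, val_single] at h4
        simp only [hr]
        constructor
        · exact div_nonneg (vl_nonneg v _ (h1 _)) hpos.le
        · rw [div_le_iff₀ hpos]
          linarith
      have hK : Set.Icc (0 : ℝ) 2 ∈ U.map (r i v) := hev
      obtain ⟨l, _, hl⟩ := isCompact_Icc.ultrafilter_le_nhds' (U.map (r i v)) hK
      exact ⟨l, fun _ => hl⟩
    · exact ⟨0, fun h => absurd h hv⟩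
  choose L hL using hlim
  have hposev : ∀ᶠ ω in (U : Filter Ω), 0 < ht (f ω) := by
    filter_upwards [hsys.unb 1] with ω h
    linarith
  -- the limits satisfy the convexity relations
  have hconv : ∀ J : Fin (2 * n + 1) → Fin q, Function.Injective J → ∀ i,
      ∃ lam : Fin (2 * n + 1) → ℝ, (∀ j, 0 ≤ lam j) ∧ ∑ j, lam j = 1 ∧
        ∀ c : {v // v ∈ S}, L i c.1 = ∑ j, lam j * L (J j) c.1 := by
    intro J hJ i
    obtain ⟨lam, h0, h1, h2⟩ := hHUA k Ω M f S U A (Finset.univ.image e) hsys (2 * n + 1)
      (fun j => e (J j)) (he.comp hJ) (fun j => hmem _) (e i) (hmem i) (hIE J hJ (e i))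
    refine ⟨lam, h0, h1, ?_⟩
    rintro ⟨v, hv⟩
    have ht1 : Tendsto (fun ω => |r i v ω - ∑ j, lam j * r (J j) v ω|) U
        (𝓝 |L i v - ∑ j, lam j * L (J j) v|) := by
      apply Filter.Tendsto.abs
      apply (hL i v hv).sub
      apply tendsto_finsetSum
      intro j _
      exact (hL (J j) v hv).const_mul (lam j)
    have hle : ∀ η : ℝ, 0 < η → |L i v - ∑ j, lam j * L (J j) v| ≤ 0 + η := by
      intro η hη
      rw [zero_add]
      refine le_of_tendsto ht1 ?_
      filter_upwards [h2 v η hη, hposev] with ω h3 hpos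
      have e1 : r i v ω - ∑ j, lam j * r (J j) v ω =
          -(Real.log (absV v (f ω (e i))) - ∑ j, lam j * Real.log (absV v (f ω (e (J j))))) /
            ht (f ω) := by
        simp only [hr]
        rw [eq_div_iff hpos.ne', sub_mul, div_mul_cancel₀ _ hpos.ne', Finset.sum_mul]
        have e2 : ∑ j, lam j * (vl v (e (J j)) (f ω) / ht (f ω)) * ht (f ω) =
            Real.log (nrm v (f ω)) - ∑ j, lam j * Real.log (absV v (f ω (e (J j)))) := by
          have e3 : Real.log (nrm v (f ω)) = ∑ j, lam j * Real.log (nrm v (f ω)) := by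
            rw [← Finset.sum_mul, h1, one_mul]
          rw [e3, ← Finset.sum_sub_distrib]
          refine Finset.sum_congr rfl fun j _ => ?_
          rw [mul_assoc, div_mul_cancel₀ _ hpos.ne']
          unfold vl
          ring
        rw [e2]
        unfold vl
        ring
      rw [e1, abs_div, abs_neg, abs_of_pos hpos, div_le_iff₀ hpos]
      exact h3
    have h4 := le_of_forall_pos_le_add hle
    have h5 := abs_nonpos_iff.1 h4
    linarith
  obtain ⟨a, b, J, hJ, hab⟩ := hCVX q n {v // v ∈ S} (fun i c => L i c.1) hq hconv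
  -- equal limits give small heights
  have key : ∀ i i' : Fin q, (fun c : {v // v ∈ S} => L i c.1) = (fun c => L i' c.1) →
      LO U (fun ω => ht (f ω)) (fun ω => ht ![f ω (e i), f ω (e i')]) := by
    intro i i' hii η hη
    have hsum : Tendsto (fun ω => ∑ v ∈ S, |r i' v ω - r i v ω|) U (𝓝 0) := by
      have h1 : Tendsto (fun ω => ∑ v ∈ S, |r i' v ω - r i v ω|) U
          (𝓝 (∑ v ∈ S, |L i' v - L i v|)) := by
        apply tendsto_finsetSum
        intro v hv
        exact ((hL i' v hv).sub (hL i v hv)).abs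
      have h2 : ∑ v ∈ S, |L i' v - L i v| = 0 := by
        apply Finset.sum_eq_zero
        intro v hv
        have h3 := congrFun hii ⟨v, hv⟩
        simp only at h3
        rw [h3, sub_self, abs_zero]
      rwa [h2] at h1
    have hev := hsum.eventually (gt_mem_nhds (show (0 : ℝ) < η / 2 by linarith))
    filter_upwards [hev, hne, hposev, hsys.int (e i') (hmem i') (η / 2) (by linarith)] with
      ω h1 h2 hpos h3
    have h4 := ht_pair_le S (f ω) (e i) (e i') (h2 _) (h2 _)
    have h5 : ∑ v ∈ S, |vl v (e i') (f ω) - vl v (e i) (f ω)| ≤ η / 2 * ht (f ω) := by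
      have e1 : ∑ v ∈ S, |vl v (e i') (f ω) - vl v (e i) (f ω)| =
          (∑ v ∈ S, |r i' v ω - r i v ω|) * ht (f ω) := by
        rw [Finset.sum_mul]
        refine Finset.sum_congr rfl fun v _ => ?_
        simp only [hr]
        rw [← sub_div, abs_div, abs_of_pos hpos, div_mul_cancel₀ _ hpos.ne']
      rw [e1]
      exact mul_le_mul_of_nonneg_right h1.le hpos.le
    linarith
  refine ⟨a, b, J, hJ, fun j => ?_⟩
  rcases hab j with h | h
  · exact Or.inl (key _ _ h)
  · exact Or.inr (key _ _ h)

end Pool.Agent.Lib.MP_d0e829_nt.GP
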