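import Pool.Agent.Lib.MP_d0e829_nt.GP.SpecU
import Pool.Agent.Lib.MP_d0e829_nt.GP.CVA

/-! # Module CVB: limits along the ultrafilter, with an error -/

set_option autoImplicit false

open NumberField MvPolynomial Filter Topology
open Pool.Agent.Lib.MP_d0e829_nt.SS Pool.Agent.Lib.MP_d0e829_nt.SI

namespace Pool.Agent.Lib.MP_d0e829_nt.GP

open scoped Classical

open CVAM

theorem specCVB (hTRV : SS.SpecTRV) (hHUB : SpecHUB) (hCVQ : SpecCVQ) : SpecCVB := by
  intro q n hq ρ hρ
  obtain ⟨κ, hκ, hCV⟩ := hCVQ q n hq (ρ / 2) (by linarith)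
  refine ⟨κ, hκ, ?_⟩
  intro k _ _ Ω M f S U A e he b η₀ hη₀ hbκ hsys hIE
  have hmem : ∀ i : Fin q, e i ∈ Finset.univ.image e := fun i =>
    Finset.mem_image_of_mem e (Finset.mem_univ i)
  have hne : ∀ᶠ ω in (U : Filter Ω), ∀ a, f ω a ≠ 0 := by
    filter_upwards [hsys.mem] with ω hω using hsys.ne ω hω
  -- the ratios
  set r : Fin q → Place k → Ω → ℝ := fun i v ω => vl v (e i) (f ω) / ht (f ω) with hr
  have hlim : ∀ (i : Fin q) (v : Place k), ∃ l : ℝ, v ∈ S → Tendsto (r i v) U (𝓝 l) := by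
    intro i v
    by_cases hv : v ∈ S
    · obtain ⟨C, hC, hb⟩ := (hTRV k M).1 S (Pi.single (e i) 1)
      have hev : ∀ᶠ ω in (U : Filter Ω), r i v ω ∈ Set.Icc (0 : ℝ) 2 := by
        filter_upwards [hne, hsys.unb (max 1 C)] with ω h1 h2
        have hh1 : 1 ≤ ht (f ω) := (le_max_left _ _).trans h2
        have hh2 : C ≤ ht (f ω) := (le_max_right _ _).trans h2
        have hpos : 0 < ht (f ω) := by linarith
        have h3 : (Pi.single (e i) 1 : Fin M → k) ⬝ᵥ f ω ≠ 0 := by
          rw [single_dotProduct, one_mul]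
          exact h1 _
        have h4 := (hb (f ω) h3).2 {v} (Finset.singleton_subset_iff.2 hv)
        rw [Finset.sum_singleton, val_single] at h4
        simp only [hr]
        constructor
        · exact div_nonneg (vl_nonneg v _ (h1 _)) hpos.le
        · rw [div_le_iff₀ hpos]
          linarith
      have hK : Set.Icc (0 : ℝ) 2 ∈ U.map (r i v) := hev
      obtain ⟨l, _, hl⟩ := isCompact_Icc.ultrafilter_le_nhds' (U.map (r i v)) hK
      exact ⟨l, fun _ => hl⟩
    · exact ⟨0, fun h => absurd h hv⟩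
  choose L hL using hlim
  have hposev : ∀ᶠ ω in (U : Filter Ω), 0 < ht (f ω) := by
    filter_upwards [hsys.unb 1] with ω h
    linarith
  -- the limits are nonnegative
  have hL0 : ∀ (i : Fin q) (v : Place k), v ∈ S → 0 ≤ L i v := by
    intro i v hv
    refine ge_of_tendsto (hL i v hv) ?_
    filter_upwards [hne, hposev] with ω h1 hpos
    simp only [hr]
    exact div_nonneg (vl_nonneg v _ (h1 _)) hpos.le
  -- their sums are at most one
  have hL1 : ∀ i : Fin q, ∑ v ∈ S, L i v ≤ 1 := by
    intro i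
    obtain ⟨C, hC, hb⟩ := (hTRV k M).1 S (Pi.single (e i) 1)
    have ht1 : Tendsto (fun ω => ∑ v ∈ S, r i v ω) U (𝓝 (∑ v ∈ S, L i v)) := by
      apply tendsto_finsetSum
      intro v hv
      exact hL i v hv
    refine le_of_forall_pos_le_add fun ε hε => ?_
    refine le_of_tendsto ht1 ?_
    filter_upwards [hne, hsys.unb (max 1 (C / ε))] with ω h1 h2
    have hh1 : 1 ≤ ht (f ω) := (le_max_left _ _).trans h2
    have hh2 : C / ε ≤ ht (f ω) := (le_max_right _ _).trans h2
    have hpos : 0 < ht (f ω) := by linarith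
    have h3 : (Pi.single (e i) 1 : Fin M → k) ⬝ᵥ f ω ≠ 0 := by
      rw [single_dotProduct, one_mul]
      exact h1 _
    have h4 := (hb (f ω) h3).2 S (Finset.Subset.refl S)
    have h5 : ∑ v ∈ S, val v (Pi.single (e i) 1) (f ω) = ∑ v ∈ S, vl v (e i) (f ω) :=
      Finset.sum_congr rfl fun v _ => val_single v _ _
    rw [h5] at h4
    simp only [hr]
    rw [← Finset.sum_div, div_le_iff₀ hpos]
    have h6 : C ≤ ε * ht (f ω) := by
      rw [div_le_iff₀ hε] at hh2
      linarith
    linarith
  -- the limits satisfy the convexity relations up to an error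
  have hconv : ∀ J : Fin (2 * n + 1) → Fin q, Function.Injective J → ∀ i,
      ∃ lam : Fin (2 * n + 1) → ℝ, (∀ j, 0 ≤ lam j) ∧ ∑ j, lam j = 1 ∧
        ∑ c : {v // v ∈ S}, |L i c.1 - ∑ j, lam j * L (J j) c.1| ≤ κ := by
    intro J hJ i
    obtain ⟨lam, h0, h1, h2⟩ := hHUB k Ω M f S U A (Finset.univ.image e) η₀ hη₀ hsys (2 * n + 1) b
      (fun j => e (J j)) (he.comp hJ) (fun j => hmem _) (e i) (hmem i) (hIE J hJ (e i))
    refine ⟨lam, h0, h1, ?_⟩
    rw [Finset.sum_coe_sort S (fun v => |L i v - ∑ j, lam j * L (J j) v|)]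
    have ht1 : Tendsto (fun ω => ∑ v ∈ S, |r i v ω - ∑ j, lam j * r (J j) v ω|) U
        (𝓝 (∑ v ∈ S, |L i v - ∑ j, lam j * L (J j) v|)) := by
      apply tendsto_finsetSum
      intro v hv
      apply Filter.Tendsto.abs
      apply (hL i v hv).sub
      apply tendsto_finsetSum
      intro j _
      exact (hL (J j) v hv).const_mul (lam j)
    have hle : ∀ ε : ℝ, 0 < ε → ∑ v ∈ S, |L i v - ∑ j, lam j * L (J j) v| ≤
        4 * ((b : ℝ) + 1) ^ (2 * n + 3) * η₀ + ε := by
      intro ε hε
      refine le_of_tendsto ht1 ?_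
      filter_upwards [h2 S ε hε, hposev] with ω h3 hpos
      have e0 : ∑ v ∈ S, |r i v ω - ∑ j, lam j * r (J j) v ω| =
          (∑ v ∈ S, |Real.log (absV v (f ω (e i))) -
            ∑ j, lam j * Real.log (absV v (f ω (e (J j))))|) / ht (f ω) := by
        rw [Finset.sum_div]
        refine Finset.sum_congr rfl fun v _ => ?_
        have e1 : r i v ω - ∑ j, lam j * r (J j) v ω =
            -(Real.log (absV v (f ω (e i))) -
              ∑ j, lam j * Real.log (absV v (f ω (e (J j))))) / ht (f ω) := by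
          simp only [hr]
          rw [eq_div_iff hpos.ne', sub_mul, div_mul_cancel₀ _ hpos.ne', Finset.sum_mul]
          have e2 : ∑ j, lam j * (vl v (e (J j)) (f ω) / ht (f ω)) * ht (f ω) =
              Real.log (nrm v (f ω)) - ∑ j, lam j * Real.log (absV v (f ω (e (J j)))) := by
            have e3 : Real.log (nrm v (f ω)) = ∑ j, lam j * Real.log (nrm v (f ω)) := by
              rw [← Finset.sum_mul, h1, one_mul]
            rw [e3, ← Finset.sum_sub_distrib]
            refine Finset.sum_congr rfl fun j _ => ?_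
            rw [mul_assoc, div_mul_cancel₀ _ hpos.ne']
            unfold vl
            ring
          rw [e2]
          unfold vl
          ring
        rw [e1, abs_div, abs_neg, abs_of_pos hpos]
      rw [e0, div_le_iff₀ hpos]
      exact h3
    have h4 := le_of_forall_pos_le_add hle
    exact h4.trans hbκ.le
  obtain ⟨a, b', J, hJ, hab⟩ := hCV {v // v ∈ S} (fun i c => L i c.1)
    (fun i c => hL0 i c.1 c.2)
    (fun i => (Finset.sum_coe_sort S (fun v => L i v)).trans_le (hL1 i)) hconv
  -- close limits give small heights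
  have key : ∀ i i' : Fin q, ∑ c : {v // v ∈ S}, |L i c.1 - L i' c.1| ≤ ρ / 2 →
      ∀ᶠ ω in (U : Filter Ω), ht ![f ω (e i), f ω (e i')] ≤ (ρ + η₀) * ht (f ω) := by
    intro i i' hii
    rw [Finset.sum_coe_sort S (fun v => |L i v - L i' v|)] at hii
    have h1 : Tendsto (fun ω => ∑ v ∈ S, |r i v ω - r i' v ω|) U
        (𝓝 (∑ v ∈ S, |L i v - L i' v|)) := by
      apply tendsto_finsetSum
      intro v hv
      exact ((hL i v hv).sub (hL i' v hv)).abs
    have hev := h1.eventually (gt_mem_nhds (show ∑ v ∈ S, |L i v - L i' v| < ρ by linarith))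
    filter_upwards [hev, hne, hposev, hsys.int (e i') (hmem i')] with ω h1 h2 hpos h3
    have h4 := ht_pair_le S (f ω) (e i) (e i') (h2 _) (h2 _)
    have h5 : ∑ v ∈ S, |vl v (e i') (f ω) - vl v (e i) (f ω)| ≤ ρ * ht (f ω) := by
      have e1 : ∑ v ∈ S, |vl v (e i') (f ω) - vl v (e i) (f ω)| =
          (∑ v ∈ S, |r i v ω - r i' v ω|) * ht (f ω) := by
        rw [Finset.sum_mul]
        refine Finset.sum_congr rfl fun v _ => ?_
        simp only [hr]
        rw [← sub_div, abs_div, abs_of_pos hpos, div_mul_cancel₀ _ hpos.ne', abs_sub_comm]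
      rw [e1]
      exact mul_le_mul_of_nonneg_right h1.le hpos.le
    linarith
  refine ⟨a, b', J, hJ, fun j => ?_⟩
  rcases hab j with h | h
  · exact Or.inl (key _ _ h)
  · exact Or.inr (key _ _ h)

end Pool.Agent.Lib.MP_d0e829_nt.GP
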