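import Pool.Agent.Lib.MP_d0e829_nt.GP.SpecU

/-!
# CVQ: convex geometry with an error
-/

set_option autoImplicit false

open Finset

namespace Pool.Agent.Lib.MP_d0e829_nt.GP

namespace CVQM

/-- the parallel axis identity, with an error -/
lemma point {N : ℕ} (lam a : Fin N → ℝ) (hs : ∑ j, lam j = 1) (p w : ℝ) :
    ∑ j, lam j * (a j - w) ^ 2 = (p - w) ^ 2 + ∑ j, lam j * (a j - p) ^ 2 -
      2 * ((p - w) * (p - ∑ j, lam j * a j)) := by
  have key : ∀ z : ℝ, ∑ j, lam j * (a j - z) ^ 2 =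
      ∑ j, lam j * a j ^ 2 - 2 * z * ∑ j, lam j * a j + z ^ 2 := by
    intro z
    calc ∑ j, lam j * (a j - z) ^ 2
        = ∑ j, (lam j * a j ^ 2 - 2 * z * (lam j * a j) + z ^ 2 * lam j) :=
          sum_congr rfl (fun j _ => by ring)
      _ = ∑ j, lam j * a j ^ 2 - 2 * z * ∑ j, lam j * a j + z ^ 2 := by
          rw [sum_add_distrib, sum_sub_distrib, ← mul_sum, ← mul_sum, hs, mul_one]
  rw [key w, key p]
  ring

/-- an injective enumeration -/
lemma exJ {q : ℕ} (s : Finset (Fin q)) (N : ℕ) (h : N ≤ s.card) :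
    ∃ J : Fin N → Fin q, Function.Injective J ∧ ∀ j, J j ∈ s := by
  obtain ⟨t, ht, hc⟩ := Finset.exists_subset_card_eq h
  exact ⟨t.orderEmbOfFin hc, (t.orderEmbOfFin hc).injective,
    fun j => ht (t.orderEmbOfFin_mem hc j)⟩

/-- the combinatorial part -/
lemma comb {q n : ℕ} (hq : 3 * n + 1 ≤ q) (d : Fin q → Fin q → ℝ) (τ : ℝ) (hτ : 0 < τ)
    (hsymm : ∀ i i', d i i' = d i' i)
    (htri : ∀ i i' i'', d i i'' ≤ 2 * d i i' + 2 * d i' i'')
    (H : ∀ J : Fin (2 * n + 1) → Fin q, Function.Injective J → ∀ i₀ p,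
      ∃ lam : Fin (2 * n + 1) → ℝ, (∀ j, 0 ≤ lam j) ∧ ∑ j, lam j = 1 ∧
        d i₀ p + ∑ j, lam j * d (J j) p - τ ≤ ∑ j, lam j * d i₀ (J j)) :
    ∃ (a b : Fin q) (J : Fin (2 * n + 1) → Fin q), Function.Injective J ∧
      ∀ j, d (J j) a ≤ 4 * τ ∨ d (J j) b ≤ 4 * τ := by
  haveI : NeZero q := ⟨by omega⟩
  -- far points are good
  have h1 : ∀ i₀ : Fin q, ∃ p : Fin q, (∀ p', d i₀ p' ≤ d i₀ p) ∧
      ((univ : Finset (Fin q)).filter (fun i => τ < d i p)).card ≤ 2 * n := by
    intro i₀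
    obtain ⟨p, hp⟩ := Finite.exists_max (fun p => d i₀ p)
    refine ⟨p, hp, ?_⟩
    by_contra hcon
    obtain ⟨J, hJ, hmem⟩ := exJ ((univ : Finset (Fin q)).filter (fun i => τ < d i p)) (2 * n + 1)
      (by omega)
    obtain ⟨lam, hl, hs, hle⟩ := H J hJ i₀ p
    obtain ⟨j₀, hj₀⟩ := Finite.exists_min (fun j : Fin (2 * n + 1) => d (J j) p)
    have h2 : ∑ j, lam j * d i₀ (J j) ≤ d i₀ p := by
      calc ∑ j, lam j * d i₀ (J j) ≤ ∑ j, lam j * d i₀ p :=
            sum_le_sum fun j _ => mul_le_mul_of_nonneg_left (hp _) (hl j)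
        _ = d i₀ p := by rw [← sum_mul, hs, one_mul]
    have h3 : d (J j₀) p ≤ ∑ j, lam j * d (J j) p := by
      calc d (J j₀) p = ∑ j, lam j * d (J j₀) p := by rw [← sum_mul, hs, one_mul]
        _ ≤ ∑ j, lam j * d (J j) p :=
            sum_le_sum fun j _ => mul_le_mul_of_nonneg_left (hj₀ _) (hl j)
    have h4 := (mem_filter.mp (hmem j₀)).2
    linarith
  obtain ⟨p, -, hp2⟩ := h1 0
  obtain ⟨p', hp1', hp2'⟩ := h1 p
  by_cases hpp : d p p' ≤ 4 * τ
  · obtain ⟨J, hJ, -⟩ := exJ (univ : Finset (Fin q)) (2 * n + 1) (by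
      rw [card_univ, Fintype.card_fin]; omega)
    refine ⟨p, p, J, hJ, fun j => Or.inl ?_⟩
    rw [hsymm]
    exact (hp1' _).trans hpp
  · push Not at hpp
    have hA : ∀ z : Fin q, ((univ : Finset (Fin q)).filter (fun i => τ < d i z)).card ≤ 2 * n →
        q ≤ ((univ : Finset (Fin q)).filter (fun i => d i z ≤ τ)).card + 2 * n := by
      intro z hz
      have h5 := Finset.card_filter_add_card_filter_not (s := (univ : Finset (Fin q)))
        (fun i => d i z ≤ τ)
      have h6 : ((univ : Finset (Fin q)).filter (fun i => ¬ d i z ≤ τ)) =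
          ((univ : Finset (Fin q)).filter (fun i => τ < d i z)) :=
        filter_congr (fun i _ => not_le)
      rw [h6, card_univ, Fintype.card_fin] at h5
      omega
    have hdis : Disjoint ((univ : Finset (Fin q)).filter (fun i => d i p ≤ τ))
        ((univ : Finset (Fin q)).filter (fun i => d i p' ≤ τ)) := by
      rw [Finset.disjoint_left]
      intro i hi hi'
      have h5 := (mem_filter.mp hi).2
      have h6 := (mem_filter.mp hi').2
      have h7 := htri p i p'
      rw [hsymm p i] at h7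
      linarith
    have hcard := card_union_of_disjoint hdis
    obtain ⟨J, hJ, hmem⟩ := exJ (((univ : Finset (Fin q)).filter (fun i => d i p ≤ τ)) ∪
        ((univ : Finset (Fin q)).filter (fun i => d i p' ≤ τ))) (2 * n + 1) (by
      have h5 := hA p hp2
      have h6 := hA p' hp2'
      omega)
    refine ⟨p, p', J, hJ, fun j => ?_⟩
    rcases mem_union.mp (hmem j) with h5 | h5
    · left
      have := (mem_filter.mp h5).2
      linarith
    · right
      have := (mem_filter.mp h5).2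
      linarith

end CVQM

open CVQM in
theorem specCVQ : SpecCVQ := by
  intro q n hq ρ hρ
  have hq0 : (0 : ℝ) < q := by
    have : 0 < q := by omega
    exact_mod_cast this
  obtain ⟨τ, hτ⟩ : ∃ τ : ℝ, τ = ρ ^ 2 / (4 * q) := ⟨_, rfl⟩
  have hτ0 : 0 < τ := by rw [hτ]; positivity
  refine ⟨τ / 2, by positivity, ?_⟩
  intro I _ g hg0 hg1 hJ
  obtain ⟨μ, hμ⟩ : ∃ μ : I → ℝ, μ = fun c => ∑ i, g i c := ⟨_, rfl⟩
  have hμ0 : ∀ c, 0 ≤ μ c := by
    intro c
    rw [hμ]
    exact sum_nonneg fun i _ => hg0 i c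
  have hgμ : ∀ i c, g i c ≤ μ c := by
    intro i c
    rw [hμ]
    exact single_le_sum (f := fun i => g i c) (fun i _ => hg0 i c) (mem_univ i)
  obtain ⟨h, hh⟩ : ∃ h : Fin q → I → ℝ, h = fun i c => g i c / μ c := ⟨_, rfl⟩
  have hh0 : ∀ i c, 0 ≤ h i c := by
    intro i c
    rw [hh]
    exact div_nonneg (hg0 i c) (hμ0 c)
  have hh1 : ∀ i c, h i c ≤ 1 := by
    intro i c
    rw [hh]
    exact div_le_one_of_le₀ (hgμ i c) (hμ0 c)
  have hmul : ∀ i c, μ c * h i c = g i c := by
    intro i c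
    rw [hh]
    refine mul_div_cancel_of_imp' (fun h0 => ?_)
    exact le_antisymm (h0 ▸ hgμ i c) (hg0 i c)
  have hsum : ∑ c, μ c ≤ q := by
    rw [hμ, sum_comm]
    calc ∑ i : Fin q, ∑ c, g i c ≤ ∑ i : Fin q, (1 : ℝ) := sum_le_sum fun i _ => hg1 i
      _ = q := by simp
  obtain ⟨d, hd⟩ : ∃ d : Fin q → Fin q → ℝ, d = fun i i' => ∑ c, μ c * (h i c - h i' c) ^ 2 :=
    ⟨_, rfl⟩
  obtain ⟨a, b, J, hJi, hab⟩ := comb hq d τ hτ0
    (fun i i' => by
      rw [hd]
      exact sum_congr rfl (fun c _ => by ring))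
    (fun i i' i'' => by
      rw [hd]
      simp only
      rw [mul_sum, mul_sum, ← sum_add_distrib]
      refine sum_le_sum fun c _ => ?_
      have h1 : (h i c - h i'' c) ^ 2 ≤ 2 * (h i c - h i' c) ^ 2 + 2 * (h i' c - h i'' c) ^ 2 := by
        nlinarith [sq_nonneg ((h i c - h i' c) - (h i' c - h i'' c))]
      have h2 := mul_le_mul_of_nonneg_left h1 (hμ0 c)
      linarith)
    (by
      intro J hJi i₀ p
      obtain ⟨lam, hl, hs, hk⟩ := hJ J hJi p
      refine ⟨lam, hl, hs, ?_⟩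
      have h1 : ∀ c, μ c * (h p c - ∑ j, lam j * h (J j) c) =
          g p c - ∑ j, lam j * g (J j) c := by
        intro c
        rw [mul_sub, hmul, mul_sum]
        congr 1
        refine sum_congr rfl fun j _ => ?_
        rw [← hmul (J j) c]
        ring
      have h2 : ∀ (w : Fin q), ∑ j, lam j * d (J j) w =
          ∑ c, μ c * ∑ j, lam j * (h (J j) c - h w c) ^ 2 := by
        intro w
        rw [hd]
        simp only [mul_sum]
        rw [sum_comm]
        refine sum_congr rfl fun c _ => sum_congr rfl fun j _ => ?_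
        ring
      have hsy : ∀ i i', d i i' = d i' i := by
        intro i i'
        rw [hd]
        exact sum_congr rfl (fun c _ => by ring)
      have h3 : ∑ j, lam j * d i₀ (J j) = ∑ j, lam j * d (J j) i₀ :=
        sum_congr rfl fun j _ => by rw [hsy]
      rw [h3, h2 i₀, h2 p]
      have h4 : ∀ c, μ c * (h i₀ c - h p c) ^ 2 + μ c * ∑ j, lam j * (h (J j) c - h p c) ^ 2 -
          2 * |g p c - ∑ j, lam j * g (J j) c| ≤
          μ c * ∑ j, lam j * (h (J j) c - h i₀ c) ^ 2 := by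
        intro c
        rw [point lam (fun j => h (J j) c) hs (h p c) (h i₀ c)]
        have h5 : μ c * ((h p c - h i₀ c) * (h p c - ∑ j, lam j * h (J j) c)) ≤
            |g p c - ∑ j, lam j * g (J j) c| := by
          calc μ c * ((h p c - h i₀ c) * (h p c - ∑ j, lam j * h (J j) c))
              = (h p c - h i₀ c) * (g p c - ∑ j, lam j * g (J j) c) := by
                rw [← h1 c]; ring
            _ ≤ |(h p c - h i₀ c) * (g p c - ∑ j, lam j * g (J j) c)| := le_abs_self _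
            _ = |h p c - h i₀ c| * |g p c - ∑ j, lam j * g (J j) c| := abs_mul _ _
            _ ≤ 1 * |g p c - ∑ j, lam j * g (J j) c| := by
                refine mul_le_mul_of_nonneg_right ?_ (abs_nonneg _)
                rw [abs_le]
                constructor <;> linarith [hh0 p c, hh1 p c, hh0 i₀ c, hh1 i₀ c]
            _ = |g p c - ∑ j, lam j * g (J j) c| := one_mul _
        linarith
      have h5 := sum_le_sum (s := (univ : Finset I)) (fun c _ => h4 c)
      rw [sum_sub_distrib, sum_add_distrib, ← mul_sum] at h5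
      have h6 : d i₀ p = ∑ c, μ c * (h i₀ c - h p c) ^ 2 := by rw [hd]
      rw [h6]
      linarith)
  refine ⟨a, b, J, hJi, ?_⟩
  have hfin : ∀ i p, d i p ≤ 4 * τ → ∑ c, |g i c - g p c| ≤ ρ := by
    intro i p hip
    have h1 : (∑ c, |g i c - g p c|) ^ 2 ≤ (∑ c, μ c) * ∑ c, μ c * (h i c - h p c) ^ 2 := by
      refine Finset.sum_sq_le_sum_mul_sum_of_sq_eq_mul _ (fun c _ => hμ0 c)
        (fun c _ => mul_nonneg (hμ0 c) (sq_nonneg _)) (fun c _ => ?_)
      rw [sq_abs, ← hmul i c, ← hmul p c]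
      ring
    have h2 : ∑ c, μ c * (h i c - h p c) ^ 2 ≤ 4 * τ := by
      rw [hd] at hip
      exact hip
    have h3 : (∑ c, μ c) * ∑ c, μ c * (h i c - h p c) ^ 2 ≤ q * (4 * τ) :=
      mul_le_mul hsum h2 (sum_nonneg fun c _ => mul_nonneg (hμ0 c) (sq_nonneg _)) hq0.le
    have h4 : (q : ℝ) * (4 * τ) = ρ ^ 2 := by
      rw [hτ]
      field_simp
    rw [h4] at h3
    exact le_of_sq_le_sq (h1.trans h3) hρ.le
  intro j
  rcases hab j with h1 | h1
  · exact Or.inl (hfin _ _ h1)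
  · exact Or.inr (hfin _ _ h1)

end Pool.Agent.Lib.MP_d0e829_nt.GP
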