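import Pool.Agent.Lib.MP_d0e829_nt.GP.SpecU
import Pool.Agent.Lib.MP_d0e829_nt.SI.DET

/-!
# MP_d0e829_nt, GP, DEU: the integral equation with a bound for the degree

The proof is that of `SI/DET.lean` (helper94); new is the bound for the dimension of `Wm`.
-/

set_option autoImplicit false

open NumberField MvPolynomial
open Pool.Agent.Lib.MP_d0e829_nt.SS Pool.Agent.Lib.MP_d0e829_nt.SI

namespace Pool.Agent.Lib.MP_d0e829_nt.GP

open scoped Classical

namespace DEUM

open SI.DETM

/-- the exponents of degree `N` in `3 n` variables -/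
noncomputable def ex (n N : ℕ) : Finset ((Fin n × Fin 3) →₀ ℕ) :=
  (Finsupp.finite_of_degree_eq (σ := Fin n × Fin 3) N).toFinset

lemma mem_ex {n N : ℕ} {d : (Fin n × Fin 3) →₀ ℕ} : d ∈ ex n N ↔ d.degree = N := by
  unfold ex
  rw [Set.Finite.mem_toFinset]
  rfl

variable {F : Type} [Field F]

/-- the monomials of degree `N` -/
noncomputable def mon (F : Type) [Field F] (n N : ℕ) :
    Finset (MvPolynomial (Fin n × Fin 3) F) := (ex n N).image fun d => monomial d (1 : F)

lemma hom_le (n N : ℕ) : homogeneousSubmodule (Fin n × Fin 3) F N ≤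
    Submodule.span F (mon F n N : Set (MvPolynomial (Fin n × Fin 3) F)) := by
  intro p hp
  have hp' : p.IsHomogeneous N := hp
  rw [p.as_sum]
  refine Submodule.sum_mem _ fun d hd => ?_
  have hdeg : d.degree = N := by
    by_contra hne
    exact (mem_support_iff.1 hd) (hp'.coeff_eq_zero hne)
  have h1 : monomial d (coeff d p) = coeff d p • monomial d (1 : F) := by
    rw [smul_monomial, smul_eq_mul, mul_one]
  rw [h1]
  refine Submodule.smul_mem _ _ (Submodule.subset_span ?_)
  exact Finset.mem_coe.2 (Finset.mem_image.2 ⟨d, mem_ex.2 hdeg, rfl⟩)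

lemma finrank_Wm_le (n m : ℕ) :
    Module.finrank F (Wm (ph F n) m) ≤ (ex n (n * m)).card := by
  have hle : Wm (ph F n) m ≤
      Submodule.span F (mon F n (n * m) : Set (MvPolynomial (Fin n × Fin 3) F)) :=
    (Wm_le n m).trans (hom_le n (n * m))
  have hfd : FiniteDimensional F
      (Submodule.span F (mon F n (n * m) : Set (MvPolynomial (Fin n × Fin 3) F))) :=
    FiniteDimensional.span_finset F _
  calc Module.finrank F (Wm (ph F n) m)
      ≤ Module.finrank F (Submodule.span F
          (mon F n (n * m) : Set (MvPolynomial (Fin n × Fin 3) F))) := Submodule.finrank_mono hle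
    _ ≤ (mon F n (n * m)).card := finrank_span_finset_le_card _
    _ ≤ (ex n (n * m)).card := Finset.card_image_le

end DEUM

open DEUM SI.DETM in
theorem specDEU (hSEG : SI.SpecSEG) : SpecDEU := by
  refine ⟨fun n => (ex n (n * (2 * n))).card, ?_⟩
  intro F _ n ℓ hGP ξ
  obtain ⟨m, hm, hmn⟩ : ∃ m : ℕ, 2 * n ≤ m + 2 ∧ m = 2 * n := ⟨2 * n, by omega, rfl⟩
  have hfd := fin_dim (F := F) n m
  obtain ⟨z, hz, hz0⟩ := nonzero (F := F) n m
  have hnt : Nontrivial (Wm (ph F n) m) := ⟨⟨z, hz⟩, 0, fun h => hz0 (congrArg Subtype.val h)⟩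
  obtain ⟨D, hD⟩ : ∃ D : ℕ, D = Module.finrank F (Wm (ph F n) m) := ⟨_, rfl⟩
  have hDpos : 0 < D := by rw [hD]; exact Module.finrank_pos
  have hDle : D ≤ (ex n (n * (2 * n))).card := by
    rw [hD]
    have h := finrank_Wm_le (F := F) n m
    rw [hmn] at h ⊢
    exact h
  obtain ⟨e⟩ : Nonempty (Module.Basis (Fin D) F (Wm (ph F n) m)) := by
    rw [hD]; exact ⟨Module.finBasis F _⟩
  have hseg : ∀ a : Fin D, ∃ v : Fin (2 * n + 1) → MvPolynomial (Fin n × Fin 3) F,
      (∀ j, v j ∈ Wm (ph F n) m) ∧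
      (∏ t, ph F n t (lin ξ)) * (e a : MvPolynomial (Fin n × Fin 3) F) =
        ∑ j, (∏ t, ph F n t (lin (ℓ j))) * v j := fun a =>
    hSEG F (Fin (2 * n + 1)) ℓ _ n (ph F n) Finset.univ (by simp)
      (fun i _ j _ l _ => hGP i j l) m hm _ (mul_mem m ξ _ (e a).2)
  choose v hv hv' using hseg
  obtain ⟨c, hc⟩ : ∃ c : Fin (2 * n + 1) → Fin D → Fin D → F,
      c = fun j a b => e.repr ⟨v a j, hv a j⟩ b := ⟨_, rfl⟩
  have hvc : ∀ a j, v a j = ∑ b, C (c j a b) * (e b : MvPolynomial (Fin n × Fin 3) F) := by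
    intro a j
    have h := congrArg (Subtype.val) (e.sum_repr ⟨v a j, hv a j⟩)
    simp only [Submodule.coe_sum, Submodule.coe_smul] at h
    rw [← h, hc]
    exact Finset.sum_congr rfl fun b _ => by rw [smul_eq_C_mul]
  refine ⟨D, (NN c).det, hDpos, hDle, NN_det c, ?_, ?_⟩
  · rw [coeff_none _ D (NN_det c)]
    have h := NN_map c (A := F) 1 (fun _ => 0)
    rw [aeval_eq_eval] at h
    rw [h]
    trans Matrix.det (1 : Matrix (Fin D) (Fin D) F)
    · refine congrArg Matrix.det ?_
      ext a b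
      simp [Matrix.one_apply]
    · exact Matrix.det_one
  · intro L _ _ x
    rw [NN_map c]
    have hdet : Matrix.det (fun a b : Fin D => (if a = b then (∏ t, ph F n t (lin ξ)) else 0) -
        ∑ j, (∏ t, ph F n t (lin (ℓ j))) * algebraMap F _ (c j a b) :
        Matrix (Fin D) (Fin D) (MvPolynomial (Fin n × Fin 3) F)) = 0 := by
      rw [← Matrix.exists_mulVec_eq_zero_iff]
      refine ⟨fun b => (e b : MvPolynomial (Fin n × Fin 3) F), ?_, ?_⟩
      · intro h
        have h1 := congrFun h ⟨0, hDpos⟩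
        exact e.ne_zero ⟨0, hDpos⟩ (Subtype.ext h1)
      · ext1 a
        simp only [Matrix.mulVec, dotProduct, sub_mul, Finset.sum_sub_distrib, ite_mul, zero_mul,
          Finset.sum_ite_eq, Finset.mem_univ, if_true, Pi.zero_apply]
        rw [hv' a, sub_eq_zero]
        rw [Finset.sum_congr rfl fun j _ => by rw [hvc a j, Finset.mul_sum]]
        rw [Finset.sum_comm]
        refine Finset.sum_congr rfl fun b _ => ?_
        rw [Finset.sum_mul]
        refine Finset.sum_congr rfl fun j _ => ?_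
        rw [algebraMap_eq]
        ring
    have h2 := congrArg (th x) hdet
    rw [map_zero, AlgHom.map_det] at h2
    refine Eq.trans (congrArg Matrix.det ?_) h2
    ext a b
    simp only [AlgHom.mapMatrix_apply, Matrix.map_apply, map_sub, map_sum, map_mul, th_ph,
      AlgHom.commutes]
    by_cases hab : a = b
    · simp only [hab, if_true, th_ph]
    · simp only [hab, if_false, map_zero]

end Pool.Agent.Lib.MP_d0e829_nt.GP
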