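import Pool.Agent.Lib.MP_d0e829_nt.GP.Spec

/-!
# FNG: Theorem G, all points
-/

set_option autoImplicit false

open NumberField MvPolynomial
open Pool.Agent.Lib.MP_d0e829_nt.SS Pool.Agent.Lib.MP_d0e829_nt.SI

namespace Pool.Agent.Lib.MP_d0e829_nt.GP

open scoped Classical

namespace FNGM

/-- the vector of norms is not zero -/
lemma nv_ne {k : Type} [Field k] [NumberField k] {K : Type} [Field K] [NumberField K] [Algebra k K]
    {M : ℕ} (Ξ : Fin M → Fin 3 → k) (x : Fin 3 → K) (hΞ : ∀ a, evalForm (Ξ a) x ≠ 0) (a : Fin M) :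
    nv Ξ x ≠ 0 := by
  have hfd : FiniteDimensional k K := Module.Finite.right ℚ k K
  intro h
  have h1 : nv Ξ x a = 0 := by rw [h]; rfl
  unfold nv at h1
  exact hΞ a (Algebra.norm_eq_zero_iff.1 h1)

end FNGM

open FNGM in
/-- FNG -/
theorem specFNG (hLNX : SI.SpecLNX) (hPRX : SI.SpecPRX) (hMLB : SpecMLB) (hONE : SpecONE) :
    SpecFNG := by
  intro k _ _ S q δ ℓ hgp hq
  by_cases hδ : δ = 0
  · refine ⟨∅, 1, 0, by simp, one_pos, ?_⟩
    intro K _ _ _ x hfin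
    exfalso
    have hfd : FiniteDimensional k K := Module.Finite.right ℚ k K
    have : 0 < Module.finrank k K := Module.finrank_pos
    omega
  have hq4 : 4 ≤ q := by omega
  have hq4' : (4 : ℝ) ≤ q := by exact_mod_cast hq4
  obtain ⟨M, Ξ, e, hcfg⟩ := hLNX k q ℓ (by omega) hgp
  -- one degree at a time
  have hW : ∀ n : ℕ, ∃ (Z : Finset (Fin 3 → k)) (η C : ℝ), (∀ L ∈ Z, L ≠ 0) ∧ 0 < η ∧ η ≤ 1 ∧
      (1 ≤ n → n ≤ δ → ∀ (K : Type) [Field K] [NumberField K] [Algebra k K] (x : Fin 3 → K),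
        Module.finrank k K = n → (∀ a, evalForm (Ξ a) x ≠ 0) → (∀ L ∈ Z, evalForm L x ≠ 0) →
        ∑ v ∈ S, ∑ i, vl v (e i) (nv Ξ x) ≤ (q - η) * ht (nv Ξ x) + C) := by
    intro n
    by_cases hn : 1 ≤ n ∧ n ≤ δ
    · rcases Nat.lt_or_ge n 2 with h2 | h2
      · have hn1 : n = 1 := by omega
        subst hn1
        obtain ⟨Z, C, hZ0, hZ⟩ := hONE k q M ℓ Ξ e hcfg S
        refine ⟨Z, 1 / 2, C, hZ0, by norm_num, by norm_num, ?_⟩
        intro _ _ K _ _ _ x hfin hΞ hL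
        have h1 := hZ K x hfin hΞ hL
        have h0 : 0 ≤ ht (nv Ξ x) := ht_nonneg (nv_ne Ξ x hΞ (e ⟨0, by omega⟩))
        have h3 : (3 + 1 / 2 : ℝ) * ht (nv Ξ x) ≤ (q - 1 / 2) * ht (nv Ξ x) :=
          mul_le_mul_of_nonneg_right (by linarith) h0
        linarith
      · obtain ⟨η, C, hη, hC⟩ := hMLB k q M ℓ Ξ e hcfg n h2 (by omega) S
        refine ⟨∅, min η 1, C, by simp, lt_min hη one_pos, min_le_right _ _, ?_⟩
        intro _ _ K _ _ _ x hfin hΞ _
        have h1 := hC (nv Ξ x) ⟨K, inferInstance, inferInstance, inferInstance, x, hfin, hΞ, rfl⟩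
        have h0 : 0 ≤ ht (nv Ξ x) := ht_nonneg (nv_ne Ξ x hΞ (e ⟨0, by omega⟩))
        have h3 : (q - η) * ht (nv Ξ x) ≤ (q - min η 1) * ht (nv Ξ x) :=
          mul_le_mul_of_nonneg_right (by linarith [min_le_left η 1]) h0
        linarith
    · refine ⟨∅, 1, 0, by simp, one_pos, le_refl _, ?_⟩
      intro a b
      exact absurd ⟨a, b⟩ hn
  have hA : ∀ n : ℕ, ∃ (Z : Finset (Fin 3 → k)) (η C : ℝ), (∀ L ∈ Z, L ≠ 0) ∧ 0 < η ∧
      (1 ≤ n → n ≤ δ → ∀ (K : Type) [Field K] [NumberField K] [Algebra k K] (x : Fin 3 → K),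
        Module.finrank k K = n → (∀ a, evalForm (Ξ a) x ≠ 0) → (∀ L ∈ Z, evalForm L x ≠ 0) →
        proximity S ℓ x ≤ (q - η) * height x + C) := by
    intro n
    by_cases hn : 1 ≤ n ∧ n ≤ δ
    · obtain ⟨Z, η, C, hZ0, hη, hη1, hC⟩ := hW n
      obtain ⟨C2, hC2⟩ := hPRX k q M ℓ Ξ e hcfg n (by omega) S
      refine ⟨Z, η, ((q - η) * C2 + C + C2) / n, hZ0, hη, ?_⟩
      intro h1 h2 K _ _ _ x hfin hΞ hL
      have hw := hC h1 h2 K x hfin hΞ hL
      obtain ⟨ha, hb⟩ := hC2 K x hfin hΞ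
      have hn0 : (0 : ℝ) < n := by exact_mod_cast h1
      have hqη : 0 ≤ (q - η : ℝ) := by linarith
      have h3 := mul_le_mul_of_nonneg_left ha hqη
      have h4 : n * proximity S ℓ x ≤ n * ((q - η) * height x) + ((q - η) * C2 + C + C2) := by
        nlinarith [hw, hb, h3]
      have h5 : n * ((q - η) * height x + ((q - η) * C2 + C + C2) / n) =
          n * ((q - η) * height x) + ((q - η) * C2 + C + C2) := by
        field_simp
      rw [← h5] at h4
      exact le_of_mul_le_mul_left h4 hn0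
    · refine ⟨∅, 1, 0, by simp, one_pos, ?_⟩
      intro a b
      exact absurd ⟨a, b⟩ hn
  choose Zf ηf Cf hZ0 hη0 hZ1 using hA
  have hne : (Finset.Icc 1 δ).Nonempty := ⟨1, Finset.mem_Icc.mpr ⟨le_refl _, by omega⟩⟩
  refine ⟨(Finset.Icc 1 δ).biUnion Zf ∪ Finset.univ.image Ξ, (Finset.Icc 1 δ).inf' hne ηf,
    ∑ n ∈ Finset.Icc 1 δ, |Cf n|, ?_, ?_, ?_⟩
  · intro L hL
    rw [Finset.mem_union, Finset.mem_biUnion, Finset.mem_image] at hL
    rcases hL with ⟨n, _, h⟩ | ⟨a, _, rfl⟩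
    · exact hZ0 n L h
    · exact hcfg.ne a
  · exact (Finset.lt_inf'_iff hne).2 fun n _ => hη0 n
  · intro K _ _ _ x hfin hx hZ
    have hfd : FiniteDimensional k K := Module.Finite.right ℚ k K
    have hpos : 0 < Module.finrank k K := Module.finrank_pos
    have hmem : Module.finrank k K ∈ Finset.Icc 1 δ := Finset.mem_Icc.mpr ⟨hpos, hfin⟩
    have h1 := hZ1 _ hpos hfin K x rfl
      (fun a => hZ _ (Finset.mem_union_right _ (Finset.mem_image_of_mem _ (Finset.mem_univ a))))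
      (fun L hL => hZ L (Finset.mem_union_left _ (Finset.mem_biUnion.mpr ⟨_, hmem, hL⟩)))
    have hh : 0 ≤ height x := height_nonneg x hx
    have h2 : (Finset.Icc 1 δ).inf' hne ηf ≤ ηf (Module.finrank k K) := Finset.inf'_le _ hmem
    have h3 : (q - ηf (Module.finrank k K)) * height x ≤
        (q - (Finset.Icc 1 δ).inf' hne ηf) * height x :=
      mul_le_mul_of_nonneg_right (by linarith) hh
    have h4 : |Cf (Module.finrank k K)| ≤ ∑ n ∈ Finset.Icc 1 δ, |Cf n| :=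
      Finset.single_le_sum (f := fun n => |Cf n|) (fun _ _ => abs_nonneg _) hmem
    have h5 := le_abs_self (Cf (Module.finrank k K))
    linarith

end Pool.Agent.Lib.MP_d0e829_nt.GP
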