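import Pool.Agent.Lib.MP_d0e829_nt.GP.SpecU

/-!
# FNX: the gap theorem with a uniform constant, fixed number of lines
-/

set_option autoImplicit false

open NumberField MvPolynomial
open Pool.Agent.Lib.MP_d0e829_nt.SS Pool.Agent.Lib.MP_d0e829_nt.SI

namespace Pool.Agent.Lib.MP_d0e829_nt.GP

open scoped Classical

namespace FNXM

/-- the vector of norms is not zero -/
lemma nv_ne {k : Type} [Field k] [NumberField k] {K : Type} [Field K] [NumberField K] [Algebra k K]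
    {M : ℕ} (Ξ : Fin M → Fin 3 → k) (x : Fin 3 → K) (hΞ : ∀ a, evalForm (Ξ a) x ≠ 0) (a : Fin M) :
    nv Ξ x ≠ 0 := by
  have hfd : FiniteDimensional k K := Module.Finite.right ℚ k K
  intro h
  have h1 : nv Ξ x a = 0 := by rw [h]; rfl
  unfold nv at h1
  exact hΞ a (Algebra.norm_eq_zero_iff.1 h1)

/-- the constants of MLX, for all `n` -/
lemma exists_eta (hMLX : SpecMLX) (q n : ℕ) : ∃ η : ℝ, 0 < η ∧ (2 ≤ n → 3 * n + 1 ≤ q →
    ∀ (k : Type) [Field k] [NumberField k] (ℓ : Fin q → Fin 3 → k)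
    (Ξ : Fin (q + q ^ 4) → Fin 3 → k) (e : Fin q → Fin (q + q ^ 4)), Cfg ℓ Ξ e →
    ∀ S : Finset (Place k), ∃ C' : ℝ, ∀ f ∈ VV Ξ n,
      ∑ v ∈ S, ∑ i, vl v (e i) f ≤ (q - η) * ht f + C') := by
  by_cases h : 2 ≤ n ∧ 3 * n + 1 ≤ q
  · obtain ⟨η, h0, h1⟩ := hMLX q n h.1 h.2
    exact ⟨η, h0, fun _ _ => h1⟩
  · exact ⟨1, one_pos, fun h1 h2 => absurd ⟨h1, h2⟩ h⟩

end FNXM

open FNXM in
/-- FNX -/
theorem specFNX (hPRX : SI.SpecPRX) (hLNU : SpecLNU) (hMLX : SpecMLX) (hONE : SpecONE) :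
    SpecFNX := by
  intro q δ hq
  by_cases hδ : δ = 0
  · refine ⟨1, one_pos, ?_⟩
    intro k _ _ S ℓ _
    refine ⟨∅, 0, by simp, ?_⟩
    intro K _ _ _ x hfin
    exfalso
    have hfd : FiniteDimensional k K := Module.Finite.right ℚ k K
    have : 0 < Module.finrank k K := Module.finrank_pos
    omega
  have hq4 : 4 ≤ q := by omega
  have hq4' : (4 : ℝ) ≤ q := by exact_mod_cast hq4
  choose ηM hηM0 hηM1 using exists_eta hMLX q
  have hne : (Finset.Icc 1 δ).Nonempty := ⟨1, Finset.mem_Icc.mpr ⟨le_refl _, by omega⟩⟩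
  obtain ⟨η, hη⟩ : ∃ η : ℝ, η = (Finset.Icc 1 δ).inf' hne (fun n => min (ηM n) (1 / 2)) := ⟨_, rfl⟩
  have hη0 : 0 < η := by
    rw [hη]
    exact (Finset.lt_inf'_iff hne).2 fun n _ => lt_min (hηM0 n) (by norm_num)
  have hηle : ∀ n ∈ Finset.Icc 1 δ, η ≤ min (ηM n) (1 / 2) := by
    intro n hn
    rw [hη]
    exact Finset.inf'_le (fun n => min (ηM n) (1 / 2 : ℝ)) hn
  refine ⟨η, hη0, ?_⟩
  intro k _ _ S ℓ hgp
  obtain ⟨Ξ, e, hcfg⟩ := hLNU k q ℓ (by omega) hgp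
  -- one degree at a time
  have hW : ∀ n : ℕ, ∃ (Z : Finset (Fin 3 → k)) (C : ℝ), (∀ L ∈ Z, L ≠ 0) ∧
      (1 ≤ n → n ≤ δ → ∀ (K : Type) [Field K] [NumberField K] [Algebra k K] (x : Fin 3 → K),
        Module.finrank k K = n → (∀ a, evalForm (Ξ a) x ≠ 0) → (∀ L ∈ Z, evalForm L x ≠ 0) →
        ∑ v ∈ S, ∑ i, vl v (e i) (nv Ξ x) ≤ (q - η) * ht (nv Ξ x) + C) := by
    intro n
    by_cases hn : 1 ≤ n ∧ n ≤ δ
    · have hle := hηle n (Finset.mem_Icc.mpr hn)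
      rcases Nat.lt_or_ge n 2 with h2 | h2
      · have hn1 : n = 1 := by omega
        subst hn1
        obtain ⟨Z, C, hZ0, hZ⟩ := hONE k q (q + q ^ 4) ℓ Ξ e hcfg S
        refine ⟨Z, C, hZ0, ?_⟩
        intro _ _ K _ _ _ x hfin hΞ hL
        have h1 := hZ K x hfin hΞ hL
        have h0 : 0 ≤ ht (nv Ξ x) := ht_nonneg (nv_ne Ξ x hΞ (e ⟨0, by omega⟩))
        have h4 : η ≤ 1 / 2 := hle.trans (min_le_right _ _)
        have h3 : (3 + 1 / 2 : ℝ) * ht (nv Ξ x) ≤ (q - η) * ht (nv Ξ x) :=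
          mul_le_mul_of_nonneg_right (by linarith) h0
        linarith
      · obtain ⟨C, hC⟩ := hηM1 n h2 (by omega) k ℓ Ξ e hcfg S
        refine ⟨∅, C, by simp, ?_⟩
        intro _ _ K _ _ _ x hfin hΞ _
        have h1 := hC (nv Ξ x) ⟨K, inferInstance, inferInstance, inferInstance, x, hfin, hΞ, rfl⟩
        have h0 : 0 ≤ ht (nv Ξ x) := ht_nonneg (nv_ne Ξ x hΞ (e ⟨0, by omega⟩))
        have h4 : η ≤ ηM n := hle.trans (min_le_left _ _)
        have h3 : (q - ηM n) * ht (nv Ξ x) ≤ (q - η) * ht (nv Ξ x) :=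
          mul_le_mul_of_nonneg_right (by linarith) h0
        linarith
    · refine ⟨∅, 0, by simp, ?_⟩
      intro a b
      exact absurd ⟨a, b⟩ hn
  have hA : ∀ n : ℕ, ∃ (Z : Finset (Fin 3 → k)) (C : ℝ), (∀ L ∈ Z, L ≠ 0) ∧
      (1 ≤ n → n ≤ δ → ∀ (K : Type) [Field K] [NumberField K] [Algebra k K] (x : Fin 3 → K),
        Module.finrank k K = n → (∀ a, evalForm (Ξ a) x ≠ 0) → (∀ L ∈ Z, evalForm L x ≠ 0) →
        proximity S ℓ x ≤ (q - η) * height x + C) := by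
    intro n
    by_cases hn : 1 ≤ n ∧ n ≤ δ
    · obtain ⟨Z, C, hZ0, hC⟩ := hW n
      obtain ⟨C2, hC2⟩ := hPRX k q (q + q ^ 4) ℓ Ξ e hcfg n (by omega) S
      have hη1 : η ≤ 1 / 2 := (hηle n (Finset.mem_Icc.mpr hn)).trans (min_le_right _ _)
      refine ⟨Z, ((q - η) * C2 + C + C2) / n, hZ0, ?_⟩
      intro h1 h2 K _ _ _ x hfin hΞ hL
      have hw := hC h1 h2 K x hfin hΞ hL
      obtain ⟨ha, hb⟩ := hC2 K x hfin hΞ
      have hn0 : (0 : ℝ) < n := by exact_mod_cast h1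
      have hqη : 0 ≤ (q - η : ℝ) := by linarith
      have h3 := mul_le_mul_of_nonneg_left ha hqη
      have h4 : n * proximity S ℓ x ≤ n * ((q - η) * height x) + ((q - η) * C2 + C + C2) := by
        nlinarith [hw, hb, h3]
      have h5 : n * ((q - η) * height x + ((q - η) * C2 + C + C2) / n) =
          n * ((q - η) * height x) + ((q - η) * C2 + C + C2) := by
        field_simp
      rw [← h5] at h4
      exact le_of_mul_le_mul_left h4 hn0
    · refine ⟨∅, 0, by simp, ?_⟩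
      intro a b
      exact absurd ⟨a, b⟩ hn
  choose Zf Cf hZ0 hZ1 using hA
  refine ⟨(Finset.Icc 1 δ).biUnion Zf ∪ Finset.univ.image Ξ,
    ∑ n ∈ Finset.Icc 1 δ, |Cf n|, ?_, ?_⟩
  · intro L hL
    rw [Finset.mem_union, Finset.mem_biUnion, Finset.mem_image] at hL
    rcases hL with ⟨n, _, h⟩ | ⟨a, _, rfl⟩
    · exact hZ0 n L h
    · exact hcfg.ne a
  · intro K _ _ _ x hfin hx hZ
    have hfd : FiniteDimensional k K := Module.Finite.right ℚ k K
    have hpos : 0 < Module.finrank k K := Module.finrank_pos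
    have hmem : Module.finrank k K ∈ Finset.Icc 1 δ := Finset.mem_Icc.mpr ⟨hpos, hfin⟩
    have h1 := hZ1 _ hpos hfin K x rfl
      (fun a => hZ _ (Finset.mem_union_right _ (Finset.mem_image_of_mem _ (Finset.mem_univ a))))
      (fun L hL => hZ L (Finset.mem_union_left _ (Finset.mem_biUnion.mpr ⟨_, hmem, hL⟩)))
    have h4 : |Cf (Module.finrank k K)| ≤ ∑ n ∈ Finset.Icc 1 δ, |Cf n| :=
      Finset.single_le_sum (f := fun n => |Cf n|) (fun _ _ => abs_nonneg _) hmem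
    have h5 := le_abs_self (Cf (Module.finrank k K))
    linarith

end Pool.Agent.Lib.MP_d0e829_nt.GP
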