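import Pool.Agent.Lib.MP_d0e829_nt.GP.SpecU

/-!
# FNY: the gap theorem with a uniform constant
-/

set_option autoImplicit false

open NumberField MvPolynomial
open Pool.Agent.Lib.MP_d0e829_nt.SS Pool.Agent.Lib.MP_d0e829_nt.SI

namespace Pool.Agent.Lib.MP_d0e829_nt.GP

open scoped Classical

namespace FNYM

/-- the cyclic shift -/
def sh {q : ℕ} (hq : 0 < q) {r : ℕ} (s : Fin q) (j : Fin r) : Fin q :=
  ⟨((s : ℕ) + (j : ℕ)) % q, Nat.mod_lt _ hq⟩

lemma sh_inj_right {q : ℕ} (hq : 0 < q) {r : ℕ} (hr : r ≤ q) (s : Fin q) :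
    Function.Injective (fun j : Fin r => sh hq s j) := by
  intro j j' h
  have h1 : ((s : ℕ) + (j : ℕ)) % q = ((s : ℕ) + (j' : ℕ)) % q := congrArg Fin.val h
  have h2 : (j : ℕ) ≡ (j' : ℕ) [MOD q] := Nat.ModEq.add_left_cancel' (s : ℕ) h1
  exact Fin.ext (Nat.ModEq.eq_of_lt_of_lt h2 (lt_of_lt_of_le j.2 hr) (lt_of_lt_of_le j'.2 hr))

lemma sh_inj_left {q : ℕ} (hq : 0 < q) {r : ℕ} (j : Fin r) :
    Function.Injective (fun s : Fin q => sh hq s j) := by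
  intro s s' h
  have h1 : ((s : ℕ) + (j : ℕ)) % q = ((s' : ℕ) + (j : ℕ)) % q := congrArg Fin.val h
  have h2 : (s : ℕ) ≡ (s' : ℕ) [MOD q] := Nat.ModEq.add_right_cancel' (j : ℕ) h1
  exact Fin.ext (Nat.ModEq.eq_of_lt_of_lt h2 s.2 s'.2)

lemma sum_sh {q : ℕ} (hq : 0 < q) (r : ℕ) (p : Fin q → ℝ) :
    ∑ s : Fin q, ∑ j : Fin r, p (sh hq s j) = r * ∑ i, p i := by
  rw [Finset.sum_comm]
  have h : ∀ j : Fin r, ∑ s : Fin q, p (sh hq s j) = ∑ i, p i := by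
    intro j
    have hb : Function.Bijective (fun s : Fin q => sh hq s j) :=
      Finite.injective_iff_bijective.1 (sh_inj_left hq j)
    exact hb.sum_comp p
  rw [Finset.sum_congr rfl fun j _ => h j, Finset.sum_const, Finset.card_univ, Fintype.card_fin,
    nsmul_eq_mul]

end FNYM

open FNYM in
/-- FNY -/
theorem specFNY (hFNX : SpecFNX) : SpecFNY := by
  intro δ
  obtain ⟨η, hη, hX⟩ := hFNX (3 * δ + 1) δ le_rfl
  have hr : (0 : ℝ) < ((3 * δ + 1 : ℕ) : ℝ) := by exact_mod_cast Nat.succ_pos _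
  refine ⟨1 - η / ((3 * δ + 1 : ℕ) : ℝ), ?_, ?_⟩
  · have := div_pos hη hr
    linarith
  intro q hq k _ _ S ℓ hgp
  have hq0 : 0 < q := by omega
  have hG : ∀ s : Fin q, SI.GP (fun j : Fin (3 * δ + 1) => ℓ (sh hq0 s j)) := by
    intro s i j l hij hil hjl
    exact hgp _ _ _ (fun h => hij (sh_inj_right hq0 hq s h)) (fun h => hil (sh_inj_right hq0 hq s h))
      (fun h => hjl (sh_inj_right hq0 hq s h))
  choose Zf Cf hZ0 hZ using fun s : Fin q => hX k S (fun j : Fin (3 * δ + 1) => ℓ (sh hq0 s j)) (hG s)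
  refine ⟨Finset.univ.biUnion Zf, (∑ s, Cf s) / ((3 * δ + 1 : ℕ) : ℝ), ?_, ?_⟩
  · intro L hL
    obtain ⟨s, _, h⟩ := Finset.mem_biUnion.1 hL
    exact hZ0 s L h
  · intro K _ _ _ x hfin hx hL
    have h1 : ∀ s : Fin q, proximity S (fun j : Fin (3 * δ + 1) => ℓ (sh hq0 s j)) x ≤
        (((3 * δ + 1 : ℕ) : ℝ) - η) * height x + Cf s := by
      intro s
      exact hZ s K x hfin hx fun L h => hL L (Finset.mem_biUnion.2 ⟨s, Finset.mem_univ s, h⟩)
    have h2 : ∑ s : Fin q, proximity S (fun j : Fin (3 * δ + 1) => ℓ (sh hq0 s j)) x =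
        ((3 * δ + 1 : ℕ) : ℝ) * proximity S ℓ x := by
      unfold proximity
      exact sum_sh hq0 (3 * δ + 1) fun i => ∑ᶠ w ∈ placesAbove K S,
        Real.log (normV w x * normV w (fun j => algebraMap k K (ℓ i j)) / absV w (evalForm (ℓ i) x))
    have h3 : ∑ s : Fin q, proximity S (fun j : Fin (3 * δ + 1) => ℓ (sh hq0 s j)) x ≤
        ∑ s : Fin q, ((((3 * δ + 1 : ℕ) : ℝ) - η) * height x + Cf s) :=
      Finset.sum_le_sum fun s _ => h1 s
    rw [h2, Finset.sum_add_distrib, Finset.sum_const, Finset.card_univ, Fintype.card_fin,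
      nsmul_eq_mul] at h3
    have h4 : ((3 * δ + 1 : ℕ) : ℝ) * ((1 - η / ((3 * δ + 1 : ℕ) : ℝ)) * q * height x +
        (∑ s, Cf s) / ((3 * δ + 1 : ℕ) : ℝ)) =
        (q : ℝ) * ((((3 * δ + 1 : ℕ) : ℝ) - η) * height x) + ∑ s, Cf s := by
      field_simp
    rw [← h4] at h3
    exact le_of_mul_le_mul_left h3 hr

end Pool.Agent.Lib.MP_d0e829_nt.GP
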