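import Pool.Agent.Lib.MP_d0e829_nt.GP.Spec

/-!
# HGV: the height of the vector of the values of the forms `GG`
-/

set_option autoImplicit false

open NumberField MvPolynomial
open Pool.Agent.Lib.MP_d0e829_nt.SS Pool.Agent.Lib.MP_d0e829_nt.SI

namespace Pool.Agent.Lib.MP_d0e829_nt.GP

open scoped Classical

namespace HGVM

variable {k : Type} [Field k] [NumberField k]

lemma log_nrm_ge (v : Place k) (a d : k) (hd : d ≠ 0) :
    Real.log (absV v d) ≤ Real.log (nrm v ![a, d]) :=
  Real.log_le_log (absV_pos v hd) (absV_le_nrm v ![a, d] 1)

lemma vec_ne (a d : k) (hd : d ≠ 0) : (![a, d] : Fin 2 → k) ≠ 0 := by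
  intro h
  exact hd (congrFun h 1)

end HGVM

open HGVM in
theorem specHGV : SpecHGV := by
  intro k _ _ M s t N J τ f hs ht'
  have hd : ∀ j, (if τ j then f s else f t) ≠ 0 := by
    intro j
    split_ifs
    · exact hs
    · exact ht'
  have hst : f s * f t ≠ 0 := mul_ne_zero hs ht'
  have hgn : gv (GG s t J τ) f none = f s * f t := by
    simp [gv, GG]
  have hgs : ∀ j, gv (GG s t J τ) f (some j) = f (J j) * (if τ j then f t else f s) := by
    intro j
    by_cases h : τ j = true
    · simp [gv, GG, h]
    · simp [gv, GG, h]
  have hg0 : gv (GG s t J τ) f ≠ 0 := by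
    intro h
    exact hst (hgn.symm.trans (congrFun h none))
  have hloc : ∀ v : Place k, Real.log (nrm v (gv (GG s t J τ) f)) ≤
      Real.log (absV v (f s * f t)) + ∑ j, (Real.log (nrm v ![f (J j), if τ j then f s else f t])
        - Real.log (absV v (if τ j then f s else f t))) := by
    intro v
    have hT : ∀ j, 0 ≤ Real.log (nrm v ![f (J j), if τ j then f s else f t])
        - Real.log (absV v (if τ j then f s else f t)) :=
      fun j => sub_nonneg.2 (log_nrm_ge v _ _ (hd j))
    rw [Real.log_le_iff_le_exp (nrm_pos v hg0)]
    refine nrm_le v _ (Real.exp_pos _).le ?_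
    intro o
    cases o with
    | none =>
      rw [hgn]
      calc absV v (f s * f t) = Real.exp (Real.log (absV v (f s * f t))) :=
            (Real.exp_log (absV_pos v hst)).symm
        _ ≤ _ := Real.exp_le_exp.2 (le_add_of_nonneg_right (Finset.sum_nonneg fun j _ => hT j))
    | some j =>
      rw [hgs j, absV_mul]
      have he : (if τ j then f t else f s) ≠ 0 := by
        split_ifs
        · exact ht'
        · exact hs
      have hde : Real.log (absV v (if τ j then f s else f t)) +
          Real.log (absV v (if τ j then f t else f s)) = Real.log (absV v (f s * f t)) := by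
        rw [absV_mul, Real.log_mul (absV_pos v hs).ne' (absV_pos v ht').ne']
        by_cases h : τ j = true
        · simp [h]
        · simp [h, add_comm]
      have h1 : absV v (f (J j)) ≤ nrm v ![f (J j), if τ j then f s else f t] :=
        absV_le_nrm v ![f (J j), if τ j then f s else f t] 0
      have hn : 0 < nrm v ![f (J j), if τ j then f s else f t] := nrm_pos v (vec_ne _ _ (hd j))
      calc absV v (f (J j)) * absV v (if τ j then f t else f s)
          ≤ nrm v ![f (J j), if τ j then f s else f t] * absV v (if τ j then f t else f s) :=
            mul_le_mul_of_nonneg_right h1 (absV_nonneg v _)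
        _ = Real.exp (Real.log (nrm v ![f (J j), if τ j then f s else f t]) +
              Real.log (absV v (if τ j then f t else f s))) := by
            rw [Real.exp_add, Real.exp_log hn, Real.exp_log (absV_pos v he)]
        _ ≤ _ := by
            refine Real.exp_le_exp.2 ?_
            have h2 := Finset.single_le_sum (f := fun j =>
              Real.log (nrm v ![f (J j), if τ j then f s else f t])
                - Real.log (absV v (if τ j then f s else f t))) (fun i _ => hT i)
              (Finset.mem_univ j)
            linarith
  have hfs1 : (Function.support fun v : Place k => Real.log (absV v (f s * f t))).Finite :=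
    support_log_absV_finite hst
  have hfs2 : ∀ j, (Function.support fun v : Place k =>
      (Real.log (nrm v ![f (J j), if τ j then f s else f t])
        - Real.log (absV v (if τ j then f s else f t)))).Finite := by
    intro j
    refine ((support_log_nrm_finite (vec_ne (f (J j)) _ (hd j))).union
      (support_log_absV_finite (hd j))).subset ?_
    exact Function.support_sub _ _
  have hfs3 : (Function.support fun v : Place k => ∑ j,
      (Real.log (nrm v ![f (J j), if τ j then f s else f t])
        - Real.log (absV v (if τ j then f s else f t)))).Finite := by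
    refine (Set.finite_iUnion hfs2).subset ?_
    intro v hv
    by_contra hc
    apply hv
    refine Finset.sum_eq_zero fun j _ => ?_
    by_contra h
    exact hc (Set.mem_iUnion.2 ⟨j, h⟩)
  have hfs4 : (Function.support fun v : Place k => Real.log (absV v (f s * f t)) +
      ∑ j, (Real.log (nrm v ![f (J j), if τ j then f s else f t])
        - Real.log (absV v (if τ j then f s else f t)))).Finite :=
    (hfs1.union hfs3).subset (Function.support_add _ _)
  have h5 : ht (gv (GG s t J τ) f) ≤ ∑ᶠ v : Place k, (Real.log (absV v (f s * f t)) +
      ∑ j, (Real.log (nrm v ![f (J j), if τ j then f s else f t])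
        - Real.log (absV v (if τ j then f s else f t)))) :=
    SS.finsum_mono (support_log_nrm_finite hg0) hfs4 hloc
  refine h5.trans (le_of_eq ?_)
  rw [finsum_add_distrib hfs1 hfs3, product_formula hst, zero_add,
    finsum_sum_comm _ _ (fun j _ => hfs2 j)]
  refine Finset.sum_congr rfl fun j _ => ?_
  rw [finsum_sub_distrib (support_log_nrm_finite (vec_ne (f (J j)) _ (hd j)))
    (support_log_absV_finite (hd j)), product_formula (hd j), sub_zero]
  rfl

end Pool.Agent.Lib.MP_d0e829_nt.GP
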