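import Pool.Agent.Lib.MP_d0e829_nt.GP.Spec

/-! # Module HUA: the exponents are in the convex hull, almost units. -/

set_option autoImplicit false

open NumberField MvPolynomial
open Pool.Agent.Lib.MP_d0e829_nt.SS Pool.Agent.Lib.MP_d0e829_nt.SI

namespace Pool.Agent.Lib.MP_d0e829_nt.GP

open scoped Classical

namespace HUAM

variable {K : Type} [Field K] [NumberField K]

lemma absV_pow (v : Place K) (a : K) (n : ℕ) : absV v (a ^ n) = absV v a ^ n := by
  induction n with
  | zero => simp
  | succ n ih => rw [pow_succ, absV_mul, ih, pow_succ]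

lemma absV_prod {ι : Type} (v : Place K) (s : Finset ι) (g : ι → K) :
    absV v (∏ i ∈ s, g i) = ∏ i ∈ s, absV v (g i) := by
  induction s using Finset.induction_on with
  | empty => simp
  | insert a s ha ih => rw [Finset.prod_insert ha, Finset.prod_insert ha, absV_mul, ih]

lemma log_prod_pow {ι : Type} [Fintype ι] (v : Place K) (x : ι → K) (n : ι → ℕ)
    (hx : ∀ i, x i ≠ 0) :
    Real.log (absV v (∏ i, x i ^ n i)) = ∑ i, (n i : ℝ) * Real.log (absV v (x i)) := by
  rw [absV_prod, Real.log_prod (fun i _ => (absV_pos v (pow_ne_zero _ (hx i))).ne')]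
  refine Finset.sum_congr rfl fun i _ => ?_
  rw [absV_pow, Real.log_pow]

lemma prod_mapDomain {α β : Type} [Fintype α] [Fintype β] (ρ : α → β) (t : α →₀ ℕ) (y : β → K) :
    ∏ i, y i ^ (Finsupp.mapDomain ρ t) i = ∏ o, y (ρ o) ^ t o := by
  have h : eval y (monomial (Finsupp.mapDomain ρ t) (1 : K)) = eval (y ∘ ρ) (monomial t (1 : K)) := by
    rw [← rename_monomial, eval_rename]
  rw [eval_monomial, eval_monomial, one_mul, one_mul, Finsupp.prod_fintype _ _ (by simp),
    Finsupp.prod_fintype _ _ (by simp)] at h
  exact h

/-- A difference of two coordinates is at most the height. -/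
lemma diff_le {x : Fin 2 → K} {i j : Fin 2} (hi : x i ≠ 0) (hj : x j ≠ 0) (v : Place K) :
    Real.log (absV v (x i)) - Real.log (absV v (x j)) ≤ ht x := by
  have hx : x ≠ 0 := by
    intro h
    exact hi (congrFun h i)
  have s1 := support_log_nrm_finite (K := K) hx
  have s2 := support_log_absV_finite (K := K) hj
  have e : ht x = ∑ᶠ w : Place K, (Real.log (nrm w x) - Real.log (absV w (x j))) := by
    rw [finsum_sub_distrib s1 s2, product_formula hj, sub_zero]
    rfl
  have hnn : ∀ w : Place K, 0 ≤ Real.log (nrm w x) - Real.log (absV w (x j)) := by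
    intro w
    rw [sub_nonneg]
    exact Real.log_le_log (absV_pos w hj) (absV_le_nrm w x j)
  have hs : (Function.support fun w : Place K =>
      Real.log (nrm w x) - Real.log (absV w (x j))).Finite := by
    refine (s1.union s2).subset ?_
    intro w hw
    by_contra hcon
    simp only [Set.mem_union, Function.mem_support, not_or, not_not] at hcon
    apply hw
    simp only [hcon.1, hcon.2, sub_zero]
  have h1 := single_le_finsum v hs hnn
  rw [e]
  refine le_trans ?_ h1
  have h2 := Real.log_le_log (absV_pos v hi) (absV_le_nrm v x i)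
  linarith

/-- The difference of the logarithms of two nonzero numbers is at most the height. -/
lemma abs_diff_le {y z : K} (hy : y ≠ 0) (hz : z ≠ 0) (v : Place K) :
    |Real.log (absV v y) - Real.log (absV v z)| ≤ ht ![y, z] := by
  have h1 := diff_le (x := ![y, z]) (i := 0) (j := 1) hy hz v
  have h2 := diff_le (x := ![y, z]) (i := 1) (j := 0) hz hy v
  have e0 : (![y, z] : Fin 2 → K) 0 = y := rfl
  have e1 : (![y, z] : Fin 2 → K) 1 = z := rfl
  rw [e0, e1] at h1 h2
  rw [abs_le]
  constructor <;> linarith

end HUAM

open HUAM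

theorem specHUA (hUNA : SpecUNA) : SpecHUA := by
  intro k _ _ Ω M f S U A I hsys N J hJ hJI a ha hIE
  have hM0 : 0 < M := hsys.pos
  have hht : ∀ ω ∈ A, 0 ≤ ht (f ω) := by
    intro ω hω
    apply ht_nonneg
    intro h
    exact hsys.ne ω hω ⟨0, hM0⟩ (congrFun h _)
  by_cases haJ : ∃ j₀, J j₀ = a
  · obtain ⟨j₀, rfl⟩ := haJ
    refine ⟨Pi.single j₀ 1, ?_, ?_, ?_⟩
    · intro j
      by_cases h : j = j₀
      · subst h
        simp
      · rw [Pi.single_eq_of_ne h]
    · simp
    · intro v η hη
      filter_upwards [hsys.mem] with ω hω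
      rw [Finset.sum_eq_single j₀]
      · rw [Pi.single_eq_same, one_mul, sub_self, abs_zero]
        exact mul_nonneg hη.le (hht ω hω)
      · intro j _ hj
        rw [Pi.single_eq_of_ne hj, zero_mul]
      · intro h
        exact absurd (Finset.mem_univ j₀) h
  · push Not at haJ
    obtain ⟨D, P, hD, hP, hcoef, hvan⟩ := hIE
    set ρ : Option (Fin N) → Fin M := fun o => o.elim a J with hρdef
    have hρ : Function.Injective ρ := by
      intro o o' h
      cases o with
      | none =>
        cases o' with
        | none => rfl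
        | some j => exact absurd h.symm (haJ j)
      | some j =>
        cases o' with
        | none => exact absurd h (haJ j)
        | some j' => exact congrArg some (hJ h)
    have hρI : ∀ o, ρ o ∈ I := by
      intro o
      cases o with
      | none => exact ha
      | some j => exact hJI j
    have hQ : (rename ρ P).IsHomogeneous D := hP.rename_isHomogeneous
    have hQv : ∀ ω ∈ A, eval (f ω) (rename ρ P) = 0 := by
      intro ω hω
      rw [eval_rename]
      have h1 : f ω ∘ ρ = fun o : Option (Fin N) => o.elim (f ω a) (fun j => f ω (J j)) := by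
        funext o
        cases o <;> rfl
      rw [h1]
      exact hvan ω hω
    have hsupp : (rename ρ P).support = P.support.image (Finsupp.mapDomain ρ) :=
      support_rename_of_injective hρ
    have hsI : ∀ s ∈ (rename ρ P).support, ∀ i, s i ≠ 0 → i ∈ I := by
      intro s hs i hi
      rw [hsupp] at hs
      obtain ⟨t, _, rfl⟩ := Finset.mem_image.mp hs
      have h1 : i ∈ (Finsupp.mapDomain ρ t).support := Finsupp.mem_support_iff.mpr hi
      have h2 := Finsupp.mapDomain_support h1
      obtain ⟨o, _, rfl⟩ := Finset.mem_image.mp h2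
      exact hρI o
    have hαmem : Finsupp.single a D ∈ (rename ρ P).support := by
      rw [hsupp]
      refine Finset.mem_image.mpr ⟨Finsupp.single none D, ?_, Finsupp.mapDomain_single⟩
      rw [mem_support_iff, hcoef]
      exact one_ne_zero
    obtain ⟨β, hβ, hne, hLO⟩ := hUNA k Ω M f S U A I hsys D (rename ρ P) hQ hsI
      hQv (Finsupp.single a D) hαmem
    rw [hsupp] at hβ
    obtain ⟨t, ht', rfl⟩ := Finset.mem_image.mp hβ
    have hdeg : t none + ∑ j, t (some j) = D := by
      have h1 := hP (mem_support_iff.mp ht')
      rw [Finsupp.weight_apply, Finsupp.sum_fintype _ _ (by simp), Fintype.sum_option] at h1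
      simpa using h1
    set b : ℕ := ∑ j, t (some j) with hb
    have hbpos : 0 < b := by
      rcases Nat.eq_zero_or_pos b with h0 | h0
      · exfalso
        apply hne
        have h1 : t = Finsupp.single none D := by
          ext o
          cases o with
          | none =>
            rw [Finsupp.single_eq_same]
            omega
          | some j =>
            rw [Finsupp.single_eq_of_ne (by simp)]
            have h2 := (Finset.sum_eq_zero_iff.mp (hb.symm.trans h0)) j (Finset.mem_univ j)
            exact h2
        rw [h1, Finsupp.mapDomain_single]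
        rfl
      · exact h0
    have hbR : (0 : ℝ) < (b : ℝ) := by exact_mod_cast hbpos
    have hb1 : (1 : ℝ) ≤ (b : ℝ) := by exact_mod_cast hbpos
    have key : ∀ ω ∈ A, ∀ v : Place k, |(b : ℝ) * Real.log (absV v (f ω a)) -
        ∑ j, (t (some j) : ℝ) * Real.log (absV v (f ω (J j)))| ≤
        ht ![∏ i, f ω i ^ (Finsupp.single a D) i, ∏ i, f ω i ^ (Finsupp.mapDomain ρ t) i] := by
      intro ω hω v
      have hU1 := hsys.ne ω hω
      have hLHS : ∏ i, f ω i ^ (Finsupp.single a D) i = f ω a ^ D := by
        rw [Finset.prod_eq_single a]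
        · rw [Finsupp.single_eq_same]
        · intro i _ hi
          rw [Finsupp.single_eq_of_ne hi, pow_zero]
        · intro h
          exact absurd (Finset.mem_univ a) h
      have hx : ∀ o, f ω (ρ o) ≠ 0 := fun o => hU1 _
      have hy : ∏ i, f ω i ^ (Finsupp.single a D) i ≠ 0 :=
        Finset.prod_ne_zero_iff.mpr fun o _ => pow_ne_zero _ (hU1 o)
      have hz : ∏ i, f ω i ^ (Finsupp.mapDomain ρ t) i ≠ 0 :=
        Finset.prod_ne_zero_iff.mpr fun o _ => pow_ne_zero _ (hU1 o)
      refine le_trans (le_of_eq ?_) (abs_diff_le hy hz v)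
      congr 1
      rw [hLHS, prod_mapDomain, absV_pow, Real.log_pow,
        log_prod_pow v (fun o => f ω (ρ o)) (fun o => t o) hx, Fintype.sum_option]
      have h3 : (D : ℝ) = (t none : ℝ) + (b : ℝ) := by
        rw [← hdeg]
        push_cast
        ring
      rw [h3]
      have h4 : ρ none = a := rfl
      have h5 : ∀ j, ρ (some j) = J j := fun j => rfl
      simp only [h4, h5]
      ring
    refine ⟨fun j => (t (some j) : ℝ) / b, fun j => by positivity, ?_, ?_⟩
    · rw [← Finset.sum_div, hb]
      push_cast
      refine div_self ?_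
      have : ((∑ j, t (some j) : ℕ) : ℝ) ≠ 0 := by
        rw [← hb]
        exact hbR.ne'
      push_cast at this
      exact this
    · intro v η hη
      filter_upwards [hsys.mem, hLO η hη] with ω hω h1
      have h2 := key ω hω v
      have h3 : ∑ j, (t (some j) : ℝ) / b * Real.log (absV v (f ω (J j))) =
          (∑ j, (t (some j) : ℝ) * Real.log (absV v (f ω (J j)))) / b := by
        rw [Finset.sum_div]
        refine Finset.sum_congr rfl fun j _ => ?_
        ring
      rw [h3]
      have h4 : Real.log (absV v (f ω a)) -
          (∑ j, (t (some j) : ℝ) * Real.log (absV v (f ω (J j)))) / b =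
          ((b : ℝ) * Real.log (absV v (f ω a)) -
            ∑ j, (t (some j) : ℝ) * Real.log (absV v (f ω (J j)))) / b := by
        field_simp
      rw [h4, abs_div, abs_of_pos hbR]
      refine le_trans (div_le_self (abs_nonneg _) hb1) (h2.trans h1)

end Pool.Agent.Lib.MP_d0e829_nt.GP
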