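import Pool.Agent.Lib.MP_d0e829_nt.GP.SpecU
import Pool.Agent.Lib.MP_d0e829_nt.GP.HUA

/-! # Module HUB: the exponents are in the convex hull, with explicit constants. -/

set_option autoImplicit false

open NumberField MvPolynomial
open Pool.Agent.Lib.MP_d0e829_nt.SS Pool.Agent.Lib.MP_d0e829_nt.SI

namespace Pool.Agent.Lib.MP_d0e829_nt.GP

open scoped Classical

namespace HUBM

variable {K : Type} [Field K] [NumberField K]

/-- A finite sum of nonnegative local terms is at most the height. -/
lemma sum_le {x : Fin 2 → K} {j : Fin 2} (hj : x j ≠ 0) (S' : Finset (Place K)) :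
    ∑ v ∈ S', (Real.log (nrm v x) - Real.log (absV v (x j))) ≤ ht x := by
  have hx : x ≠ 0 := by
    intro h
    exact hj (congrFun h j)
  have s1 := support_log_nrm_finite (K := K) hx
  have s2 := support_log_absV_finite (K := K) hj
  have e : ht x = ∑ᶠ w : Place K, (Real.log (nrm w x) - Real.log (absV w (x j))) := by
    rw [finsum_sub_distrib s1 s2, product_formula hj, sub_zero]
    rfl
  have hnn : ∀ w : Place K, 0 ≤ Real.log (nrm w x) - Real.log (absV w (x j)) := by
    intro w
    rw [sub_nonneg]
    exact Real.log_le_log (absV_pos w hj) (absV_le_nrm w x j)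
  have hs : (Function.support fun w : Place K =>
      Real.log (nrm w x) - Real.log (absV w (x j))).Finite := by
    refine (s1.union s2).subset ?_
    intro w hw
    by_contra hcon
    simp only [Set.mem_union, Function.mem_support, not_or, not_not] at hcon
    apply hw
    simp only [hcon.1, hcon.2, sub_zero]
  have h1 : (Function.support fun w : Place K =>
      Real.log (nrm w x) - Real.log (absV w (x j))) ⊆ ((S' ∪ hs.toFinset : Finset (Place K)) :
        Set (Place K)) := by
    intro w hw
    rw [Finset.coe_union]
    exact Or.inr (hs.mem_toFinset.2 hw)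
  rw [e, finsum_eq_sum_of_support_subset _ h1]
  exact Finset.sum_le_sum_of_subset_of_nonneg Finset.subset_union_left fun w _ _ => hnn w

/-- The sum of the absolute differences of the logarithms is at most twice the height. -/
lemma sum_abs_le {y z : K} (hy : y ≠ 0) (hz : z ≠ 0) (S' : Finset (Place K)) :
    ∑ v ∈ S', |Real.log (absV v y) - Real.log (absV v z)| ≤ 2 * ht ![y, z] := by
  have h1 := sum_le (x := ![y, z]) (j := 0) hy S'
  have h2 := sum_le (x := ![y, z]) (j := 1) hz S'
  have e0 : (![y, z] : Fin 2 → K) 0 = y := rfl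
  have e1 : (![y, z] : Fin 2 → K) 1 = z := rfl
  rw [e0] at h1
  rw [e1] at h2
  have h3 : ∑ v ∈ S', |Real.log (absV v y) - Real.log (absV v z)| ≤
      ∑ v ∈ S', ((Real.log (nrm v ![y, z]) - Real.log (absV v y)) +
        (Real.log (nrm v ![y, z]) - Real.log (absV v z))) := by
    refine Finset.sum_le_sum fun v _ => ?_
    have h4 := Real.log_le_log (absV_pos v hy) (absV_le_nrm v ![y, z] 0)
    have h5 := Real.log_le_log (absV_pos v hz) (absV_le_nrm v ![y, z] 1)
    rw [abs_le]
    constructor <;> linarith
  rw [Finset.sum_add_distrib] at h3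
  linarith

/-- The number of the monomials of a form of degree at most `b` in `N + 1` variables. -/
lemma card_support_le {k : Type} [Field k] {N D b : ℕ} (hD : D ≤ b)
    (P : MvPolynomial (Option (Fin N)) k) (hP : P.IsHomogeneous D) :
    P.support.card ≤ (b + 1) ^ (N + 1) := by
  have h1 : Fintype.card (Option (Fin N) → Fin (b + 1)) = (b + 1) ^ (N + 1) := by
    simp
  rw [← h1, ← Finset.card_univ]
  have hle : ∀ t ∈ P.support, ∀ o, t o ≤ b := by
    intro t ht o
    have h2 := hP (mem_support_iff.mp ht)
    rw [Finsupp.weight_apply, Finsupp.sum_fintype _ _ (by simp)] at h2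
    have h3 : t o • (1 : Option (Fin N) → ℕ) o ≤ ∑ i, t i • (1 : Option (Fin N) → ℕ) i :=
      Finset.single_le_sum (f := fun i => t i • (1 : Option (Fin N) → ℕ) i)
        (fun _ _ => Nat.zero_le _) (Finset.mem_univ o)
    have h4 : t o • (1 : Option (Fin N) → ℕ) o = t o := by simp
    rw [h4, h2] at h3
    exact h3.trans hD
  refine Finset.card_le_card_of_injOn
    (fun t o => (⟨min (t o) b, by omega⟩ : Fin (b + 1))) (fun _ _ => Finset.mem_univ _) ?_
  intro t ht t' ht' h
  ext o
  have h5 := congrArg Fin.val (congrFun h o)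
  have h6 := hle t ht o
  have h7 := hle t' ht' o
  simp only at h5
  omega

end HUBM

open HUAM HUBM

theorem specHUB (hUNB : SpecUNB) : SpecHUB := by
  intro k _ _ Ω M f S U A I η₀ hη₀ hsys N b₀ J hJ hJI a ha hIE
  have hM0 : 0 < M := hsys.pos
  have hht : ∀ ω ∈ A, 0 ≤ ht (f ω) := by
    intro ω hω
    apply ht_nonneg
    intro h
    exact hsys.ne ω hω ⟨0, hM0⟩ (congrFun h _)
  by_cases haJ : ∃ j₀, J j₀ = a
  · obtain ⟨j₀, rfl⟩ := haJ
    refine ⟨Pi.single j₀ 1, ?_, ?_, ?_⟩
    · intro j
      by_cases h : j = j₀
      · subst h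
        simp
      · rw [Pi.single_eq_of_ne h]
    · simp
    · intro S' ε hε
      filter_upwards [hsys.mem] with ω hω
      have h0 : ∀ v ∈ S', |Real.log (absV v (f ω (J j₀))) -
          ∑ j, (Pi.single j₀ (1 : ℝ) : Fin N → ℝ) j * Real.log (absV v (f ω (J j)))| = 0 := by
        intro v _
        rw [Finset.sum_eq_single j₀]
        · rw [Pi.single_eq_same, one_mul, sub_self, abs_zero]
        · intro j _ hj
          rw [Pi.single_eq_of_ne hj, zero_mul]
        · intro h
          exact absurd (Finset.mem_univ j₀) h
      rw [Finset.sum_eq_zero h0]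
      exact mul_nonneg (by positivity) (hht ω hω)
  · push Not at haJ
    obtain ⟨D, P, hD, hDb, hP, hcoef, hvan⟩ := hIE
    set ρ : Option (Fin N) → Fin M := fun o => o.elim a J with hρdef
    have hρ : Function.Injective ρ := by
      intro o o' h
      cases o with
      | none =>
        cases o' with
        | none => rfl
        | some j => exact absurd h.symm (haJ j)
      | some j =>
        cases o' with
        | none => exact absurd h (haJ j)
        | some j' => exact congrArg some (hJ h)
    have hρI : ∀ o, ρ o ∈ I := by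
      intro o
      cases o with
      | none => exact ha
      | some j => exact hJI j
    have hQ : (rename ρ P).IsHomogeneous D := hP.rename_isHomogeneous
    have hQv : ∀ ω ∈ A, eval (f ω) (rename ρ P) = 0 := by
      intro ω hω
      rw [eval_rename]
      have h1 : f ω ∘ ρ = fun o : Option (Fin N) => o.elim (f ω a) (fun j => f ω (J j)) := by
        funext o
        cases o <;> rfl
      rw [h1]
      exact hvan ω hω
    have hsupp : (rename ρ P).support = P.support.image (Finsupp.mapDomain ρ) :=
      support_rename_of_injective hρ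
    have hcard : (rename ρ P).support.card ≤ (b₀ + 1) ^ (N + 1) := by
      rw [hsupp]
      exact Finset.card_image_le.trans (card_support_le hDb P hP)
    have hsI : ∀ s ∈ (rename ρ P).support, ∀ i, s i ≠ 0 → i ∈ I := by
      intro s hs i hi
      rw [hsupp] at hs
      obtain ⟨t, _, rfl⟩ := Finset.mem_image.mp hs
      have h1 : i ∈ (Finsupp.mapDomain ρ t).support := Finsupp.mem_support_iff.mpr hi
      have h2 := Finsupp.mapDomain_support h1
      obtain ⟨o, _, rfl⟩ := Finset.mem_image.mp h2
      exact hρI o
    have hαmem : Finsupp.single a D ∈ (rename ρ P).support := by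
      rw [hsupp]
      refine Finset.mem_image.mpr ⟨Finsupp.single none D, ?_, Finsupp.mapDomain_single⟩
      rw [mem_support_iff, hcoef]
      exact one_ne_zero
    obtain ⟨β, hβ, hne, hLO⟩ := hUNB k Ω M f S U A I η₀ hη₀ hsys D (rename ρ P) hQ hsI
      hQv (Finsupp.single a D) hαmem
    rw [hsupp] at hβ
    obtain ⟨t, ht', rfl⟩ := Finset.mem_image.mp hβ
    have hdeg : t none + ∑ j, t (some j) = D := by
      have h1 := hP (mem_support_iff.mp ht')
      rw [Finsupp.weight_apply, Finsupp.sum_fintype _ _ (by simp), Fintype.sum_option] at h1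
      simpa using h1
    set b : ℕ := ∑ j, t (some j) with hb
    have hbpos : 0 < b := by
      rcases Nat.eq_zero_or_pos b with h0 | h0
      · exfalso
        apply hne
        have h1 : t = Finsupp.single none D := by
          ext o
          cases o with
          | none =>
            rw [Finsupp.single_eq_same]
            omega
          | some j =>
            rw [Finsupp.single_eq_of_ne (by simp)]
            have h2 := (Finset.sum_eq_zero_iff.mp (hb.symm.trans h0)) j (Finset.mem_univ j)
            exact h2
        rw [h1, Finsupp.mapDomain_single]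
        rfl
      · exact h0
    have hbR : (0 : ℝ) < (b : ℝ) := by exact_mod_cast hbpos
    have hb1 : (1 : ℝ) ≤ (b : ℝ) := by exact_mod_cast hbpos
    have key : ∀ ω ∈ A, ∀ S' : Finset (Place k), ∑ v ∈ S', |(b : ℝ) * Real.log (absV v (f ω a)) -
        ∑ j, (t (some j) : ℝ) * Real.log (absV v (f ω (J j)))| ≤
        2 * ht ![∏ i, f ω i ^ (Finsupp.single a D) i,
          ∏ i, f ω i ^ (Finsupp.mapDomain ρ t) i] := by
      intro ω hω S'
      have hU1 := hsys.ne ω hω
      have hLHS : ∏ i, f ω i ^ (Finsupp.single a D) i = f ω a ^ D := by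
        rw [Finset.prod_eq_single a]
        · rw [Finsupp.single_eq_same]
        · intro i _ hi
          rw [Finsupp.single_eq_of_ne hi, pow_zero]
        · intro h
          exact absurd (Finset.mem_univ a) h
      have hx : ∀ o, f ω (ρ o) ≠ 0 := fun o => hU1 _
      have hy : ∏ i, f ω i ^ (Finsupp.single a D) i ≠ 0 :=
        Finset.prod_ne_zero_iff.mpr fun o _ => pow_ne_zero _ (hU1 o)
      have hz : ∏ i, f ω i ^ (Finsupp.mapDomain ρ t) i ≠ 0 :=
        Finset.prod_ne_zero_iff.mpr fun o _ => pow_ne_zero _ (hU1 o)
      refine le_trans (le_of_eq ?_) (sum_abs_le hy hz S')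
      refine Finset.sum_congr rfl fun v _ => ?_
      congr 1
      rw [hLHS, prod_mapDomain, absV_pow, Real.log_pow,
        log_prod_pow v (fun o => f ω (ρ o)) (fun o => t o) hx, Fintype.sum_option]
      have h3 : (D : ℝ) = (t none : ℝ) + (b : ℝ) := by
        rw [← hdeg]
        push_cast
        ring
      rw [h3]
      have h4 : ρ none = a := rfl
      have h5 : ∀ j, ρ (some j) = J j := fun j => rfl
      simp only [h4, h5]
      ring
    refine ⟨fun j => (t (some j) : ℝ) / b, fun j => by positivity, ?_, ?_⟩
    · rw [← Finset.sum_div, hb]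
      push_cast
      refine div_self ?_
      have : ((∑ j, t (some j) : ℕ) : ℝ) ≠ 0 := by
        rw [← hb]
        exact hbR.ne'
      push_cast at this
      exact this
    · intro S' ε hε
      filter_upwards [hsys.mem, hLO (ε / 2) (by positivity)] with ω hω h1
      have h2 := key ω hω S'
      have h5 : ∑ v ∈ S', |Real.log (absV v (f ω a)) -
          ∑ j, (t (some j) : ℝ) / b * Real.log (absV v (f ω (J j)))| ≤
          ∑ v ∈ S', |(b : ℝ) * Real.log (absV v (f ω a)) -
            ∑ j, (t (some j) : ℝ) * Real.log (absV v (f ω (J j)))| := by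
        refine Finset.sum_le_sum fun v _ => ?_
        have h3 : ∑ j, (t (some j) : ℝ) / b * Real.log (absV v (f ω (J j))) =
            (∑ j, (t (some j) : ℝ) * Real.log (absV v (f ω (J j)))) / b := by
          rw [Finset.sum_div]
          refine Finset.sum_congr rfl fun j _ => ?_
          ring
        rw [h3]
        have h4 : Real.log (absV v (f ω a)) -
            (∑ j, (t (some j) : ℝ) * Real.log (absV v (f ω (J j)))) / b =
            ((b : ℝ) * Real.log (absV v (f ω a)) -
              ∑ j, (t (some j) : ℝ) * Real.log (absV v (f ω (J j)))) / b := by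
          field_simp
        rw [h4, abs_div, abs_of_pos hbR]
        exact div_le_self (abs_nonneg _) hb1
      have hcardR : ((rename ρ P).support.card : ℝ) ≤ ((b₀ : ℝ) + 1) ^ (N + 1) := by
        exact_mod_cast hcard
      have hDR : (D : ℝ) ≤ (b₀ : ℝ) + 1 := by
        have : (D : ℝ) ≤ (b₀ : ℝ) := by exact_mod_cast hDb
        linarith
      have hprod : ((rename ρ P).support.card : ℝ) * D ≤ ((b₀ : ℝ) + 1) ^ (N + 2) := by
        rw [pow_succ ((b₀ : ℝ) + 1) (N + 1)]
        exact mul_le_mul hcardR hDR (Nat.cast_nonneg _) (by positivity)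
      have h6 : 2 * ((2 * ((rename ρ P).support.card : ℝ) * D * η₀ + ε / 2) * ht (f ω)) ≤
          (4 * ((b₀ : ℝ) + 1) ^ (N + 2) * η₀ + ε) * ht (f ω) := by
        rw [← mul_assoc]
        refine mul_le_mul_of_nonneg_right ?_ (hht ω hω)
        have h7 : ((rename ρ P).support.card : ℝ) * D * η₀ ≤ ((b₀ : ℝ) + 1) ^ (N + 2) * η₀ :=
          mul_le_mul_of_nonneg_right hprod hη₀
        nlinarith [h7]
      calc _ ≤ _ := h5
        _ ≤ _ := h2
        _ ≤ 2 * ((2 * ((rename ρ P).support.card : ℝ) * D * η₀ + ε / 2) * ht (f ω)) :=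
          mul_le_mul_of_nonneg_left h1 (by norm_num)
        _ ≤ _ := h6

end Pool.Agent.Lib.MP_d0e829_nt.GP
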