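import Pool.Agent.Lib.MP_d0e829_nt.GP.SpecU

/-! # Module LNU: auxiliary lines, their number depends only on the number of the lines. -/

set_option autoImplicit false

open NumberField MvPolynomial
open Pool.Agent.Lib.MP_d0e829_nt.SS Pool.Agent.Lib.MP_d0e829_nt.SI

namespace Pool.Agent.Lib.MP_d0e829_nt.GP

open scoped Classical

theorem specLNU : SpecLNU := by
  intro k _ q ℓ hq hgp
  have hli : ∀ a b : Fin q, a ≠ b → LinearIndependent k ![ℓ a, ℓ b] := by
    intro a b hab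
    obtain ⟨c, hca, hcb⟩ := exists_third hq a b
    exact pair_of_triple (hgp a b c hab hca.symm hcb.symm)
  have hne : ∀ a : Fin q, ℓ a ≠ 0 := by
    intro a
    obtain ⟨c, hca, -⟩ := exists_third hq a a
    have h := (hli a c hca.symm).ne_zero 0
    simpa using h
  have hM : ∀ t : Fin q × Fin q × Fin q × Fin q, ∃ M : Fin 3 → k, M ≠ 0 ∧
      (t.1 ≠ t.2.1 → t.2.2.1 ≠ t.2.2.2 → ∃ α β γ η : k,
        M = α • ℓ t.1 + β • ℓ t.2.1 ∧ M = γ • ℓ t.2.2.1 + η • ℓ t.2.2.2) := by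
    rintro ⟨a, b, c, d⟩
    by_cases hab : a ≠ b ∧ c ≠ d
    · obtain ⟨M, α, β, γ, η, hM0, h1, h2⟩ := exists_common (hli a b hab.1) (hli c d hab.2)
      exact ⟨M, hM0, fun _ _ => ⟨α, β, γ, η, h1, h2⟩⟩
    · refine ⟨ℓ a, hne a, fun h1 h2 => ?_⟩
      exact absurd ⟨h1, h2⟩ hab
  choose M hM0 hMc using hM
  have hcard : Fintype.card (Fin q ⊕ (Fin q × Fin q × Fin q × Fin q)) = q + q ^ 4 := by
    simp only [Fintype.card_sum, Fintype.card_prod, Fintype.card_fin]
    ring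
  let E : (Fin q ⊕ (Fin q × Fin q × Fin q × Fin q)) ≃ Fin (q + q ^ 4) :=
    Fintype.equivFinOfCardEq hcard
  let Ξ : Fin (q + q ^ 4) → Fin 3 → k := fun a => Sum.elim ℓ M (E.symm a)
  refine ⟨Ξ, fun i => E (Sum.inl i), ⟨hq, hgp, ?_, ?_, ?_, ?_⟩⟩
  · intro i j hij
    exact Sum.inl_injective (E.injective hij)
  · intro i
    change Sum.elim ℓ M (E.symm (E (Sum.inl i))) = ℓ i
    rw [Equiv.symm_apply_apply]
    rfl
  · intro a
    change Sum.elim ℓ M (E.symm a) ≠ 0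
    rcases E.symm a with i | t
    · exact hne i
    · exact hM0 t
  · intro a b c d hab hcd
    obtain ⟨α, β, γ, η, h1, h2⟩ := hMc (a, b, c, d) hab hcd
    refine ⟨E (Sum.inr (a, b, c, d)), α, β, γ, η, ?_, ?_⟩
    · change Sum.elim ℓ M (E.symm (E (Sum.inr (a, b, c, d)))) = _
      rw [Equiv.symm_apply_apply]
      exact h1
    · change Sum.elim ℓ M (E.symm (E (Sum.inr (a, b, c, d)))) = _
      rw [Equiv.symm_apply_apply]
      exact h2

end Pool.Agent.Lib.MP_d0e829_nt.GP
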