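import Pool.Agent.Lib.MP_d0e829_nt.GP.Spec

/-!
# MCV: the moving curve theorem
-/

set_option autoImplicit false

open NumberField MvPolynomial
open Pool.Agent.Lib.MP_d0e829_nt.SS Pool.Agent.Lib.MP_d0e829_nt.SI

namespace Pool.Agent.Lib.MP_d0e829_nt.GP

open scoped Classical

namespace MCVM

section
variable {k : Type} [Field k] {Ω : Type} {M : ℕ}

lemma eval_lin (c x : Fin M → k) : eval x (lin c) = c ⬝ᵥ x := by
  simp [lin, dotProduct]

/-- `X_l^m G_i^r` is in `WP G m r` -/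
lemma mono_mem {ι : Type} (G : ι → MvPolynomial (Fin M) k) (m r : ℕ) (l : Fin M) (i : ι) :
    (X l ^ m * G i ^ r : MvPolynomial (Fin M) k) ∈ WP G m r := by
  unfold WP
  apply Submodule.mul_mem_mul
  · have h1 : (X l ^ m : MvPolynomial (Fin M) k).IsHomogeneous (1 * m) :=
      (isHomogeneous_X k l).pow m
    rw [one_mul] at h1
    exact h1
  · exact Submodule.pow_mem_pow _ (Submodule.subset_span (Set.mem_range_self i)) r

lemma WS_ne_bot {ι : Type} (f : Ω → Fin M → k) (A : Set Ω) (G : ι → MvPolynomial (Fin M) k)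
    (m r : ℕ) {ω : Ω} (hω : ω ∈ A) (hf : f ω ≠ 0) {i : ι} (hi : eval (f ω) (G i) ≠ 0) :
    WS f A G m r ≠ ⊥ := by
  intro hbot
  obtain ⟨l, hl⟩ := Function.ne_iff.mp hf
  have h1 : evA f A (X l ^ m * G i ^ r) ∈ WS f A G m r :=
    ⟨_, mono_mem G m r l i, rfl⟩
  rw [hbot, Submodule.mem_bot] at h1
  have h2 := congrFun h1 ⟨ω, hω⟩
  have h3 : evA f A (X l ^ m * G i ^ r) ⟨ω, hω⟩ = eval (f ω) (X l ^ m * G i ^ r) := by
    have h4 : ∀ P : MvPolynomial (Fin M) k, evA f A P ⟨ω, hω⟩ = eval (f ω) P := by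
      intro P
      unfold evA
      induction P using MvPolynomial.induction_on with
      | C a => simp
      | add p q hp hq => rw [map_add, map_add, Pi.add_apply, hp, hq]
      | mul_X p j hp => rw [map_mul, map_mul, Pi.mul_apply, hp, aeval_X, eval_X]
    exact h4 _
  rw [h3, map_mul, map_pow, map_pow, eval_X] at h2
  exact mul_ne_zero (pow_ne_zero _ hl) (pow_ne_zero _ hi) h2

end

section
variable {k : Type} [Field k] [NumberField k]

lemma absV_one (v : Place k) : absV v (1 : k) = 1 := by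
  have h1 := absV_mul v (1 : k) 1
  rw [mul_one] at h1
  have h2 := absV_pos v (one_ne_zero (α := k))
  have h3 : absV v (1 : k) * 1 = absV v (1 : k) * absV v (1 : k) := by rw [mul_one]; exact h1
  exact (mul_left_cancel₀ h2.ne' h3).symm

lemma absV_pow (v : Place k) (a : k) (n : ℕ) : absV v (a ^ n) = absV v a ^ n := by
  induction n with
  | zero => rw [pow_zero, pow_zero, absV_one]
  | succ n ih => rw [pow_succ, pow_succ, absV_mul, ih]

/-- one summand -/
lemma term {M : ℕ} {ι : Type} [Fintype ι] (v : Place k) (c f : Fin M → k) (g : ι → k)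
    (hf : f ≠ 0) (hg : g ≠ 0) (h : MvPolynomial (Fin M) k)
    (e m r : ℕ) (he : e ≤ m) (κ : ℝ) (hne : eval f (lin c ^ e * h) ≠ 0) (hcf : c ⬝ᵥ f ≠ 0)
    (hκ : absV v (eval f h) ≤ Real.exp κ * (nrm v f ^ (m - e) * nrm v g ^ r)) :
    (e : ℝ) * val v c f - κ ≤
      m * Real.log (nrm v f) + r * Real.log (nrm v g) -
        Real.log (absV v (eval f (lin c ^ e * h))) := by
  have hh : eval f h ≠ 0 := by
    rw [map_mul] at hne
    exact right_ne_zero_of_mul hne
  have h1 : absV v (eval f (lin c ^ e * h)) = absV v (c ⬝ᵥ f) ^ e * absV v (eval f h) := by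
    rw [map_mul, map_pow, eval_lin, absV_mul, absV_pow]
  have hp1 := absV_pos v hcf
  have hp2 := absV_pos v hh
  have hn := nrm_pos v hf
  have hn2 := nrm_pos v hg
  rw [h1, Real.log_mul (pow_pos hp1 e).ne' hp2.ne', Real.log_pow, val]
  have h2 : Real.log (absV v (eval f h)) ≤
      κ + ((m - e : ℝ) * Real.log (nrm v f) + r * Real.log (nrm v g)) := by
    have h3 := Real.log_le_log hp2 hκ
    rw [Real.log_mul (Real.exp_pos κ).ne' (mul_pos (pow_pos hn _) (pow_pos hn2 _)).ne',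
      Real.log_exp, Real.log_mul (pow_pos hn _).ne' (pow_pos hn2 _).ne', Real.log_pow,
      Real.log_pow, Nat.cast_sub he] at h3
    exact h3
  linarith

end

end MCVM

open MCVM in
theorem specMCV (hTRV : SS.SpecTRV) (hMTR : SpecMTR) (hMSU : SpecMSU) (hMFL : SpecMFL) :
    SpecMCV := by
  have _ := hTRV
  intro k _ _ Ω M f Sm hSm A hA ι _ G d hG hfG hgr S c hc ε hε
  have hAne : A.Nonempty := by
    rw [Set.nonempty_iff_ne_empty]
    intro h
    exact hA.1 (h ▸ hSm.1)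
  by_cases hS : S = ∅
  · subst hS
    refine ⟨∅, 0, le_rfl, hSm.1, fun ω hω _ => ⟨fun v hv => absurd hv (by simp), ?_⟩⟩
    rw [Finset.sum_empty, zero_mul, add_zero]
    have := ht_nonneg (hfG ω hω).1
    positivity
  obtain ⟨v₀, hv₀⟩ := Finset.nonempty_iff_ne_empty.mpr hS
  have hb : (0 : ℝ) < 2 + ε / 2 := by linarith
  obtain ⟨m, r, hm, hms⟩ := hgr (1 / 2 - 1 / (2 + ε / 2)) (by
      have : 1 / (2 + ε / 2) < 1 / 2 := by
        apply one_div_lt_one_div_of_lt <;> linarith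
      linarith)
  obtain ⟨H, hH⟩ : ∃ H : ℝ, H = (Module.finrank k (WS f A G m r) : ℝ) := ⟨_, rfl⟩
  obtain ⟨sN, hsN⟩ : ∃ sN : ℕ, sN = ∑ j ∈ Finset.range m, Module.finrank k (WS f A G j r) :=
    ⟨_, rfl⟩
  obtain ⟨s, hs⟩ : ∃ s : ℝ, s = (sN : ℝ) := ⟨_, rfl⟩
  have hs' : s = ∑ j ∈ Finset.range m, (Module.finrank k (WS f A G j r) : ℝ) := by
    rw [hs, hsN]
    push_cast
    rfl
  rw [← hs', ← hH] at hms
  have hH0 : 0 ≤ H := by rw [hH]; exact Nat.cast_nonneg _
  have hma : m * H ≤ (2 + ε / 2) * s := by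
    have h1 : 1 / (2 + ε / 2) * (m * H) ≤ s := by
      have h2 : 1 / 2 - (1 / 2 - 1 / (2 + ε / 2)) = 1 / (2 + ε / 2) := by ring
      rwa [h2] at hms
    rw [one_div, inv_mul_le_iff₀ hb] at h1
    exact h1
  have hex : ∀ v : Place k, ∃ (n : ℕ) (e : Fin n → ℕ) (h : Fin n → MvPolynomial (Fin M) k),
      v ∈ S → (IsW f A G m r (fun j => lin (c v) ^ e j * h j) ∧
      (∀ j, e j ≤ m ∧ h j ∈ WP G (m - e j) r) ∧
      ∑ j, e j = ∑ i ∈ Finset.range m, Module.finrank k (WS f A G i r)) := by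
    intro v
    by_cases hv : v ∈ S
    · obtain ⟨n, e, h, hh⟩ := hMFL k Ω M f Sm hSm A hA ι G d hG (c v) (hc v hv) m r
      exact ⟨n, e, h, fun _ => hh⟩
    · exact ⟨0, fun _ => 0, fun _ => 0, fun h => absurd h hv⟩
  choose n e h hh using hex
  have hs1 : 1 ≤ s := by
    have h0 : sN ≠ 0 := by
      intro h0
      have hs0 : s = 0 := by rw [hs, h0, Nat.cast_zero]
      rw [hs0, mul_zero] at hma
      have hm' : (0 : ℝ) < m := by exact_mod_cast hm
      have hH1 : H = 0 := by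
        rcases hH0.eq_or_lt with h1 | h1
        · exact h1.symm
        · exact absurd hma (not_le.mpr (mul_pos hm' h1))
      rw [hH1] at hH
      have hfr : Module.finrank k (WS f A G m r) = 0 := by
        exact_mod_cast hH.symm
      obtain ⟨⟨-, hli, hsp⟩, -, -⟩ := hh v₀ hv₀
      have hcard := finrank_span_eq_card hli
      rw [hsp, hfr, Fintype.card_fin] at hcard
      have hrange : Set.range (fun j => evA f A (lin (c v₀) ^ e v₀ j * h v₀ j)) = ∅ := by
        rw [Set.range_eq_empty_iff]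
        rw [← hcard]
        exact Fin.isEmpty'
      rw [hrange, Submodule.span_empty] at hsp
      obtain ⟨ω, hω⟩ := hAne
      obtain ⟨hf0, i, hi⟩ := hfG ω hω
      exact WS_ne_bot f A G m r hω hf0 hi hsp.symm
    rw [hs]
    exact_mod_cast Nat.one_le_iff_ne_zero.mpr h0
  have hsum : ∀ v ∈ S, (∑ j, (e v j : ℝ)) = s := by
    intro v hv
    have h1 := (hh v hv).2.2
    rw [← hsN] at h1
    rw [hs, ← h1]
    push_cast
    rfl
  have hκ : ∀ (v : Place k) (j : Fin (n v)), ∃ κ : ℝ, 0 ≤ κ ∧ (v ∈ S → ∀ ω : Ω,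
      absV v (eval (f ω) (h v j)) ≤
        Real.exp κ * (nrm v (f ω) ^ (m - e v j) * nrm v (gv G (f ω)) ^ r)) := by
    intro v j
    by_cases hv : v ∈ S
    · obtain ⟨κ, h1, -, h2⟩ := hMTR k M ι G (m - e v j) r (h v j) ((hh v hv).2.1 j).2
      exact ⟨κ v, h1 v, fun _ ω => h2 (f ω) v⟩
    · exact ⟨0, le_rfl, fun h => absurd h hv⟩
  choose κ hκ0 hκ using hκ
  have hmR : (0 : ℝ) < m := by exact_mod_cast hm
  obtain ⟨ε', hε'⟩ : ∃ ε' : ℝ, ε' = ε / (2 * m) := ⟨_, rfl⟩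
  have hε'0 : 0 < ε' := by rw [hε']; positivity
  have hε'm : ε' * m = ε / 2 := by
    rw [hε']
    field_simp
  obtain ⟨B, C₁, hB, hBC⟩ := hMSU k Ω M f Sm hSm A hA ι G d hG hfG S m r (fun v => Fin (n v))
    (fun v j => lin (c v) ^ e v j * h v j) (fun v hv => (hh v hv).1) ε' hε'0
  obtain ⟨C₂, hC₂⟩ : ∃ C₂ : ℝ, C₂ = ∑ v ∈ S, ∑ j, κ v j := ⟨_, rfl⟩
  obtain ⟨C₃, hC₃⟩ : ∃ C₃ : ℝ, C₃ = (H + ε') * r := ⟨_, rfl⟩
  have hC₃0 : 0 ≤ C₃ := by rw [hC₃]; positivity
  refine ⟨B, C₃ + |C₁ + C₂|, by positivity, hB, fun ω hω hωB => ?_⟩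
  obtain ⟨hne, hle⟩ := hBC ω hω hωB
  obtain ⟨hf0, i₀, hi₀⟩ := hfG ω hω
  have hgv : gv G (f ω) ≠ 0 := by
    intro h0
    exact hi₀ (congrFun h0 i₀)
  have hcf : ∀ v ∈ S, c v ⬝ᵥ f ω ≠ 0 := by
    intro v hv hcon
    have h1 : ∃ j, e v j ≠ 0 := by
      by_contra hcon2
      push Not at hcon2
      have h2 := hsum v hv
      simp only [hcon2, Nat.cast_zero, Finset.sum_const_zero] at h2
      linarith
    obtain ⟨j, hj⟩ := h1
    apply hne v hv j
    rw [map_mul, map_pow, eval_lin, hcon, zero_pow hj, zero_mul]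
  refine ⟨hcf, ?_⟩
  have hht := ht_nonneg hf0
  have hhg := ht_nonneg hgv
  have hlow : s * ∑ v ∈ S, val v (c v) (f ω) - C₂ ≤
      ∑ v ∈ S, ∑ j, (m * Real.log (nrm v (f ω)) + r * Real.log (nrm v (gv G (f ω))) -
        Real.log (absV v (eval (f ω) (lin (c v) ^ e v j * h v j)))) := by
    rw [hC₂, Finset.mul_sum, ← Finset.sum_sub_distrib]
    refine Finset.sum_le_sum fun v hv => ?_
    rw [← hsum v hv, Finset.sum_mul, ← Finset.sum_sub_distrib]
    refine Finset.sum_le_sum fun j _ => ?_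
    exact term v (c v) (f ω) (gv G (f ω)) hf0 hgv (h v j) (e v j) m r ((hh v hv).2.1 j).1
      (κ v j) (hne v hv j) (hcf v hv) (hκ v j hv ω)
  rw [← hH] at hle
  have hup : s * ∑ v ∈ S, val v (c v) (f ω) ≤
      ((2 + ε / 2) * s + ε / 2) * ht (f ω) + C₃ * ht (gv G (f ω)) + (C₁ + C₂) := by
    have h1 : (H + ε') * (m * ht (f ω) + r * ht (gv G (f ω))) =
        (m * H + ε' * m) * ht (f ω) + C₃ * ht (gv G (f ω)) := by
      rw [hC₃]
      ring
    have h2 : (m * H + ε' * m) * ht (f ω) ≤ ((2 + ε / 2) * s + ε / 2) * ht (f ω) := by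
      apply mul_le_mul_of_nonneg_right _ hht
      rw [hε'm]
      linarith
    linarith
  have habs := le_abs_self (C₁ + C₂)
  have habs0 := abs_nonneg (C₁ + C₂)
  have hfin : s * ∑ v ∈ S, val v (c v) (f ω) ≤
      s * ((2 + ε) * ht (f ω) + (C₃ + |C₁ + C₂|) * (1 + ht (gv G (f ω)))) := by
    have h1 : ε / 2 * ht (f ω) ≤ s * (ε / 2 * ht (f ω)) :=
      le_mul_of_one_le_left (by positivity) hs1
    have h2 : C₃ * ht (gv G (f ω)) + |C₁ + C₂| ≤
        s * ((C₃ + |C₁ + C₂|) * (1 + ht (gv G (f ω)))) := by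
      have h3 : C₃ * ht (gv G (f ω)) + |C₁ + C₂| ≤
          (C₃ + |C₁ + C₂|) * (1 + ht (gv G (f ω))) := by
        have : 0 ≤ |C₁ + C₂| * ht (gv G (f ω)) := mul_nonneg habs0 hhg
        linarith
      have h4 : 0 ≤ (C₃ + |C₁ + C₂|) * (1 + ht (gv G (f ω))) := by positivity
      exact h3.trans (le_mul_of_one_le_left h4 hs1)
    have h5 : s * ((2 + ε) * ht (f ω) + (C₃ + |C₁ + C₂|) * (1 + ht (gv G (f ω)))) =
        (2 + ε / 2) * s * ht (f ω) + s * (ε / 2 * ht (f ω)) +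
          s * ((C₃ + |C₁ + C₂|) * (1 + ht (gv G (f ω)))) := by ring
    rw [h5]
    linarith
  exact le_of_mul_le_mul_left hfin (by linarith)

end Pool.Agent.Lib.MP_d0e829_nt.GP
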