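import Pool.Agent.Lib.MP_d0e829_nt.GP.SpecU
import Pool.Agent.Lib.MP_d0e829_nt.GP.MCV

/-!
# MCX: the moving curve theorem with explicit constants
-/

set_option autoImplicit false

open NumberField MvPolynomial
open Pool.Agent.Lib.MP_d0e829_nt.SS Pool.Agent.Lib.MP_d0e829_nt.SI

namespace Pool.Agent.Lib.MP_d0e829_nt.GP

open scoped Classical

open MCVM in
theorem specMCX (hMTR : SpecMTR) (hMSU : SpecMSU) (hMFL : SpecMFL) : SpecMCX := by
  intro k _ _ Ω M f Sm hSm A hA ι _ G d hG hfG γ m r hm hms S c hc ε hε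
  have hAne : A.Nonempty := by
    rw [Set.nonempty_iff_ne_empty]
    intro h
    exact hA.1 (h ▸ hSm.1)
  obtain ⟨H, hH⟩ : ∃ H : ℝ, H = (Module.finrank k (WS f A G m r) : ℝ) := ⟨_, rfl⟩
  obtain ⟨sN, hsN⟩ : ∃ sN : ℕ, sN = ∑ j ∈ Finset.range m, Module.finrank k (WS f A G j r) :=
    ⟨_, rfl⟩
  obtain ⟨s, hs⟩ : ∃ s : ℝ, s = (sN : ℝ) := ⟨_, rfl⟩
  have hs' : s = ∑ j ∈ Finset.range m, (Module.finrank k (WS f A G j r) : ℝ) := by
    rw [hs, hsN]
    push_cast
    rfl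
  rw [← hs', ← hH] at hms
  have hH0 : 0 ≤ H := by rw [hH]; exact Nat.cast_nonneg _
  have hma : m * H ≤ γ * s := hms
  have hs1 : 1 ≤ s := by
    have h0 : sN ≠ 0 := by
      intro h0
      have hs0 : s = 0 := by rw [hs, h0, Nat.cast_zero]
      rw [hs0, mul_zero] at hma
      have hm' : (0 : ℝ) < m := by exact_mod_cast hm
      have hH1 : H = 0 := by
        rcases hH0.eq_or_lt with h1 | h1
        · exact h1.symm
        · exact absurd hma (not_le.mpr (mul_pos hm' h1))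
      rw [hH1] at hH
      have hfr : Module.finrank k (WS f A G m r) = 0 := by
        exact_mod_cast hH.symm
      obtain ⟨ω, hω⟩ := hAne
      obtain ⟨hf0, i, hi⟩ := hfG ω hω
      obtain ⟨l, hl⟩ := Function.ne_iff.mp hf0
      obtain ⟨n, e, h, ⟨-, hli, hsp⟩, -, -⟩ := hMFL k Ω M f Sm hSm A hA ι G d hG
        (Pi.single l 1) ⟨ω, hω, by rw [single_dotProduct, one_mul]; exact hl⟩ m r
      have hcard := finrank_span_eq_card hli
      rw [hsp, hfr, Fintype.card_fin] at hcard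
      have hrange : Set.range (fun j => evA f A (lin (Pi.single l 1) ^ e j * h j)) = ∅ := by
        rw [Set.range_eq_empty_iff]
        rw [← hcard]
        exact Fin.isEmpty'
      rw [hrange, Submodule.span_empty] at hsp
      exact WS_ne_bot f A G m r hω hf0 hi hsp.symm
    rw [hs]
    exact_mod_cast Nat.one_le_iff_ne_zero.mpr h0
  have hγ : 0 ≤ γ := by
    by_contra hneg
    push Not at hneg
    have h1 : γ * s < 0 := mul_neg_of_neg_of_pos hneg (by linarith)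
    have h2 : 0 ≤ m * H := by positivity
    linarith
  have hex : ∀ v : Place k, ∃ (n : ℕ) (e : Fin n → ℕ) (h : Fin n → MvPolynomial (Fin M) k),
      v ∈ S → (IsW f A G m r (fun j => lin (c v) ^ e j * h j) ∧
      (∀ j, e j ≤ m ∧ h j ∈ WP G (m - e j) r) ∧
      ∑ j, e j = ∑ i ∈ Finset.range m, Module.finrank k (WS f A G i r)) := by
    intro v
    by_cases hv : v ∈ S
    · obtain ⟨n, e, h, hh⟩ := hMFL k Ω M f Sm hSm A hA ι G d hG (c v) (hc v hv) m r
      exact ⟨n, e, h, fun _ => hh⟩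
    · exact ⟨0, fun _ => 0, fun _ => 0, fun h => absurd h hv⟩
  choose n e h hh using hex
  have hsum : ∀ v ∈ S, (∑ j, (e v j : ℝ)) = s := by
    intro v hv
    have h1 := (hh v hv).2.2
    rw [← hsN] at h1
    rw [hs, ← h1]
    push_cast
    rfl
  have hκ : ∀ (v : Place k) (j : Fin (n v)), ∃ κ : ℝ, 0 ≤ κ ∧ (v ∈ S → ∀ ω : Ω,
      absV v (eval (f ω) (h v j)) ≤
        Real.exp κ * (nrm v (f ω) ^ (m - e v j) * nrm v (gv G (f ω)) ^ r)) := by
    intro v j
    by_cases hv : v ∈ S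
    · obtain ⟨κ, h1, -, h2⟩ := hMTR k M ι G (m - e v j) r (h v j) ((hh v hv).2.1 j).2
      exact ⟨κ v, h1 v, fun _ ω => h2 (f ω) v⟩
    · exact ⟨0, le_rfl, fun h => absurd h hv⟩
  choose κ hκ0 hκ using hκ
  have hmR : (1 : ℝ) ≤ m := by exact_mod_cast hm
  obtain ⟨ε', hε'⟩ : ∃ ε' : ℝ, ε' = ε / m := ⟨_, rfl⟩
  have hε'0 : 0 < ε' := by rw [hε']; positivity
  have hε'm : m * ε' = ε := by
    rw [hε']
    field_simp
  obtain ⟨B, C₁, hB, hBC⟩ := hMSU k Ω M f Sm hSm A hA ι G d hG hfG S m r (fun v => Fin (n v))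
    (fun v j => lin (c v) ^ e v j * h v j) (fun v hv => (hh v hv).1) ε' hε'0
  obtain ⟨C₂, hC₂⟩ : ∃ C₂ : ℝ, C₂ = ∑ v ∈ S, ∑ j, κ v j := ⟨_, rfl⟩
  refine ⟨B, |C₁ + C₂|, hB, fun ω hω hωB => ?_⟩
  obtain ⟨hne, hle⟩ := hBC ω hω hωB
  obtain ⟨hf0, i₀, hi₀⟩ := hfG ω hω
  have hgv : gv G (f ω) ≠ 0 := by
    intro h0
    exact hi₀ (congrFun h0 i₀)
  have hcf : ∀ v ∈ S, c v ⬝ᵥ f ω ≠ 0 := by
    intro v hv hcon
    have h1 : ∃ j, e v j ≠ 0 := by
      by_contra hcon2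
      push Not at hcon2
      have h2 := hsum v hv
      simp only [hcon2, Nat.cast_zero, Finset.sum_const_zero] at h2
      linarith
    obtain ⟨j, hj⟩ := h1
    apply hne v hv j
    rw [map_mul, map_pow, MCVM.eval_lin, hcon, zero_pow hj, zero_mul]
  refine ⟨hcf, ?_⟩
  have hht := ht_nonneg hf0
  have hhg := ht_nonneg hgv
  have hlow : s * ∑ v ∈ S, val v (c v) (f ω) - C₂ ≤
      ∑ v ∈ S, ∑ j, (m * Real.log (nrm v (f ω)) + r * Real.log (nrm v (gv G (f ω))) -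
        Real.log (absV v (eval (f ω) (lin (c v) ^ e v j * h v j)))) := by
    rw [hC₂, Finset.mul_sum, ← Finset.sum_sub_distrib]
    refine Finset.sum_le_sum fun v hv => ?_
    rw [← hsum v hv, Finset.sum_mul, ← Finset.sum_sub_distrib]
    refine Finset.sum_le_sum fun j _ => ?_
    exact MCVM.term v (c v) (f ω) (gv G (f ω)) hf0 hgv (h v j) (e v j) m r
      ((hh v hv).2.1 j).1 (κ v j) (hne v hv j) (hcf v hv) (hκ v j hv ω)
  rw [← hH] at hle
  obtain ⟨Q, hQ⟩ : ∃ Q : ℝ, Q = ht (f ω) + r * ht (gv G (f ω)) := ⟨_, rfl⟩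
  have hQ0 : 0 ≤ Q := by rw [hQ]; positivity
  have hup : s * ∑ v ∈ S, val v (c v) (f ω) ≤ (γ * s + ε) * Q + (C₁ + C₂) := by
    have h1 : m * ht (f ω) + r * ht (gv G (f ω)) ≤ m * Q := by
      rw [hQ]
      have h2 : r * ht (gv G (f ω)) ≤ m * (r * ht (gv G (f ω))) :=
        le_mul_of_one_le_left (by positivity) hmR
      linarith
    have h2 : (H + ε') * (m * ht (f ω) + r * ht (gv G (f ω))) ≤ (H + ε') * (m * Q) :=
      mul_le_mul_of_nonneg_left h1 (by positivity)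
    have h3 : (H + ε') * (m * Q) = (m * H + m * ε') * Q := by ring
    have h4 : (m * H + m * ε') * Q ≤ (γ * s + ε) * Q := by
      apply mul_le_mul_of_nonneg_right _ hQ0
      rw [hε'm]
      linarith
    linarith
  rw [← hQ]
  have habs := le_abs_self (C₁ + C₂)
  have habs0 := abs_nonneg (C₁ + C₂)
  have hfin : s * ∑ v ∈ S, val v (c v) (f ω) ≤ s * ((γ + ε) * Q + |C₁ + C₂|) := by
    have h1 : ε * Q ≤ s * (ε * Q) := le_mul_of_one_le_left (by positivity) hs1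
    have h2 : |C₁ + C₂| ≤ s * |C₁ + C₂| := le_mul_of_one_le_left habs0 hs1
    have h5 : s * ((γ + ε) * Q + |C₁ + C₂|) = γ * s * Q + s * (ε * Q) + s * |C₁ + C₂| := by
      ring
    rw [h5]
    have h6 : (γ * s + ε) * Q = γ * s * Q + ε * Q := by ring
    rw [h6] at hup
    linarith
  exact le_of_mul_le_mul_left hfin (by linarith)

end Pool.Agent.Lib.MP_d0e829_nt.GP
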