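import Pool.Agent.Lib.MP_d0e829_nt.GP.Spec
import Pool.Agent.Lib.MP_d0e829_nt.SS.FIL

/-!
# MFL: a basis of `WS f A G m r` adapted to the filtration by powers of a linear functional (helper53)
-/

set_option autoImplicit false

open NumberField MvPolynomial
open Pool.Agent.Lib.MP_d0e829_nt.SS Pool.Agent.Lib.MP_d0e829_nt.SI

namespace Pool.Agent.Lib.MP_d0e829_nt.GP

open scoped Classical

namespace MFLM

section
variable {k : Type} [Field k] {Ω : Type} {M : ℕ} (f : Ω → Fin M → k) (A : Set Ω)
  {ι : Type} [Fintype ι] (G : ι → MvPolynomial (Fin M) k)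

lemma pow_le (d : ℕ) (hG : ∀ i, (G i).IsHomogeneous d) (r : ℕ) :
    (Submodule.span k (Set.range G)) ^ r ≤ MvPolynomial.homogeneousSubmodule (Fin M) k (d * r) := by
  induction r with
  | zero =>
    rw [pow_zero, mul_zero, Submodule.one_le]
    exact MvPolynomial.isHomogeneous_one (Fin M) k
  | succ r ih =>
    rw [pow_succ, Nat.mul_succ]
    have h1 : Submodule.span k (Set.range G) ≤ MvPolynomial.homogeneousSubmodule (Fin M) k d := by
      rw [Submodule.span_le]
      rintro _ ⟨i, rfl⟩
      exact hG i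
    exact (mul_le_mul' ih h1).trans (MvPolynomial.homogeneousSubmodule_mul _ _)

lemma WP_homog (d : ℕ) (hG : ∀ i, (G i).IsHomogeneous d) (m r : ℕ) {P : MvPolynomial (Fin M) k}
    (hP : P ∈ WP G m r) : P.IsHomogeneous (m + d * r) := by
  have h1 : WP G m r ≤ MvPolynomial.homogeneousSubmodule (Fin M) k (m + d * r) :=
    (mul_le_mul' le_rfl (pow_le G d hG r)).trans (MvPolynomial.homogeneousSubmodule_mul _ _)
  exact h1 hP

lemma WP_mul (m r : ℕ) (c : Fin M → k) {P : MvPolynomial (Fin M) k}
    (hP : P ∈ WP G m r) : lin c * P ∈ WP G (m + 1) r := by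
  have h1 : lin c ∈ MvPolynomial.homogeneousSubmodule (Fin M) k 1 := FILM.lin_homog c
  have h2 := Submodule.mul_mem_mul h1 hP
  have h3 : MvPolynomial.homogeneousSubmodule (Fin M) k 1 * WP G m r ≤ WP G (m + 1) r := by
    unfold WP
    rw [← mul_assoc, add_comm m 1]
    exact mul_le_mul' (MvPolynomial.homogeneousSubmodule_mul _ _) le_rfl
  exact h3 h2

lemma WS_finite (m r : ℕ) : Module.Finite k (WS f A G m r) := by
  rw [Module.Finite.iff_fg]
  have h1 : (WP G m r).FG :=
    (MvPolynomial.homogeneousSubmodule_fg (Fin M) k m).mul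
      ((Submodule.fg_span (Set.finite_range G)).pow r)
  exact h1.map _

lemma mem_WS {m r : ℕ} {P : MvPolynomial (Fin M) k} (hP : P ∈ WP G m r) :
    evA f A P ∈ WS f A G m r :=
  ⟨P, hP, rfl⟩

/-- completion to a basis -/
lemma complete {J : Type} [Fintype J] (m r : ℕ) (u : J → MvPolynomial (Fin M) k)
    (hu : ∀ j, u j ∈ WP G m r) (hli : LinearIndependent k fun j => evA f A (u j)) :
    ∃ (n : ℕ) (w : Fin n → MvPolynomial (Fin M) k), (∀ i, w i ∈ WP G m r) ∧
      IsW f A G m r (Sum.elim u w) := by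
  obtain ⟨n, v, hv, hv2, hv3⟩ := FILM.complete_abs (WS f A G m r) (WS_finite f A G m r)
    (fun j => evA f A (u j)) (fun j => mem_WS f A G (hu j)) hli
  have hex : ∀ i, ∃ w : MvPolynomial (Fin M) k, w ∈ WP G m r ∧ evA f A w = v i := by
    intro i
    obtain ⟨w, hw1, hw2⟩ := hv i
    exact ⟨w, hw1, hw2⟩
  choose w hw1 hw2 using hex
  have e1 : (fun j => evA f A (Sum.elim u w j)) = Sum.elim (fun j => evA f A (u j)) v := by
    funext j
    rcases j with j | i
    · rfl
    · exact hw2 i
  refine ⟨n, w, hw1, ?_, ?_, ?_⟩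
  · rintro (j | i)
    · exact hu j
    · exact hw1 i
  · rw [e1]
    exact hv2
  · rw [e1]
    exact hv3

lemma IsW.finrank {J : Type} [Fintype J] {m r : ℕ} {g : J → MvPolynomial (Fin M) k}
    (h : IsW f A G m r g) : Module.finrank k (WS f A G m r) = Fintype.card J := by
  rw [← h.2.2]
  exact finrank_span_eq_card h.2.1

lemma IsW.reindex {J J' : Type} {m r : ℕ} {g : J → MvPolynomial (Fin M) k}
    (h : IsW f A G m r g) (E : J' ≃ J) : IsW f A G m r (fun j => g (E j)) := by
  refine ⟨fun j => h.1 _, h.2.1.comp E E.injective, ?_⟩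
  rw [← h.2.2]
  congr 1
  exact E.surjective.range_comp (fun j => evA f A (g j))

lemma main (hIRR : SpecIRR) (Sm : Set Ω → Prop) (hSm : SmSys Sm) (hA : Gen Sm f A) (d : ℕ)
    (hG : ∀ i, (G i).IsHomogeneous d) (c : Fin M → k)
    (hc : ∃ ω ∈ A, c ⬝ᵥ f ω ≠ 0) (m r : ℕ) :
    ∃ (J : Type) (_ : Fintype J) (e : J → ℕ) (h : J → MvPolynomial (Fin M) k),
    IsW f A G m r (fun j => lin c ^ e j * h j) ∧
    (∀ j, e j ≤ m ∧ h j ∈ WP G (m - e j) r) ∧
    ∑ j, e j = ∑ i ∈ Finset.range m, Module.finrank k (WS f A G i r) := by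
  induction m with
  | zero =>
    obtain ⟨n, w, hw, hB⟩ := complete f A G 0 r (fun j : Empty => (0 : MvPolynomial (Fin M) k))
      (fun j => j.elim) linearIndependent_empty_type
    refine ⟨Empty ⊕ Fin n, inferInstance, fun _ => 0,
      Sum.elim (fun j : Empty => (0 : MvPolynomial (Fin M) k)) w, ?_, ?_, ?_⟩
    · have e1 : (fun j => lin c ^ 0 * Sum.elim (fun j : Empty => (0 : MvPolynomial (Fin M) k)) w j) =
          Sum.elim (fun j : Empty => (0 : MvPolynomial (Fin M) k)) w := by
        funext j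
        rw [pow_zero, one_mul]
      rw [e1]
      exact hB
    · rintro (j | i)
      · exact j.elim
      · exact ⟨le_rfl, hw i⟩
    · simp
  | succ m ih =>
    obtain ⟨J, hJ, e, h, hB, he, hsum⟩ := ih
    have hcne : evA f A (lin c) ≠ 0 := by
      obtain ⟨ω, hω, hne⟩ := hc
      intro h0
      have h1 := congrFun h0 ⟨ω, hω⟩
      rw [FILM.evA_apply, FILM.eval_lin] at h1
      exact hne h1
    have hmem : ∀ j, lin c ^ (e j + 1) * h j ∈ WP G (m + 1) r := by
      intro j
      have h2 : lin c ^ (e j + 1) * h j = lin c * (lin c ^ e j * h j) := by ring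
      rw [h2]
      exact WP_mul G m r c (hB.1 j)
    have hli : LinearIndependent k fun j => evA f A (lin c ^ (e j + 1) * h j) := by
      rw [Fintype.linearIndependent_iff]
      intro b hb
      have h1 : evA f A (lin c * ∑ j, C (b j) * (lin c ^ e j * h j)) = 0 := by
        rw [Finset.mul_sum, map_sum, ← hb]
        refine Finset.sum_congr rfl fun j _ => ?_
        have h2 : lin c * (C (b j) * (lin c ^ e j * h j)) = b j • (lin c ^ (e j + 1) * h j) := by
          rw [MvPolynomial.smul_eq_C_mul]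
          ring
        rw [h2, map_smul]
      have hQ : (∑ j, C (b j) * (lin c ^ e j * h j) : MvPolynomial (Fin M) k).IsHomogeneous
          (m + d * r) := by
        refine MvPolynomial.IsHomogeneous.sum _ _ _ fun j _ => ?_
        have h3 := (MvPolynomial.isHomogeneous_C (Fin M) (b j)).mul (WP_homog G d hG m r (hB.1 j))
        rwa [zero_add] at h3
      rcases hIRR k Ω M f Sm hSm A hA 1 (m + d * r) _ _ (FILM.lin_homog c) hQ h1 with h2 | h2
      · exact absurd h2 hcne
      · have h3 : ∑ j, b j • evA f A (lin c ^ e j * h j) = 0 := by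
          rw [← h2, map_sum]
          refine Finset.sum_congr rfl fun j _ => ?_
          rw [← MvPolynomial.smul_eq_C_mul, map_smul]
        exact Fintype.linearIndependent_iff.mp hB.2.1 b h3
    obtain ⟨n, w, hw, hB'⟩ := complete f A G (m + 1) r _ hmem hli
    refine ⟨J ⊕ Fin n, inferInstance, Sum.elim (fun j => e j + 1) (fun _ => 0), Sum.elim h w,
      ?_, ?_, ?_⟩
    · have e1 : (fun j => lin c ^ (Sum.elim (fun j => e j + 1) (fun _ => 0) j : ℕ) * Sum.elim h w j) =
          Sum.elim (fun j => lin c ^ (e j + 1) * h j) w := by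
        funext j
        rcases j with j | i
        · rfl
        · show lin c ^ 0 * w i = w i
          rw [pow_zero, one_mul]
      rw [e1]
      exact hB'
    · rintro (j | i)
      · refine ⟨Nat.succ_le_succ (he j).1, ?_⟩
        show h j ∈ WP G (m + 1 - (e j + 1)) r
        rw [Nat.add_sub_add_right]
        exact (he j).2
      · exact ⟨Nat.zero_le _, hw i⟩
    · rw [Fintype.sum_sum_type, Finset.sum_range_succ, ← hsum, IsW.finrank f A G hB]
      simp [Finset.sum_add_distrib]

end

end MFLM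

open MFLM in
theorem specMFL (hIRR : SpecIRR) : SpecMFL := by
  intro k _ Ω M f Sm hSm A hA ι _ G d hG c hc m r
  obtain ⟨J, hJ, e, h, hB, he, hsum⟩ := MFLM.main f A G hIRR Sm hSm hA d hG c hc m r
  obtain ⟨E⟩ : Nonempty (Fin (Fintype.card J) ≃ J) := ⟨(Fintype.equivFin J).symm⟩
  refine ⟨Fintype.card J, fun j => e (E j), fun j => h (E j), ?_, fun j => he _, ?_⟩
  · exact IsW.reindex f A G hB E
  · rw [← hsum]
    exact Equiv.sum_comp E e

end Pool.Agent.Lib.MP_d0e829_nt.GP
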