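import Pool.Agent.Lib.MP_d0e829_nt.GP.Spec

/-!
# Module MGB: growth bounds (adapted from SI/GRW.lean)
-/

set_option autoImplicit false

open MvPolynomial
open Pool.Agent.Lib.MP_d0e829_nt.SS Pool.Agent.Lib.MP_d0e829_nt.SI

namespace Pool.Agent.Lib.MP_d0e829_nt.GP

namespace MGBM

variable {k R : Type} [Field k] [CommRing R] [Algebra k R]

/-- the reduced monomials of degree `m` -/
noncomputable def red {M : ℕ} (x : Fin M → R) (S T : R) (D : Fin M → ℕ) (m : ℕ)
    (p : Fin (m + 1) × (∀ a : Fin M, Fin (D a))) : R :=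
  S ^ (p.1 : ℕ) * T ^ (m - p.1 - ∑ a, (p.2 a : ℕ)) * ∏ a, x a ^ (p.2 a : ℕ)

/-- their span -/
noncomputable def W (k : Type) [Field k] {R : Type} [CommRing R] [Algebra k R] {M : ℕ} (x : Fin M → R)
    (S T : R) (D : Fin M → ℕ) (m : ℕ) : Submodule k R :=
  Submodule.span k (Set.range (red x S T D m))

theorem prod_mem {N : ℕ} (S T : R) (y : Fin N → R) (τ : Fin N → Bool) (Γ : Submodule k R)
    (hΓ : ∀ j, (if τ j then y j * T else y j * S) ∈ Γ) (b : Fin N → ℕ) (s : Finset (Fin N)) :
    ∃ (h : R) (i l : ℕ), i + l = ∑ j ∈ s, b j ∧ h ∈ Γ ^ (i + l) ∧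
      (S * T) ^ (i + l) * ∏ j ∈ s, y j ^ b j = h * (S ^ i * T ^ l) := by
  classical
  induction s using Finset.induction_on with
  | empty =>
    refine ⟨1, 0, 0, by simp, ?_, by simp⟩
    rw [Nat.add_zero, pow_zero]
    exact (Submodule.one_le (P := (1 : Submodule k R))).1 le_rfl
  | insert j s hj ih =>
    obtain ⟨h, i, l, hil, hh, he⟩ := ih
    rw [Finset.sum_insert hj, Finset.prod_insert hj]
    have hG := hΓ j
    by_cases hτ : τ j = true
    · rw [if_pos hτ] at hG
      refine ⟨(y j * T) ^ b j * h, b j + i, l, by omega, ?_, ?_⟩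
      · rw [add_assoc, pow_add]
        exact Submodule.mul_mem_mul (Submodule.pow_mem_pow _ hG _) hh
      · calc (S * T) ^ (b j + i + l) * (y j ^ b j * ∏ j ∈ s, y j ^ b j) =
            (S * T) ^ b j * y j ^ b j * ((S * T) ^ (i + l) * ∏ j ∈ s, y j ^ b j) := by
              rw [add_assoc, pow_add]; ring
          _ = (y j * T) ^ b j * h * (S ^ (b j + i) * T ^ l) := by
              rw [he, mul_pow, mul_pow, pow_add]; ring
    · rw [if_neg hτ] at hG
      refine ⟨(y j * S) ^ b j * h, i, b j + l, by omega, ?_, ?_⟩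
      · rw [show i + (b j + l) = b j + (i + l) by omega, pow_add]
        exact Submodule.mul_mem_mul (Submodule.pow_mem_pow _ hG _) hh
      · calc (S * T) ^ (i + (b j + l)) * (y j ^ b j * ∏ j ∈ s, y j ^ b j) =
            (S * T) ^ b j * y j ^ b j * ((S * T) ^ (i + l) * ∏ j ∈ s, y j ^ b j) := by
              rw [show i + (b j + l) = b j + (i + l) by omega, pow_add]; ring
          _ = (y j * S) ^ b j * h * (S ^ i * T ^ (b j + l)) := by
              rw [he, mul_pow, mul_pow, pow_add]; ring

/-- the relation in the form which is used -/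
theorem rel {N : ℕ} (S T z : R) (y : Fin N → R) (τ : Fin N → Bool) (Γ : Submodule k R)
    (hΓ : ∀ j, (if τ j then y j * T else y j * S) ∈ Γ)
    (D : ℕ) (P : MvPolynomial (Option (Fin N)) k) (hP : P.IsHomogeneous D)
    (hc : P.coeff (Finsupp.single none D) = 1)
    (h0 : aeval (fun o : Option (Fin N) => o.elim z y) P = 0) :
    (S * T) ^ D * z ^ D ∈ Submodule.span k {w : R | ∃ (e i l : ℕ) (h : R), e + i + l = D ∧ e < D ∧
      h ∈ Γ ^ (i + l) ∧ w = (S * T) ^ e * z ^ e * (h * (S ^ i * T ^ l))} := by
  classical
  set g : Option (Fin N) → R := fun o => o.elim z y with hg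
  have h1 : aeval g P = ∑ β ∈ P.support, P.coeff β • ∏ o, g o ^ β o := by
    rw [aeval_def, eval₂_eq']
    refine Finset.sum_congr rfl fun β _ => ?_
    rw [Algebra.smul_def]
  have hmem : Finsupp.single none D ∈ P.support := by
    rw [mem_support_iff, hc]
    exact one_ne_zero
  rw [h0, ← Finset.add_sum_erase _ _ hmem, hc, one_smul] at h1
  have h2 : ∏ o, g o ^ (Finsupp.single none D : Option (Fin N) →₀ ℕ) o = z ^ D := by
    rw [Fintype.prod_option, Finsupp.single_eq_same]
    have : ∏ j, g (some j) ^ (Finsupp.single none D : Option (Fin N) →₀ ℕ) (some j) = 1 := by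
      refine Finset.prod_eq_one fun j _ => ?_
      rw [Finsupp.single_eq_of_ne (by simp), pow_zero]
    rw [this, mul_one]
    rfl
  rw [h2] at h1
  have h3 : z ^ D = -∑ β ∈ P.support.erase (Finsupp.single none D),
      P.coeff β • ∏ o, g o ^ β o := by
    rw [eq_neg_iff_add_eq_zero]
    exact h1.symm
  rw [h3, mul_neg, Finset.mul_sum]
  refine Submodule.neg_mem _ (Submodule.sum_mem _ fun β hβ => ?_)
  rw [mul_smul_comm]
  refine Submodule.smul_mem _ _ ?_
  rw [Finset.mem_erase, mem_support_iff] at hβ
  have hdeg : β none + ∑ j, β (some j) = D := by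
    have h4 := hP hβ.2
    rw [Finsupp.weight_apply, Finsupp.sum_fintype] at h4
    · simp only [Pi.one_apply, smul_eq_mul, mul_one] at h4
      rw [Fintype.sum_option] at h4
      exact h4
    · intro i
      simp
  rw [Fintype.prod_option]
  obtain ⟨h, i, l, hil, hh, he⟩ := prod_mem (k := k) S T y τ Γ hΓ (fun j => β (some j)) Finset.univ
  have he' : (S * T) ^ (i + l) * ∏ j, g (some j) ^ β (some j) = h * (S ^ i * T ^ l) := he
  have hgn : g none = z := rfl
  have hD : D = β none + (i + l) := by omega
  have h7 : (S * T) ^ D * (g none ^ β none * ∏ j, g (some j) ^ β (some j)) =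
      (S * T) ^ β none * z ^ β none * (h * (S ^ i * T ^ l)) := by
    rw [← he', hgn]
    conv_lhs => rw [hD, pow_add]
    ring
  rw [h7]
  refine Submodule.subset_span ⟨β none, i, l, h, by omega, ?_, hh, rfl⟩
  by_contra hlt
  apply hβ.1
  have h5 : ∑ j, β (some j) = 0 := by omega
  have h6 : β none = D := by omega
  ext o
  rcases o with _ | j
  · rw [h6, Finsupp.single_eq_same]
  · rw [Finsupp.single_eq_of_ne (by simp)]
    exact (Finset.sum_eq_zero_iff.1 h5) j (Finset.mem_univ j)

theorem key {M : ℕ} (x : Fin M → R) (S T : R) (Γ : Submodule k R) (hST : S * T ∈ Γ) (D : Fin M → ℕ)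
    (hrel : ∀ a, (S * T) ^ D a * x a ^ D a ∈ Submodule.span k {w : R | ∃ (e i l : ℕ) (h : R),
      e + i + l = D a ∧ e < D a ∧ h ∈ Γ ^ (i + l) ∧
      w = (S * T) ^ e * x a ^ e * (h * (S ^ i * T ^ l))}) (m : ℕ) :
    ∀ (n : ℕ) (γ : Fin M → ℕ) (i l : ℕ) (g : R), ∑ a, γ a = n → i + l + n = m → g ∈ Γ ^ (i + l) →
      (S * T) ^ n * g * (S ^ i * T ^ l * ∏ a, x a ^ γ a) ∈ Γ ^ m * W k x S T D m := by
  classical
  intro n
  induction n using Nat.strong_induction_on with
  | _ n ih =>
    intro γ i l g hγ hm hg
    by_cases hall : ∀ a, γ a < D a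
    · refine Submodule.mul_mem_mul ?_ ?_
      · rw [← hm, add_comm, pow_add]
        exact Submodule.mul_mem_mul (Submodule.pow_mem_pow _ hST _) hg
      · apply Submodule.subset_span
        refine ⟨(⟨i, by omega⟩, fun a => ⟨γ a, hall a⟩), ?_⟩
        simp only [red]
        rw [hγ]
        have : m - i - n = l := by omega
        rw [this]
    · push Not at hall
      obtain ⟨a, ha⟩ := hall
      set γ' : Fin M → ℕ := Function.update γ a (γ a - D a) with hγ'
      have hsplit : ∀ e : ℕ, ∏ b, x b ^ (Function.update γ a (γ a - D a + e)) b =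
          x a ^ e * ∏ b, x b ^ γ' b := by
        intro e
        rw [← Finset.mul_prod_erase Finset.univ
            (fun b => x b ^ (Function.update γ a (γ a - D a + e)) b) (Finset.mem_univ a),
          ← Finset.mul_prod_erase Finset.univ (fun b => x b ^ γ' b) (Finset.mem_univ a)]
        have h1 : ∏ b ∈ Finset.univ.erase a, x b ^ (Function.update γ a (γ a - D a + e)) b =
            ∏ b ∈ Finset.univ.erase a, x b ^ γ' b := by
          refine Finset.prod_congr rfl fun b hb => ?_
          have hba : b ≠ a := (Finset.mem_erase.1 hb).1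
          rw [hγ', Function.update_of_ne hba, Function.update_of_ne hba]
        rw [h1, hγ', Function.update_self, Function.update_self, pow_add]
        ring
      have hsum : ∀ e : ℕ, ∑ b, (Function.update γ a (γ a - D a + e)) b = n - D a + e := by
        intro e
        rw [← Finset.add_sum_erase _ _ (Finset.mem_univ a), Function.update_self]
        have h1 : ∑ b ∈ Finset.univ.erase a, (Function.update γ a (γ a - D a + e)) b =
            ∑ b ∈ Finset.univ.erase a, γ b := by
          refine Finset.sum_congr rfl fun b hb => ?_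
          have hba : b ≠ a := (Finset.mem_erase.1 hb).1
          rw [Function.update_of_ne hba]
        have h2 : γ a + ∑ b ∈ Finset.univ.erase a, γ b = n := by
          rw [Finset.add_sum_erase _ _ (Finset.mem_univ a)]
          exact hγ
        rw [h1]
        omega
      have hle : γ a ≤ n := by
        rw [← hγ]
        exact Finset.single_le_sum (f := γ) (fun _ _ => Nat.zero_le _) (Finset.mem_univ a)
      have hprod : ∏ b, x b ^ γ b = x a ^ D a * ∏ b, x b ^ γ' b := by
        rw [← hsplit (D a)]
        congr 1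
        ext b
        by_cases hb : b = a
        · subst hb
          rw [Function.update_self]
          congr 1
          omega
        · rw [Function.update_of_ne hb]
      have hgoal : ∀ z ∈ Submodule.span k {w : R | ∃ (e i l : ℕ) (h : R),
          e + i + l = D a ∧ e < D a ∧ h ∈ Γ ^ (i + l) ∧
          w = (S * T) ^ e * x a ^ e * (h * (S ^ i * T ^ l))},
          (S * T) ^ (n - D a) * g * (S ^ i * T ^ l) * (z * ∏ b, x b ^ γ' b) ∈
            Γ ^ m * W k x S T D m := by
        intro z hz
        induction hz using Submodule.span_induction with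
        | mem z hz =>
          obtain ⟨e, i', l', h, h1, h2, hh, rfl⟩ := hz
          have hgh : g * h ∈ Γ ^ ((i + i') + (l + l')) := by
            rw [show (i + i') + (l + l') = (i + l) + (i' + l') by omega, pow_add]
            exact Submodule.mul_mem_mul hg hh
          have h3 := ih (n - D a + e) (by omega) (Function.update γ a (γ a - D a + e)) (i + i')
            (l + l') (g * h) (hsum e) (by omega) hgh
          rw [hsplit e] at h3
          have h4 : (S * T) ^ (n - D a) * g * (S ^ i * T ^ l) *
              ((S * T) ^ e * x a ^ e * (h * (S ^ i' * T ^ l')) * ∏ b, x b ^ γ' b) =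
              (S * T) ^ (n - D a + e) * (g * h) *
                (S ^ (i + i') * T ^ (l + l') * (x a ^ e * ∏ b, x b ^ γ' b)) := by
            rw [pow_add, pow_add, pow_add]
            ring
          rw [h4]
          exact h3
        | zero => rw [zero_mul, mul_zero]; exact Submodule.zero_mem _
        | add z w _ _ hz hw => rw [add_mul, mul_add]; exact Submodule.add_mem _ hz hw
        | smul c z _ hz => rw [smul_mul_assoc, mul_smul_comm]; exact Submodule.smul_mem _ c hz
      have hfin := hgoal _ (hrel a)
      have h5 : (S * T) ^ n * g * (S ^ i * T ^ l * ∏ b, x b ^ γ b) =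
          (S * T) ^ (n - D a) * g * (S ^ i * T ^ l) *
            ((S * T) ^ D a * x a ^ D a * ∏ b, x b ^ γ' b) := by
        rw [hprod]
        have h6 : n = (n - D a) + D a := by omega
        conv_lhs => rw [h6, pow_add]
        ring
      rw [h5]
      exact hfin

/-- the products of `r` of the generators -/
theorem pow_le {ι : Type} [Fintype ι] (G : ι → R) (r : ℕ) :
    (Submodule.span k (Set.range G)) ^ r ≤
      Submodule.span k {w : R | ∃ a : ι → ℕ, ∑ o, a o = r ∧ w = ∏ o, G o ^ a o} := by
  classical
  induction r with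
  | zero =>
    rw [pow_zero, Submodule.one_eq_span, Submodule.span_le]
    rintro _ rfl
    exact Submodule.subset_span ⟨fun _ => 0, by simp, by simp⟩
  | succ r ih =>
    rw [pow_succ]
    refine (mul_le_mul' ih le_rfl).trans ?_
    rw [Submodule.span_mul_span, Submodule.span_le]
    rintro _ ⟨_, ⟨a, ha, rfl⟩, _, ⟨o, rfl⟩, rfl⟩
    refine Submodule.subset_span ⟨a + Pi.single o 1, ?_, ?_⟩
    · simp [Finset.sum_add_distrib, ha]
    · change (∏ o, G o ^ a o) * G o = ∏ i, G i ^ (a i + (Pi.single o 1 : ι → ℕ) i)
      rw [Finset.prod_congr rfl fun i _ => pow_add (G i) (a i) _, Finset.prod_mul_distrib]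
      congr 1
      rw [Finset.prod_eq_single o]
      · simp
      · intro i _ hi
        rw [Pi.single_eq_of_ne hi, pow_zero]
      · intro h
        exact absurd (Finset.mem_univ o) h

theorem pow_finrank {ι : Type} [Fintype ι] (G : ι → R) (r : ℕ) :
    Module.finrank k ((Submodule.span k (Set.range G)) ^ r : Submodule k R) ≤
      (r + 1) ^ Fintype.card ι := by
  classical
  set v : (ι → Fin (r + 1)) → R := fun a => ∏ o, G o ^ (a o : ℕ) with hv
  have h1 : (Submodule.span k (Set.range G)) ^ r ≤ Submodule.span k (Set.range v) := by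
    refine (pow_le G r).trans (Submodule.span_mono ?_)
    rintro _ ⟨a, ha, rfl⟩
    refine ⟨fun o => ⟨a o, ?_⟩, rfl⟩
    have : a o ≤ ∑ o, a o := Finset.single_le_sum (f := a) (fun _ _ => Nat.zero_le _) (Finset.mem_univ o)
    omega
  have : FiniteDimensional k (Submodule.span k (Set.range v)) :=
    FiniteDimensional.span_of_finite k (Set.finite_range _)
  refine (Submodule.finrank_mono h1).trans ((finrank_range_le_card v).trans ?_)
  rw [Fintype.card_fun, Fintype.card_fin]

theorem finrank_mul_le (P Q : Submodule k R) [FiniteDimensional k P] [FiniteDimensional k Q] :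
    Module.finrank k (P * Q : Submodule k R) ≤ Module.finrank k P * Module.finrank k Q := by
  rw [← Submodule.mulMap_range, ← Module.finrank_tensorProduct]
  exact LinearMap.finrank_range_le _

theorem fd_pow {ι : Type} [Finite ι] (G : ι → R) (r : ℕ) :
    FiniteDimensional k ((Submodule.span k (Set.range G)) ^ r : Submodule k R) := by
  have h : (Submodule.span k (Set.range G)).FG := Submodule.fg_span (Set.finite_range G)
  exact Module.Finite.iff_fg.2 (h.pow r)

end MGBM

open MGBM

theorem specMGB : SpecMGB := by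
  classical
  intro k _ Ω M f A s t N J τ hA hst hIE
  choose D P hD hP hc h0 using hIE
  let x : Fin M → (A → k) := fun a ω => f ω a
  let G : Option (Fin N) → (A → k) := fun o =>
    o.elim (x s * x t) (fun j => if τ j then x (J j) * x t else x (J j) * x s)
  have hG : ∀ o, (evA f A) (GG s t J τ o) = G o := by
    intro o
    have hX : ∀ a, (evA f A) (X a) = x a := fun a => aeval_X _ a
    rcases o with _ | j
    · change (evA f A) (X s * X t) = x s * x t
      rw [map_mul, hX, hX]
    · change (evA f A) (if τ j then X (J j) * X t else X (J j) * X s) =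
        if τ j then x (J j) * x t else x (J j) * x s
      by_cases hτ : τ j = true
      · rw [if_pos hτ, if_pos hτ, map_mul, hX, hX]
      · rw [if_neg hτ, if_neg hτ, map_mul, hX, hX]
  set Γ : Submodule k (A → k) := Submodule.span k (Set.range G) with hΓ
  have hΓmap : (Submodule.span k (Set.range (GG s t J τ))).map (evA f A).toLinearMap = Γ := by
    rw [Submodule.map_span, ← Set.range_comp, hΓ]
    congr 2
    funext o
    exact hG o
  have hWS : ∀ i r, WS f A (GG s t J τ) i r = FS f A i * Γ ^ r := by
    intro i r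
    unfold WS WP FS
    rw [Submodule.map_mul, Submodule.map_pow, hΓmap]
  have hFS0 : FS f A 0 = 1 := by
    unfold FS
    apply le_antisymm
    · rintro _ ⟨p, hp, rfl⟩
      have hp' : p.IsHomogeneous 0 := hp
      have h1 : p = C (p.coeff 0) := totalDegree_eq_zero_iff_eq_C.1 (Nat.le_zero.1 hp'.totalDegree_le)
      rw [h1]
      change (evA f A) (C (p.coeff 0)) ∈ (1 : Submodule k (A → k))
      rw [← algebraMap_eq, AlgHom.commutes]
      exact Submodule.algebraMap_mem _
    · rw [Submodule.one_le]
      exact ⟨1, isHomogeneous_one _ _, (evA f A).map_one⟩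
  have hWS0 : ∀ r, WS f A (GG s t J τ) 0 r = Γ ^ r := by
    intro r
    rw [hWS, hFS0, one_mul]
  have hfd : ∀ r, FiniteDimensional k (Γ ^ r : Submodule k (A → k)) := fun r => fd_pow G r
  have hθΓ : x s * x t ∈ Γ := Submodule.subset_span ⟨none, rfl⟩
  have hθ : ∀ (n : ℕ) (ω : A), ((x s * x t) ^ n) ω ≠ 0 := by
    intro n ω
    have h1 := hst ω.1 ω.2
    exact pow_ne_zero n (mul_ne_zero h1.1 h1.2)
  have hinj : ∀ n : ℕ, Function.Injective (LinearMap.mulLeft k ((x s * x t) ^ n)) := by
    intro n u v huv
    funext ω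
    have h1 : ((x s * x t) ^ n) ω * u ω = ((x s * x t) ^ n) ω * v ω := congrFun huv ω
    exact mul_left_cancel₀ (hθ n ω) h1
  have hrel : ∀ a, (x s * x t) ^ D a * x a ^ D a ∈ Submodule.span k {w : A → k |
      ∃ (e i l : ℕ) (h : A → k), e + i + l = D a ∧ e < D a ∧ h ∈ Γ ^ (i + l) ∧
      w = (x s * x t) ^ e * x a ^ e * (h * (x s ^ i * x t ^ l))} := by
    intro a
    refine rel (x s) (x t) (x a) (fun j => x (J j)) τ Γ
      (fun j => Submodule.subset_span ⟨some j, rfl⟩) (D a) (P a) (hP a) (hc a) ?_
    ext ω
    have h1 := h0 a ω.1 ω.2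
    have h2 : (aeval (fun o : Option (Fin N) => o.elim (x a) fun j => x (J j)) (P a)) ω =
        eval (fun o : Option (Fin N) => o.elim (f ω a) (fun j => f ω (J j))) (P a) := by
      have h3 := congrArg (fun φ => φ (P a)) (comp_aeval (R := k)
        (f := fun o : Option (Fin N) => o.elim (x a) fun j => x (J j))
        (Pi.evalAlgHom k (fun _ : A => k) ω))
      have h4 : (aeval (fun o : Option (Fin N) => o.elim (x a) fun j => x (J j)) (P a)) ω =
          aeval (fun o : Option (Fin N) => (Pi.evalAlgHom k (fun _ : A => k) ω)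
            (o.elim (x a) fun j => x (J j))) (P a) := h3
      have h5 : (fun o : Option (Fin N) => (Pi.evalAlgHom k (fun _ : A => k) ω)
          (o.elim (x a) fun j => x (J j))) =
          fun o : Option (Fin N) => o.elim (f ω a) (fun j => f ω (J j)) := by
        funext o
        cases o <;> rfl
      rw [h4, h5]
      exact congrArg (fun φ : MvPolynomial (Option (Fin N)) k →+* k => φ (P a))
        (coe_aeval_eq_eval _)
    rw [h2, h1]
    rfl
  have hFSW : ∀ m, ∀ z ∈ FS f A m,
      (x s * x t) ^ m * z ∈ Γ ^ m * W k x (x s) (x t) D m := by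
    rintro m _ ⟨p, hp, rfl⟩
    have hp' : p.IsHomogeneous m := hp
    have h1 : (evA f A) p = ∑ β ∈ p.support, p.coeff β • ∏ a, x a ^ β a := by
      have : (evA f A) p = aeval x p := rfl
      rw [this, aeval_def, eval₂_eq']
      refine Finset.sum_congr rfl fun β _ => ?_
      rw [Algebra.smul_def]
    have h1' : (evA f A).toLinearMap p = ∑ β ∈ p.support, p.coeff β • ∏ a, x a ^ β a := h1
    rw [h1', Finset.mul_sum]
    refine Submodule.sum_mem _ fun β hβ => ?_
    rw [mul_smul_comm]
    refine Submodule.smul_mem _ _ ?_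
    have hdeg : ∑ a, β a = m := by
      have h4 := hp' (mem_support_iff.1 hβ)
      rw [Finsupp.weight_apply, Finsupp.sum_fintype] at h4
      · simp only [Pi.one_apply, smul_eq_mul, mul_one] at h4
        exact h4
      · intro i
        simp
    have h5 := key (k := k) x (x s) (x t) Γ hθΓ D hrel m m (fun a => β a) 0 0 1 hdeg (by omega)
      (by
        rw [Nat.add_zero, pow_zero]
        exact (Submodule.one_le (P := (1 : Submodule k (A → k)))).1 le_rfl)
    rw [pow_zero, pow_zero, one_mul, one_mul, mul_one] at h5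
    exact h5
  refine ⟨∏ a, (D a : ℝ), Finset.prod_nonneg fun a _ => Nat.cast_nonneg _, ?_, ?_, ?_, ?_⟩
  · intro i r
    rw [hWS0, hWS]
    have hWfd : FiniteDimensional k (W k x (x s) (x t) D i) :=
      FiniteDimensional.span_of_finite k (Set.finite_range _)
    have e1 : Module.finrank k (FS f A i * Γ ^ r : Submodule k (A → k)) =
        Module.finrank k ((FS f A i * Γ ^ r : Submodule k (A → k)).map
          (LinearMap.mulLeft k ((x s * x t) ^ i))) :=
      (Submodule.equivMapOfInjective _ (hinj i) _).finrank_eq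
    have e2 : (FS f A i * Γ ^ r : Submodule k (A → k)).map
        (LinearMap.mulLeft k ((x s * x t) ^ i)) ≤ Γ ^ (r + i) * W k x (x s) (x t) D i := by
      rintro _ ⟨w, hw, rfl⟩
      change (x s * x t) ^ i * w ∈ _
      refine Submodule.mul_induction_on hw (fun m hm n hn => ?_) (fun u v hu hv => ?_)
      · have h1 := Submodule.mul_mem_mul (hFSW i m hm) hn
        rw [show Γ ^ (r + i) * W k x (x s) (x t) D i = Γ ^ i * W k x (x s) (x t) D i * Γ ^ r by
          rw [pow_add]; ring, ← mul_assoc]
        exact h1
      · rw [mul_add]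
        exact Submodule.add_mem _ hu hv
    have hfg : FiniteDimensional k (Γ ^ (r + i) * W k x (x s) (x t) D i : Submodule k (A → k)) :=
      Module.Finite.iff_fg.2 ((Module.Finite.iff_fg.1 (hfd (r + i))).mul
        (Module.Finite.iff_fg.1 hWfd))
    have e3 : Module.finrank k (FS f A i * Γ ^ r : Submodule k (A → k)) ≤
        Module.finrank k (Γ ^ (r + i) : Submodule k (A → k)) *
          Module.finrank k (W k x (x s) (x t) D i) := by
      rw [e1]
      exact (Submodule.finrank_mono e2).trans (finrank_mul_le _ _)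
    have e4 : Module.finrank k (W k x (x s) (x t) D i) ≤ (i + 1) * ∏ a, D a := by
      have h3 := finrank_range_le_card (R := k) (red x (x s) (x t) D i)
      rw [Fintype.card_prod, Fintype.card_fin, Fintype.card_pi] at h3
      simp only [Fintype.card_fin] at h3
      exact h3
    have e5 : Module.finrank k (FS f A i * Γ ^ r : Submodule k (A → k)) ≤
        Module.finrank k (Γ ^ (r + i) : Submodule k (A → k)) * ((i + 1) * ∏ a, D a) :=
      e3.trans (Nat.mul_le_mul_left _ e4)
    have e6 : (Module.finrank k (FS f A i * Γ ^ r : Submodule k (A → k)) : ℝ) ≤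
        ((Module.finrank k (Γ ^ (r + i) : Submodule k (A → k)) * ((i + 1) * ∏ a, D a) : ℕ) : ℝ) := by
      exact_mod_cast e5
    refine e6.trans (le_of_eq ?_)
    push_cast
    ring
  · intro r
    rw [hWS0, hWS0]
    have e1 : Module.finrank k (Γ ^ r : Submodule k (A → k)) =
        Module.finrank k ((Γ ^ r : Submodule k (A → k)).map
          (LinearMap.mulLeft k ((x s * x t) ^ 1))) :=
      (Submodule.equivMapOfInjective _ (hinj 1) _).finrank_eq
    have e2 : (Γ ^ r : Submodule k (A → k)).map
        (LinearMap.mulLeft k ((x s * x t) ^ 1)) ≤ Γ ^ (r + 1) := by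
      rintro _ ⟨w, hw, rfl⟩
      change (x s * x t) ^ 1 * w ∈ _
      rw [pow_one, pow_succ']
      exact Submodule.mul_mem_mul hθΓ hw
    have := hfd (r + 1)
    rw [e1]
    exact Submodule.finrank_mono e2
  · intro r
    rw [hWS0]
    have := hfd r
    rw [Nat.one_le_iff_ne_zero]
    intro h1
    rw [Submodule.finrank_eq_zero] at h1
    have h2 : (x s * x t) ^ r ∈ Γ ^ r := Submodule.pow_mem_pow _ hθΓ _
    rw [h1, Submodule.mem_bot] at h2
    obtain ⟨ω, hω⟩ := hA
    exact hθ r ⟨ω, hω⟩ (congrFun h2 ⟨ω, hω⟩)
  · intro r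
    rw [hWS0]
    have h1 := pow_finrank (k := k) G r
    rw [Fintype.card_option, Fintype.card_fin] at h1
    exact h1

end Pool.Agent.Lib.MP_d0e829_nt.GP
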