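import Pool.Agent.Lib.MP_d0e829_nt.GP.Spec

/-!
MP_d0e829_nt, module MGR: a growth lemma with a parameter.
-/

set_option autoImplicit false

namespace Pool.Agent.Lib.MP_d0e829_nt.GP

namespace MGRM

lemma lower (a : ℕ → ℝ) (η : ℝ) (hη : 0 < η) (h0 : a 0 = 1)
    (hstep : ∀ n : ℕ, (∑ j ∈ Finset.range (n + 1), a j) * ((n : ℝ) + 3 + η) ≤
      ((n : ℝ) + 1) * ∑ j ∈ Finset.range (n + 2), a j) (n : ℕ) :
    (1 / 2 + η / 2 * ∑ j ∈ Finset.range n, 1 / ((j : ℝ) + 3)) * (((n : ℝ) + 1) * (n + 2)) ≤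
      ∑ j ∈ Finset.range (n + 1), a j := by
  induction n with
  | zero => simp [h0]
  | succ n ih =>
    have hU : 1 / 2 ≤ 1 / 2 + η / 2 * ∑ j ∈ Finset.range n, 1 / ((j : ℝ) + 3) := by
      have : 0 ≤ η / 2 * ∑ j ∈ Finset.range n, 1 / ((j : ℝ) + 3) := by positivity
      linarith
    rw [Finset.sum_range_succ (fun j : ℕ => 1 / ((j : ℝ) + 3))]
    set U := 1 / 2 + η / 2 * ∑ j ∈ Finset.range n, 1 / ((j : ℝ) + 3) with hUdef
    have hn : (0 : ℝ) ≤ (n : ℝ) := Nat.cast_nonneg n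
    have h1 := hstep n
    have h2 : U * (((n : ℝ) + 1) * (n + 2)) * ((n : ℝ) + 3 + η) ≤
        ((n : ℝ) + 1) * ∑ j ∈ Finset.range (n + 2), a j :=
      (mul_le_mul_of_nonneg_right ih (by positivity)).trans h1
    have h3 : U * ((n : ℝ) + 2) * ((n : ℝ) + 3 + η) ≤ ∑ j ∈ Finset.range (n + 2), a j := by
      have h4 : ((n : ℝ) + 1) * (U * ((n : ℝ) + 2) * ((n : ℝ) + 3 + η)) ≤
          ((n : ℝ) + 1) * ∑ j ∈ Finset.range (n + 2), a j := by
        calc _ = U * (((n : ℝ) + 1) * (n + 2)) * ((n : ℝ) + 3 + η) := by ring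
          _ ≤ _ := h2
      exact le_of_mul_le_mul_left h4 (by positivity)
    have e : 1 / 2 + η / 2 * (∑ j ∈ Finset.range n, 1 / ((j : ℝ) + 3) + 1 / ((n : ℝ) + 3)) =
        U + η / 2 * (1 / ((n : ℝ) + 3)) := by
      rw [hUdef]
      ring
    rw [e]
    push_cast
    refine le_trans ?_ h3
    have h5 : (U + η / 2 * (1 / ((n : ℝ) + 3))) * (((n : ℝ) + 1 + 1) * ((n : ℝ) + 1 + 2)) =
        U * ((n : ℝ) + 2) * ((n : ℝ) + 3) + η / 2 * ((n : ℝ) + 2) := by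
      field_simp
      ring
    rw [h5]
    have h6 : 0 ≤ (U - 1 / 2) * (η * ((n : ℝ) + 2)) := by
      have : 0 ≤ U - 1 / 2 := by linarith
      positivity
    nlinarith

lemma mono0 (h : ℕ → ℝ) (hm : ∀ r, h r ≤ h (r + 1)) (r i : ℕ) : h r ≤ h (r + i) := by
  induction i with
  | zero => exact le_rfl
  | succ i ih => exact ih.trans (hm (r + i))

lemma upper (b h : ℕ → ℝ) (D : ℝ) (h0 : ∀ r, 0 ≤ h r) (hm : ∀ r, h r ≤ h (r + 1)) (r : ℕ)
    (hb : ∀ i : ℕ, b i ≤ D * (i + 1) * h (r + i)) (n : ℕ) :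
    ∑ j ∈ Finset.range (n + 1), b j ≤ |D| / 2 * (((n : ℝ) + 1) * (n + 2)) * h (r + n) := by
  induction n with
  | zero =>
    have h1 := hb 0
    have h2 : D * h r ≤ |D| * h r := mul_le_mul_of_nonneg_right (le_abs_self D) (h0 r)
    simp only [Nat.cast_zero, zero_add, mul_one, add_zero, Finset.range_one, Finset.sum_singleton, one_mul] at h1 ⊢
    linarith
  | succ n ih =>
    rw [Finset.sum_range_succ]
    have h1 := hb (n + 1)
    have hn : (0 : ℝ) ≤ (n : ℝ) := Nat.cast_nonneg n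
    have h2 : D * (((n + 1 : ℕ) : ℝ) + 1) * h (r + (n + 1)) ≤
        |D| * (((n + 1 : ℕ) : ℝ) + 1) * h (r + (n + 1)) :=
      mul_le_mul_of_nonneg_right (mul_le_mul_of_nonneg_right (le_abs_self D) (by positivity)) (h0 _)
    have h3 : |D| / 2 * (((n : ℝ) + 1) * (n + 2)) * h (r + n) ≤
        |D| / 2 * (((n : ℝ) + 1) * (n + 2)) * h (r + (n + 1)) :=
      mul_le_mul_of_nonneg_left (hm (r + n)) (by positivity)
    push_cast at h1 h2 ⊢
    have h4 : |D| / 2 * (((n : ℝ) + 1 + 1) * ((n : ℝ) + 1 + 2)) * h (r + (n + 1)) =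
        |D| / 2 * (((n : ℝ) + 1) * (n + 2)) * h (r + (n + 1)) + |D| * ((n : ℝ) + 1 + 1) * h (r + (n + 1)) := by
      ring
    rw [h4]
    linarith

lemma not_doubling (h : ℕ → ℝ) (N n : ℕ) (h1 : ∀ r, 1 ≤ h r) (hN : ∀ r : ℕ, h r ≤ ((r : ℝ) + 1) ^ N)
    (hd : ∀ r, 2 * h r ≤ h (r + n)) : False := by
  have h2 : ∀ t : ℕ, (2 : ℝ) ^ t ≤ h (t * n) := by
    intro t
    induction t with
    | zero => simpa using h1 0
    | succ t ih =>
      have h3 := hd (t * n)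
      have e : (t + 1) * n = t * n + n := by ring
      rw [e, pow_succ]
      linarith
  have h3 : ∀ t : ℕ, 1 ≤ t → (2 : ℝ) ^ t ≤ (t : ℝ) ^ N * ((n : ℝ) + 1) ^ N := by
    intro t ht
    refine (h2 t).trans ((hN _).trans ?_)
    rw [← mul_pow]
    refine pow_le_pow_left₀ (by positivity) ?_ N
    have : (1 : ℝ) ≤ t := by exact_mod_cast ht
    push_cast
    nlinarith
  have h4 := tendsto_pow_const_div_const_pow_of_one_lt N (one_lt_two : (1 : ℝ) < 2)
  have hpos : (0 : ℝ) < 1 / ((n : ℝ) + 1) ^ N := by positivity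
  have h5 := (h4.eventually (gt_mem_nhds hpos)).and (Filter.eventually_ge_atTop 1)
  obtain ⟨t, ht, ht1⟩ := h5.exists
  have h6 := h3 t ht1
  have h7 : (0 : ℝ) < ((n : ℝ) + 1) ^ N := by positivity
  rw [div_lt_div_iff₀ (by positivity) h7, one_mul] at ht
  linarith

end MGRM

theorem specMGR : SpecMGR := by
  intro H D N hnn hD hm h1 hN ε hε
  by_contra hcon
  push Not at hcon
  have hθ : 0 < 1 / 2 - ε := by
    by_contra h
    push Not at h
    have h2 := hcon 1 0 one_pos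
    have h3 : (1 / 2 - ε) * (((1 : ℕ) : ℝ) * H 1 0) ≤ 0 :=
      mul_nonpos_of_nonpos_of_nonneg h (mul_nonneg (by norm_num) (hnn 1 0))
    have h4 : 0 ≤ ∑ j ∈ Finset.range 1, H j 0 := Finset.sum_nonneg fun j _ => hnn j 0
    linarith
  obtain ⟨θ, hθdef⟩ : ∃ θ : ℝ, θ = 1 / 2 - ε := ⟨_, rfl⟩
  rw [← hθdef] at hθ
  obtain ⟨η, hηdef⟩ : ∃ η : ℝ, η = 1 / θ - 2 := ⟨_, rfl⟩
  have hη : 0 < η := by
    have : 2 < 1 / θ := by
      rw [lt_div_iff₀ hθ]
      linarith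
    linarith
  have hlow : ∀ r n : ℕ, (1 / 2 + η / 2 * ∑ j ∈ Finset.range n, 1 / ((j : ℝ) + 3)) *
      (((n : ℝ) + 1) * (n + 2)) * H 0 r ≤ ∑ j ∈ Finset.range (n + 1), H j r := by
    intro r n
    have hr : 0 < H 0 r := lt_of_lt_of_le one_pos (h1 r)
    have h2 := MGRM.lower (fun j => H j r / H 0 r) η hη (div_self (ne_of_gt hr)) (by
      intro n
      have h3 := hcon (n + 1) r (Nat.succ_pos n)
      rw [← hθdef] at h3
      have h4 : (∑ j ∈ Finset.range (n + 1), H j r) * (1 / θ) ≤ ((n + 1 : ℕ) : ℝ) * H (n + 1) r := by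
        rw [mul_one_div, div_le_iff₀ hθ]
        linarith
      simp only [← Finset.sum_div]
      rw [Finset.sum_range_succ _ (n + 1)]
      have h5 : η + 2 = 1 / θ := by rw [hηdef]; ring
      push_cast at h4
      have h6 : (∑ j ∈ Finset.range (n + 1), H j r) * ((n : ℝ) + 3 + η) =
          (∑ j ∈ Finset.range (n + 1), H j r) * ((n : ℝ) + 1) +
            (∑ j ∈ Finset.range (n + 1), H j r) * (1 / θ) := by
        rw [← h5]
        ring
      rw [div_mul_eq_mul_div, mul_div_assoc', div_le_div_iff_of_pos_right hr, h6]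
      linarith) n
    simp only [← Finset.sum_div] at h2
    rw [le_div_iff₀ hr] at h2
    exact h2
  have hup : ∀ r n : ℕ, ∑ j ∈ Finset.range (n + 1), H j r ≤
      |D| / 2 * (((n : ℝ) + 1) * (n + 2)) * H 0 (r + n) := by
    intro r n
    exact MGRM.upper (fun j => H j r) (H 0) D (fun r => hnn 0 r) hm r (fun i => hD i r) n
  have hboth : ∀ r n : ℕ, (1 + η * ∑ j ∈ Finset.range n, 1 / ((j : ℝ) + 3)) * H 0 r ≤ |D| * H 0 (r + n) := by
    intro r n
    have h2 := (hlow r n).trans (hup r n)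
    have hn : (0 : ℝ) ≤ (n : ℝ) := Nat.cast_nonneg n
    have hp : (0 : ℝ) < ((n : ℝ) + 1) * (n + 2) / 2 := by positivity
    refine le_of_mul_le_mul_right ?_ hp
    calc (1 + η * ∑ j ∈ Finset.range n, 1 / ((j : ℝ) + 3)) * H 0 r * (((n : ℝ) + 1) * (n + 2) / 2) =
        (1 / 2 + η / 2 * ∑ j ∈ Finset.range n, 1 / ((j : ℝ) + 3)) * (((n : ℝ) + 1) * (n + 2)) * H 0 r := by ring
      _ ≤ |D| / 2 * (((n : ℝ) + 1) * (n + 2)) * H 0 (r + n) := h2
      _ = |D| * H 0 (r + n) * (((n : ℝ) + 1) * (n + 2) / 2) := by ring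
  have ht := Real.tendsto_sum_range_one_div_nat_succ_atTop
  obtain ⟨n, hn⟩ := ((Filter.tendsto_atTop.mp ht) (3 * (2 * (|D| + 1)) / η)).exists
  have h4 : ∑ j ∈ Finset.range n, 1 / ((j : ℝ) + 1) ≤
      3 * ∑ j ∈ Finset.range n, 1 / ((j : ℝ) + 3) := by
    rw [Finset.mul_sum]
    refine Finset.sum_le_sum fun j _ => ?_
    have hj : (0 : ℝ) ≤ (j : ℝ) := Nat.cast_nonneg j
    rw [mul_one_div, div_le_div_iff₀ (by positivity) (by positivity)]
    linarith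
  have h5 : 2 * (|D| + 1) ≤ η * ∑ j ∈ Finset.range n, 1 / ((j : ℝ) + 3) := by
    have h6 := hn.trans h4
    rw [div_le_iff₀ hη] at h6
    linarith
  refine MGRM.not_doubling (H 0) N n h1 hN fun r => ?_
  have h7 := hboth r n
  have hr : 0 < H 0 r := lt_of_lt_of_le one_pos (h1 r)
  have hrn : 0 < H 0 (r + n) := lt_of_lt_of_le one_pos (h1 (r + n))
  have hA : 0 ≤ |D| := abs_nonneg D
  have h8 : 2 * (|D| + 1) * H 0 r ≤ (|D| + 1) * H 0 (r + n) := by
    calc 2 * (|D| + 1) * H 0 r ≤ (1 + η * ∑ j ∈ Finset.range n, 1 / ((j : ℝ) + 3)) * H 0 r :=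
          mul_le_mul_of_nonneg_right (by linarith) hr.le
      _ ≤ |D| * H 0 (r + n) := h7
      _ ≤ (|D| + 1) * H 0 (r + n) := mul_le_mul_of_nonneg_right (by linarith) hrn.le
  refine le_of_mul_le_mul_left ?_ (show (0 : ℝ) < |D| + 1 by linarith)
  linarith

end Pool.Agent.Lib.MP_d0e829_nt.GP
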