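import Pool.Agent.Lib.MP_d0e829_nt.GP.SpecU
import Pool.Agent.Lib.MP_d0e829_nt.GP.MGB

/-!
# Module MGX: growth bounds with an explicit constant (adapted from GP/MGB.lean)
-/

set_option autoImplicit false

open MvPolynomial
open Pool.Agent.Lib.MP_d0e829_nt.SS Pool.Agent.Lib.MP_d0e829_nt.SI

namespace Pool.Agent.Lib.MP_d0e829_nt.GP

open MGBM

theorem specMGX : SpecMGX := by
  classical
  intro k _ Ω M f A s t N b J τ hA hst hIE
  choose D P hD hDb hP hc h0 using hIE
  let x : Fin M → (A → k) := fun a ω => f ω a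
  let G : Option (Fin N) → (A → k) := fun o =>
    o.elim (x s * x t) (fun j => if τ j then x (J j) * x t else x (J j) * x s)
  have hG : ∀ o, (evA f A) (GG s t J τ o) = G o := by
    intro o
    have hX : ∀ a, (evA f A) (X a) = x a := fun a => aeval_X _ a
    rcases o with _ | j
    · change (evA f A) (X s * X t) = x s * x t
      rw [map_mul, hX, hX]
    · change (evA f A) (if τ j then X (J j) * X t else X (J j) * X s) =
        if τ j then x (J j) * x t else x (J j) * x s
      by_cases hτ : τ j = true
      · rw [if_pos hτ, if_pos hτ, map_mul, hX, hX]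
      · rw [if_neg hτ, if_neg hτ, map_mul, hX, hX]
  set Γ : Submodule k (A → k) := Submodule.span k (Set.range G) with hΓ
  have hΓmap : (Submodule.span k (Set.range (GG s t J τ))).map (evA f A).toLinearMap = Γ := by
    rw [Submodule.map_span, ← Set.range_comp, hΓ]
    congr 2
    funext o
    exact hG o
  have hWS : ∀ i r, WS f A (GG s t J τ) i r = FS f A i * Γ ^ r := by
    intro i r
    unfold WS WP FS
    rw [Submodule.map_mul, Submodule.map_pow, hΓmap]
  have hFS0 : FS f A 0 = 1 := by
    unfold FS
    apply le_antisymm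
    · rintro _ ⟨p, hp, rfl⟩
      have hp' : p.IsHomogeneous 0 := hp
      have h1 : p = C (p.coeff 0) := totalDegree_eq_zero_iff_eq_C.1 (Nat.le_zero.1 hp'.totalDegree_le)
      rw [h1]
      change (evA f A) (C (p.coeff 0)) ∈ (1 : Submodule k (A → k))
      rw [← algebraMap_eq, AlgHom.commutes]
      exact Submodule.algebraMap_mem _
    · rw [Submodule.one_le]
      exact ⟨1, isHomogeneous_one _ _, (evA f A).map_one⟩
  have hWS0 : ∀ r, WS f A (GG s t J τ) 0 r = Γ ^ r := by
    intro r
    rw [hWS, hFS0, one_mul]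
  have hfd : ∀ r, FiniteDimensional k (Γ ^ r : Submodule k (A → k)) := fun r => fd_pow G r
  have hθΓ : x s * x t ∈ Γ := Submodule.subset_span ⟨none, rfl⟩
  have hθ : ∀ (n : ℕ) (ω : A), ((x s * x t) ^ n) ω ≠ 0 := by
    intro n ω
    have h1 := hst ω.1 ω.2
    exact pow_ne_zero n (mul_ne_zero h1.1 h1.2)
  have hinj : ∀ n : ℕ, Function.Injective (LinearMap.mulLeft k ((x s * x t) ^ n)) := by
    intro n u v huv
    funext ω
    have h1 : ((x s * x t) ^ n) ω * u ω = ((x s * x t) ^ n) ω * v ω := congrFun huv ω
    exact mul_left_cancel₀ (hθ n ω) h1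
  have hrel : ∀ a, (x s * x t) ^ D a * x a ^ D a ∈ Submodule.span k {w : A → k |
      ∃ (e i l : ℕ) (h : A → k), e + i + l = D a ∧ e < D a ∧ h ∈ Γ ^ (i + l) ∧
      w = (x s * x t) ^ e * x a ^ e * (h * (x s ^ i * x t ^ l))} := by
    intro a
    refine rel (x s) (x t) (x a) (fun j => x (J j)) τ Γ
      (fun j => Submodule.subset_span ⟨some j, rfl⟩) (D a) (P a) (hP a) (hc a) ?_
    ext ω
    have h1 := h0 a ω.1 ω.2
    have h2 : (aeval (fun o : Option (Fin N) => o.elim (x a) fun j => x (J j)) (P a)) ω =
        eval (fun o : Option (Fin N) => o.elim (f ω a) (fun j => f ω (J j))) (P a) := by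
      have h3 := congrArg (fun φ => φ (P a)) (comp_aeval (R := k)
        (f := fun o : Option (Fin N) => o.elim (x a) fun j => x (J j))
        (Pi.evalAlgHom k (fun _ : A => k) ω))
      have h4 : (aeval (fun o : Option (Fin N) => o.elim (x a) fun j => x (J j)) (P a)) ω =
          aeval (fun o : Option (Fin N) => (Pi.evalAlgHom k (fun _ : A => k) ω)
            (o.elim (x a) fun j => x (J j))) (P a) := h3
      have h5 : (fun o : Option (Fin N) => (Pi.evalAlgHom k (fun _ : A => k) ω)
          (o.elim (x a) fun j => x (J j))) =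
          fun o : Option (Fin N) => o.elim (f ω a) (fun j => f ω (J j)) := by
        funext o
        cases o <;> rfl
      rw [h4, h5]
      exact congrArg (fun φ : MvPolynomial (Option (Fin N)) k →+* k => φ (P a))
        (coe_aeval_eq_eval _)
    rw [h2, h1]
    rfl
  have hFSW : ∀ m, ∀ z ∈ FS f A m,
      (x s * x t) ^ m * z ∈ Γ ^ m * W k x (x s) (x t) D m := by
    rintro m _ ⟨p, hp, rfl⟩
    have hp' : p.IsHomogeneous m := hp
    have h1 : (evA f A) p = ∑ β ∈ p.support, p.coeff β • ∏ a, x a ^ β a := by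
      have : (evA f A) p = aeval x p := rfl
      rw [this, aeval_def, eval₂_eq']
      refine Finset.sum_congr rfl fun β _ => ?_
      rw [Algebra.smul_def]
    have h1' : (evA f A).toLinearMap p = ∑ β ∈ p.support, p.coeff β • ∏ a, x a ^ β a := h1
    rw [h1', Finset.mul_sum]
    refine Submodule.sum_mem _ fun β hβ => ?_
    rw [mul_smul_comm]
    refine Submodule.smul_mem _ _ ?_
    have hdeg : ∑ a, β a = m := by
      have h4 := hp' (mem_support_iff.1 hβ)
      rw [Finsupp.weight_apply, Finsupp.sum_fintype] at h4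
      · simp only [Pi.one_apply, smul_eq_mul, mul_one] at h4
        exact h4
      · intro i
        simp
    have h5 := key (k := k) x (x s) (x t) Γ hθΓ D hrel m m (fun a => β a) 0 0 1 hdeg (by omega)
      (by
        rw [Nat.add_zero, pow_zero]
        exact (Submodule.one_le (P := (1 : Submodule k (A → k)))).1 le_rfl)
    rw [pow_zero, pow_zero, one_mul, one_mul, mul_one] at h5
    exact h5
  refine ⟨?_, ?_, ?_, ?_⟩
  · intro i r
    rw [hWS0, hWS]
    have hWfd : FiniteDimensional k (W k x (x s) (x t) D i) :=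
      FiniteDimensional.span_of_finite k (Set.finite_range _)
    have e1 : Module.finrank k (FS f A i * Γ ^ r : Submodule k (A → k)) =
        Module.finrank k ((FS f A i * Γ ^ r : Submodule k (A → k)).map
          (LinearMap.mulLeft k ((x s * x t) ^ i))) :=
      (Submodule.equivMapOfInjective _ (hinj i) _).finrank_eq
    have e2 : (FS f A i * Γ ^ r : Submodule k (A → k)).map
        (LinearMap.mulLeft k ((x s * x t) ^ i)) ≤ Γ ^ (r + i) * W k x (x s) (x t) D i := by
      rintro _ ⟨w, hw, rfl⟩
      change (x s * x t) ^ i * w ∈ _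
      refine Submodule.mul_induction_on hw (fun m hm n hn => ?_) (fun u v hu hv => ?_)
      · have h1 := Submodule.mul_mem_mul (hFSW i m hm) hn
        rw [show Γ ^ (r + i) * W k x (x s) (x t) D i = Γ ^ i * W k x (x s) (x t) D i * Γ ^ r by
          rw [pow_add]; ring, ← mul_assoc]
        exact h1
      · rw [mul_add]
        exact Submodule.add_mem _ hu hv
    have hfg : FiniteDimensional k (Γ ^ (r + i) * W k x (x s) (x t) D i : Submodule k (A → k)) :=
      Module.Finite.iff_fg.2 ((Module.Finite.iff_fg.1 (hfd (r + i))).mul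
        (Module.Finite.iff_fg.1 hWfd))
    have e3 : Module.finrank k (FS f A i * Γ ^ r : Submodule k (A → k)) ≤
        Module.finrank k (Γ ^ (r + i) : Submodule k (A → k)) *
          Module.finrank k (W k x (x s) (x t) D i) := by
      rw [e1]
      exact (Submodule.finrank_mono e2).trans (finrank_mul_le _ _)
    have e4 : Module.finrank k (W k x (x s) (x t) D i) ≤ (i + 1) * ∏ a, D a := by
      have h3 := finrank_range_le_card (R := k) (red x (x s) (x t) D i)
      rw [Fintype.card_prod, Fintype.card_fin, Fintype.card_pi] at h3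
      simp only [Fintype.card_fin] at h3
      exact h3
    have eb : ∏ a, D a ≤ b ^ M := by
      have h3 : ∏ a, D a ≤ ∏ _a : Fin M, b :=
        Finset.prod_le_prod (fun _ _ => Nat.zero_le _) (fun a _ => hDb a)
      rw [Finset.prod_const, Finset.card_univ, Fintype.card_fin] at h3
      exact h3
    have e5 : Module.finrank k (FS f A i * Γ ^ r : Submodule k (A → k)) ≤
        Module.finrank k (Γ ^ (r + i) : Submodule k (A → k)) * ((i + 1) * b ^ M) :=
      e3.trans (Nat.mul_le_mul_left _ (e4.trans (Nat.mul_le_mul_left _ eb)))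
    have e6 : (Module.finrank k (FS f A i * Γ ^ r : Submodule k (A → k)) : ℝ) ≤
        ((Module.finrank k (Γ ^ (r + i) : Submodule k (A → k)) * ((i + 1) * b ^ M) : ℕ) : ℝ) := by
      exact_mod_cast e5
    refine e6.trans (le_of_eq ?_)
    push_cast
    ring
  · intro r
    rw [hWS0, hWS0]
    have e1 : Module.finrank k (Γ ^ r : Submodule k (A → k)) =
        Module.finrank k ((Γ ^ r : Submodule k (A → k)).map
          (LinearMap.mulLeft k ((x s * x t) ^ 1))) :=
      (Submodule.equivMapOfInjective _ (hinj 1) _).finrank_eq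
    have e2 : (Γ ^ r : Submodule k (A → k)).map
        (LinearMap.mulLeft k ((x s * x t) ^ 1)) ≤ Γ ^ (r + 1) := by
      rintro _ ⟨w, hw, rfl⟩
      change (x s * x t) ^ 1 * w ∈ _
      rw [pow_one, pow_succ']
      exact Submodule.mul_mem_mul hθΓ hw
    have := hfd (r + 1)
    rw [e1]
    exact Submodule.finrank_mono e2
  · intro r
    rw [hWS0]
    have := hfd r
    rw [Nat.one_le_iff_ne_zero]
    intro h1
    rw [Submodule.finrank_eq_zero] at h1
    have h2 : (x s * x t) ^ r ∈ Γ ^ r := Submodule.pow_mem_pow _ hθΓ _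
    rw [h1, Submodule.mem_bot] at h2
    obtain ⟨ω, hω⟩ := hA
    exact hθ r ⟨ω, hω⟩ (congrFun h2 ⟨ω, hω⟩)
  · intro r
    rw [hWS0]
    have h1 := pow_finrank (k := k) G r
    rw [Fintype.card_option, Fintype.card_fin] at h1
    exact h1

end Pool.Agent.Lib.MP_d0e829_nt.GP
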