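import Pool.Agent.Lib.MP_d0e829_nt.GP.SpecU
import Pool.Agent.Lib.MP_d0e829_nt.GP.MGR

/-!
MP_d0e829_nt, module MGY: the growth lemma with a bound for `r` which does not depend on the array.
-/

set_option autoImplicit false

namespace Pool.Agent.Lib.MP_d0e829_nt.GP

namespace MGYM

/-- an exponential beats a power -/
lemma exists_t (N n : ℕ) : ∃ t : ℕ, (((t * n : ℕ) : ℝ) + 1) ^ N < (2 : ℝ) ^ t := by
  have h4 := tendsto_pow_const_div_const_pow_of_one_lt N (one_lt_two : (1 : ℝ) < 2)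
  have hpos : (0 : ℝ) < 1 / ((n : ℝ) + 1) ^ N := by positivity
  have h5 := (h4.eventually (gt_mem_nhds hpos)).and (Filter.eventually_ge_atTop 1)
  obtain ⟨t, ht, ht1⟩ := h5.exists
  refine ⟨t, ?_⟩
  have h7 : (0 : ℝ) < ((n : ℝ) + 1) ^ N := by positivity
  rw [div_lt_div_iff₀ (by positivity) h7, one_mul, ← mul_pow] at ht
  refine lt_of_le_of_lt ?_ ht
  refine pow_le_pow_left₀ (by positivity) ?_ N
  have : (1 : ℝ) ≤ t := by exact_mod_cast ht1
  push_cast
  nlinarith

/-- doubling up to the bound -/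
lemma doubling (h : ℕ → ℝ) (n t : ℕ) (h1 : ∀ r, 1 ≤ h r)
    (hd : ∀ r, r ≤ t * n → 2 * h r ≤ h (r + n)) : ∀ i : ℕ, i ≤ t → (2 : ℝ) ^ i ≤ h (i * n) := by
  intro i
  induction i with
  | zero =>
    intro _
    simpa using h1 0
  | succ i ih =>
    intro hi
    have h2 := ih (by omega)
    have h3 := hd (i * n) (Nat.mul_le_mul_right n (by omega))
    have e : (i + 1) * n = i * n + n := by ring
    rw [e, pow_succ]
    linarith

end MGYM

theorem specMGY : SpecMGY := by
  intro D N γ hγ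
  obtain ⟨η, hηdef⟩ : ∃ η : ℝ, η = γ - 2 := ⟨_, rfl⟩
  have hη : 0 < η := by linarith
  -- the number of steps, from the harmonic series
  have ht := Real.tendsto_sum_range_one_div_nat_succ_atTop
  obtain ⟨n, hn⟩ := ((Filter.tendsto_atTop.mp ht) (3 * (2 * (|D| + 1)) / η)).exists
  have h4 : ∑ j ∈ Finset.range n, 1 / ((j : ℝ) + 1) ≤
      3 * ∑ j ∈ Finset.range n, 1 / ((j : ℝ) + 3) := by
    rw [Finset.mul_sum]
    refine Finset.sum_le_sum fun j _ => ?_
    have hj : (0 : ℝ) ≤ (j : ℝ) := Nat.cast_nonneg j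
    rw [mul_one_div, div_le_div_iff₀ (by positivity) (by positivity)]
    linarith
  have h5 : 2 * (|D| + 1) ≤ η * ∑ j ∈ Finset.range n, 1 / ((j : ℝ) + 3) := by
    have h6 := hn.trans h4
    rw [div_le_iff₀ hη] at h6
    linarith
  obtain ⟨t, ht⟩ := MGYM.exists_t N n
  refine ⟨t * n, ?_⟩
  intro H hnn hD hm h1 hN
  by_contra hcon
  push Not at hcon
  have hstep : ∀ r : ℕ, r ≤ t * n → 2 * H 0 r ≤ H 0 (r + n) := by
    intro r hrR
    have hr : 0 < H 0 r := lt_of_lt_of_le one_pos (h1 r)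
    have h2 := MGRM.lower (fun j => H j r / H 0 r) η hη (div_self (ne_of_gt hr)) (by
      intro i
      have h3 := hcon (i + 1) r (Nat.succ_pos i) hrR
      simp only [← Finset.sum_div]
      rw [Finset.sum_range_succ _ (i + 1)]
      have h5 : γ = η + 2 := by rw [hηdef]; ring
      rw [h5] at h3
      push_cast at h3
      have h6 : (∑ j ∈ Finset.range (i + 1), H j r) * ((i : ℝ) + 3 + η) =
          (∑ j ∈ Finset.range (i + 1), H j r) * ((i : ℝ) + 1) +
            (η + 2) * ∑ j ∈ Finset.range (i + 1), H j r := by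
        ring
      rw [div_mul_eq_mul_div, mul_div_assoc', div_le_div_iff_of_pos_right hr, h6]
      linarith) n
    simp only [← Finset.sum_div] at h2
    rw [le_div_iff₀ hr] at h2
    have hup := MGRM.upper (fun j => H j r) (H 0) D (fun r => hnn 0 r) hm r (fun i => hD i r) n
    have h3 := h2.trans hup
    have hn0 : (0 : ℝ) ≤ (n : ℝ) := Nat.cast_nonneg n
    have hp : (0 : ℝ) < ((n : ℝ) + 1) * (n + 2) / 2 := by positivity
    have h7 : (1 + η * ∑ j ∈ Finset.range n, 1 / ((j : ℝ) + 3)) * H 0 r ≤ |D| * H 0 (r + n) := by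
      refine le_of_mul_le_mul_right ?_ hp
      calc (1 + η * ∑ j ∈ Finset.range n, 1 / ((j : ℝ) + 3)) * H 0 r *
            (((n : ℝ) + 1) * (n + 2) / 2) =
          (1 / 2 + η / 2 * ∑ j ∈ Finset.range n, 1 / ((j : ℝ) + 3)) *
            (((n : ℝ) + 1) * (n + 2)) * H 0 r := by ring
        _ ≤ |D| / 2 * (((n : ℝ) + 1) * (n + 2)) * H 0 (r + n) := h3
        _ = |D| * H 0 (r + n) * (((n : ℝ) + 1) * (n + 2) / 2) := by ring
    have hrn : 0 < H 0 (r + n) := lt_of_lt_of_le one_pos (h1 (r + n))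
    have hA : 0 ≤ |D| := abs_nonneg D
    have h8 : 2 * (|D| + 1) * H 0 r ≤ (|D| + 1) * H 0 (r + n) := by
      calc 2 * (|D| + 1) * H 0 r
          ≤ (1 + η * ∑ j ∈ Finset.range n, 1 / ((j : ℝ) + 3)) * H 0 r :=
            mul_le_mul_of_nonneg_right (by linarith) hr.le
        _ ≤ |D| * H 0 (r + n) := h7
        _ ≤ (|D| + 1) * H 0 (r + n) := mul_le_mul_of_nonneg_right (by linarith) hrn.le
    refine le_of_mul_le_mul_left ?_ (show (0 : ℝ) < |D| + 1 by linarith)
    linarith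
  have h9 := MGYM.doubling (H 0) n t h1 hstep t le_rfl
  have h10 := hN (t * n)
  linarith

end Pool.Agent.Lib.MP_d0e829_nt.GP
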