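import Pool.Agent.Lib.MP_d0e829_nt.GP.Spec

/-!
# MLB: degree `n ≥ 2`
-/

set_option autoImplicit false

open NumberField MvPolynomial
open Pool.Agent.Lib.MP_d0e829_nt.SS Pool.Agent.Lib.MP_d0e829_nt.SI

namespace Pool.Agent.Lib.MP_d0e829_nt.GP

open scoped Classical

namespace MLBM

lemma smSys {Ω : Type} (U : Ultrafilter Ω) : SmSys (SmU U) := by
  refine ⟨Filter.Eventually.of_forall fun ω h => h, ?_, ?_⟩
  · intro A B hAB hB
    exact hB.mono fun ω hω h => hω (hAB h)
  · intro A B hA hB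
    filter_upwards [hA, hB] with ω h1 h2 h3
    rcases h3 with h3 | h3
    · exact h1 h3
    · exact h2 h3

lemma dot {k : Type} [Field k] {M : ℕ} (a : Fin M) (f : Fin M → k) :
    (Pi.single a (1 : k) : Fin M → k) ⬝ᵥ f = f a := by
  rw [single_dotProduct, one_mul]

lemma val_eq {k : Type} [Field k] [NumberField k] {M : ℕ} (v : Place k) (a : Fin M)
    (f : Fin M → k) : val v (Pi.single a (1 : k)) f = vl v a f := by
  unfold val vl
  rw [dot]

lemma hom {k : Type} [Field k] {M N : ℕ} (s t : Fin M) (J : Fin N → Fin M) (τ : Fin N → Bool)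
    (o : Option (Fin N)) : (GG (k := k) s t J τ o).IsHomogeneous 2 := by
  cases o with
  | none => exact (isHomogeneous_X k s).mul (isHomogeneous_X k t)
  | some j =>
    show (if τ j then (X (J j) : MvPolynomial (Fin M) k) * X t else X (J j) * X s).IsHomogeneous 2
    split_ifs
    · exact (isHomogeneous_X k (J j)).mul (isHomogeneous_X k t)
    · exact (isHomogeneous_X k (J j)).mul (isHomogeneous_X k s)

lemma none_ne {k : Type} [Field k] {M N : ℕ} (s t : Fin M) (J : Fin N → Fin M) (τ : Fin N → Bool)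
    (f : Fin M → k) (hs : f s ≠ 0) (ht : f t ≠ 0) : eval f (GG (k := k) s t J τ none) ≠ 0 := by
  show eval f (X s * X t) ≠ 0
  rw [map_mul, eval_X, eval_X]
  exact mul_ne_zero hs ht

/-- a finite sum of small functions is small -/
lemma losum {Ω : Type} (U : Ultrafilter Ω) (h : Ω → ℝ) (N : ℕ) (g : Fin N → Ω → ℝ) (F : Ω → ℝ)
    (A : Set Ω) (hA : ∀ᶠ ω in (U : Filter Ω), ω ∈ A) (hh : ∀ ω ∈ A, 0 ≤ h ω)
    (hg : ∀ j, LO U h (g j)) (hF : ∀ ω ∈ A, F ω ≤ ∑ j, g j ω) : LO U h F := by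
  intro η hη
  have hN : (0 : ℝ) < (N : ℝ) + 1 := by positivity
  have h1 : ∀ᶠ ω in (U : Filter Ω), ∀ j, g j ω ≤ η / (N + 1) * h ω :=
    Filter.eventually_all.2 fun j => hg j (η / (N + 1)) (by positivity)
  filter_upwards [h1, hA] with ω h2 h3
  refine (hF ω h3).trans ?_
  have h4 : ∑ j : Fin N, g j ω ≤ ∑ _j : Fin N, η / (N + 1) * h ω :=
    Finset.sum_le_sum fun j _ => h2 j
  rw [Finset.sum_const, Finset.card_univ, Fintype.card_fin, nsmul_eq_mul] at h4
  refine h4.trans ?_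
  have h5 : (N : ℝ) * (η / (N + 1) * h ω) = (N / (N + 1)) * (η * h ω) := by
    field_simp
  rw [h5]
  have h6 : (N : ℝ) / (N + 1) ≤ 1 := by
    rw [div_le_one hN]
    linarith
  have h7 : 0 ≤ η * h ω := mul_nonneg hη.le (hh ω h3)
  have h8 := mul_le_mul_of_nonneg_right h6 h7
  linarith

end MLBM

open MLBM in
theorem specMLB (hFCH : SS.SpecFCH) (hNRM : SI.SpecNRM) (hLOB : SpecLOB) (hCVA : SpecCVA)
    (hMGB : SpecMGB) (hMGR : SpecMGR) (hMCV : SpecMCV) (hHGV : SpecHGV) (hSET : SpecSET) :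
    SpecMLB := by
  intro k _ _ q M ℓ Ξ e hcfg n hn hq S
  rcases hSET k q M ℓ Ξ e hcfg n S with h | ⟨U, A, hsys, hAV, hlow⟩
  · exact h
  exfalso
  have hSm : SmSys (SmU U) := smSys U
  have hG : Gen (SmU U) (fun f : Fin M → k => f) A := hsys.gen
  have hAne : A.Nonempty := by
    rw [Set.nonempty_iff_ne_empty]
    intro h
    exact hG.1 (h ▸ hSm.1)
  have hne : ∀ ω ∈ A, ∀ a, ω a ≠ 0 := hsys.ne
  have a₀ : Fin M := ⟨0, hsys.pos⟩
  have hf0 : ∀ ω ∈ A, ω ≠ 0 := fun ω hω h => hne ω hω a₀ (by rw [h]; rfl)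
  have hht : ∀ ω ∈ A, 0 ≤ ht ω := fun ω hω => ht_nonneg (hf0 ω hω)
  have hIE : ∀ J : Fin (2 * n + 1) → Fin q, Function.Injective J → ∀ a : Fin M,
      IE (fun f : Fin M → k => f) A (fun j => e (J j)) a := by
    intro J hJ a
    obtain ⟨D, P, h1, h2, h3, h4⟩ := hNRM k n (fun j => ℓ (J j))
      (fun i j l hij hil hjl => hcfg.gp _ _ _ (fun h => hij (hJ h)) (fun h => hil (hJ h))
        (fun h => hjl (hJ h))) (Ξ a)
    refine ⟨D, P, h1, h2, h3, ?_⟩
    intro ω hω
    obtain ⟨K, _, _, _, x, h5, h6, h8⟩ := hAV hω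
    have h9 := h4 K x h5
    have h10 : (fun o : Option (Fin (2 * n + 1)) => o.elim (ω a) (fun j => ω (e (J j)))) =
        fun o : Option (Fin (2 * n + 1)) => o.elim (Algebra.norm k (evalForm (Ξ a) x))
          (fun j => Algebra.norm k (evalForm (ℓ (J j)) x)) := by
      funext o
      cases o with
      | none =>
        show ω a = _
        rw [h8]; rfl
      | some j =>
        show ω (e (J j)) = Algebra.norm k (evalForm (ℓ (J j)) x)
        rw [h8]
        show Algebra.norm k (evalForm (Ξ (e (J j))) x) = _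
        rw [hcfg.eq]
    show eval (fun o : Option (Fin (2 * n + 1)) => o.elim (ω a) (fun j => ω (e (J j)))) P = 0
    rw [h10]
    exact h9
  obtain ⟨a, b, J, hJ, hab⟩ := hCVA k (Fin M → k) M (fun f => f) S U A q n e hcfg.inj hq hsys hIE
  -- the forms `G`
  obtain ⟨τ, hτ⟩ : ∃ τ : Fin (2 * n + 1) → Bool, ∀ j, LO U (fun ω : Fin M → k => ht ω)
      (fun ω => ht ![ω (e (J j)), if τ j then ω (e a) else ω (e b)]) := by
    refine ⟨fun j => decide (LO U (fun ω : Fin M → k => ht ω)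
      (fun ω => ht ![ω (e (J j)), ω (e a)])), fun j => ?_⟩
    by_cases h : LO U (fun ω : Fin M → k => ht ω) (fun ω => ht ![ω (e (J j)), ω (e a)])
    · have h1 : decide (LO U (fun ω : Fin M → k => ht ω)
        (fun ω => ht ![ω (e (J j)), ω (e a)])) = true := decide_eq_true h
      simp only [h1, if_true]
      exact h
    · have h1 : decide (LO U (fun ω : Fin M → k => ht ω)
        (fun ω => ht ![ω (e (J j)), ω (e a)])) = false := decide_eq_false h
      simp only [h1]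
      rcases hab j with h2 | h2
      · exact absurd h2 h
      · exact h2
  have hLO : LO U (fun ω : Fin M → k => ht ω)
      (fun ω => ht (gv (GG (e a) (e b) (fun j => e (J j)) τ) ω)) := by
    refine losum U _ (2 * n + 1) (fun j ω => ht ![ω (e (J j)), if τ j then ω (e a) else ω (e b)])
      _ A hsys.mem hht hτ ?_
    intro ω hω
    exact hHGV k M (e a) (e b) (2 * n + 1) (fun j => e (J j)) τ ω (hne ω hω _) (hne ω hω _)
  obtain ⟨D, hD0, hD1, hD2, hD3, hD4⟩ := hMGB k (Fin M → k) M (fun f => f) A (e a) (e b) (2 * n + 1)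
    (fun j => e (J j)) τ hAne (fun ω hω => ⟨hne ω hω _, hne ω hω _⟩) (hIE J hJ)
  have hgrow := hMGR (fun i r => (Module.finrank k (WS (fun f : Fin M → k => f) A
    (GG (e a) (e b) (fun j => e (J j)) τ) i r) : ℝ)) D (2 * n + 1 + 1)
    (fun i r => Nat.cast_nonneg _) hD1 (fun r => by exact_mod_cast hD2 r)
    (fun r => by exact_mod_cast hD3 r) (fun r => by exact_mod_cast hD4 r)
  have hn0 : (0 : ℝ) < n := by
    have : 0 < n := by omega
    exact_mod_cast this
  obtain ⟨ε, hε⟩ : ∃ ε : ℝ, ε = 1 / (24 * n) := ⟨_, rfl⟩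
  have hε0 : 0 < ε := by rw [hε]; positivity
  obtain ⟨ω₁, hω₁⟩ := hAne
  obtain ⟨B1, C1, hB1, hC1⟩ := hFCH k (Fin M → k) (Fin M) S (SmU U) hSm A (fun ω => ht ω)
    (2 + 2 * ε) (fun v φ ω => vl v φ ω) (fun _ _ => True) (by
      intro φ _
      obtain ⟨B', C', hC0, hB', hC'⟩ := hMCV k (Fin M → k) M (fun f => f) (SmU U) hSm A hG
        (Option (Fin (2 * n + 1))) (GG (e a) (e b) (fun j => e (J j)) τ) 2 (hom _ _ _ _)
        (fun ω hω => ⟨hf0 ω hω, none, none_ne _ _ _ _ ω (hne ω hω _) (hne ω hω _)⟩) hgrow S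
        (fun v => Pi.single (φ v) 1) (by
          intro v _
          refine ⟨ω₁, hω₁, ?_⟩
          rw [dot]
          exact hne ω₁ hω₁ _) ε hε0
      have hC1' : 0 < C' + 1 := by linarith
      refine ⟨B' ∪ {ω | ¬ ht (gv (GG (e a) (e b) (fun j => e (J j)) τ) ω) ≤ ε / (C' + 1) * ht ω},
        C', ?_, ?_⟩
      · refine hSm.2.2 _ _ hB' ?_
        have h1 := hLO (ε / (C' + 1)) (by positivity)
        exact h1.mono fun ω h2 h3 => h3 h2
      · intro ω hω hωB
        have hωB1 : ω ∉ B' := fun h => hωB (Or.inl h)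
        have hωB2 : ht (gv (GG (e a) (e b) (fun j => e (J j)) τ) ω) ≤ ε / (C' + 1) * ht ω := by
          by_contra h
          exact hωB (Or.inr h)
        have h := (hC' ω hω hωB1).2
        have he : ∑ v ∈ S, val v (Pi.single (φ v) (1 : k)) ω = ∑ v ∈ S, vl v (φ v) ω :=
          Finset.sum_congr rfl fun v _ => val_eq v (φ v) ω
        have h0 := hht ω hω
        have h2 : C' * ht (gv (GG (e a) (e b) (fun j => e (J j)) τ) ω) ≤ ε * ht ω := by
          have h3 := mul_le_mul_of_nonneg_left hωB2 hC0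
          have h4 : C' * (ε / (C' + 1) * ht ω) = C' / (C' + 1) * (ε * ht ω) := by
            field_simp
          have h5 : C' / (C' + 1) ≤ 1 := by
            rw [div_le_one hC1']
            linarith
          have h6 := mul_le_mul_of_nonneg_right h5 (mul_nonneg hε0.le h0)
          linarith
        have h7 : ∑ v ∈ S, vl v (φ v) ω ≤ (2 + ε) * ht ω +
            C' * (1 + ht (gv (GG (e a) (e b) (fun j => e (J j)) τ) ω)) := he ▸ h
        show ∑ v ∈ S, vl v (φ v) ω ≤ (2 + 2 * ε) * ht ω + C'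
        have h8 : C' * (1 + ht (gv (GG (e a) (e b) (fun j => e (J j)) τ) ω)) =
          C' + C' * ht (gv (GG (e a) (e b) (fun j => e (J j)) τ) ω) := by ring
        rw [h8] at h7
        have h9 : (2 + 2 * ε) * ht ω = (2 + ε) * ht ω + ε * ht ω := by ring
        linarith)
  obtain ⟨C2, hC2⟩ := hLOB k q M ℓ Ξ e hcfg n hn (by omega)
  have hup : ∀ ω ∈ A, ω ∉ B1 → ∑ v ∈ S, ∑ i, vl v (e i) ω ≤
      (3 * n + 1 / 8) * ht ω + ((3 * n / 2 : ℝ) * C1 + C2 * S.card) := by
    intro ω hω hωB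
    obtain ⟨K, _, _, _, x, h5, h6, h8⟩ := hAV hω
    have hall : ∀ v : Place k, ∃ c : Fin M, ∑ i, vl v (e i) ω ≤ (3 * n / 2 : ℝ) * vl v c ω + C2 := by
      intro v
      obtain ⟨c, hc⟩ := hC2 K x h5 h6 v
      exact ⟨c, by rw [h8]; exact hc⟩
    choose φ hφ using hall
    have h1 := hC1 ω hω hωB φ (fun _ _ => trivial)
    have h2 : ∑ v ∈ S, ∑ i, vl v (e i) ω ≤ ∑ v ∈ S, ((3 * n / 2 : ℝ) * vl v (φ v) ω + C2) :=
      Finset.sum_le_sum fun v _ => hφ v
    rw [Finset.sum_add_distrib, ← Finset.mul_sum, Finset.sum_const, nsmul_eq_mul] at h2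
    have h3 := mul_le_mul_of_nonneg_left h1 (show (0 : ℝ) ≤ 3 * n / 2 by positivity)
    have h4 : (3 * n / 2 : ℝ) * ((2 + 2 * ε) * ht ω + C1) =
        (3 * n + 1 / 8) * ht ω + (3 * n / 2 : ℝ) * C1 := by
      rw [hε]
      field_simp
      ring
    have h9 : (S.card : ℝ) * C2 = C2 * S.card := by ring
    linarith
  obtain ⟨ω, hω, hωB, h1, h2⟩ := (hsys.mem.and (hB1.and ((hlow (1 / 8) (by norm_num)).and
    (hsys.unb (4 / 3 * ((3 * n / 2 : ℝ) * C1 + C2 * S.card) + 1))))).exists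
  have h3 := hup ω hω hωB
  have h4 : (3 * n + 1 : ℝ) ≤ q := by exact_mod_cast hq
  have h5 := mul_le_mul_of_nonneg_right h4 (hht ω hω)
  nlinarith

end Pool.Agent.Lib.MP_d0e829_nt.GP
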