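import Pool.Agent.Lib.MP_d0e829_nt.GP.SpecU

/-!
# MLX: degree `n ≥ 2`, with constants that depend only on `q` and `n`
-/

set_option autoImplicit false

open NumberField MvPolynomial
open Pool.Agent.Lib.MP_d0e829_nt.SS Pool.Agent.Lib.MP_d0e829_nt.SI

namespace Pool.Agent.Lib.MP_d0e829_nt.GP

open scoped Classical

namespace MLXM

lemma smSys {Ω : Type} (U : Ultrafilter Ω) : SmSys (SmU U) := by
  refine ⟨Filter.Eventually.of_forall fun ω h => h, ?_, ?_⟩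
  · intro A B hAB hB
    exact hB.mono fun ω hω h => hω (hAB h)
  · intro A B hA hB
    filter_upwards [hA, hB] with ω h1 h2 h3
    rcases h3 with h3 | h3
    · exact h1 h3
    · exact h2 h3

lemma dot {k : Type} [Field k] {M : ℕ} (a : Fin M) (f : Fin M → k) :
    (Pi.single a (1 : k) : Fin M → k) ⬝ᵥ f = f a := by
  rw [single_dotProduct, one_mul]

lemma val_eq {k : Type} [Field k] [NumberField k] {M : ℕ} (v : Place k) (a : Fin M)
    (f : Fin M → k) : val v (Pi.single a (1 : k)) f = vl v a f := by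
  unfold val vl
  rw [dot]

lemma hom {k : Type} [Field k] {M N : ℕ} (s t : Fin M) (J : Fin N → Fin M) (τ : Fin N → Bool)
    (o : Option (Fin N)) : (GG (k := k) s t J τ o).IsHomogeneous 2 := by
  cases o with
  | none => exact (isHomogeneous_X k s).mul (isHomogeneous_X k t)
  | some j =>
    show (if τ j then (X (J j) : MvPolynomial (Fin M) k) * X t else X (J j) * X s).IsHomogeneous 2
    split_ifs
    · exact (isHomogeneous_X k (J j)).mul (isHomogeneous_X k t)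
    · exact (isHomogeneous_X k (J j)).mul (isHomogeneous_X k s)

lemma none_ne {k : Type} [Field k] {M N : ℕ} (s t : Fin M) (J : Fin N → Fin M) (τ : Fin N → Bool)
    (f : Fin M → k) (hs : f s ≠ 0) (ht : f t ≠ 0) : eval f (GG (k := k) s t J τ none) ≠ 0 := by
  show eval f (X s * X t) ≠ 0
  rw [map_mul, eval_X, eval_X]
  exact mul_ne_zero hs ht

/-- the choice of the constant `η` -/
lemma choice (ρ κ w : ℝ) (hρ : 0 < ρ) (hκ : 0 < κ) (hw : 0 < w) :
    ∃ η : ℝ, 0 < η ∧ 2 * η ≤ ρ ∧ η ≤ 1 / 8 ∧ 4 * w * (2 * η) < κ := by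
  refine ⟨min (min (ρ / 2) (1 / 8)) (κ / (16 * w)), ?_, ?_, ?_, ?_⟩
  · exact lt_min (lt_min (by linarith) (by norm_num)) (by positivity)
  · have h1 : min (min (ρ / 2) (1 / 8)) (κ / (16 * w)) ≤ ρ / 2 :=
      (min_le_left _ _).trans (min_le_left _ _)
    linarith
  · exact (min_le_left _ _).trans (min_le_right _ _)
  · have h1 : min (min (ρ / 2) (1 / 8)) (κ / (16 * w)) ≤ κ / (16 * w) := min_le_right _ _
    have h2 := mul_le_mul_of_nonneg_left h1 (show (0 : ℝ) ≤ 8 * w by positivity)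
    have h3 : 8 * w * (κ / (16 * w)) = κ / 2 := by
      field_simp
      ring
    linarith

/-- the constants: `r (2 n + 1) (ρ + 2 η) ≤ ε / 4` -/
lemma rbound (n R r : ℕ) (ε ρ η : ℝ) (hε : 0 < ε)
    (hρ : ρ = ε / (8 * ((R : ℝ) + 1) * (2 * n + 1))) (hη : 2 * η ≤ ρ) (hr : r ≤ R) :
    (r : ℝ) * ((2 * n + 1) * (ρ + 2 * η)) ≤ ε / 4 := by
  have hR : (0 : ℝ) < (R : ℝ) + 1 := by positivity
  have hn : (0 : ℝ) < 2 * (n : ℝ) + 1 := by positivity
  have h1 : (2 * (n : ℝ) + 1) * (ρ + 2 * η) ≤ (2 * n + 1) * (2 * ρ) :=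
    mul_le_mul_of_nonneg_left (by linarith) hn.le
  have h2 : (2 * (n : ℝ) + 1) * (2 * ρ) = ε / (4 * ((R : ℝ) + 1)) := by
    rw [hρ]
    field_simp
    ring
  have h3 : (r : ℝ) * ((2 * n + 1) * (ρ + 2 * η)) ≤ r * (ε / (4 * ((R : ℝ) + 1))) :=
    mul_le_mul_of_nonneg_left (h2 ▸ h1) (Nat.cast_nonneg r)
  have h4 : (r : ℝ) ≤ (R : ℝ) + 1 := by
    have : (r : ℝ) ≤ R := by exact_mod_cast hr
    linarith
  have h5 : (r : ℝ) * (ε / (4 * ((R : ℝ) + 1))) ≤ ((R : ℝ) + 1) * (ε / (4 * ((R : ℝ) + 1))) :=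
    mul_le_mul_of_nonneg_right h4 (by positivity)
  have h6 : ((R : ℝ) + 1) * (ε / (4 * ((R : ℝ) + 1))) = ε / 4 := by
    field_simp
  linarith

end MLXM

open MLXM in
theorem specMLX (hFCH : SS.SpecFCH) (hLOB : SpecLOB) (hHGV : SpecHGV) (hNRU : SpecNRU)
    (hCVB : SpecCVB) (hMGX : SpecMGX) (hMGY : SpecMGY) (hMCX : SpecMCX) (hSEX : SpecSEX) :
    SpecMLX := by
  intro q n hn hq
  obtain ⟨B, hB⟩ := hNRU
  obtain ⟨b, hb⟩ : ∃ b : ℕ, b = max (B n) 1 := ⟨_, rfl⟩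
  have hBb : B n ≤ b := hb ▸ le_max_left _ _
  have hn0 : (0 : ℝ) < n := by
    have : 0 < n := by omega
    exact_mod_cast this
  have hn2 : (2 : ℝ) ≤ n := by exact_mod_cast hn
  obtain ⟨ε, hε⟩ : ∃ ε : ℝ, ε = 1 / (24 * n) := ⟨_, rfl⟩
  have hε0 : 0 < ε := by rw [hε]; positivity
  have hε1 : ε ≤ 1 := by
    rw [hε, div_le_one (by positivity)]
    linarith
  obtain ⟨R, hR⟩ := hMGY ((b : ℝ) ^ (q + q ^ 4)) (2 * n + 1 + 1) (2 + ε) (by linarith)
  obtain ⟨ρ, hρ⟩ : ∃ ρ : ℝ, ρ = ε / (8 * ((R : ℝ) + 1) * (2 * n + 1)) := ⟨_, rfl⟩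
  have hρ0 : 0 < ρ := by rw [hρ]; positivity
  obtain ⟨κ, hκ0, hκ⟩ := hCVB q n hq ρ hρ0
  obtain ⟨η, hη0, hη1, hη2, hη3⟩ := choice ρ κ (((b : ℝ) + 1) ^ (2 * n + 3)) hρ0 hκ0 (by positivity)
  refine ⟨η, hη0, ?_⟩
  intro k _ _ ℓ Ξ e hcfg S
  rcases hSEX k q (q + q ^ 4) ℓ Ξ e hcfg n S η hη0 with h | ⟨U, A, hsys, hAV, hlow⟩
  · exact h
  exfalso
  obtain ⟨M, hM⟩ : ∃ M : ℕ, M = q + q ^ 4 := ⟨_, rfl⟩
  rw [← hM] at hR
  subst hM
  have hSm : SmSys (SmU U) := smSys U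
  have hG : Gen (SmU U) (fun f : Fin (q + q ^ 4) → k => f) A := hsys.gen
  have hAne : A.Nonempty := by
    rw [Set.nonempty_iff_ne_empty]
    intro h
    exact hG.1 (h ▸ hSm.1)
  have hne : ∀ ω ∈ A, ∀ a, ω a ≠ 0 := hsys.ne
  have a₀ : Fin (q + q ^ 4) := ⟨0, hsys.pos⟩
  have hf0 : ∀ ω ∈ A, ω ≠ 0 := fun ω hω h => hne ω hω a₀ (by rw [h]; rfl)
  have hht : ∀ ω ∈ A, 0 ≤ ht ω := fun ω hω => ht_nonneg (hf0 ω hω)
  have hIE : ∀ J : Fin (2 * n + 1) → Fin q, Function.Injective J → ∀ a : Fin (q + q ^ 4),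
      IEB b (fun f : Fin (q + q ^ 4) → k => f) A (fun j => e (J j)) a := by
    intro J hJ a
    obtain ⟨D, P, h1, h1', h2, h3, h4⟩ := hB k n (fun j => ℓ (J j))
      (fun i j l hij hil hjl => hcfg.gp _ _ _ (fun h => hij (hJ h)) (fun h => hil (hJ h))
        (fun h => hjl (hJ h))) (Ξ a)
    refine ⟨D, P, h1, h1'.trans hBb, h2, h3, ?_⟩
    intro ω hω
    obtain ⟨K, _, _, _, x, h5, h6, h8⟩ := hAV hω
    have h9 := h4 K x h5
    have h10 : (fun o : Option (Fin (2 * n + 1)) => o.elim (ω a) (fun j => ω (e (J j)))) =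
        fun o : Option (Fin (2 * n + 1)) => o.elim (Algebra.norm k (evalForm (Ξ a) x))
          (fun j => Algebra.norm k (evalForm (ℓ (J j)) x)) := by
      funext o
      cases o with
      | none =>
        show ω a = _
        rw [h8]; rfl
      | some j =>
        show ω (e (J j)) = Algebra.norm k (evalForm (ℓ (J j)) x)
        rw [h8]
        show Algebra.norm k (evalForm (Ξ (e (J j))) x) = _
        rw [hcfg.eq]
    show eval (fun o : Option (Fin (2 * n + 1)) => o.elim (ω a) (fun j => ω (e (J j)))) P = 0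
    rw [h10]
    exact h9
  obtain ⟨a, b', J, hJ, hab⟩ := hκ k (Fin (q + q ^ 4) → k) (q + q ^ 4) (fun f => f) S U A e
    hcfg.inj b (2 * η) (by positivity) hη3 hsys hIE
  -- the forms `G`
  obtain ⟨τ, hτ⟩ : ∃ τ : Fin (2 * n + 1) → Bool, ∀ j, ∀ᶠ ω in (U : Filter (Fin (q + q ^ 4) → k)),
      ht ![ω (e (J j)), if τ j then ω (e a) else ω (e b')] ≤ (ρ + 2 * η) * ht ω := by
    refine ⟨fun j => decide (∀ᶠ ω in (U : Filter (Fin (q + q ^ 4) → k)),
      ht ![ω (e (J j)), ω (e a)] ≤ (ρ + 2 * η) * ht ω), fun j => ?_⟩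
    by_cases h : ∀ᶠ ω in (U : Filter (Fin (q + q ^ 4) → k)),
      ht ![ω (e (J j)), ω (e a)] ≤ (ρ + 2 * η) * ht ω
    · have h1 : decide (∀ᶠ ω in (U : Filter (Fin (q + q ^ 4) → k)),
        ht ![ω (e (J j)), ω (e a)] ≤ (ρ + 2 * η) * ht ω) = true := decide_eq_true h
      simp only [h1, if_true]
      exact h
    · have h1 : decide (∀ᶠ ω in (U : Filter (Fin (q + q ^ 4) → k)),
        ht ![ω (e (J j)), ω (e a)] ≤ (ρ + 2 * η) * ht ω) = false := decide_eq_false h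
      simp only [h1]
      rcases hab j with h2 | h2
      · exact absurd h2 h
      · exact h2
  have hLO : ∀ᶠ ω in (U : Filter (Fin (q + q ^ 4) → k)),
      ht (gv (GG (e a) (e b') (fun j => e (J j)) τ) ω) ≤ (2 * n + 1) * (ρ + 2 * η) * ht ω := by
    filter_upwards [Filter.eventually_all.2 hτ, hsys.mem] with ω h1 h2
    refine (hHGV k (q + q ^ 4) (e a) (e b') (2 * n + 1) (fun j => e (J j)) τ ω (hne ω h2 _)
      (hne ω h2 _)).trans ?_
    refine (Finset.sum_le_sum fun j _ => h1 j).trans ?_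
    rw [Finset.sum_const, Finset.card_univ, Fintype.card_fin, nsmul_eq_mul]
    push_cast
    exact le_of_eq (by ring)
  obtain ⟨hD1, hD2, hD3, hD4⟩ := hMGX k (Fin (q + q ^ 4) → k) (q + q ^ 4) (fun f => f) A (e a)
    (e b') (2 * n + 1) b
    (fun j => e (J j)) τ hAne (fun ω hω => ⟨hne ω hω _, hne ω hω _⟩) (hIE J hJ)
  obtain ⟨m, r, hm, hr, hgrow⟩ := hR (fun i r => (Module.finrank k
    (WS (fun f : Fin (q + q ^ 4) → k => f) A
    (GG (e a) (e b') (fun j => e (J j)) τ) i r) : ℝ))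
    (fun i r => Nat.cast_nonneg _) hD1 (fun r => by exact_mod_cast hD2 r)
    (fun r => by exact_mod_cast hD3 r) (fun r => by exact_mod_cast hD4 r)
  have hrb := rbound n R r ε ρ η hε0 hρ hη1 hr
  obtain ⟨ω₁, hω₁⟩ := hAne
  obtain ⟨B1, C1, hB1, hC1⟩ := hFCH k (Fin (q + q ^ 4) → k) (Fin (q + q ^ 4)) S (SmU U) hSm A
    (fun ω => ht ω)
    (2 + 3 * ε) (fun v φ ω => vl v φ ω) (fun _ _ => True) (by
      intro φ _
      obtain ⟨B', C', hB', hC'⟩ := hMCX k (Fin (q + q ^ 4) → k) (q + q ^ 4) (fun f => f) (SmU U)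
        hSm A hG
        (Option (Fin (2 * n + 1))) (GG (e a) (e b') (fun j => e (J j)) τ) 2 (hom _ _ _ _)
        (fun ω hω => ⟨hf0 ω hω, none, none_ne _ _ _ _ ω (hne ω hω _) (hne ω hω _)⟩)
        (2 + ε) m r hm hgrow S
        (fun v => Pi.single (φ v) 1) (by
          intro v _
          refine ⟨ω₁, hω₁, ?_⟩
          rw [dot]
          exact hne ω₁ hω₁ _) ε hε0
      refine ⟨B' ∪ {ω | ¬ ht (gv (GG (e a) (e b') (fun j => e (J j)) τ) ω) ≤
        (2 * n + 1) * (ρ + 2 * η) * ht ω}, C', ?_, ?_⟩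
      · refine hSm.2.2 _ _ hB' ?_
        exact hLO.mono fun ω h2 h3 => h3 h2
      · intro ω hω hωB
        have hωB1 : ω ∉ B' := fun h => hωB (Or.inl h)
        have hωB2 : ht (gv (GG (e a) (e b') (fun j => e (J j)) τ) ω) ≤
            (2 * n + 1) * (ρ + 2 * η) * ht ω := by
          by_contra h
          exact hωB (Or.inr h)
        have h := (hC' ω hω hωB1).2
        have he : ∑ v ∈ S, val v (Pi.single (φ v) (1 : k)) ω = ∑ v ∈ S, vl v (φ v) ω :=
          Finset.sum_congr rfl fun v _ => val_eq v (φ v) ω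
        have h0 := hht ω hω
        have h2 : (r : ℝ) * ht (gv (GG (e a) (e b') (fun j => e (J j)) τ) ω) ≤ ε / 4 * ht ω := by
          have h3 := mul_le_mul_of_nonneg_left hωB2 (Nat.cast_nonneg (α := ℝ) r)
          have h4 : (r : ℝ) * ((2 * n + 1) * (ρ + 2 * η) * ht ω) =
            r * ((2 * n + 1) * (ρ + 2 * η)) * ht ω := by ring
          have h5 := mul_le_mul_of_nonneg_right hrb h0
          linarith
        have h7 : ∑ v ∈ S, vl v (φ v) ω ≤ (2 + ε + ε) *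
            (ht ω + r * ht (gv (GG (e a) (e b') (fun j => e (J j)) τ) ω)) + C' := he ▸ h
        show ∑ v ∈ S, vl v (φ v) ω ≤ (2 + 3 * ε) * ht ω + C'
        have h8 : (2 + ε + ε) *
            (ht ω + r * ht (gv (GG (e a) (e b') (fun j => e (J j)) τ) ω)) ≤
            (2 + ε + ε) * (ht ω + ε / 4 * ht ω) :=
          mul_le_mul_of_nonneg_left (by linarith) (by linarith)
        have h9 : (2 + ε + ε) * (ht ω + ε / 4 * ht ω) =
          (2 + 3 * ε) * ht ω - ε * (1 - ε) / 2 * ht ω := by ring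
        have h10 : 0 ≤ ε * (1 - ε) / 2 * ht ω :=
          mul_nonneg (div_nonneg (mul_nonneg hε0.le (by linarith)) (by norm_num)) h0
        linarith)
  obtain ⟨C2, hC2⟩ := hLOB k q (q + q ^ 4) ℓ Ξ e hcfg n hn (by omega)
  have hup : ∀ ω ∈ A, ω ∉ B1 → ∑ v ∈ S, ∑ i, vl v (e i) ω ≤
      (3 * n + 3 / 16) * ht ω + ((3 * n / 2 : ℝ) * C1 + C2 * S.card) := by
    intro ω hω hωB
    obtain ⟨K, _, _, _, x, h5, h6, h8⟩ := hAV hω
    have hall : ∀ v : Place k, ∃ c : Fin (q + q ^ 4),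
        ∑ i, vl v (e i) ω ≤ (3 * n / 2 : ℝ) * vl v c ω + C2 := by
      intro v
      obtain ⟨c, hc⟩ := hC2 K x h5 h6 v
      exact ⟨c, by rw [h8]; exact hc⟩
    choose φ hφ using hall
    have h1 := hC1 ω hω hωB φ (fun _ _ => trivial)
    have h2 : ∑ v ∈ S, ∑ i, vl v (e i) ω ≤ ∑ v ∈ S, ((3 * n / 2 : ℝ) * vl v (φ v) ω + C2) :=
      Finset.sum_le_sum fun v _ => hφ v
    rw [Finset.sum_add_distrib, ← Finset.mul_sum, Finset.sum_const, nsmul_eq_mul] at h2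
    have h3 := mul_le_mul_of_nonneg_left h1 (show (0 : ℝ) ≤ 3 * n / 2 by positivity)
    have h4 : (3 * n / 2 : ℝ) * ((2 + 3 * ε) * ht ω + C1) =
        (3 * n + 3 / 16) * ht ω + (3 * n / 2 : ℝ) * C1 := by
      rw [hε]
      field_simp
      ring
    have h9 : (S.card : ℝ) * C2 = C2 * S.card := by ring
    linarith
  obtain ⟨ω, hω, hωB, h1, h2⟩ := (hsys.mem.and (hB1.and (hlow.and
    (hsys.unb (16 / 11 * ((3 * n / 2 : ℝ) * C1 + C2 * S.card) + 1))))).exists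
  have h3 := hup ω hω hωB
  have h4 : (3 * n + 1 : ℝ) ≤ q := by exact_mod_cast hq
  have h5 := mul_le_mul_of_nonneg_right h4 (hht ω hω)
  have h6 := mul_le_mul_of_nonneg_right hη2 (hht ω hω)
  nlinarith

end Pool.Agent.Lib.MP_d0e829_nt.GP
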