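import Pool.Agent.Lib.MP_d0e829_nt.GP.Spec

/-!
# MSU: the Subspace theorem in `WS f A G m r`
-/

set_option autoImplicit false

open NumberField MvPolynomial
open Pool.Agent.Lib.MP_d0e829_nt.SS Pool.Agent.Lib.MP_d0e829_nt.SI

namespace Pool.Agent.Lib.MP_d0e829_nt.GP

open scoped Classical

namespace MSUM

lemma evA_apply {k : Type} [Field k] {Ω ι : Type} [Fintype ι] (f : Ω → ι → k) (A : Set Ω)
    (P : MvPolynomial ι k) (ω : A) : evA f A P ω = eval (f ω) P := by
  have h : (Pi.evalAlgHom k (fun _ : A => k) ω).comp (evA f A) = aeval (f ω) := by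
    apply MvPolynomial.algHom_ext
    intro i
    simp [evA]
  have h2 := congrArg (fun φ : MvPolynomial ι k →ₐ[k] k => φ P) h
  simp only [AlgHom.comp_apply, Pi.evalAlgHom_apply] at h2
  rw [h2]
  exact DFunLike.congr_fun (MvPolynomial.coe_aeval_eq_eval (f ω)) P

/-- finite unions of small sets are small -/
lemma small_iUnion {Ω : Type} {Sm : Set Ω → Prop} (hSm : SmSys Sm) {ι : Type*} (s : Finset ι)
    (F : ι → Set Ω) (h : ∀ i ∈ s, Sm (F i)) : Sm (⋃ i ∈ s, F i) := by
  induction s using Finset.induction_on with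
  | empty => simpa using hSm.1
  | insert a s ha ih =>
    rw [Finset.set_biUnion_insert]
    exact hSm.2.2 _ _ (h a (Finset.mem_insert_self a s))
      (ih fun i hi => h i (Finset.mem_insert_of_mem hi))

/-- the elements of `WP` are homogeneous -/
lemma hom_pow {k : Type} [Field k] {M : ℕ} {ι : Type} (G : ι → MvPolynomial (Fin M) k) (d : ℕ)
    (hG : ∀ i, (G i).IsHomogeneous d) (r : ℕ) :
    (Submodule.span k (Set.range G)) ^ r ≤ homogeneousSubmodule (Fin M) k (d * r) := by
  have h1 : Submodule.span k (Set.range G) ≤ homogeneousSubmodule (Fin M) k d := by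
    rw [Submodule.span_le]
    rintro _ ⟨i, rfl⟩
    exact hG i
  induction r with
  | zero =>
    rw [pow_zero, mul_zero, Submodule.one_le]
    exact isHomogeneous_one (Fin M) k
  | succ r ih =>
    have h3 : (Submodule.span k (Set.range G)) ^ r * Submodule.span k (Set.range G) ≤
        homogeneousSubmodule (Fin M) k (d * r) * homogeneousSubmodule (Fin M) k d :=
      mul_le_mul' ih h1
    rw [pow_succ]
    refine h3.trans ?_
    have h2 : d * (r + 1) = d * r + d := by ring
    rw [h2]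
    exact homogeneousSubmodule_mul (d * r) d

lemma hom_WP {k : Type} [Field k] {M : ℕ} {ι : Type} (G : ι → MvPolynomial (Fin M) k) (d : ℕ)
    (hG : ∀ i, (G i).IsHomogeneous d) (m r : ℕ) (P : MvPolynomial (Fin M) k)
    (hP : P ∈ WP G m r) : P.IsHomogeneous (m + d * r) := by
  have h1 : WP G m r ≤ homogeneousSubmodule (Fin M) k (m + d * r) :=
    (mul_le_mul' le_rfl (hom_pow G d hG r)).trans (homogeneousSubmodule_mul m (d * r))
  exact h1 hP

/-- a finite basis, indexed by `Fin (finrank)` -/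
lemma reindex {k : Type} [Field k] {Ω : Type} {M : ℕ} {ι : Type} (f : Ω → Fin M → k) (A : Set Ω)
    (G₀ : ι → MvPolynomial (Fin M) k) (m r : ℕ)
    {J : Type} [Fintype J] (g : J → MvPolynomial (Fin M) k) (hg : IsW f A G₀ m r g) :
    ∃ G : Fin (Module.finrank k (WS f A G₀ m r)) → MvPolynomial (Fin M) k, IsW f A G₀ m r G ∧
      (∀ F : MvPolynomial (Fin M) k → ℝ, ∑ j, F (g j) = ∑ i, F (G i)) ∧ ∀ j, ∃ i, G i = g j := by
  obtain ⟨h1, h2, h3⟩ := hg
  have e0 : Module.finrank k (WS f A G₀ m r) = Fintype.card J := by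
    rw [← h3]
    exact finrank_span_eq_card h2
  let e : Fin (Module.finrank k (WS f A G₀ m r)) ≃ J :=
    (finCongr e0).trans (Fintype.equivFin J).symm
  refine ⟨fun i => g (e i), ⟨fun i => h1 _, h2.comp e e.injective, ?_⟩, ?_, ?_⟩
  · refine Eq.trans ?_ h3
    exact congrArg (Submodule.span k) (e.surjective.range_comp (fun j => evA f A (g j)))
  · intro F
    exact (Equiv.sum_comp e (fun j => F (g j))).symm
  · intro j
    exact ⟨e.symm j, by simp⟩

/-- the transition matrix to another basis -/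
lemma transition {k : Type} [Field k] {Ω : Type} {M n : ℕ} {ι : Type} (f : Ω → Fin M → k)
    (A : Set Ω) (G₀ : ι → MvPolynomial (Fin M) k) (m r : ℕ)
    (b G : Fin n → MvPolynomial (Fin M) k) (hb : IsW f A G₀ m r b) (hG : IsW f A G₀ m r G) :
    ∃ L : Matrix (Fin n) (Fin n) k, L.det ≠ 0 ∧ ∀ ω ∈ A, ∀ i,
      eval (f ω) (G i) = L.mulVec (fun j => eval (f ω) (b j)) i := by
  have h1 : ∀ i, evA f A (G i) ∈ Submodule.span k (Set.range fun j => evA f A (b j)) := by
    intro i
    rw [hb.2.2, ← hG.2.2]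
    exact Submodule.subset_span ⟨i, rfl⟩
  have h2 : ∀ i, ∃ c : Fin n → k, ∑ j, c j • evA f A (b j) = evA f A (G i) := by
    intro i
    exact (Submodule.mem_span_range_iff_exists_fun k).mp (h1 i)
  choose L hL using h2
  refine ⟨Matrix.of L, ?_, ?_⟩
  · intro h0
    obtain ⟨v, hv, hv0⟩ := Matrix.exists_vecMul_eq_zero_iff.mpr h0
    apply hv
    have h3 : ∑ i, v i • evA f A (G i) = 0 := by
      have h4 : ∑ i, v i • evA f A (G i) =
          ∑ j, (Matrix.vecMul v (Matrix.of L) j) • evA f A (b j) := by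
        simp only [← hL, Finset.smul_sum, smul_smul]
        rw [Finset.sum_comm]
        refine Finset.sum_congr rfl fun j _ => ?_
        rw [← Finset.sum_smul]
        rfl
      rw [h4, hv0]
      simp
    exact funext (Fintype.linearIndependent_iff.mp hG.2.1 v h3)
  · intro ω hω i
    have h3 := congrFun (hL i) ⟨ω, hω⟩
    rw [evA_apply] at h3
    simp only [Finset.sum_apply, Pi.smul_apply, evA_apply, smul_eq_mul] at h3
    rw [← h3]
    rfl

end MSUM

open MSUM in
/-- MSU -/
theorem specMSU (hSUB : SS.SpecSUB) (hMTR : SpecMTR) : SpecMSU := by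
  intro k _ _ Ω M f Sm hSm A hA ι _ G₀ d hG₀ hf S m r J _ g hg ε hε
  have hgv : ∀ ω ∈ A, gv G₀ (f ω) ≠ 0 := by
    intro ω hω h0
    obtain ⟨i, hi⟩ := (hf ω hω).2
    exact hi (congrFun h0 i)
  rcases S.eq_empty_or_nonempty with rfl | ⟨v₀, hv₀⟩
  · refine ⟨∅, 0, hSm.1, fun ω hω _ => ⟨by simp, ?_⟩⟩
    have h := ht_nonneg (hf ω hω).1
    have h' := ht_nonneg (hgv ω hω)
    simp only [Finset.sum_empty, add_zero]
    positivity
  set n := Module.finrank k (WS f A G₀ m r) with hn
  have hre : ∀ v, ∃ G : Fin n → MvPolynomial (Fin M) k, v ∈ S → IsW f A G₀ m r G ∧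
      (∀ F : MvPolynomial (Fin M) k → ℝ, ∑ j, F (g v j) = ∑ i, F (G i)) ∧
      ∀ j, ∃ i, G i = g v j := by
    intro v
    by_cases hv : v ∈ S
    · obtain ⟨G, h⟩ := reindex f A G₀ m r (g v) (hg v hv)
      exact ⟨G, fun _ => h⟩
    · exact ⟨0, fun h => absurd h hv⟩
  choose G hG using hre
  set b : Fin n → MvPolynomial (Fin M) k := G v₀ with hb
  have hbB : IsW f A G₀ m r b := (hG v₀ hv₀).1
  set y : Ω → Fin n → k := fun ω i => eval (f ω) (b i) with hy
  have htr : ∀ v, ∃ L : Matrix (Fin n) (Fin n) k, v ∈ S → L.det ≠ 0 ∧ ∀ ω ∈ A, ∀ i,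
      eval (f ω) (G v i) = L.mulVec (y ω) i := by
    intro v
    by_cases hv : v ∈ S
    · obtain ⟨L, h⟩ := transition f A G₀ m r b (G v) hbB (hG v hv).1
      exact ⟨L, fun _ => h⟩
    · exact ⟨0, fun h => absurd h hv⟩
  choose L hL using htr
  -- `y` does not vanish
  have hy0 : ∀ ω ∈ A, y ω ≠ 0 := by
    intro ω hω h0
    obtain ⟨i, hi⟩ := (hf ω hω).2
    obtain ⟨l, hl⟩ := Function.ne_iff.mp (hf ω hω).1
    have h1 : evA f A ((X l : MvPolynomial (Fin M) k) ^ m * G₀ i ^ r) ∈
        Submodule.span k (Set.range fun j => evA f A (b j)) := by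
      rw [hbB.2.2]
      refine ⟨(X l) ^ m * G₀ i ^ r, ?_, rfl⟩
      refine Submodule.mul_mem_mul ?_ ?_
      · have := (isHomogeneous_X k l).pow m
        rw [one_mul] at this
        exact this
      · have h5 : G₀ i ∈ Submodule.span k (Set.range G₀) := Submodule.subset_span ⟨i, rfl⟩
        first
          | exact Submodule.pow_mem_pow h5 r
          | exact Submodule.pow_mem_pow _ h5 r
    obtain ⟨c, hc⟩ := (Submodule.mem_span_range_iff_exists_fun k).mp h1
    have h2 := congrFun hc ⟨ω, hω⟩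
    rw [evA_apply] at h2
    simp only [Finset.sum_apply, Pi.smul_apply, evA_apply, smul_eq_mul, map_pow, map_mul,
      eval_X] at h2
    have h3 : ∀ j, eval (f ω) (b j) = 0 := fun j => congrFun h0 j
    simp only [h3, mul_zero, Finset.sum_const_zero] at h2
    have h4 : f ω l ^ m * eval (f ω) (G₀ i) ^ r ≠ 0 := by
      refine mul_ne_zero (pow_ne_zero _ ?_) (pow_ne_zero _ hi)
      simpa using hl
    exact h4 h2.symm
  have hAne : A.Nonempty := by
    by_contra hcon
    rw [Set.not_nonempty_iff_eq_empty] at hcon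
    apply hA.1
    rw [hcon]
    exact hSm.1
  have hn0 : 0 < n := by
    obtain ⟨ω, hω⟩ := hAne
    rcases Nat.eq_zero_or_pos n with h0 | h0
    · exfalso
      apply hy0 ω hω
      have : IsEmpty (Fin n) := by rw [h0]; infer_instance
      exact Subsingleton.elim _ _
    · exact h0
  obtain ⟨C₁, H, hHf, hHt, hH⟩ := hSUB k n hn0 S L (fun v hv => (hL v hv).1) ε hε
  -- small sets
  have hsmT : ∀ T ∈ H, Sm {ω | ω ∈ A ∧ y ω ∈ T} := by
    intro T hT
    obtain ⟨φ, hφ, hker⟩ := Submodule.exists_le_ker_of_lt_top T (lt_top_iff_ne_top.mpr (hHt T hT))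
    set c : Fin n → k := fun j => φ (Pi.single j 1) with hc
    have hφc : ∀ z : Fin n → k, φ z = ∑ j, c j * z j := by
      intro z
      conv_lhs => rw [pi_eq_sum_univ' z]
      rw [map_sum]
      refine Finset.sum_congr rfl fun j _ => ?_
      rw [map_smul, smul_eq_mul, mul_comm]
    have hc0 : c ≠ 0 := by
      intro h0
      apply hφ
      apply LinearMap.ext
      intro z
      rw [hφc, h0]
      simp
    set P : MvPolynomial (Fin M) k := ∑ j, C (c j) * b j with hP
    have hPh : P.IsHomogeneous (m + d * r) := by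
      refine MvPolynomial.IsHomogeneous.sum _ _ _ fun j _ => ?_
      have := (isHomogeneous_C (Fin M) (c j)).mul (hom_WP G₀ d hG₀ m r _ (hbB.1 j))
      rwa [zero_add] at this
    have hPe : ∀ ω, eval (f ω) P = ∑ j, c j * y ω j := by
      intro ω
      rw [hP, map_sum]
      refine Finset.sum_congr rfl fun j _ => ?_
      rw [map_mul, eval_C]
    have hP0 : ∃ ω ∈ A, eval (f ω) P ≠ 0 := by
      by_contra hcon
      push Not at hcon
      apply hc0
      have h3 : ∑ j, c j • evA f A (b j) = 0 := by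
        funext ω
        have h4 := hcon ω ω.2
        rw [hPe] at h4
        simp only [Finset.sum_apply, Pi.smul_apply, evA_apply, smul_eq_mul, Pi.zero_apply]
        exact h4
      exact funext (Fintype.linearIndependent_iff.mp hbB.2.1 c h3)
    refine hSm.2.1 _ _ ?_ (hA.2 (m + d * r) P hPh hP0)
    rintro ω ⟨hω, hT'⟩
    refine ⟨hω, ?_⟩
    rw [hPe, ← hφc]
    exact hker hT'
  have hsmG : ∀ v ∈ S, ∀ i, Sm {ω | ω ∈ A ∧ eval (f ω) (G v i) = 0} := by
    intro v hv i
    refine hA.2 (m + d * r) _ (hom_WP G₀ d hG₀ m r _ ((hG v hv).1.1 i)) ?_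
    have h1 := (hG v hv).1.2.1.ne_zero i
    obtain ⟨ω, hω⟩ := Function.ne_iff.mp h1
    refine ⟨ω, ω.2, ?_⟩
    rw [evA_apply] at hω
    exact hω
  set B : Set Ω := (⋃ T ∈ hHf.toFinset, {ω | ω ∈ A ∧ y ω ∈ T}) ∪
    (⋃ v ∈ S, ⋃ i ∈ (Finset.univ : Finset (Fin n)), {ω | ω ∈ A ∧ eval (f ω) (G v i) = 0}) with hB
  have hBsm : Sm B := by
    refine hSm.2.2 _ _ ?_ ?_
    · exact small_iUnion hSm _ _ fun T hT => hsmT T (hHf.mem_toFinset.mp hT)
    · exact small_iUnion hSm _ _ fun v hv => small_iUnion hSm _ _ fun i _ => hsmG v hv i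
  -- the constants `κ`
  have hκ : ∀ i, ∃ κ : Place k → ℝ, (∀ v, 0 ≤ κ v) ∧ (Function.support κ).Finite ∧
      ∀ (z : Fin M → k) (v : Place k), absV v (eval z (b i)) ≤
        Real.exp (κ v) * (nrm v z ^ m * nrm v (gv G₀ z) ^ r) :=
    fun i => hMTR k M ι G₀ m r (b i) (hbB.1 i)
  choose κ hκ0 hκf hκ using hκ
  set K : Place k → ℝ := fun v => ∑ i, κ i v with hK
  have hK0 : ∀ v, 0 ≤ K v := fun v => Finset.sum_nonneg fun i _ => hκ0 i v
  have hKf : (Function.support K).Finite := by
    refine (Set.finite_iUnion fun i => hκf i).subset ?_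
    intro v hv
    by_contra hcon
    apply hv
    simp only [Set.mem_iUnion, Function.mem_support, not_exists, not_not] at hcon
    simp only [hK]
    exact Finset.sum_eq_zero fun i _ => hcon i
  set K' : ℝ := ∑ᶠ v, K v with hK'
  have hK'0 : 0 ≤ K' := finsum_nonneg hK0
  refine ⟨B, ε * K' + C₁ + n * K', hBsm, ?_⟩
  intro ω hω hωB
  have hfω := (hf ω hω).1
  have hgω := hgv ω hω
  have hyω := hy0 ω hω
  have hyT : ∀ T ∈ H, y ω ∉ T := by
    intro T hT hyT
    apply hωB
    left
    simp only [Set.mem_iUnion, exists_prop]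
    exact ⟨T, hHf.mem_toFinset.mpr hT, hω, hyT⟩
  have hGne : ∀ v ∈ S, ∀ i, eval (f ω) (G v i) ≠ 0 := by
    intro v hv i h0
    apply hωB
    right
    simp only [Set.mem_iUnion, exists_prop]
    exact ⟨v, hv, i, Finset.mem_univ i, hω, h0⟩
  refine ⟨?_, ?_⟩
  · intro v hv j
    obtain ⟨i, hi⟩ := (hG v hv).2.2 j
    rw [← hi]
    exact hGne v hv i
  have hsub := hH (y ω) hyω hyT
  set Q : Place k → ℝ := fun v =>
    m * Real.log (nrm v (f ω)) + r * Real.log (nrm v (gv G₀ (f ω))) with hQ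
  set Q' : ℝ := m * ht (f ω) + r * ht (gv G₀ (f ω)) with hQ'
  -- local comparison
  have hloc : ∀ v, Real.log (nrm v (y ω)) ≤ K v + Q v := by
    intro v
    have p1 := nrm_pos v hyω
    have p2 := nrm_pos v hfω
    have p3 := nrm_pos v hgω
    have h1 : nrm v (y ω) ≤ Real.exp (K v) * (nrm v (f ω) ^ m * nrm v (gv G₀ (f ω)) ^ r) := by
      refine nrm_le v _ (by positivity) fun i => ?_
      refine (hκ i (f ω) v).trans (mul_le_mul_of_nonneg_right ?_ (by positivity))
      exact Real.exp_le_exp.mpr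
        (Finset.single_le_sum (f := fun i => κ i v) (fun i _ => hκ0 i v) (Finset.mem_univ i))
    calc Real.log (nrm v (y ω))
        ≤ Real.log (Real.exp (K v) * (nrm v (f ω) ^ m * nrm v (gv G₀ (f ω)) ^ r)) :=
          Real.log_le_log p1 h1
      _ = K v + Q v := by
          rw [Real.log_mul (Real.exp_pos _).ne' (by positivity), Real.log_exp,
            Real.log_mul (by positivity) (by positivity), Real.log_pow, Real.log_pow]
  have sy := support_log_nrm_finite (K := k) hyω
  have sf := support_log_nrm_finite (K := k) hfω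
  have sg := support_log_nrm_finite (K := k) hgω
  have smf : (Function.support fun v => (m : ℝ) * Real.log (nrm v (f ω))).Finite :=
    sf.subset (by
      intro v hv h0
      apply hv
      simp only at h0 ⊢
      rw [h0, mul_zero])
  have smg : (Function.support fun v => (r : ℝ) * Real.log (nrm v (gv G₀ (f ω)))).Finite :=
    sg.subset (by
      intro v hv h0
      apply hv
      simp only at h0 ⊢
      rw [h0, mul_zero])
  have sQ : (Function.support Q).Finite := (smf.union smg).subset (Function.support_add _ _)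
  have sKmf : (Function.support fun v => K v + Q v).Finite :=
    (hKf.union sQ).subset (Function.support_add _ _)
  have hsum1 : ∑ᶠ v, (K v + Q v) = K' + Q' := by
    have e1 : ∑ᶠ v, (m : ℝ) * Real.log (nrm v (f ω)) = m * ht (f ω) := by
      unfold ht
      rw [mul_finsum]
    have e2 : ∑ᶠ v, (r : ℝ) * Real.log (nrm v (gv G₀ (f ω))) = r * ht (gv G₀ (f ω)) := by
      unfold ht
      rw [mul_finsum]
    rw [finsum_add_distrib hKf sQ]
    have e3 : ∑ᶠ v, Q v = Q' := by
      rw [hQ, hQ', finsum_add_distrib smf smg, e1, e2]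
    rw [e3]
  have hht : ht (y ω) ≤ K' + Q' := by
    rw [← hsum1]
    exact finsum_mono sy sKmf hloc
  have hSle : ∑ v ∈ S, (Q v - Real.log (nrm v (y ω))) ≤ Q' + K' - ht (y ω) := by
    have h1 : ∀ v, 0 ≤ K v + Q v - Real.log (nrm v (y ω)) :=
      fun v => sub_nonneg.mpr (hloc v)
    have sD : (Function.support fun v => K v + Q v - Real.log (nrm v (y ω))).Finite :=
      (sKmf.union sy).subset (Function.support_sub _ _)
    have h2 : ∑ v ∈ S, (K v + Q v - Real.log (nrm v (y ω))) ≤
        ∑ᶠ v, (K v + Q v - Real.log (nrm v (y ω))) := by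
      rw [finsum_eq_sum_of_support_subset _
        (s := S ∪ sD.toFinset) (by intro v hv; simp at hv ⊢; exact Or.inr hv)]
      exact Finset.sum_le_sum_of_subset_of_nonneg Finset.subset_union_left
        (fun v _ _ => h1 v)
    rw [finsum_sub_distrib sKmf sy, hsum1] at h2
    have h3 : ∑ v ∈ S, (Q v - Real.log (nrm v (y ω))) ≤
        ∑ v ∈ S, (K v + Q v - Real.log (nrm v (y ω))) :=
      Finset.sum_le_sum fun v _ => by linarith [hK0 v]
    have h4 : ht (y ω) = ∑ᶠ v, Real.log (nrm v (y ω)) := rfl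
    rw [h4]
    linarith
  -- conclusion
  have hmain : ∑ v ∈ S, ∑ j, (m * Real.log (nrm v (f ω)) +
      r * Real.log (nrm v (gv G₀ (f ω))) - Real.log (absV v (eval (f ω) (g v j)))) =
      ∑ v ∈ S, ∑ i, (Real.log (nrm v (y ω)) - Real.log (absV v ((L v).mulVec (y ω) i))) +
      n * ∑ v ∈ S, (Q v - Real.log (nrm v (y ω))) := by
    rw [Finset.mul_sum, ← Finset.sum_add_distrib]
    refine Finset.sum_congr rfl fun v hv => ?_
    rw [(hG v hv).2.1 (fun P => m * Real.log (nrm v (f ω)) +
      r * Real.log (nrm v (gv G₀ (f ω))) - Real.log (absV v (eval (f ω) P)))]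
    have e1 : (n : ℝ) * (Q v - Real.log (nrm v (y ω))) =
        ∑ _i : Fin n, (Q v - Real.log (nrm v (y ω))) := by
      rw [Finset.sum_const, Finset.card_univ, Fintype.card_fin, nsmul_eq_mul]
    rw [e1, ← Finset.sum_add_distrib]
    refine Finset.sum_congr rfl fun i _ => ?_
    rw [(hL v hv).2 ω hω i]
    simp only [hQ]
    ring
  rw [hmain]
  have hnr : (0 : ℝ) ≤ n := Nat.cast_nonneg n
  have h5 := mul_le_mul_of_nonneg_left hSle hnr
  have h6 : ε * ht (y ω) ≤ ε * (K' + Q') := mul_le_mul_of_nonneg_left hht hε.le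
  have h7 : (n + ε) * Q' = n * Q' + ε * Q' := by ring
  have h8 : ε * (K' + Q') = ε * K' + ε * Q' := by ring
  have h9 : (n : ℝ) * (Q' + K' - ht (y ω)) = n * Q' + n * K' - n * ht (y ω) := by ring
  have h10 : ((n : ℝ) + ε) * ht (y ω) = n * ht (y ω) + ε * ht (y ω) := by ring
  rw [h7]
  rw [h8] at h6
  rw [h9] at h5
  rw [h10] at hsub
  linarith

end Pool.Agent.Lib.MP_d0e829_nt.GP
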