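import Pool.Agent.Lib.MP_d0e829_nt.GP.Spec

/-!
# MP_d0e829_nt, module MTR: the trivial bound in `WP`
-/

set_option autoImplicit false

open NumberField MvPolynomial
open Pool.Agent.Lib.MP_d0e829_nt.SS Pool.Agent.Lib.MP_d0e829_nt.SI

namespace Pool.Agent.Lib.MP_d0e829_nt.GP

open scoped Classical

namespace MTRM

variable {k : Type} [Field k] [NumberField k] {M : ℕ} {ι : Type} [Fintype ι]

/-- the bound -/
def Bd (G : ι → MvPolynomial (Fin M) k) (m r : ℕ) (Q : MvPolynomial (Fin M) k) : Prop :=
  ∃ κ : Place k → ℝ, (∀ v, 0 ≤ κ v) ∧ (Function.support κ).Finite ∧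
    ∀ (f : Fin M → k) (v : Place k),
      absV v (eval f Q) ≤ Real.exp (κ v) * (nrm v f ^ m * nrm v (gv G f) ^ r)

lemma rhs_nonneg (G : ι → MvPolynomial (Fin M) k) (m r : ℕ) (f : Fin M → k) (v : Place k) :
    0 ≤ nrm v f ^ m * nrm v (gv G f) ^ r :=
  mul_nonneg (pow_nonneg (nrm_nonneg _ _) _) (pow_nonneg (nrm_nonneg _ _) _)

lemma support_kap : (Function.support fun w : Place k => Real.log (kap w)).Finite := by
  refine (Set.toFinite (Set.range (Sum.inl : InfinitePlace k → Place k))).subset ?_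
  intro w hw
  cases w with
  | inl w => exact ⟨w, rfl⟩
  | inr w =>
    exfalso
    apply hw
    simp [kap]

lemma support_add2 {α : Type} {f g : α → ℝ} (hf : (Function.support f).Finite)
    (hg : (Function.support g).Finite) : (Function.support fun a => f a + g a).Finite := by
  refine (hf.union hg).subset ?_
  intro a ha
  by_contra hcon
  rw [Set.mem_union, not_or, Function.mem_support, not_not, Function.mem_support, not_not] at hcon
  apply ha
  show f a + g a = 0
  rw [hcon.1, hcon.2, add_zero]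

lemma Bd.add {G : ι → MvPolynomial (Fin M) k} {m r : ℕ} {a b : MvPolynomial (Fin M) k}
    (ha : Bd G m r a) (hb : Bd G m r b) : Bd G m r (a + b) := by
  obtain ⟨κ, h0, hf, h⟩ := ha
  obtain ⟨κ', h0', hf', h'⟩ := hb
  refine ⟨fun v => Real.log (kap v) + (κ v + κ' v), fun v => ?_,
    support_add2 support_kap (support_add2 hf hf'), fun f v => ?_⟩
  · exact add_nonneg (Real.log_nonneg (one_le_kap v)) (add_nonneg (h0 v) (h0' v))
  · have hX := rhs_nonneg G m r f v
    rw [map_add, Real.exp_add, Real.exp_log (kap_pos v), mul_assoc]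
    refine absV_add_le v _ _ ?_ ?_
    · refine (h f v).trans (mul_le_mul_of_nonneg_right ?_ hX)
      exact Real.exp_le_exp.mpr (by linarith [h0' v])
    · refine (h' f v).trans (mul_le_mul_of_nonneg_right ?_ hX)
      exact Real.exp_le_exp.mpr (by linarith [h0 v])

lemma Bd.mul {G : ι → MvPolynomial (Fin M) k} {m r m' r' : ℕ} {a b : MvPolynomial (Fin M) k}
    (ha : Bd G m r a) (hb : Bd G m' r' b) : Bd G (m + m') (r + r') (a * b) := by
  obtain ⟨κ, h0, hf, h⟩ := ha
  obtain ⟨κ', h0', hf', h'⟩ := hb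
  refine ⟨fun v => κ v + κ' v, fun v => add_nonneg (h0 v) (h0' v), support_add2 hf hf',
    fun f v => ?_⟩
  have hX := rhs_nonneg G m r f v
  rw [map_mul, absV_mul, Real.exp_add, pow_add, pow_add]
  calc absV v (eval f a) * absV v (eval f b) ≤
      (Real.exp (κ v) * (nrm v f ^ m * nrm v (gv G f) ^ r)) *
        (Real.exp (κ' v) * (nrm v f ^ m' * nrm v (gv G f) ^ r')) :=
        mul_le_mul (h f v) (h' f v) (absV_nonneg _ _) (mul_nonneg (Real.exp_pos _).le hX)
    _ = _ := by ring

lemma Bd.zero (G : ι → MvPolynomial (Fin M) k) (m r : ℕ) : Bd G m r 0 := by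
  refine ⟨fun _ => 0, fun _ => le_refl _, by simp, fun f v => ?_⟩
  rw [map_zero, absV_zero]
  exact mul_nonneg (Real.exp_pos _).le (rhs_nonneg G m r f v)

lemma Bd.const (G : ι → MvPolynomial (Fin M) k) (c : k) : Bd G 0 0 (C c) := by
  by_cases hc : c = 0
  · rw [hc, C_0]
    exact Bd.zero G 0 0
  · refine ⟨fun v => |Real.log (absV v c)|, fun v => abs_nonneg _, ?_, fun f v => ?_⟩
    · refine (support_log_absV_finite hc).subset ?_
      intro v hv h1
      apply hv
      show |Real.log (absV v c)| = 0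
      rw [abs_eq_zero]
      exact h1
    · rw [eval_C, pow_zero, pow_zero, mul_one, mul_one]
      calc absV v c = Real.exp (Real.log (absV v c)) := (Real.exp_log (absV_pos v hc)).symm
        _ ≤ _ := Real.exp_le_exp.mpr (le_abs_self _)

lemma Bd.gen (G : ι → MvPolynomial (Fin M) k) (i : ι) : Bd G 0 1 (G i) := by
  refine ⟨fun _ => 0, fun _ => le_refl _, by simp, fun f v => ?_⟩
  rw [Real.exp_zero, one_mul, pow_zero, one_mul, pow_one]
  exact absV_le_nrm v (gv G f) i

lemma Bd.span (G : ι → MvPolynomial (Fin M) k) {Q : MvPolynomial (Fin M) k}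
    (hQ : Q ∈ Submodule.span k (Set.range G)) : Bd G 0 1 Q := by
  induction hQ using Submodule.span_induction with
  | mem x hx =>
    obtain ⟨i, rfl⟩ := hx
    exact Bd.gen G i
  | zero => exact Bd.zero G 0 1
  | add x y _ _ hx hy => exact hx.add hy
  | smul c x _ hx =>
    rw [← C_mul']
    exact (Bd.const G c).mul hx

lemma Bd.pow (G : ι → MvPolynomial (Fin M) k) (r : ℕ) : ∀ {Q : MvPolynomial (Fin M) k},
    Q ∈ (Submodule.span k (Set.range G)) ^ r → Bd G 0 r Q := by
  induction r with
  | zero =>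
    intro Q hQ
    rw [pow_zero, Submodule.mem_one] at hQ
    obtain ⟨c, hc⟩ := hQ
    rw [← hc]
    exact Bd.const G c
  | succ r ih =>
    intro Q hQ
    rw [pow_succ] at hQ
    refine Submodule.mul_induction_on hQ ?_ ?_
    · intro a ha b hb
      exact (ih ha).mul (Bd.span G hb)
    · intro a b ha hb
      exact ha.add hb

end MTRM

open MTRM in
theorem specMTR (hTRV : SS.SpecTRV) : SpecMTR := by
  intro k _ _ M ι _ G m r P hP
  show Bd G m r P
  unfold WP at hP
  refine Submodule.mul_induction_on hP ?_ ?_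
  · intro a ha b hb
    have h1 : Bd G m 0 a := by
      obtain ⟨κ, h0, hf, h⟩ := (hTRV k M).2 m a ((mem_homogeneousSubmodule m a).mp ha)
      refine ⟨κ, h0, hf, fun f v => ?_⟩
      rw [pow_zero, mul_one]
      exact h f v
    have h2 := h1.mul (Bd.pow G r hb)
    rwa [add_zero, zero_add] at h2
  · intro a b ha hb
    exact ha.add hb

end Pool.Agent.Lib.MP_d0e829_nt.GP
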