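import Pool.Agent.Lib.MP_d0e829_nt.GP.SpecU

set_option autoImplicit false

open NumberField MvPolynomial
open Pool.Agent.Lib.MP_d0e829_nt.SS Pool.Agent.Lib.MP_d0e829_nt.SI

namespace Pool.Agent.Lib.MP_d0e829_nt.GP

open scoped Classical

namespace NRUM

lemma map_evalForm {k K L : Type} [Field k] [Field K] [Algebra k K] [Field L] [Algebra k L]
    (σ : K →ₐ[k] L) (c : Fin 3 → k) (x : Fin 3 → K) :
    σ (evalForm c x) = evalForm c (fun i => σ (x i)) := by
  simp [evalForm, map_sum, map_mul]

lemma norm_prod {k K L : Type} [Field k] [NumberField k] [Field K] [NumberField K] [Algebra k K]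
    [Field L] [Algebra k L] [IsAlgClosed L] (n : ℕ) (e : Fin n ≃ (K →ₐ[k] L)) (z : K) :
    algebraMap k L (Algebra.norm k z) = ∏ t, e t z := by
  rw [Algebra.norm_eq_prod_embeddings k L z]
  exact (Fintype.prod_equiv e _ _ fun t => rfl).symm

end NRUM

open NRUM in
theorem specNRU (hDEU : SpecDEU) : SpecNRU := by
  obtain ⟨B, hB⟩ := hDEU
  refine ⟨B, ?_⟩
  intro k _ _ n ℓ hℓ ξ
  obtain ⟨D, P, hD, hDB, hP, hc, h⟩ := hB k n ℓ hℓ ξ
  refine ⟨D, P, hD, hDB, hP, hc, ?_⟩
  intro K _ _ _ x hn
  let L := AlgebraicClosure k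
  have hcard : Fintype.card (K →ₐ[k] L) = n := by
    rw [AlgHom.card]; exact hn
  let e : Fin n ≃ (K →ₐ[k] L) := (Fintype.equivFinOfCardEq hcard).symm
  have h1 := h L (fun t i => e t (x i))
  apply (algebraMap k L).injective
  rw [map_zero, MvPolynomial.eval₂_comp, ← h1, MvPolynomial.aeval_def]
  have hfun : (⇑(algebraMap k L) ∘ fun o : Option (Fin (2 * n + 1)) =>
      o.elim (Algebra.norm k (evalForm ξ x)) (fun j => Algebra.norm k (evalForm (ℓ j) x))) =
      fun o : Option (Fin (2 * n + 1)) => o.elim (∏ t, evalForm ξ (fun i => e t (x i)))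
        (fun j => ∏ t, evalForm (ℓ j) (fun i => e t (x i))) := by
    funext o
    cases o with
    | none =>
      show algebraMap k L (Algebra.norm k (evalForm ξ x)) = ∏ t, evalForm ξ (fun i => e t (x i))
      rw [norm_prod n e]
      exact Finset.prod_congr rfl fun t _ => map_evalForm (e t) ξ x
    | some j =>
      show algebraMap k L (Algebra.norm k (evalForm (ℓ j) x)) =
        ∏ t, evalForm (ℓ j) (fun i => e t (x i))
      rw [norm_prod n e]
      exact Finset.prod_congr rfl fun t _ => map_evalForm (e t) (ℓ j) x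
  rw [hfun]

end Pool.Agent.Lib.MP_d0e829_nt.GP

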