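import Pool.Agent.Lib.MP_d0e829_nt.GP.Spec

/-!
# MP_d0e829_nt, gap theorem, module ONE: points of degree one
-/

set_option autoImplicit false

open NumberField MvPolynomial
open Pool.Agent.Lib.MP_d0e829_nt.SS Pool.Agent.Lib.MP_d0e829_nt.SI

namespace Pool.Agent.Lib.MP_d0e829_nt.GP

open scoped Classical

namespace ONEM

theorem eval_lin {k : Type} [Field k] {n : ℕ} (c x : Fin n → k) : eval x (lin c) = c ⬝ᵥ x := by
  simp [lin, dotProduct]

theorem lin_homog {k : Type} [Field k] {n : ℕ} (c : Fin n → k) : (lin c).IsHomogeneous 1 := by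
  refine MvPolynomial.IsHomogeneous.sum _ _ _ fun j _ => ?_
  have h := (MvPolynomial.isHomogeneous_C (Fin n) (c j)).mul (MvPolynomial.isHomogeneous_X k j)
  rwa [zero_add] at h

theorem det_ne {k : Type} [Field k] {B : Matrix (Fin 3) (Fin 3) k} (h : LinearIndependent k B) :
    B.det ≠ 0 := by
  have h1 : LinearIndependent k B.row := h
  rw [Matrix.linearIndependent_rows_iff_isUnit, Matrix.isUnit_iff_isUnit_det] at h1
  exact h1.ne_zero

/-- A family of linear forms. -/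
theorem fam (hTRV : SS.SpecTRV) (k : Type) [Field k] [NumberField k] {P N : ℕ}
    (A : Fin P → Fin N → k) :
    ∃ κ : Place k → ℝ, (∀ v, 0 ≤ κ v) ∧ (Function.support κ).Finite ∧
      ∀ (y : Fin N → k) (v : Place k) (a : Fin P),
        absV v (A a ⬝ᵥ y) ≤ Real.exp (κ v) * nrm v y := by
  choose κ h0 hfin hκ using fun a : Fin P => (hTRV k N).2 1 (lin (A a)) (lin_homog (A a))
  refine ⟨fun v => ∑ a, κ a v, fun v => Finset.sum_nonneg fun a _ => h0 a v, ?_, ?_⟩
  · refine (Set.finite_iUnion fun a => hfin a).subset ?_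
    intro v hv
    by_contra hc
    simp only [Set.mem_iUnion, Function.mem_support, not_exists, not_not] at hc
    apply hv
    exact Finset.sum_eq_zero fun a _ => hc a
  · intro y v a
    have h1 := hκ a y v
    rw [eval_lin, pow_one] at h1
    refine h1.trans ?_
    apply mul_le_mul_of_nonneg_right _ (nrm_nonneg v y)
    apply Real.exp_le_exp.2
    exact Finset.single_le_sum (f := fun a => κ a v) (fun a _ => h0 a v) (Finset.mem_univ a)

theorem inv_bound (hTRV : SS.SpecTRV) (k : Type) [Field k] [NumberField k]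
    (B : Matrix (Fin 3) (Fin 3) k) (hB : B.det ≠ 0) :
    ∃ κ : Place k → ℝ, (∀ v, 0 ≤ κ v) ∧ (Function.support κ).Finite ∧
      ∀ (y : Fin 3 → k) (v : Place k), nrm v y ≤ Real.exp (κ v) * nrm v (B.mulVec y) := by
  obtain ⟨κ, h0, hfin, hκ⟩ := fam hTRV k (fun j => (B⁻¹) j)
  refine ⟨κ, h0, hfin, fun y v => ?_⟩
  refine nrm_le v y (mul_nonneg (Real.exp_pos _).le (nrm_nonneg _ _)) fun j => ?_
  have h1 := hκ (B.mulVec y) v j
  have h2 : (B⁻¹) j ⬝ᵥ B.mulVec y = y j := by
    have h3 : (B⁻¹).mulVec (B.mulVec y) = y := by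
      rw [Matrix.mulVec_mulVec, Matrix.nonsing_inv_mul B (isUnit_iff_ne_zero.2 hB),
        Matrix.one_mulVec]
    exact congrFun h3 j
  rw [h2] at h1
  exact h1

/-- A nonzero form vanishing on a proper subspace. -/
theorem form {k : Type} [Field k] (T : Submodule k (Fin 3 → k)) (hT : T ≠ ⊤) :
    ∃ L : Fin 3 → k, L ≠ 0 ∧ ∀ y ∈ T, L ⬝ᵥ y = 0 := by
  obtain ⟨φ, hφ, hker⟩ := Submodule.exists_le_ker_of_lt_top T (lt_top_iff_ne_top.mpr hT)
  have hφc : ∀ z : Fin 3 → k, φ z = (fun j => φ (Pi.single j 1)) ⬝ᵥ z := by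
    intro z
    have h1 : z = ∑ j, z j • (Pi.single j (1 : k) : Fin 3 → k) := by
      funext i
      simp [Finset.sum_apply, Pi.single_apply]
    conv_lhs => rw [h1]
    rw [map_sum]
    unfold dotProduct
    refine Finset.sum_congr rfl fun j _ => ?_
    rw [map_smul, smul_eq_mul, mul_comm]
  refine ⟨fun j => φ (Pi.single j 1), ?_, ?_⟩
  · intro h0
    apply hφ
    apply LinearMap.ext
    intro z
    rw [hφc, h0]
    simp
  · intro y hy
    rw [← hφc]
    exact hker hy

/-- Reduction to vectors over `k`. -/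
theorem red {k K : Type} [Field k] [Field K] [Algebra k K] (hn : Module.finrank k K = 1)
    (x : Fin 3 → K) :
    ∃ y : Fin 3 → k, (∀ c : Fin 3 → k, evalForm c x = algebraMap k K (c ⬝ᵥ y)) ∧
      ∀ z : k, Algebra.norm k (algebraMap k K z) = z := by
  have : Module.Finite k K := Module.finite_of_finrank_pos (by omega)
  have hsurj : Function.Surjective (algebraMap k K) := by
    have h1 := (Subalgebra.bot_eq_top_iff_finrank_eq_one (F := k) (E := K)).mpr hn
    exact Algebra.surjective_algebraMap_iff.2 h1.symm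
  choose g hg using hsurj
  refine ⟨fun j => g (x j), fun c => ?_, fun z => ?_⟩
  · unfold evalForm dotProduct
    rw [map_sum]
    refine Finset.sum_congr rfl fun j _ => ?_
    rw [map_mul, hg]
  · rw [Algebra.norm_algebraMap, hn, pow_one]

theorem sum_max {q : ℕ} (hq : 3 ≤ q) (g : Fin q → ℝ) {C : ℝ} (hC : 0 ≤ C)
    (h3 : ∀ τ : Fin 3 → Fin q, Function.Injective τ → ∃ c, g (τ c) ≤ C) :
    ∃ τ : Fin 3 → Fin q, Function.Injective τ ∧ ∑ i, g i ≤ ∑ c, g (τ c) + q * C := by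
  set Bad : Finset (Fin q) := Finset.univ.filter fun i => C < g i with hBad
  have hcard : Bad.card ≤ 3 := by
    by_contra hc
    push Not at hc
    obtain ⟨t, ht, htc⟩ := Finset.exists_subset_card_eq hc.le
    obtain ⟨c, hc⟩ := h3 (t.orderEmbOfFin htc) (t.orderEmbOfFin htc).injective
    have h1 := ht (Finset.orderEmbOfFin_mem t htc c)
    rw [hBad, Finset.mem_filter] at h1
    exact absurd hc (not_le.2 h1.2)
  obtain ⟨t, hBt, -, htc⟩ := Finset.exists_subsuperset_card_eq (Finset.subset_univ Bad) hcard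
    (by rw [Finset.card_univ, Fintype.card_fin]; exact hq)
  refine ⟨t.orderEmbOfFin htc, (t.orderEmbOfFin htc).injective, ?_⟩
  have h1 : ∑ c, g (t.orderEmbOfFin htc c) = ∑ i ∈ t, g i := by
    have h2 : t = Finset.univ.image (t.orderEmbOfFin htc) := by
      ext i
      constructor
      · intro hi
        rw [Finset.mem_image]
        have h4 : i ∈ Set.range (t.orderEmbOfFin htc) := by
          rw [Finset.range_orderEmbOfFin]
          exact hi
        obtain ⟨c, hc⟩ := h4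
        exact ⟨c, Finset.mem_univ c, hc⟩
      · intro hi
        rw [Finset.mem_image] at hi
        obtain ⟨c, -, hc⟩ := hi
        rw [← hc]
        exact Finset.orderEmbOfFin_mem t htc c
    conv_rhs => rw [h2]
    rw [Finset.sum_image (fun a _ b _ hab => (t.orderEmbOfFin htc).injective hab)]
  rw [h1, ← Finset.sum_add_sum_compl t]
  have h5 : ∑ i ∈ tᶜ, g i ≤ ∑ i ∈ tᶜ, C := by
    refine Finset.sum_le_sum fun i hi => ?_
    rw [Finset.mem_compl] at hi
    by_contra hc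
    apply hi
    apply hBt
    rw [hBad, Finset.mem_filter]
    exact ⟨Finset.mem_univ i, not_le.1 hc⟩
  rw [Finset.sum_const, nsmul_eq_mul] at h5
  have h6 : ((tᶜ).card : ℝ) * C ≤ q * C := by
    apply mul_le_mul_of_nonneg_right _ hC
    have h7 : (tᶜ).card ≤ q := by
      have h8 := Finset.card_le_univ (tᶜ)
      rwa [Fintype.card_fin] at h8
    exact_mod_cast h7
  linarith

/-- The statement over `k`. -/
theorem core (hSUB : SS.SpecSUB) (hTRV : SS.SpecTRV) (k : Type) [Field k] [NumberField k]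
    (q M : ℕ) (ℓ : Fin q → Fin 3 → k) (Ξ : Fin M → Fin 3 → k) (e : Fin q → Fin M)
    (hC : Cfg ℓ Ξ e) (S : Finset (Place k)) :
    ∃ (Z : Finset (Fin 3 → k)) (C' : ℝ), (∀ L ∈ Z, L ≠ 0) ∧
      ∀ y : Fin 3 → k, (∀ a, Ξ a ⬝ᵥ y ≠ 0) → (∀ L ∈ Z, L ⬝ᵥ y ≠ 0) →
        ∑ v ∈ S, ∑ i, vl v (e i) (fun a => Ξ a ⬝ᵥ y) ≤
          (3 + 1 / 2) * ht (fun a => Ξ a ⬝ᵥ y) + C' := by
  have hq := hC.three
  obtain ⟨κ₁, h10, h1fin, h1⟩ := fam hTRV k Ξ
  have hdet : ∀ τ : Fin 3 → Fin q, Function.Injective τ →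
      (Matrix.of fun j => ℓ (τ j)).det ≠ 0 := by
    intro τ hτ
    apply det_ne
    have h2 := hC.gp (τ 0) (τ 1) (τ 2) (fun h => by simpa using hτ h)
      (fun h => by simpa using hτ h) (fun h => by simpa using hτ h)
    have h3 : (![ℓ (τ 0), ℓ (τ 1), ℓ (τ 2)] : Fin 3 → Fin 3 → k) = fun j => ℓ (τ j) := by
      funext j
      fin_cases j <;> rfl
    rw [h3] at h2
    exact h2
  have hex : ∀ τ : Fin 3 → Fin q, ∃ κ : Place k → ℝ, (∀ v, 0 ≤ κ v) ∧
      (Function.support κ).Finite ∧ (Function.Injective τ → ∀ (y : Fin 3 → k) (v : Place k),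
        nrm v y ≤ Real.exp (κ v) * nrm v ((Matrix.of fun j => ℓ (τ j)).mulVec y)) := by
    intro τ
    by_cases hτ : Function.Injective τ
    · obtain ⟨κ, a1, a2, a3⟩ := inv_bound hTRV k _ (hdet τ hτ)
      exact ⟨κ, a1, a2, fun _ => a3⟩
    · refine ⟨fun _ => 0, fun _ => le_refl _, ?_, fun h => absurd h hτ⟩
      simp [Function.support]
  choose κ₂ h20 h2fin h2 using hex
  -- the bound of `x` by three of the forms
  have hinv : ∀ τ : Fin 3 → Fin q, Function.Injective τ → ∀ (y : Fin 3 → k) (v : Place k),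
      ∃ c, nrm v y ≤ Real.exp (∑ τ, κ₂ τ v) * absV v (ℓ (τ c) ⬝ᵥ y) := by
    intro τ hτ y v
    obtain ⟨c, hc⟩ := exists_eq_ciSup_of_finite
      (f := fun j => absV v ((Matrix.of fun j => ℓ (τ j)).mulVec y j))
    refine ⟨c, (h2 τ hτ y v).trans ?_⟩
    have h3 : nrm v ((Matrix.of fun j => ℓ (τ j)).mulVec y) = absV v (ℓ (τ c) ⬝ᵥ y) := by
      unfold nrm
      rw [← hc]
      rfl
    rw [h3]
    apply mul_le_mul_of_nonneg_right _ (absV_nonneg v _)
    apply Real.exp_le_exp.2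
    exact Finset.single_le_sum (f := fun τ => κ₂ τ v) (fun τ _ => h20 τ v) (Finset.mem_univ τ)
  set K : Place k → ℝ := fun v => κ₁ v + ∑ τ, κ₂ τ v with hKdef
  have hK20 : ∀ v, 0 ≤ ∑ τ, κ₂ τ v := fun v => Finset.sum_nonneg fun τ _ => h20 τ v
  have hK0 : ∀ v, 0 ≤ K v := fun v => add_nonneg (h10 v) (hK20 v)
  have hKfin : (Function.support K).Finite := by
    refine (h1fin.union (Set.finite_iUnion fun τ => h2fin τ)).subset ?_
    intro v hv
    by_contra hc
    simp only [Set.mem_union, Set.mem_iUnion, Function.mem_support, not_or, not_exists,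
      not_not] at hc
    apply hv
    show κ₁ v + ∑ τ, κ₂ τ v = 0
    rw [hc.1, zero_add]
    exact Finset.sum_eq_zero fun τ _ => hc.2 τ
  -- the Subspace theorem
  have hsub : ∀ φ : {v // v ∈ S} → (Fin 3 → Fin q), ∃ (C : ℝ) (H : Set (Submodule k (Fin 3 → k))),
      H.Finite ∧ (∀ T ∈ H, T ≠ ⊤) ∧ ∀ y : Fin 3 → k, y ≠ 0 → (∀ T ∈ H, y ∉ T) →
        ∑ v ∈ S, ∑ i, (Real.log (nrm v y) - Real.log (absV v
          ((if h : v ∈ S then (if Function.Injective (φ ⟨v, h⟩) then
            (Matrix.of fun j => ℓ (φ ⟨v, h⟩ j)) else 1) else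
            (1 : Matrix (Fin 3) (Fin 3) k)).mulVec y i))) ≤
          (((3 : ℕ) : ℝ) + 1 / 2) * ht y + C := by
    intro φ
    refine hSUB k 3 (by norm_num) S (fun v => if h : v ∈ S then
      (if Function.Injective (φ ⟨v, h⟩) then (Matrix.of fun j => ℓ (φ ⟨v, h⟩ j)) else 1) else
      (1 : Matrix (Fin 3) (Fin 3) k)) ?_ (1 / 2) (by norm_num)
    intro v hv
    simp only [dif_pos hv]
    by_cases hτ : Function.Injective (φ ⟨v, hv⟩)
    · rw [if_pos hτ]
      exact hdet _ hτ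
    · rw [if_neg hτ, Matrix.det_one]
      exact one_ne_zero
  choose Cs H hHf hHt hH using hsub
  choose! Lf hLf1 hLf2 using fun (T : Submodule k (Fin 3 → k)) (hT : T ≠ ⊤) => form T hT
  have hZfin : (⋃ φ, Lf '' (H φ)).Finite := Set.finite_iUnion fun φ => (hHf φ).image Lf
  refine ⟨hZfin.toFinset, ∑ φ, |Cs φ| + ∑ v ∈ S, (3 * K v + q * K v) +
    (3 + 1 / 2) * ∑ᶠ v, K v, ?_, ?_⟩
  · intro L hL
    rw [Set.Finite.mem_toFinset] at hL
    obtain ⟨s, ⟨φ, rfl⟩, T, hT, rfl⟩ := hL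
    exact hLf1 T (hHt φ T hT)
  intro y hy hZ
  set f : Fin M → k := fun a => Ξ a ⬝ᵥ y with hf
  have hfe : ∀ i, f (e i) = ℓ i ⬝ᵥ y := by
    intro i
    show Ξ (e i) ⬝ᵥ y = _
    rw [hC.eq i]
  have hq0 : 0 < q := by omega
  have hy0 : y ≠ 0 := by
    intro h
    apply hy (e ⟨0, hq0⟩)
    rw [h, dotProduct_zero]
  have hf0 : f ≠ 0 := by
    intro h
    exact hy (e ⟨0, hq0⟩) (congrFun h (e ⟨0, hq0⟩))
  -- `log nrm v f ≤ κ₁ v + log nrm v y`
  have hfy : ∀ v, Real.log (nrm v f) ≤ κ₁ v + Real.log (nrm v y) := by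
    intro v
    have h3 : nrm v f ≤ Real.exp (κ₁ v) * nrm v y :=
      nrm_le v f (mul_nonneg (Real.exp_pos _).le (nrm_nonneg _ _)) fun a => h1 y v a
    have h4 := Real.log_le_log (nrm_pos v hf0) h3
    rw [Real.log_mul (Real.exp_pos _).ne' (nrm_pos v hy0).ne', Real.log_exp] at h4
    exact h4
  -- `log nrm v y ≤ K₂ v + log |ℓ (τ c) y|`
  have hyf : ∀ τ : Fin 3 → Fin q, Function.Injective τ → ∀ v, ∃ c,
      Real.log (nrm v y) ≤ ∑ τ, κ₂ τ v + Real.log (absV v (f (e (τ c)))) := by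
    intro τ hτ v
    obtain ⟨c, hc⟩ := hinv τ hτ y v
    refine ⟨c, ?_⟩
    have h4 := Real.log_le_log (nrm_pos v hy0) hc
    have h5 : ℓ (τ c) ⬝ᵥ y ≠ 0 := by
      rw [← hfe]
      exact hy _
    rw [Real.log_mul (Real.exp_pos _).ne' (absV_pos v h5).ne', Real.log_exp, ← hfe] at h4
    exact h4
  -- heights
  have hht : ht y ≤ ht f + ∑ᶠ v, K v := by
    have hinj : Function.Injective fun j : Fin 3 => (⟨j, by omega⟩ : Fin q) := by
      intro a b hab
      have h3 := congrArg Fin.val hab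
      exact Fin.ext h3
    unfold ht
    rw [← finsum_add_distrib (support_log_nrm_finite hf0) hKfin]
    refine finsum_mono (support_log_nrm_finite hy0) ?_ fun v => ?_
    · refine ((support_log_nrm_finite hf0).union hKfin).subset ?_
      intro v hv
      by_contra hc
      simp only [Set.mem_union, Function.mem_support, not_or, not_not] at hc
      apply hv
      show Real.log (nrm v f) + K v = 0
      rw [hc.1, hc.2, add_zero]
    · obtain ⟨c, hc⟩ := hyf _ hinj v
      have h3 : Real.log (absV v (f (e (⟨c, by omega⟩ : Fin q)))) ≤ Real.log (nrm v f) :=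
        Real.log_le_log (absV_pos v (hy _)) (absV_le_nrm v f _)
      have h4 : (0 : ℝ) ≤ κ₁ v := h10 v
      show Real.log (nrm v y) ≤ Real.log (nrm v f) + (κ₁ v + ∑ τ, κ₂ τ v)
      linarith
  -- the choice of three lines
  have hτ : ∀ v, ∃ τ : Fin 3 → Fin q, Function.Injective τ ∧
      ∑ i, vl v (e i) f ≤ ∑ c, vl v (e (τ c)) f + q * K v := by
    intro v
    refine sum_max hq (fun i => vl v (e i) f) (hK0 v) fun τ hτ => ?_
    obtain ⟨c, hc⟩ := hyf τ hτ v
    refine ⟨c, ?_⟩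
    have h3 := hfy v
    show Real.log (nrm v f) - Real.log (absV v (f (e (τ c)))) ≤ κ₁ v + ∑ τ, κ₂ τ v
    linarith
  choose τ hτi hτs using hτ
  have hnotin : ∀ T ∈ H (fun v => τ v.1), y ∉ T := by
    intro T hT hyT
    have h3 : Lf T ∈ hZfin.toFinset := by
      rw [Set.Finite.mem_toFinset, Set.mem_iUnion]
      exact ⟨_, T, hT, rfl⟩
    exact hZ _ h3 (hLf2 T (hHt _ T hT) y hyT)
  have hmain := hH (fun v => τ v.1) y hy0 hnotin
  have hterm : ∀ v ∈ S, ∑ i, vl v (e i) f ≤ (∑ i, (Real.log (nrm v y) - Real.log (absV v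
      ((if h : v ∈ S then (if Function.Injective ((fun v : {v // v ∈ S} => τ v.1) ⟨v, h⟩) then
            (Matrix.of fun j => ℓ ((fun v : {v // v ∈ S} => τ v.1) ⟨v, h⟩ j)) else 1) else
            (1 : Matrix (Fin 3) (Fin 3) k)).mulVec y i)))) + (3 * K v + q * K v) := by
    intro v hv
    rw [dif_pos hv, if_pos (hτi v)]
    have h3 : ∑ c, vl v (e (τ v c)) f ≤ ∑ c : Fin 3, ((Real.log (nrm v y) - Real.log (absV v
        ((Matrix.of fun j => ℓ (τ v j)).mulVec y c))) + K v) := by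
      refine Finset.sum_le_sum fun c _ => ?_
      have h4 := hfy v
      have h5 : (Matrix.of fun j => ℓ (τ v j)).mulVec y c = f (e (τ v c)) := by
        rw [hfe]
        rfl
      rw [h5]
      have h6 := hK20 v
      show Real.log (nrm v f) - Real.log (absV v (f (e (τ v c)))) ≤
        Real.log (nrm v y) - Real.log (absV v (f (e (τ v c)))) + (κ₁ v + ∑ τ, κ₂ τ v)
      linarith
    rw [Finset.sum_add_distrib, Finset.sum_const, Finset.card_univ, Fintype.card_fin,
      nsmul_eq_mul] at h3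
    push_cast at h3
    have h7 := hτs v
    linarith
  have hsum := Finset.sum_le_sum hterm
  rw [Finset.sum_add_distrib] at hsum
  have hCle : Cs (fun v => τ v.1) ≤ ∑ φ, |Cs φ| :=
    (le_abs_self _).trans (Finset.single_le_sum (f := fun φ => |Cs φ|)
      (fun φ _ => abs_nonneg _) (Finset.mem_univ _))
  have h8 : (3 + 1 / 2 : ℝ) * ht y ≤ (3 + 1 / 2) * (ht f + ∑ᶠ v, K v) :=
    mul_le_mul_of_nonneg_left hht (by norm_num)
  push_cast at hmain
  linarith

end ONEM

theorem specONE (hSUB : SS.SpecSUB) (hTRV : SS.SpecTRV) (_hLOA : SI.SpecLOA) : SpecONE := by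
  intro k _ _ q M ℓ Ξ e hC S
  obtain ⟨Z, C', hZ0, hZ⟩ := ONEM.core hSUB hTRV k q M ℓ Ξ e hC S
  refine ⟨Z, C', hZ0, ?_⟩
  intro K _ _ _ x hn hx hL
  obtain ⟨y, hy1, hy2⟩ := ONEM.red hn x
  have hnv : nv Ξ x = fun a => Ξ a ⬝ᵥ y := by
    funext a
    show Algebra.norm k (evalForm (Ξ a) x) = _
    rw [hy1, hy2]
  rw [hnv]
  apply hZ y
  · intro a h
    apply hx a
    rw [hy1, h, map_zero]
  · intro L hLZ h
    apply hL L hLZ
    rw [hy1, h, map_zero]

end Pool.Agent.Lib.MP_d0e829_nt.GP
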