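import Pool.Agent.Lib.MP_d0e829_nt.GP.Spec
import Pool.Agent.Lib.MP_d0e829_nt.SI.UNI

/-!
# UNA: the approximate unit equation
-/

set_option autoImplicit false

open NumberField MvPolynomial
open Pool.Agent.Lib.MP_d0e829_nt.SS Pool.Agent.Lib.MP_d0e829_nt.SI

namespace Pool.Agent.Lib.MP_d0e829_nt.GP

open scoped Classical

namespace UNAM

open UNIM

lemma smSys {Ω : Type} (U : Ultrafilter Ω) : SmSys (SmU U) := by
  refine ⟨?_, ?_, ?_⟩
  · exact Filter.Eventually.of_forall fun ω h => h
  · intro A B hAB hB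
    exact Filter.Eventually.mono (show ∀ᶠ ω in (U : Filter Ω), ω ∉ B from hB)
      fun ω h h' => h (hAB h')
  · intro A B hA hB
    have hA' : ∀ᶠ ω in (U : Filter Ω), ω ∉ A := hA
    have hB' : ∀ᶠ ω in (U : Filter Ω), ω ∉ B := hB
    show ∀ᶠ ω in (U : Filter Ω), ω ∉ A ∪ B
    filter_upwards [hA', hB'] with ω h1 h2 h
    exact h.elim h1 h2

variable {k : Type} [Field k] [NumberField k]

/-- The inequality of the Subspace theorem off a small set. -/
lemma bound (hSUB : SpecSUB) {Ω : Type} {M : ℕ} (f : Ω → Fin M → k) (Sm : Set Ω → Prop)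
    (hSm : SmSys Sm) (A : Set Ω) (hA : Gen Sm f A) (S : Finset (Place k)) (m N : ℕ)
    (hN : 0 < N) (G : Fin N → MvPolynomial (Fin M) k) (hG : ∀ i, (G i).IsHomogeneous m)
    (b : Fin N → k) (hb : ∀ i, b i ≠ 0)
    (hne : ∀ ω ∈ A, ∀ o, YY b (fun i => eval (f ω) (G i)) o ≠ 0)
    (hind : ∀ d : Fin N → k, (∀ ω ∈ A, ∑ i, d i * eval (f ω) (G i) = 0) → d = 0) :
    ∃ (B : Set Ω) (C : ℝ), Sm B ∧ ∀ ω ∈ A, ω ∉ B →
      ∑ o, ∑ v ∈ S, (Real.log (nrm v (fun i => eval (f ω) (G i))) -
        Real.log (absV v (YY b (fun i => eval (f ω) (G i)) o))) ≤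
        ((N : ℝ) + 1 / 2) * ht (fun i => eval (f ω) (G i)) + C := by
  let L : (S → Option (Fin N)) → Place k → Matrix (Fin N) (Fin N) k := fun g v =>
    if h : v ∈ S then LL b (g ⟨v, h⟩) else 1
  have hLdet : ∀ g, ∀ v ∈ S, (L g v).det ≠ 0 := by
    intro g v hv
    simp only [L, dif_pos hv]
    exact LL_det b hb _
  have hsub := fun g => hSUB k N hN S (L g) (hLdet g) (1 / 2) (by norm_num)
  choose C H hHf hHt hH using hsub
  -- small sets
  have hsmT : ∀ g, ∀ T ∈ H g, Sm {ω | ω ∈ A ∧ (fun i => eval (f ω) (G i)) ∈ T} := by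
    intro g T hT
    obtain ⟨φ, hφ, hker⟩ :=
      Submodule.exists_le_ker_of_lt_top T (lt_top_iff_ne_top.mpr (hHt g T hT))
    set c : Fin N → k := fun j => φ (Pi.single j 1) with hc
    have hφc : ∀ z : Fin N → k, φ z = ∑ j, c j * z j := by
      intro z
      conv_lhs => rw [pi_eq_sum_univ' z]
      rw [map_sum]
      refine Finset.sum_congr rfl fun j _ => ?_
      rw [map_smul, smul_eq_mul, mul_comm]
    have hc0 : c ≠ 0 := by
      intro h0
      apply hφ
      apply LinearMap.ext
      intro z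
      rw [hφc, h0]
      simp
    set P : MvPolynomial (Fin M) k := ∑ j, MvPolynomial.C (c j) * G j with hP
    have hPh : P.IsHomogeneous m := by
      refine MvPolynomial.IsHomogeneous.sum _ _ _ fun j _ => ?_
      have := (isHomogeneous_C (Fin M) (c j)).mul (hG j)
      rwa [zero_add] at this
    have hPe : ∀ ω, eval (f ω) P = ∑ j, c j * eval (f ω) (G j) := by
      intro ω
      rw [hP, map_sum]
      refine Finset.sum_congr rfl fun j _ => ?_
      rw [map_mul, eval_C]
    have hP0 : ∃ ω ∈ A, eval (f ω) P ≠ 0 := by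
      by_contra hcon
      push Not at hcon
      apply hc0
      refine hind c fun ω hω => ?_
      rw [← hPe]
      exact hcon ω hω
    refine hSm.2.1 _ _ ?_ (hA.2 m P hPh hP0)
    rintro ω ⟨hω, hT'⟩
    refine ⟨hω, ?_⟩
    rw [hPe, ← hφc (fun i => eval (f ω) (G i))]
    exact hker hT'
  refine ⟨⋃ g ∈ (Finset.univ : Finset (S → Option (Fin N))), ⋃ T ∈ (hHf g).toFinset,
    {ω | ω ∈ A ∧ (fun i => eval (f ω) (G i)) ∈ T}, ∑ g, |C g|, ?_, ?_⟩
  · exact small_iUnion hSm _ _ fun g _ => small_iUnion hSm _ _ fun T hT =>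
      hsmT g T ((hHf g).mem_toFinset.mp hT)
  intro ω hω hωB
  set y : Fin N → k := fun i => eval (f ω) (G i) with hy
  have hne' : ∀ o, YY b y o ≠ 0 := hne ω hω
  have hy0 : y ≠ 0 := by
    intro h
    exact hne' (some ⟨0, hN⟩) (congrFun h ⟨0, hN⟩)
  -- the index with the largest value
  have hmax : ∀ v : Place k, ∃ o, ∀ o', absV v (YY b y o') ≤ absV v (YY b y o) :=
    fun v => Finite.exists_max fun o => absV v (YY b y o)
  choose o ho using hmax
  set g : S → Option (Fin N) := fun v => o v.1 with hg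
  have hyT : ∀ T ∈ H g, y ∉ T := by
    intro T hT hyT
    apply hωB
    simp only [Set.mem_iUnion, exists_prop]
    exact ⟨g, Finset.mem_univ g, T, (hHf g).mem_toFinset.mpr hT, hω, hyT⟩
  have hsub := hH g y hy0 hyT
  -- local terms
  have hloc : ∀ v ∈ S, ∑ o', (Real.log (nrm v y) - Real.log (absV v (YY b y o'))) ≤
      ∑ i, (Real.log (nrm v y) - Real.log (absV v ((L g v).mulVec y i))) := by
    intro v hv
    have e1 : L g v = LL b (o v) := by
      simp only [L, dif_pos hv, hg]
    rw [e1, Finset.sum_sub_distrib, Finset.sum_sub_distrib,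
      sum_LL b y (fun z => Real.log (absV v z)) (o v), Finset.sum_const, Finset.sum_const,
      Finset.card_univ, Finset.card_univ, Fintype.card_option, Fintype.card_fin, nsmul_eq_mul,
      nsmul_eq_mul]
    have h1 : Real.log (nrm v y) ≤ Real.log (absV v (YY b y (o v))) := by
      refine Real.log_le_log (nrm_pos v hy0) (nrm_le v y (absV_nonneg _ _) fun j => ?_)
      exact ho v (some j)
    push_cast
    linarith
  have hCg : C g ≤ ∑ g', |C g'| :=
    (le_abs_self _).trans
      (Finset.single_le_sum (f := fun g' => |C g'|) (fun _ _ => abs_nonneg _) (Finset.mem_univ g))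
  calc ∑ o', ∑ v ∈ S, (Real.log (nrm v y) - Real.log (absV v (YY b y o')))
      = ∑ v ∈ S, ∑ o', (Real.log (nrm v y) - Real.log (absV v (YY b y o'))) := Finset.sum_comm
    _ ≤ ((N : ℝ) + 1 / 2) * ht y + C g := (Finset.sum_le_sum hloc).trans hsub
    _ ≤ _ := by linarith

/-! ### Monomials -/

lemma absV_pow' (v : Place k) (z : k) (n : ℕ) : absV v (z ^ n) = absV v z ^ n := by
  induction n with
  | zero => simp
  | succ n ih => rw [pow_succ, pow_succ, absV_mul, ih]

lemma absV_mo' {M : ℕ} (x : Fin M → k) (v : Place k) (s : Fin M →₀ ℕ) :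
    absV v (mo x s) = ∏ i, absV v (x i) ^ s i := by
  have h1 : ∀ (t : Finset (Fin M)), absV v (∏ i ∈ t, x i ^ s i) = ∏ i ∈ t, absV v (x i) ^ s i := by
    intro t
    induction t using Finset.induction_on with
    | empty => simp
    | insert a t ha ih =>
      rw [Finset.prod_insert ha, Finset.prod_insert ha, absV_mul, ih, absV_pow']
  unfold mo
  rw [h1]

lemma log_mo {M : ℕ} (x : Fin M → k) (hx : ∀ i, x i ≠ 0) (v : Place k) (s : Fin M →₀ ℕ) :
    Real.log (absV v (mo x s)) = ∑ i, (s i : ℝ) * Real.log (absV v (x i)) := by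
  rw [absV_mo', Real.log_prod fun i _ => pow_ne_zero _ (absV_pos v (hx i)).ne']
  exact Finset.sum_congr rfl fun i _ => Real.log_pow _ _

lemma vl_mo {M : ℕ} (x : Fin M → k) (hx : ∀ i, x i ≠ 0) (v : Place k) (s : Fin M →₀ ℕ) (m : ℕ)
    (hm : s.degree = m) : ∑ i, (s i : ℝ) * vl v i x =
      m * Real.log (nrm v x) - Real.log (absV v (mo x s)) := by
  rw [log_mo x hx, ← hm, Finsupp.degree_eq_sum]
  unfold vl
  push_cast
  rw [Finset.sum_mul, ← Finset.sum_sub_distrib]
  exact Finset.sum_congr rfl fun i _ => by ring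

lemma absV_mo_le {M : ℕ} (x : Fin M → k) (v : Place k) (s : Fin M →₀ ℕ) (m : ℕ)
    (hm : s.degree = m) : absV v (mo x s) ≤ nrm v x ^ m := by
  rw [absV_mo', ← hm, Finsupp.degree_eq_sum, ← Finset.prod_pow_eq_pow_sum]
  exact Finset.prod_le_prod (fun i _ => pow_nonneg (absV_nonneg _ _) _)
    fun i _ => pow_le_pow_left₀ (absV_nonneg _ _) (absV_le_nrm v x i) _

/-- the lower bound for one monomial -/
lemma lower {M N : ℕ} (x : Fin M → k) (hM : 0 < M) (hx : ∀ i, x i ≠ 0) (S : Finset (Place k))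
    (I : Finset (Fin M)) (ε : ℝ) (hI : ∀ l ∈ I, ht x - ∑ v ∈ S, vl v l x ≤ ε * ht x)
    (m : ℕ) (y : Fin N → k) (hy0 : y ≠ 0) (α : Fin N → (Fin M →₀ ℕ)) (hyα : ∀ i, y i = mo x (α i))
    (hα : ∀ i, (α i).degree = m) (s : Fin M →₀ ℕ) (hs : s.degree = m)
    (hsI : ∀ i, s i ≠ 0 → i ∈ I) :
    ht y - m * (ε * ht x) ≤
      ∑ v ∈ S, (Real.log (nrm v y) - Real.log (absV v (mo x s))) := by
  have hx0 : x ≠ 0 := fun h => hx ⟨0, hM⟩ (congrFun h ⟨0, hM⟩)
  have hf1 := support_log_nrm_finite hx0
  have hf2 := support_log_nrm_finite hy0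
  set W : Place k → ℝ := fun v => m * Real.log (nrm v x) - Real.log (nrm v y) with hW
  have hf1' : (Function.support fun v : Place k => (m : ℝ) * Real.log (nrm v x)).Finite :=
    hf1.subset fun v hv h => hv (by
      have h' : Real.log (nrm v x) = 0 := h
      simp only [h', mul_zero])
  have hWs : (Function.support W).Finite :=
    (hf1'.union hf2).subset (Function.support_sub _ _)
  have hW0 : ∀ v, 0 ≤ W v := by
    intro v
    have h1 : Real.log (nrm v y) ≤ Real.log (nrm v x ^ m) := by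
      refine Real.log_le_log (nrm_pos v hy0)
        (nrm_le v y (pow_nonneg (nrm_nonneg v x) m) fun i => ?_)
      rw [hyα i]
      exact absV_mo_le x v (α i) m (hα i)
    rw [Real.log_pow] at h1
    simp only [hW]
    linarith
  have hWf : ∑ᶠ v, W v = m * ht x - ht y := by
    rw [hW, finsum_sub_distrib hf1' hf2, ← mul_finsum]
    rfl
  have hWS : ∑ v ∈ S, W v ≤ m * ht x - ht y := by
    rw [← hWf, finsum_eq_sum_of_support_subset (s := S ∪ hWs.toFinset) W (by
      intro v hv
      rw [Finset.coe_union]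
      exact Or.inr (hWs.coe_toFinset.symm ▸ hv))]
    exact Finset.sum_le_sum_of_subset_of_nonneg Finset.subset_union_left fun v _ _ => hW0 v
  have e1 : ∑ v ∈ S, (Real.log (nrm v y) - Real.log (absV v (mo x s))) =
      ∑ l, (s l : ℝ) * ∑ v ∈ S, vl v l x - ∑ v ∈ S, W v := by
    have h2 : ∑ l, (s l : ℝ) * ∑ v ∈ S, vl v l x = ∑ v ∈ S, ∑ l, (s l : ℝ) * vl v l x := by
      rw [Finset.sum_comm]
      exact Finset.sum_congr rfl fun l _ => Finset.mul_sum _ _ _
    rw [h2, ← Finset.sum_sub_distrib]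
    refine Finset.sum_congr rfl fun v _ => ?_
    rw [vl_mo x hx v s m hs, hW]
    ring
  have e2 : (m : ℝ) * (ht x - ε * ht x) ≤ ∑ l, (s l : ℝ) * ∑ v ∈ S, vl v l x := by
    have h3 : (m : ℝ) = ∑ l, (s l : ℝ) := by
      rw [← hs, Finsupp.degree_eq_sum]
      push_cast
      rfl
    rw [h3, Finset.sum_mul]
    refine Finset.sum_le_sum fun l _ => ?_
    by_cases h : s l = 0
    · rw [h]
      simp
    · have h4 := hI l (hsI l h)
      exact mul_le_mul_of_nonneg_left (by linarith) (Nat.cast_nonneg _)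
  rw [e1]
  linarith

/-- the upper bound for the pair -/
lemma upper {N : ℕ} (hN : 0 < N) (b : Fin N → k) : ∃ C : ℝ, ∀ (y : Fin N → k) (i : Fin N),
    y i ≠ 0 → ht ![YY b y none, y i] ≤ ht y + C := by
  set b' : Option (Fin N) → k := fun o => o.elim 1 b with hb'
  have hb'0 : b' ≠ 0 := fun h => one_ne_zero (α := k) (congrFun h none)
  refine ⟨Real.log N + ht b', fun y i hi => ?_⟩
  have hy0 : y ≠ 0 := fun h => hi (congrFun h i)
  have hz0 : ![YY b y none, y i] ≠ 0 := fun h => hi (congrFun h 1)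
  have hN1 : (1 : ℝ) ≤ N := by exact_mod_cast hN
  have hloc : ∀ v : Place k, Real.log (nrm v ![YY b y none, y i]) ≤
      sw v * Real.log N + Real.log (nrm v b') + Real.log (nrm v y) := by
    intro v
    have hnb : 0 < nrm v b' := nrm_pos v hb'0
    have hny : 0 < nrm v y := nrm_pos v hy0
    have hNs : 1 ≤ (N : ℝ) ^ sw v := Real.one_le_rpow hN1 (sw_nonneg v)
    have hb1 : 1 ≤ nrm v b' := by
      have h1 := absV_le_nrm v b' none
      have h2 : absV v (b' none) = 1 := by
        show absV v (1 : k) = 1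
        simp
      rw [h2] at h1
      exact h1
    have h1 : nrm v ![YY b y none, y i] ≤ (N : ℝ) ^ sw v * (nrm v b' * nrm v y) := by
      refine nrm_le v _ (by positivity) fun l => ?_
      fin_cases l
      · show absV v (YY b y none) ≤ _
        have h2 := absV_sum_le v Finset.univ (fun j => b j * y j)
          (B := nrm v b' * nrm v y) (by positivity) (by
            intro j _
            rw [absV_mul]
            exact mul_le_mul (absV_le_nrm v b' (some j)) (absV_le_nrm v y j) (absV_nonneg _ _)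
              hnb.le)
        rw [Finset.card_univ, Fintype.card_fin] at h2
        exact h2
      · show absV v (y i) ≤ _
        calc absV v (y i) ≤ nrm v y := absV_le_nrm v y i
          _ = 1 * (1 * nrm v y) := by ring
          _ ≤ (N : ℝ) ^ sw v * (nrm v b' * nrm v y) :=
              mul_le_mul hNs (mul_le_mul_of_nonneg_right hb1 hny.le) (by positivity)
                (by positivity)
    calc Real.log (nrm v ![YY b y none, y i])
        ≤ Real.log ((N : ℝ) ^ sw v * (nrm v b' * nrm v y)) := Real.log_le_log (nrm_pos v hz0) h1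
      _ = sw v * Real.log N + Real.log (nrm v b') + Real.log (nrm v y) := by
          rw [Real.log_mul (by positivity) (by positivity), Real.log_mul hnb.ne' hny.ne',
            Real.log_rpow (by linarith)]
          ring
  have s1 : (Function.support fun v : Place k => sw v * Real.log N).Finite :=
    support_sw_finite.subset fun v hv h => hv (by
      have h' : sw v = 0 := h
      simp only [h', zero_mul])
  have s2 := support_log_nrm_finite hb'0
  have s3 := support_log_nrm_finite hy0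
  have s12 : (Function.support fun v : Place k =>
      sw v * Real.log N + Real.log (nrm v b')).Finite :=
    (s1.union s2).subset (Function.support_add _ _)
  have s123 : (Function.support fun v : Place k =>
      sw v * Real.log N + Real.log (nrm v b') + Real.log (nrm v y)).Finite :=
    (s12.union s3).subset (Function.support_add _ _)
  have h1 := finsum_mono (support_log_nrm_finite hz0) s123 hloc
  rw [finsum_add_distrib s12 s3, finsum_add_distrib s1 s2,
    ← finsum_mul, finsum_sw, one_mul] at h1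
  unfold ht
  linarith

end UNAM

open UNIM UNAM in
theorem specUNA (hSUB : SS.SpecSUB) : SpecUNA := by
  intro k _ _ Ω M f S U A I hsys m P hP hPI hP0 α hα
  have hA := hsys.gen
  have hAne : A.Nonempty := by
    by_contra hcon
    rw [Set.not_nonempty_iff_eq_empty] at hcon
    apply hA.1
    rw [hcon]
    exact (smSys U).1
  have hyne : ∀ s : Fin M →₀ ℕ, ∀ ω ∈ A, mo (f ω) s ≠ 0 := by
    intro s ω hω
    exact Finset.prod_ne_zero_iff.mpr fun i _ => pow_ne_zero _ (hsys.ne ω hω i)
  have hdeg : ∀ s ∈ P.support, s.degree = m := by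
    intro s hs
    rw [Finsupp.degree_eq_weight_one]
    exact hP (mem_support_iff.mp hs)
  -- a shortest relation
  let R : ℕ → Prop := fun n => ∃ (E : Finset (Fin M →₀ ℕ)) (c : (Fin M →₀ ℕ) → k),
    E.card = n ∧ α ∈ E ∧ E ⊆ P.support ∧ (∀ s ∈ E, c s ≠ 0) ∧
      ∀ ω ∈ A, ∑ s ∈ E, c s * mo (f ω) s = 0
  have hR : ∃ n, R n := ⟨_, P.support, fun s => coeff s P, rfl, hα, subset_rfl,
    fun s hs => mem_support_iff.mp hs, fun ω hω => by
      rw [← hP0 ω hω, eval_eq']
      rfl⟩
  obtain ⟨E, c, hcard, hαE, hEP, hc, hrel⟩ := Nat.find_spec hR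
  have hmin : ∀ n, n < Nat.find hR → ¬ R n := fun n hn => Nat.find_min hR hn
  have hind : ∀ d : (Fin M →₀ ℕ) → k, (∀ ω ∈ A, ∑ s ∈ E.erase α, d s * mo (f ω) s = 0) →
      ∀ s ∈ E.erase α, d s = 0 := by
    intro d hd s₀ hs₀
    by_contra hds
    obtain ⟨hs₁, hs₂⟩ := Finset.mem_erase.mp hs₀
    let c' : (Fin M →₀ ℕ) → k := fun s => if s = α then c α else c s - c s₀ / d s₀ * d s
    have hc'α : c' α = c α := if_pos rfl
    have hc's : ∀ s, s ≠ α → c' s = c s - c s₀ / d s₀ * d s := fun s hs => if_neg hs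
    have h1 : (E.filter fun s => c' s ≠ 0) ⊆ E.erase s₀ := by
      intro s hs
      rw [Finset.mem_filter] at hs
      rw [Finset.mem_erase]
      refine ⟨?_, hs.1⟩
      rintro rfl
      apply hs.2
      rw [hc's _ hs₁, div_mul_cancel₀ _ hds, sub_self]
    have h2 : (E.filter fun s => c' s ≠ 0).card < E.card :=
      (Finset.card_le_card h1).trans_lt (Finset.card_erase_lt_of_mem hs₂)
    refine hmin (E.filter fun s => c' s ≠ 0).card (by rw [← hcard]; exact h2)
      ⟨E.filter fun s => c' s ≠ 0, c', rfl, ?_, (Finset.filter_subset _ _).trans hEP, ?_, ?_⟩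
    · rw [Finset.mem_filter, hc'α]
      exact ⟨hαE, hc α hαE⟩
    · intro s hs
      exact (Finset.mem_filter.mp hs).2
    · intro ω hω
      have h3 : ∑ s ∈ E.filter (fun s => c' s ≠ 0), c' s * mo (f ω) s =
          ∑ s ∈ E, c' s * mo (f ω) s := by
        refine Finset.sum_subset (Finset.filter_subset _ _) fun s hs hs' => ?_
        have h4 : c' s = 0 := by
          by_contra h
          exact hs' (Finset.mem_filter.mpr ⟨hs, h⟩)
        rw [h4, zero_mul]
      have h4 : ∑ s ∈ E.erase α, c' s * mo (f ω) s = ∑ s ∈ E.erase α, c s * mo (f ω) s -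
          c s₀ / d s₀ * ∑ s ∈ E.erase α, d s * mo (f ω) s := by
        rw [Finset.mul_sum, ← Finset.sum_sub_distrib]
        refine Finset.sum_congr rfl fun s hs => ?_
        rw [hc's s (Finset.ne_of_mem_erase hs)]
        ring
      rw [h3, ← Finset.add_sum_erase E _ hαE, h4, hd ω hω, mul_zero, sub_zero, hc'α,
        Finset.add_sum_erase E (fun s => c s * mo (f ω) s) hαE]
      exact hrel ω hω
  have hne : (E.erase α).Nonempty := by
    by_contra h
    rw [Finset.not_nonempty_iff_eq_empty] at h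
    obtain ⟨ω, hω⟩ := hAne
    have h1 := hrel ω hω
    rw [← Finset.add_sum_erase E _ hαE, h, Finset.sum_empty, add_zero] at h1
    exact mul_ne_zero (hc α hαE) (hyne α ω hω) h1
  -- enumeration of `E.erase α`
  let N := (E.erase α).card
  have hN : 0 < N := Finset.card_pos.mpr hne
  let e : Fin N ≃ E.erase α := (E.erase α).equivFin.symm
  have heP : ∀ i, (e i).1 ∈ P.support := fun i => hEP (Finset.mem_of_mem_erase (e i).2)
  let b : Fin N → k := fun i => -(c (e i).1) / c α
  have hcα := hc α hαE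
  have hsum : ∀ F : (Fin M →₀ ℕ) → k, ∑ i, F (e i).1 = ∑ s ∈ E.erase α, F s := by
    intro F
    rw [e.sum_comp (fun s : E.erase α => F s.1), Finset.sum_coe_sort]
  have hY0 : ∀ ω ∈ A, YY b (fun i => eval (f ω) (monomial (e i).1 (1 : k))) none =
      mo (f ω) α := by
    intro ω hω
    have h1 := hrel ω hω
    rw [← Finset.add_sum_erase E _ hαE] at h1
    simp only [YY, eval_mono, b]
    have h2 := hsum (fun s => -(c s) / c α * mo (f ω) s)
    rw [h2]
    have h3 : ∑ s ∈ E.erase α, -(c s) / c α * mo (f ω) s =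
        -(∑ s ∈ E.erase α, c s * mo (f ω) s) / c α := by
      rw [← Finset.sum_neg_distrib, Finset.sum_div]
      refine Finset.sum_congr rfl fun s _ => ?_
      ring
    rw [h3, div_eq_iff hcα]
    linear_combination -h1
  have hYs : ∀ ω (i : Fin N), YY b (fun i => eval (f ω) (monomial (e i).1 (1 : k))) (some i) =
      mo (f ω) (e i).1 := fun ω i => eval_mono _ _
  obtain ⟨B, C, hB, hBC⟩ := bound hSUB f (SmU U) (smSys U) A hA S m N hN
    (fun i => monomial (e i).1 (1 : k))
    (fun i => isHomogeneous_monomial _ (hdeg _ (heP i))) b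
    (fun i => div_ne_zero (neg_ne_zero.mpr (hc _ (Finset.mem_of_mem_erase (e i).2))) hcα)
    (by
      intro ω hω o
      cases o with
      | none =>
        rw [hY0 ω hω]
        exact hyne α ω hω
      | some i =>
        rw [hYs ω i]
        exact hyne _ ω hω)
    (by
      intro d hd
      funext i
      have h1 := hind (fun s => if h : s ∈ E.erase α then d (e.symm ⟨s, h⟩) else 0) (by
        intro ω hω
        rw [← hsum, ← hd ω hω]
        refine Finset.sum_congr rfl fun i _ => ?_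
        rw [dif_pos (e i).2, eval_mono]
        simp) (e i).1 (e i).2
      rw [dif_pos (e i).2] at h1
      simpa using h1)
  obtain ⟨C', hC'⟩ := upper hN b
  set i₀ : Fin N := ⟨0, hN⟩ with hi₀
  refine ⟨(e i₀).1, heP i₀, Finset.ne_of_mem_erase (e i₀).2, ?_⟩
  intro η hη
  have hB' : ∀ᶠ ω in (U : Filter Ω), ω ∉ B := hB
  set ε : ℝ := η / (4 * ((N : ℝ) + 1) * ((m : ℝ) + 1)) with hε
  have hε0 : 0 < ε := by positivity
  have hint : ∀ᶠ ω in (U : Filter Ω), ∀ i ∈ I,
      ht (f ω) - ∑ v ∈ S, vl v i (f ω) ≤ ε * ht (f ω) :=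
    (Filter.eventually_all_finset I).2 fun i hi => hsys.int i hi ε hε0
  filter_upwards [hsys.mem, hB', hint, hsys.unb (2 / η * (2 * C + C'))] with ω hωA hωB hωI hωu
  have hfne := hsys.ne ω hωA
  have hf0 : f ω ≠ 0 := fun h => hfne ⟨0, hsys.pos⟩ (congrFun h ⟨0, hsys.pos⟩)
  have hht : 0 ≤ ht (f ω) := ht_nonneg hf0
  set y : Fin N → k := fun i => eval (f ω) (monomial (e i).1 (1 : k)) with hy
  have hyi : ∀ i, y i = mo (f ω) (e i).1 := fun i => eval_mono _ _
  have hy0 : y ≠ 0 := by
    intro h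
    have h1 := congrFun h i₀
    rw [hyi] at h1
    exact hyne _ ω hωA h1
  have h1 := hBC ω hωA hωB
  have h2 : ∀ o : Option (Fin N), ht y - m * (ε * ht (f ω)) ≤
      ∑ v ∈ S, (Real.log (nrm v y) - Real.log (absV v (YY b y o))) := by
    intro o
    cases o with
    | none =>
      rw [hY0 ω hωA]
      exact lower (f ω) hsys.pos hfne S I ε hωI m y hy0 (fun i => (e i).1) hyi
        (fun i => hdeg _ (heP i)) α (hdeg α hα) (hPI α hα)
    | some i =>
      rw [hYs ω i]
      exact lower (f ω) hsys.pos hfne S I ε hωI m y hy0 (fun i => (e i).1) hyi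
        (fun i => hdeg _ (heP i)) (e i).1 (hdeg _ (heP i)) (hPI _ (heP i))
  have h3 : ((N : ℝ) + 1) * (ht y - m * (ε * ht (f ω))) ≤ ((N : ℝ) + 1 / 2) * ht y + C := by
    refine le_trans ?_ h1
    have h4 := Finset.sum_le_sum fun (o : Option (Fin N)) (_ : o ∈ Finset.univ) => h2 o
    rw [Finset.sum_const, Finset.card_univ, Fintype.card_option, Fintype.card_fin,
      nsmul_eq_mul] at h4
    push_cast at h4
    exact h4
  have h5 : ht ![YY b y none, y i₀] ≤ ht y + C' :=
    hC' y i₀ (by rw [hyi]; exact hyne _ ω hωA)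
  have h6 : ht ![∏ i, f ω i ^ α i, ∏ i, f ω i ^ (e i₀).1 i] = ht ![YY b y none, y i₀] := by
    rw [hY0 ω hωA, hyi]
    rfl
  show ht ![∏ i, f ω i ^ α i, ∏ i, f ω i ^ (e i₀).1 i] ≤ η * ht (f ω)
  rw [h6]
  have h7 : ((N : ℝ) + 1) * (m * (ε * ht (f ω))) ≤ η / 4 * ht (f ω) := by
    have h8 : ((N : ℝ) + 1) * (m * ε) ≤ η / 4 := by
      have h9 : ((N : ℝ) + 1) * (m * ε) = η / 4 * (m / (m + 1)) := by
        rw [hε]
        field_simp
      have h10 : (m : ℝ) / (m + 1) ≤ 1 := by
        rw [div_le_one (by positivity)]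
        linarith
      rw [h9]
      nlinarith
    calc ((N : ℝ) + 1) * (m * (ε * ht (f ω))) = ((N : ℝ) + 1) * (m * ε) * ht (f ω) := by ring
      _ ≤ η / 4 * ht (f ω) := mul_le_mul_of_nonneg_right h8 hht
  have h11 : 2 * C + C' ≤ η / 2 * ht (f ω) := by
    have h12 := mul_le_mul_of_nonneg_left hωu (show 0 ≤ η / 2 by positivity)
    have h13 : η / 2 * (2 / η * (2 * C + C')) = 2 * C + C' := by
      field_simp
    linarith
  nlinarith

end Pool.Agent.Lib.MP_d0e829_nt.GP
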