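import Pool.Agent.Lib.MP_d0e829_nt.GP.SpecU
import Pool.Agent.Lib.MP_d0e829_nt.GP.UNA

/-!
# UNB: the approximate unit equation, with explicit constants
-/

set_option autoImplicit false

open NumberField MvPolynomial
open Pool.Agent.Lib.MP_d0e829_nt.SS Pool.Agent.Lib.MP_d0e829_nt.SI

namespace Pool.Agent.Lib.MP_d0e829_nt.GP

open scoped Classical

open UNIM UNAM in
theorem specUNB (hSUB : SS.SpecSUB) : SpecUNB := by
  intro k _ _ Ω M f S U A I η₀ hη₀ hsys m P hP hPI hP0 α hα
  have hA := hsys.gen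
  have hAne : A.Nonempty := by
    by_contra hcon
    rw [Set.not_nonempty_iff_eq_empty] at hcon
    apply hA.1
    rw [hcon]
    exact (smSys U).1
  have hyne : ∀ s : Fin M →₀ ℕ, ∀ ω ∈ A, mo (f ω) s ≠ 0 := by
    intro s ω hω
    exact Finset.prod_ne_zero_iff.mpr fun i _ => pow_ne_zero _ (hsys.ne ω hω i)
  have hdeg : ∀ s ∈ P.support, s.degree = m := by
    intro s hs
    rw [Finsupp.degree_eq_weight_one]
    exact hP (mem_support_iff.mp hs)
  -- a shortest relation
  let R : ℕ → Prop := fun n => ∃ (E : Finset (Fin M →₀ ℕ)) (c : (Fin M →₀ ℕ) → k),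
    E.card = n ∧ α ∈ E ∧ E ⊆ P.support ∧ (∀ s ∈ E, c s ≠ 0) ∧
      ∀ ω ∈ A, ∑ s ∈ E, c s * mo (f ω) s = 0
  have hR : ∃ n, R n := ⟨_, P.support, fun s => coeff s P, rfl, hα, subset_rfl,
    fun s hs => mem_support_iff.mp hs, fun ω hω => by
      rw [← hP0 ω hω, eval_eq']
      rfl⟩
  obtain ⟨E, c, hcard, hαE, hEP, hc, hrel⟩ := Nat.find_spec hR
  have hmin : ∀ n, n < Nat.find hR → ¬ R n := fun n hn => Nat.find_min hR hn
  have hind : ∀ d : (Fin M →₀ ℕ) → k, (∀ ω ∈ A, ∑ s ∈ E.erase α, d s * mo (f ω) s = 0) →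
      ∀ s ∈ E.erase α, d s = 0 := by
    intro d hd s₀ hs₀
    by_contra hds
    obtain ⟨hs₁, hs₂⟩ := Finset.mem_erase.mp hs₀
    let c' : (Fin M →₀ ℕ) → k := fun s => if s = α then c α else c s - c s₀ / d s₀ * d s
    have hc'α : c' α = c α := if_pos rfl
    have hc's : ∀ s, s ≠ α → c' s = c s - c s₀ / d s₀ * d s := fun s hs => if_neg hs
    have h1 : (E.filter fun s => c' s ≠ 0) ⊆ E.erase s₀ := by
      intro s hs
      rw [Finset.mem_filter] at hs
      rw [Finset.mem_erase]
      refine ⟨?_, hs.1⟩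
      rintro rfl
      apply hs.2
      rw [hc's _ hs₁, div_mul_cancel₀ _ hds, sub_self]
    have h2 : (E.filter fun s => c' s ≠ 0).card < E.card :=
      (Finset.card_le_card h1).trans_lt (Finset.card_erase_lt_of_mem hs₂)
    refine hmin (E.filter fun s => c' s ≠ 0).card (by rw [← hcard]; exact h2)
      ⟨E.filter fun s => c' s ≠ 0, c', rfl, ?_, (Finset.filter_subset _ _).trans hEP, ?_, ?_⟩
    · rw [Finset.mem_filter, hc'α]
      exact ⟨hαE, hc α hαE⟩
    · intro s hs
      exact (Finset.mem_filter.mp hs).2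
    · intro ω hω
      have h3 : ∑ s ∈ E.filter (fun s => c' s ≠ 0), c' s * mo (f ω) s =
          ∑ s ∈ E, c' s * mo (f ω) s := by
        refine Finset.sum_subset (Finset.filter_subset _ _) fun s hs hs' => ?_
        have h4 : c' s = 0 := by
          by_contra h
          exact hs' (Finset.mem_filter.mpr ⟨hs, h⟩)
        rw [h4, zero_mul]
      have h4 : ∑ s ∈ E.erase α, c' s * mo (f ω) s = ∑ s ∈ E.erase α, c s * mo (f ω) s -
          c s₀ / d s₀ * ∑ s ∈ E.erase α, d s * mo (f ω) s := by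
        rw [Finset.mul_sum, ← Finset.sum_sub_distrib]
        refine Finset.sum_congr rfl fun s hs => ?_
        rw [hc's s (Finset.ne_of_mem_erase hs)]
        ring
      rw [h3, ← Finset.add_sum_erase E _ hαE, h4, hd ω hω, mul_zero, sub_zero, hc'α,
        Finset.add_sum_erase E (fun s => c s * mo (f ω) s) hαE]
      exact hrel ω hω
  have hne : (E.erase α).Nonempty := by
    by_contra h
    rw [Finset.not_nonempty_iff_eq_empty] at h
    obtain ⟨ω, hω⟩ := hAne
    have h1 := hrel ω hω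
    rw [← Finset.add_sum_erase E _ hαE, h, Finset.sum_empty, add_zero] at h1
    exact mul_ne_zero (hc α hαE) (hyne α ω hω) h1
  -- enumeration of `E.erase α`
  let N := (E.erase α).card
  have hN : 0 < N := Finset.card_pos.mpr hne
  let e : Fin N ≃ E.erase α := (E.erase α).equivFin.symm
  have heP : ∀ i, (e i).1 ∈ P.support := fun i => hEP (Finset.mem_of_mem_erase (e i).2)
  let b : Fin N → k := fun i => -(c (e i).1) / c α
  have hcα := hc α hαE
  have hsum : ∀ F : (Fin M →₀ ℕ) → k, ∑ i, F (e i).1 = ∑ s ∈ E.erase α, F s := by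
    intro F
    rw [e.sum_comp (fun s : E.erase α => F s.1), Finset.sum_coe_sort]
  have hY0 : ∀ ω ∈ A, YY b (fun i => eval (f ω) (monomial (e i).1 (1 : k))) none =
      mo (f ω) α := by
    intro ω hω
    have h1 := hrel ω hω
    rw [← Finset.add_sum_erase E _ hαE] at h1
    simp only [YY, eval_mono, b]
    have h2 := hsum (fun s => -(c s) / c α * mo (f ω) s)
    rw [h2]
    have h3 : ∑ s ∈ E.erase α, -(c s) / c α * mo (f ω) s =
        -(∑ s ∈ E.erase α, c s * mo (f ω) s) / c α := by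
      rw [← Finset.sum_neg_distrib, Finset.sum_div]
      refine Finset.sum_congr rfl fun s _ => ?_
      ring
    rw [h3, div_eq_iff hcα]
    linear_combination -h1
  have hYs : ∀ ω (i : Fin N), YY b (fun i => eval (f ω) (monomial (e i).1 (1 : k))) (some i) =
      mo (f ω) (e i).1 := fun ω i => eval_mono _ _
  obtain ⟨B, C, hB, hBC⟩ := bound hSUB f (SmU U) (smSys U) A hA S m N hN
    (fun i => monomial (e i).1 (1 : k))
    (fun i => isHomogeneous_monomial _ (hdeg _ (heP i))) b
    (fun i => div_ne_zero (neg_ne_zero.mpr (hc _ (Finset.mem_of_mem_erase (e i).2))) hcα)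
    (by
      intro ω hω o
      cases o with
      | none =>
        rw [hY0 ω hω]
        exact hyne α ω hω
      | some i =>
        rw [hYs ω i]
        exact hyne _ ω hω)
    (by
      intro d hd
      funext i
      have h1 := hind (fun s => if h : s ∈ E.erase α then d (e.symm ⟨s, h⟩) else 0) (by
        intro ω hω
        rw [← hsum, ← hd ω hω]
        refine Finset.sum_congr rfl fun i _ => ?_
        rw [dif_pos (e i).2, eval_mono]
        simp) (e i).1 (e i).2
      rw [dif_pos (e i).2] at h1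
      simpa using h1)
  obtain ⟨C', hC'⟩ := upper hN b
  set i₀ : Fin N := ⟨0, hN⟩ with hi₀
  refine ⟨(e i₀).1, heP i₀, Finset.ne_of_mem_erase (e i₀).2, ?_⟩
  intro η hη
  have hB' : ∀ᶠ ω in (U : Filter Ω), ω ∉ B := hB
  have hNP : (N : ℝ) + 1 ≤ P.support.card := by
    have e1 : N + 1 = E.card := Finset.card_erase_add_one hαE
    have e2 : N + 1 ≤ P.support.card := by
      rw [e1]
      exact Finset.card_le_card hEP
    exact_mod_cast e2
  have hint : ∀ᶠ ω in (U : Filter Ω), ∀ i ∈ I,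
      ht (f ω) - ∑ v ∈ S, vl v i (f ω) ≤ η₀ * ht (f ω) :=
    (Filter.eventually_all_finset I).2 fun i hi => hsys.int i hi
  filter_upwards [hsys.mem, hB', hint, hsys.unb (1 / η * (2 * C + C'))] with ω hωA hωB hωI hωu
  have hfne := hsys.ne ω hωA
  have hf0 : f ω ≠ 0 := fun h => hfne ⟨0, hsys.pos⟩ (congrFun h ⟨0, hsys.pos⟩)
  have hht : 0 ≤ ht (f ω) := ht_nonneg hf0
  set y : Fin N → k := fun i => eval (f ω) (monomial (e i).1 (1 : k)) with hy
  have hyi : ∀ i, y i = mo (f ω) (e i).1 := fun i => eval_mono _ _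
  have hy0 : y ≠ 0 := by
    intro h
    have h1 := congrFun h i₀
    rw [hyi] at h1
    exact hyne _ ω hωA h1
  have h1 := hBC ω hωA hωB
  have h2 : ∀ o : Option (Fin N), ht y - m * (η₀ * ht (f ω)) ≤
      ∑ v ∈ S, (Real.log (nrm v y) - Real.log (absV v (YY b y o))) := by
    intro o
    cases o with
    | none =>
      rw [hY0 ω hωA]
      exact lower (f ω) hsys.pos hfne S I η₀ hωI m y hy0 (fun i => (e i).1) hyi
        (fun i => hdeg _ (heP i)) α (hdeg α hα) (hPI α hα)
    | some i =>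
      rw [hYs ω i]
      exact lower (f ω) hsys.pos hfne S I η₀ hωI m y hy0 (fun i => (e i).1) hyi
        (fun i => hdeg _ (heP i)) (e i).1 (hdeg _ (heP i)) (hPI _ (heP i))
  have h3 : ((N : ℝ) + 1) * (ht y - m * (η₀ * ht (f ω))) ≤ ((N : ℝ) + 1 / 2) * ht y + C := by
    refine le_trans ?_ h1
    have h4 := Finset.sum_le_sum fun (o : Option (Fin N)) (_ : o ∈ Finset.univ) => h2 o
    rw [Finset.sum_const, Finset.card_univ, Fintype.card_option, Fintype.card_fin,
      nsmul_eq_mul] at h4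
    push_cast at h4
    exact h4
  have h5 : ht ![YY b y none, y i₀] ≤ ht y + C' :=
    hC' y i₀ (by rw [hyi]; exact hyne _ ω hωA)
  have h6 : ht ![∏ i, f ω i ^ α i, ∏ i, f ω i ^ (e i₀).1 i] = ht ![YY b y none, y i₀] := by
    rw [hY0 ω hωA, hyi]
    rfl
  rw [h6]
  have h7 : ((N : ℝ) + 1) * (m * (η₀ * ht (f ω))) ≤
      P.support.card * (m * (η₀ * ht (f ω))) :=
    mul_le_mul_of_nonneg_right hNP (by positivity)
  have h11 : 2 * C + C' ≤ η * ht (f ω) := by
    have h12 := mul_le_mul_of_nonneg_left hωu (show 0 ≤ η by positivity)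
    have h13 : η * (1 / η * (2 * C + C')) = 2 * C + C' := by
      field_simp
    linarith
  have h14 : (2 * (P.support.card : ℝ) * m * η₀ + η) * ht (f ω) =
      2 * (P.support.card * (m * (η₀ * ht (f ω)))) + η * ht (f ω) := by ring
  rw [h14]
  have h15 : ((N : ℝ) + 1) * (ht y - m * (η₀ * ht (f ω))) =
      ((N : ℝ) + 1 / 2) * ht y + 1 / 2 * ht y - ((N : ℝ) + 1) * (m * (η₀ * ht (f ω))) := by ring
  linarith

end Pool.Agent.Lib.MP_d0e829_nt.GP
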