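import Pool.Agent.Lib.MP_d0e829_nt.SI.MainI
import Pool.Agent.Lib.MP_d0e829_nt.SI.PRX
import Pool.Agent.Lib.MP_d0e829_nt.GP.DEU
import Pool.Agent.Lib.MP_d0e829_nt.GP.NRU
import Pool.Agent.Lib.MP_d0e829_nt.GP.LNU
import Pool.Agent.Lib.MP_d0e829_nt.GP.UNB
import Pool.Agent.Lib.MP_d0e829_nt.GP.HUB
import Pool.Agent.Lib.MP_d0e829_nt.GP.CVQ
import Pool.Agent.Lib.MP_d0e829_nt.GP.CVB
import Pool.Agent.Lib.MP_d0e829_nt.GP.MTR
import Pool.Agent.Lib.MP_d0e829_nt.GP.MSU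
import Pool.Agent.Lib.MP_d0e829_nt.GP.MFL
import Pool.Agent.Lib.MP_d0e829_nt.GP.MGX
import Pool.Agent.Lib.MP_d0e829_nt.GP.MGY
import Pool.Agent.Lib.MP_d0e829_nt.GP.MCX
import Pool.Agent.Lib.MP_d0e829_nt.GP.HGV
import Pool.Agent.Lib.MP_d0e829_nt.GP.SEX
import Pool.Agent.Lib.MP_d0e829_nt.GP.MLX
import Pool.Agent.Lib.MP_d0e829_nt.GP.ONE
import Pool.Agent.Lib.MP_d0e829_nt.GP.FNX
import Pool.Agent.Lib.MP_d0e829_nt.GP.FNY

/-!
# The uniform gap theorem, without hypotheses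
-/

set_option autoImplicit false

open Pool.Agent.Lib.MP_d0e829_nt.SS Pool.Agent.Lib.MP_d0e829_nt.SI

namespace Pool.Agent.Lib.MP_d0e829_nt.GP

namespace MainU

theorem nru : SpecNRU := specNRU (specDEU (specSEG specPIA))

theorem cvb : SpecCVB := specCVB specTRV (specHUB (specUNB sub)) specCVQ

theorem mtr : SpecMTR := specMTR specTRV

theorem mcx : SpecMCX := specMCX mtr (specMSU sub mtr) (specMFL specIRR)

theorem mlx : SpecMLX :=
  specMLX specFCH MainI.lob specHGV nru cvb specMGX specMGY mcx (specSEX specTRV specMAX)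

theorem one : SpecONE := specONE sub specTRV MainI.loa

end MainU

/-- Theorem GU: the uniform gap theorem. -/
theorem gapU : SpecFNY :=
  specFNY (specFNX (specPRX specNCI specNCF MainI.loa specSUP) specLNU MainU.mlx MainU.one)

end Pool.Agent.Lib.MP_d0e829_nt.GP
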