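import Pool.Agent.Lib.MP_d0e829_nt.GP.Spec

set_option autoImplicit false

open NumberField MvPolynomial
open Pool.Agent.Lib.MP_d0e829_nt.SS Pool.Agent.Lib.MP_d0e829_nt.SI

namespace Pool.Agent.Lib.MP_d0e829_nt.GP

open scoped Classical

namespace SETM

theorem exists_ultra {Ω : Type} (Sm : Set Ω → Prop) (h0 : Sm ∅)
    (hm : ∀ A B : Set Ω, A ⊆ B → Sm B → Sm A) (hun : ∀ A B : Set Ω, Sm A → Sm B → Sm (A ∪ B))
    (hu : ¬ Sm Set.univ) : ∃ U : Ultrafilter Ω, ∀ B, Sm B → SmU U B := by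
  let F : Filter Ω :=
    { sets := {B | Sm Bᶜ}
      univ_sets := by
        show Sm Set.univᶜ
        rw [Set.compl_univ]; exact h0
      sets_of_superset := by
        intro A B hA hAB
        exact hm _ _ (Set.compl_subset_compl.2 hAB) hA
      inter_sets := by
        intro A B hA hB
        show Sm (A ∩ B)ᶜ
        rw [Set.compl_inter]
        exact hun _ _ hA hB }
  haveI : F.NeBot := by
    refine ⟨fun h => hu ?_⟩
    have h1 : (∅ : Set Ω) ∈ F := by rw [h]; trivial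
    have h2 : Sm (∅ : Set Ω)ᶜ := h1
    rwa [Set.compl_empty] at h2
  refine ⟨Ultrafilter.of F, fun B hB => ?_⟩
  have h1 : Bᶜ ∈ F := by
    show Sm Bᶜᶜ
    rwa [compl_compl]
  exact Ultrafilter.of_le F h1

end SETM

open SETM in
theorem specSET (hTRV : SS.SpecTRV) (hMAX : SS.SpecMAX) : SpecSET := by
  intro k _ _ q M ℓ Ξ e hC n S
  have hq : 3 ≤ q := hC.three
  have hM : 0 < M := (e ⟨0, by omega⟩).pos
  have hne : ∀ f ∈ VV Ξ n, ∀ a, f a ≠ 0 := by
    rintro f ⟨K, _, _, _, x, hn, hx, rfl⟩ a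
    haveI : FiniteDimensional k K := Module.Finite.of_restrictScalars_finite ℚ k K
    exact Algebra.norm_ne_zero_iff.mpr (hx a)
  have hf0 : ∀ f ∈ VV Ξ n, f ≠ 0 := fun f hf h => hne f hf ⟨0, hM⟩ (by rw [h]; rfl)
  have hht : ∀ f ∈ VV Ξ n, 0 ≤ ht f := fun f hf => ht_nonneg (hf0 f hf)
  have h1 : ∀ i : Fin q, ∃ C : ℝ, 0 ≤ C ∧ ∀ f ∈ VV Ξ n,
      ∑ v ∈ S, vl v (e i) f ≤ ht f + C := by
    intro i
    obtain ⟨C, hC0, hC1⟩ := (hTRV k M).1 S (Pi.single (e i) 1)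
    refine ⟨C, hC0, fun f hf => ?_⟩
    have hd : (Pi.single (e i) (1 : k)) ⬝ᵥ f = f (e i) := by simp
    have h2 := (hC1 f (by rw [hd]; exact hne f hf _)).2 S subset_rfl
    simpa only [vl, val, hd] using h2
  choose C1 hC10 hC1 using h1
  obtain ⟨CC, hCC⟩ : ∃ CC, CC = ∑ i, C1 i := ⟨_, rfl⟩
  have hCC0 : 0 ≤ CC := by rw [hCC]; exact Finset.sum_nonneg fun i _ => hC10 i
  have hCi : ∀ i, C1 i ≤ CC := fun i => by
    rw [hCC]; exact Finset.single_le_sum (f := C1) (fun j _ => hC10 j) (Finset.mem_univ i)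
  have hb : ∀ f ∈ VV Ξ n, ∀ i, ∑ v ∈ S, vl v (e i) f ≤ ht f + CC := fun f hf i => by
    linarith [hC1 i f hf, hCi i]
  have hW : ∀ f : Fin M → k, ∑ v ∈ S, ∑ i, vl v (e i) f = ∑ i, ∑ v ∈ S, vl v (e i) f :=
    fun f => Finset.sum_comm
  have hWle : ∀ f ∈ VV Ξ n, ∑ v ∈ S, ∑ i, vl v (e i) f ≤ q * ht f + q * CC := by
    intro f hf
    rw [hW]
    calc ∑ i : Fin q, ∑ v ∈ S, vl v (e i) f ≤ ∑ i : Fin q, (ht f + CC) :=
          Finset.sum_le_sum fun i _ => hb f hf i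
      _ = q * ht f + q * CC := by
          rw [Finset.sum_const, Finset.card_univ, Fintype.card_fin, nsmul_eq_mul]; ring
  obtain ⟨Sm, hSm⟩ : ∃ Sm : Set (Fin M → k) → Prop, ∀ B, Sm B ↔ ∃ η C' : ℝ, 0 < η ∧
      ∀ f ∈ B, f ∈ VV Ξ n → ∑ v ∈ S, ∑ i, vl v (e i) f ≤ (q - η) * ht f + C' := ⟨_, fun B => Iff.rfl⟩
  have hmono : ∀ A B : Set (Fin M → k), A ⊆ B → Sm B → Sm A := by
    intro A B hAB hB
    rw [hSm] at hB ⊢
    obtain ⟨η, C', h0, h⟩ := hB
    exact ⟨η, C', h0, fun f hf hfV => h f (hAB hf) hfV⟩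
  have hunion : ∀ A B : Set (Fin M → k), Sm A → Sm B → Sm (A ∪ B) := by
    intro A B hA hB
    rw [hSm] at hA hB ⊢
    obtain ⟨η, C', h0, h⟩ := hA
    obtain ⟨η', C'', h0', h'⟩ := hB
    refine ⟨min η η', max C' C'', lt_min h0 h0', ?_⟩
    intro f hf hfV
    have hh := hht f hfV
    have e1 : min η η' * ht f ≤ η * ht f := mul_le_mul_of_nonneg_right (min_le_left _ _) hh
    have e2 : min η η' * ht f ≤ η' * ht f := mul_le_mul_of_nonneg_right (min_le_right _ _) hh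
    have e3 := le_max_left C' C''
    have e4 := le_max_right C' C''
    rcases hf with hf | hf
    · have := h f hf hfV
      nlinarith
    · have := h' f hf hfV
      nlinarith
  have hempty : Sm ∅ := by
    rw [hSm]
    exact ⟨1, 0, one_pos, fun f hf => absurd hf (Set.notMem_empty f)⟩
  by_cases hu : Sm Set.univ
  · left
    rw [hSm] at hu
    obtain ⟨η, C', h0, h⟩ := hu
    exact ⟨η, C', h0, fun f hf => h f (Set.mem_univ f) hf⟩
  right
  obtain ⟨U, hU⟩ := exists_ultra Sm hempty hmono hunion hu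
  have hnu : ¬ SmU U (Set.univ : Set (Fin M → k)) := by
    intro h
    obtain ⟨x, hx⟩ := h.exists
    exact hx (Set.mem_univ x)
  obtain ⟨A', hA'⟩ := hMAX k (Fin M → k) M (fun f => f) (SmU U) hnu
  have hA'U : ∀ᶠ ω in (U : Filter (Fin M → k)), ω ∈ A' := by
    by_contra h
    exact hA'.1 (Ultrafilter.eventually_not.2 h)
  have hVU : ∀ᶠ ω in (U : Filter (Fin M → k)), ω ∈ VV Ξ n := by
    have h2 := hU (VV Ξ n)ᶜ ((hSm _).2 ⟨1, 0, one_pos, fun f h h' => (h h').elim⟩)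
    filter_upwards [h2] with ω h
    exact not_not.1 h
  have hunb : ∀ C : ℝ, ∀ᶠ ω in (U : Filter (Fin M → k)), C ≤ ht ω := by
    intro C
    have h2 := hU {f | ht f ≤ C} ((hSm _).2 ⟨1, C + q * CC, one_pos, fun f h hfV => by
      have h3 := hWle f hfV
      have h4 : ht f ≤ C := h
      linarith⟩)
    filter_upwards [h2] with ω h
    exact le_of_lt (not_le.1 h)
  have hthird : ∀ η : ℝ, 0 < η → ∀ᶠ f in (U : Filter (Fin M → k)),
      (q - η) * ht f ≤ ∑ v ∈ S, ∑ i, vl v (e i) f := by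
    intro η hη
    have h2 := hU {f | ∑ v ∈ S, ∑ i, vl v (e i) f ≤ (q - η) * ht f}
      ((hSm _).2 ⟨η, 0, hη, fun f h _ => by
        have h4 : ∑ v ∈ S, ∑ i, vl v (e i) f ≤ (q - η) * ht f := h
        linarith⟩)
    filter_upwards [h2] with ω h
    exact le_of_lt (not_le.1 h)
  have hAU : ∀ᶠ ω in (U : Filter (Fin M → k)), ω ∈ A' ∩ VV Ξ n := hA'U.and hVU
  refine ⟨U, A' ∩ VV Ξ n, ?_, Set.inter_subset_right, hthird⟩
  refine ⟨hAU, ⟨?_, ?_⟩, ?_, hM, hunb, ?_⟩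
  · intro h
    obtain ⟨x, hx1, hx2⟩ := (h.and hAU).exists
    exact hx1 hx2
  · rintro m P hP ⟨ω, hω, h⟩
    have h2 := hA'.2 m P hP ⟨ω, hω.1, h⟩
    unfold SmU at h2 ⊢
    filter_upwards [h2] with x hx hx2
    exact hx ⟨hx2.1.1, hx2.2⟩
  · intro ω hω a
    exact hne ω hω.2 a
  · intro i hi
    obtain ⟨j, -, rfl⟩ := Finset.mem_image.1 hi
    intro η hη
    filter_upwards [hVU, hthird (η / 2) (by linarith), hunb (2 * (q * CC) / η)] with f hfV h2 h3
    rw [hW] at h2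
    have h4 : ∑ i ∈ Finset.univ.erase j, ∑ v ∈ S, vl v (e i) f ≤ (q - 1) * (ht f + CC) := by
      calc ∑ i ∈ Finset.univ.erase j, ∑ v ∈ S, vl v (e i) f
          ≤ ∑ i ∈ Finset.univ.erase j, (ht f + CC) :=
            Finset.sum_le_sum fun i _ => hb f hfV i
        _ = (q - 1) * (ht f + CC) := by
            rw [Finset.sum_const, Finset.card_erase_of_mem (Finset.mem_univ j), Finset.card_univ,
              Fintype.card_fin, nsmul_eq_mul, Nat.cast_sub (by omega), Nat.cast_one]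
    have h5 := Finset.add_sum_erase Finset.univ (fun i => ∑ v ∈ S, vl v (e i) f)
      (Finset.mem_univ j)
    rw [div_le_iff₀ hη] at h3
    have h6 : 0 ≤ (q : ℝ) * CC := by positivity
    nlinarith

end Pool.Agent.Lib.MP_d0e829_nt.GP
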