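import Pool.Agent.Lib.MP_d0e829_nt.SI.Spec

/-!
# The gap theorem: all points of degree `≤ δ` (specifications of the modules)

`k` number field, `S` finite set of places, `ℓ : Fin q → Fin 3 → k` lines in general position.
THEOREM G (`SpecFNG`).  If `3 δ + 1 ≤ q`, there are finitely many lines over `k`, `η > 0` and `C` such that
every point of degree `≤ δ` off these lines has `m_{D,S} ≤ (q - η) h + C`.

`nv`, `vl`, `IE`, `Cfg`, `GP` are those of `SI/Spec.lean`; `Gen`, `SmSys`, `FS`, `evA`, `val`, `lin` those of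
`SS/CDefs.lean`.  The vectors `f = nv Ξ x ∈ k^M` of a sequence of counterexamples to the theorem (`η → 0`)
are collected in an ultrafilter `U`; small means not in `U`.

Conventions.  Module `XXX` is the file `GP/XXX.lean`; it imports only `GP.Spec` (which imports all that is
needed for the definitions; if a module uses lemmas of a file of `SI` or `SS`, it may also import that
file); namespace `Pool.Agent.Lib.MP_d0e829_nt.GP`; it proves `theorem specXXX (hYYY : SpecYYY) .. : SpecXXX`,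
hypotheses in the order of `USES`; own lemmas in a namespace `XXXM`.  All docstrings are complete proofs.
-/

set_option autoImplicit false

open NumberField MvPolynomial
open Pool.Agent.Lib.MP_d0e829_nt.SS Pool.Agent.Lib.MP_d0e829_nt.SI

namespace Pool.Agent.Lib.MP_d0e829_nt.GP

open scoped Classical

/-! ## Ultrafilters -/

/-- small sets: not in the ultrafilter -/
def SmU {Ω : Type} (U : Ultrafilter Ω) (B : Set Ω) : Prop := ∀ᶠ ω in (U : Filter Ω), ω ∉ B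

/-- `g ≤ o(h)` -/
def LO {Ω : Type} (U : Ultrafilter Ω) (h g : Ω → ℝ) : Prop :=
  ∀ η : ℝ, 0 < η → ∀ᶠ ω in (U : Filter Ω), g ω ≤ η * h ω

/-- the situation of the proof: the coordinates in `I` are almost units -/
structure Sys {k : Type} [Field k] [NumberField k] {Ω : Type} {M : ℕ} (f : Ω → Fin M → k)
    (S : Finset (Place k)) (U : Ultrafilter Ω) (A : Set Ω) (I : Finset (Fin M)) : Prop where
  mem : ∀ᶠ ω in (U : Filter Ω), ω ∈ A
  gen : Gen (SmU U) f A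
  ne : ∀ ω ∈ A, ∀ a, f ω a ≠ 0
  pos : 0 < M
  unb : ∀ C : ℝ, ∀ᶠ ω in (U : Filter Ω), C ≤ ht (f ω)
  int : ∀ i ∈ I, LO U (fun ω => ht (f ω)) (fun ω => ht (f ω) - ∑ v ∈ S, vl v i (f ω))

/-- UNA (350 lines; model `SI/UNI.lean`).  USES SUB (the Subspace theorem, `SS.SpecSUB`; hypothesis
`hSUB : SS.SpecSUB`).  In a relation between monomials every monomial is almost proportional to another
one.

PROOF.  Write `y_s ω = ∏ i, f ω i ^ s i` (`≠ 0` on `A`; `A` is not empty).  Among the finite sets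
`E ⊆ P.support` with `α ∈ E` such that some relation `∑_{s ∈ E} c_s y_s = 0` on `A` holds with `c_α ≠ 0` take
one with the least number of elements.  All `c_s ≠ 0`.  `E = {α_0 = α, α_1, …, α_N}`.  `N ≥ 1` as `y_α ≠ 0`.
`N = 1`: `y_{α_0} = c y_{α_1}` on `A`, `ht ![y_{α_0}, y_{α_1}] = ht ![c, 1]` is constant, so it is `≤ η ht f`
eventually (`unb`); `β = α_1`.  Let `N ≥ 2`.  `y_{α_1}, …, y_{α_N}` are linearly independent on `A` (a relation
between them could be used to remove one of them).  `y_{α_0} = ∑_{i=1}^N b_i y_{α_i}`, `b_i ≠ 0`.  Let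
`y = (y_{α_i})_{1 ≤ i ≤ N} ∈ k^N`.  For a function `g : Place k → {0, …, N}` let `L_v` be the matrix of the `N` forms:
the coordinates, and `∑ b_i Y_i` (for `α_0`), without the one with index `g v`; `det ≠ 0` as `b_i ≠ 0`.  SUB
with `ε = 1/2` for the finitely many `g` restricted to `S`: eventually (every proper subspace `T` of `k^N` is in
the kernel of a nonzero functional, `∑ d_i y_{α_i}`, homogeneous and not identically `0` on `A`: `gen`)
`∑_{v ∈ S} ∑_{i ≠ g v} (log nrm v y - log |y_{α_i}|_v) ≤ (N + 1/2) ht y + C` for all `g`; choose `g v` with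
`|y_{α_(g v)}|_v` maximal among `0 ≤ i ≤ N`, so `log nrm v y - log |y_{α_(g v)}|_v ≤ 0`, and
`T := ∑_{v ∈ S} ∑_{i=0}^N (log nrm v y - log |y_{α_i}|_v) ≤ (N + 1/2) ht y + C`.  On the other hand, by the product
formula, `T = (N + 1) ht y - ∑_{i=0}^N ∑_{v ∉ S} (log nrm v y - log |y_{α_i}|_v)`, and for every place `v` and `i`
`log nrm v y - log |y_{α_i}|_v ≤ m log nrm v f - log |y_{α_i}|_v = ∑_l α_i(l) vl v l f`, `∑_l α_i(l) = m`,
and `∑_{v ∉ S} vl v l f = ht f - ∑_{v ∈ S} vl v l f ≤ η' ht f` eventually for every `l ∈ I` (product formula, `int`).  So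
`T ≥ (N + 1) ht y - (N + 1) m η' ht f`, and `ht y ≤ 2 (N + 1) m η' ht f + 2 C`.  Finally
`ht ![y_{α_0}, y_{α_1}] ≤ ht y + C'` as `y_{α_0} = ∑ b_i y_{α_i}`.  `β = α_1`; use `unb` for the constants. -/
def SpecUNA : Prop := ∀ (k : Type) [Field k] [NumberField k] (Ω : Type) (M : ℕ)
  (f : Ω → Fin M → k) (S : Finset (Place k)) (U : Ultrafilter Ω) (A : Set Ω) (I : Finset (Fin M)),
  Sys f S U A I → ∀ (m : ℕ) (P : MvPolynomial (Fin M) k), P.IsHomogeneous m →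
  (∀ s ∈ P.support, ∀ i, s i ≠ 0 → i ∈ I) → (∀ ω ∈ A, eval (f ω) P = 0) →
  ∀ α ∈ P.support, ∃ β ∈ P.support, β ≠ α ∧
    LO U (fun ω => ht (f ω)) (fun ω => ht ![∏ i, f ω i ^ α i, ∏ i, f ω i ^ β i])

/-- HUA (200 lines; model `SI/HUL.lean`).  USES UNA.

PROOF.  If `a = J j₀` take `lam = Pi.single j₀ 1`.  Otherwise `ρ : Option (Fin N) → Fin M`, `none ↦ a`,
`some j ↦ J j`, is injective and `rename ρ P` is homogeneous of degree `D`, vanishes on `A`, its exponents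
have support in `I`, and the coefficient of `single a D` is `1`.  UNA: an exponent `β ≠ single a D` in the
support with `ht ![f_a^D, f^β] = o(ht f)`.  `β = single a (D - b) + ∑_j β_j single (J j) 1`, `∑ β_j = b ≥ 1`.
For nonzero `y, z` and every place `v`: `|log |y|_v - log |z|_v| ≤ ht ![y, z]`, because by the product formula
`ht ![y, z] = ∑_w max (log |y|_w - log |z|_w) 0 = ∑_w max (log |z|_w - log |y|_w) 0`.  So
`|b log |f_a|_v - ∑_j β_j log |f_(J j)|_v| ≤ ht ![f_a^D, f^β]`; divide by `b`: `lam j = β_j / b`. -/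
def SpecHUA : Prop := ∀ (k : Type) [Field k] [NumberField k] (Ω : Type) (M : ℕ)
  (f : Ω → Fin M → k) (S : Finset (Place k)) (U : Ultrafilter Ω) (A : Set Ω) (I : Finset (Fin M)),
  Sys f S U A I → ∀ (N : ℕ) (J : Fin N → Fin M), Function.Injective J → (∀ j, J j ∈ I) →
  ∀ a ∈ I, IE f A J a →
  ∃ lam : Fin N → ℝ, (∀ j, 0 ≤ lam j) ∧ ∑ j, lam j = 1 ∧ ∀ v : Place k,
    LO U (fun ω => ht (f ω)) (fun ω => |Real.log (absV v (f ω a)) -
      ∑ j, lam j * Real.log (absV v (f ω (J j)))|)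

/-- CVA (220 lines).  USES TRV (`SS.SpecTRV`), CVX (`SI.SpecCVX`), HUA.

PROOF.  For `i : Fin q`, `v ∈ S` let `r_{i,v} ω = vl v (e i) (f ω) / ht (f ω)`.  `0 ≤ vl` (`nrm v f ≥ |f_i|_v`, `f_i ≠ 0`)
and `vl v (e i) f ≤ ht f + C` (TRV, first part, `c = Pi.single (e i) 1`, `S' = {v}`), so `r_{i,v} ∈ [0, 2]` eventually
(`unb`), and it has a limit `L i v` along `U` (`IsCompact.ultrafilter_le_nhds'`).  By HUA, divided by `ht f`, and
`∑ lam_j = 1`: `r_{i,v} - ∑_j lam_j r_{J j,v} → 0`, so `L i v = ∑_j lam_j L (J j) v` for `v ∈ S`.  CVX with the type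
`{v // v ∈ S}` and `g i v = L i v` gives `a, b, J`.  Let `L (J j) = L a` (the other case is the same).  By the product
formula for `f_a`: `ht ![f_(J j), f_a] = ∑_v max (log |f_(J j)|_v - log |f_a|_v) 0 = ∑_v max (vl v a - vl v (J j)) 0`
`≤ ∑_{v ∈ S} |vl v a - vl v (J j)| + ∑_{v ∉ S} vl v a` (as `vl v (J j) ≥ 0`; `a` for `e a` etc.); the terms of the
first sum are `o(ht f)` as the limits are equal, and the second sum is `ht f - ∑_{v ∈ S} vl v a = o(ht f)`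
(product formula, `int`). -/
def SpecCVA : Prop := ∀ (k : Type) [Field k] [NumberField k] (Ω : Type) (M : ℕ)
  (f : Ω → Fin M → k) (S : Finset (Place k)) (U : Ultrafilter Ω) (A : Set Ω) (q n : ℕ)
  (e : Fin q → Fin M), Function.Injective e → 3 * n + 1 ≤ q →
  Sys f S U A (Finset.univ.image e) →
  (∀ J : Fin (2 * n + 1) → Fin q, Function.Injective J → ∀ a, IE f A (fun j => e (J j)) a) →
  ∃ (a b : Fin q) (J : Fin (2 * n + 1) → Fin q), Function.Injective J ∧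
    ∀ j, LO U (fun ω => ht (f ω)) (fun ω => ht ![f ω (e (J j)), f ω (e a)]) ∨
      LO U (fun ω => ht (f ω)) (fun ω => ht ![f ω (e (J j)), f ω (e b)])

/-! ## Curves with slowly moving coefficients -/

/-- forms of degree `m` times products of `r` of the forms `G i` -/
noncomputable def WP {k : Type} [Field k] {M : ℕ} {ι : Type} (G : ι → MvPolynomial (Fin M) k)
    (m r : ℕ) : Submodule k (MvPolynomial (Fin M) k) :=
  MvPolynomial.homogeneousSubmodule (Fin M) k m * (Submodule.span k (Set.range G)) ^ r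

/-- the functions on `A` given by `WP G m r` -/
noncomputable def WS {k : Type} [Field k] {Ω : Type} {M : ℕ} {ι : Type} (f : Ω → Fin M → k)
    (A : Set Ω) (G : ι → MvPolynomial (Fin M) k) (m r : ℕ) : Submodule k (A → k) :=
  (WP G m r).map (evA f A).toLinearMap

/-- the `g j ∈ WP G m r` give a basis of `WS f A G m r` -/
def IsW {k : Type} [Field k] {Ω : Type} {M : ℕ} {ι J : Type} (f : Ω → Fin M → k) (A : Set Ω)
    (G : ι → MvPolynomial (Fin M) k) (m r : ℕ) (g : J → MvPolynomial (Fin M) k) : Prop :=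
  (∀ j, g j ∈ WP G m r) ∧ LinearIndependent k (fun j => evA f A (g j)) ∧
    Submodule.span k (Set.range fun j => evA f A (g j)) = WS f A G m r

/-- the vector of the values of the `G i` -/
noncomputable def gv {k : Type} [Field k] {M : ℕ} {ι : Type} (G : ι → MvPolynomial (Fin M) k)
    (f : Fin M → k) : ι → k := fun i => eval f (G i)

/-- MTR (130 lines).  USES TRV (`SS.SpecTRV`).

PROOF.  `(span G)^r`: induction on `r`, for `Q ∈ (span G)^r`: `|Q(f)|_v ≤ e^(κ v) nrm v (gv G f)^r`.  `r = 0`: `Q` is a constant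
(`Submodule.one_eq_range`).  Step: `Submodule.mul_induction_on`; products: add the `κ`; sums:
`|a + b|_v ≤ 2^(sw v) max (|a|_v) (|b|_v)`, `κ = sw v log 2 + κ_a + κ_b`; elements of `span G`:
`Submodule.span_induction`, `|G_i(f)|_v ≤ nrm v (gv G f)`, scalars `κ v = max 0 (log |c|_v)`.  Then
`Submodule.mul_induction_on` for `WP`, with TRV (second part) for the forms of degree `m`.  (`sw v = 0` and
`log |c|_v = 0` for almost all `v`.)  If `ι` is empty, `nrm v (gv G f)` is `0` and all is `0` for `r > 0`. -/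
def SpecMTR : Prop := ∀ (k : Type) [Field k] [NumberField k] (M : ℕ) (ι : Type) [Fintype ι]
  (G : ι → MvPolynomial (Fin M) k) (m r : ℕ) (P : MvPolynomial (Fin M) k), P ∈ WP G m r →
  ∃ κ : Place k → ℝ, (∀ v, 0 ≤ κ v) ∧ (Function.support κ).Finite ∧
    ∀ (f : Fin M → k) (v : Place k),
      absV v (eval f P) ≤ Real.exp (κ v) * (nrm v f ^ m * nrm v (gv G f) ^ r)

/-- MSU (340 lines; model `SS/SUBI.lean`).  USES SUB (`SS.SpecSUB`), MTR.  The Subspace theorem in `WS`.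

PROOF.  `n = finrank (WS f A G m r)` (finite dimensional: `WP` is finitely generated).  For `v ∈ S` the type `J v`
has `n` elements.  Elements of `WP G m r` are homogeneous of degree `m + d r`; every `g v j` does not vanish
identically on `A` (part of a basis), so it is `≠ 0` off a small set (`Gen`).  If `S = ∅` the sum is `0`, `ht ≥ 0`
for nonzero vectors.  Otherwise fix a basis `b_1, …, b_n` (`b = g v₀`), `y(ω) = (b_j(f ω))_j ∈ k^n`.  `n > 0` and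
`y(ω) ≠ 0`: otherwise all elements of `WP G m r` vanish at `f ω`, in particular `X_l^m (G_i)^r` with `f ω l ≠ 0`,
`G_i(f ω) ≠ 0`.  For `v ∈ S` there is an invertible matrix `L_v` with `g v j (f ω) = (L_v y(ω))_j` on `A` (two bases of
`WS`).  SUB with `ε`: a finite set of proper subspaces; every proper subspace is in the kernel of a nonzero form
`∑ c_j y_j`, and `∑ c_j b_j` does not vanish identically on `A`, so `{ω ∈ A : y(ω) ∈ T}` is small.  For the other `ω`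
`∑_{v ∈ S} ∑_j (log nrm v y - log |g v j|_v) ≤ (n + ε) ht y + C`.  Let `Q_v = m log nrm v f + r log nrm v (gv G f)`,
`Q = m ht f + r ht (gv G f) = ∑_v Q_v`.  By MTR (maximum of the `κ` of the `b_j`) `log nrm v y ≤ κ v + Q_v` for all
places, so `∑_{v ∈ S} (Q_v - log nrm v y) ≤ Q - ht y + C`, and `ht y ≤ Q + C`.  Adding `n` times this inequality:
`∑_v ∑_j (Q_v - log |g v j|_v) ≤ (n + ε) ht y + n (Q - ht y) + C = ε ht y + n Q + C ≤ (n + ε) Q + C'`. -/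
def SpecMSU : Prop := ∀ (k : Type) [Field k] [NumberField k] (Ω : Type) (M : ℕ)
  (f : Ω → Fin M → k) (Sm : Set Ω → Prop), SmSys Sm → ∀ A : Set Ω, Gen Sm f A →
  ∀ (ι : Type) [Fintype ι] (G : ι → MvPolynomial (Fin M) k) (d : ℕ), (∀ i, (G i).IsHomogeneous d) →
  (∀ ω ∈ A, f ω ≠ 0 ∧ ∃ i, eval (f ω) (G i) ≠ 0) → ∀ (S : Finset (Place k)) (m r : ℕ)
  (J : Place k → Type) [∀ v, Fintype (J v)] (g : ∀ v, J v → MvPolynomial (Fin M) k),
  (∀ v ∈ S, IsW f A G m r (g v)) → ∀ ε : ℝ, 0 < ε →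
  ∃ (B : Set Ω) (C : ℝ), Sm B ∧ ∀ ω ∈ A, ω ∉ B →
    (∀ v ∈ S, ∀ j, eval (f ω) (g v j) ≠ 0) ∧
    ∑ v ∈ S, ∑ j, (m * Real.log (nrm v (f ω)) + r * Real.log (nrm v (gv G (f ω))) -
      Real.log (absV v (eval (f ω) (g v j)))) ≤
      (Module.finrank k (WS f A G m r) + ε) * (m * ht (f ω) + r * ht (gv G (f ω))) + C

/-- MFL (240 lines; model `SS/FIL.lean`).  USES IRR (`SS.SpecIRR`).

PROOF.  Induction on `m`.  `m = 0`: any basis of `WS f A G 0 r` (finite dimensional), `e = 0`, lifted to `WP`.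
Step: let `ξ^{e_j} h_j` be the basis for `m`, `ξ = lin c`.  `ξ * WP G m r ≤ WP G (m + 1) r`
(`ξ` is a form of degree `1`).  Multiplication by the function of `ξ` maps `WS f A G m r` into
`WS f A G (m+1) r` and is injective (IRR: elements of `WP` are homogeneous of degree `m + d r`; `ξ ≠ 0` on `A`).
So the `ξ^{e_j + 1} h_j` are linearly independent in `WS f A G (m+1) r`; complete them by elements of
`WP G (m+1) r` (`e = 0`) to a basis.  The sum of the exponents is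
`∑ (e_j + 1) = ∑_{i<m} finrank (WS i r) + finrank (WS m r)`. -/
def SpecMFL : Prop := ∀ (k : Type) [Field k] (Ω : Type) (M : ℕ) (f : Ω → Fin M → k)
  (Sm : Set Ω → Prop), SmSys Sm → ∀ A : Set Ω, Gen Sm f A →
  ∀ (ι : Type) [Fintype ι] (G : ι → MvPolynomial (Fin M) k) (d : ℕ), (∀ i, (G i).IsHomogeneous d) →
  ∀ c : Fin M → k, (∃ ω ∈ A, c ⬝ᵥ f ω ≠ 0) → ∀ m r : ℕ,
  ∃ (n : ℕ) (e : Fin n → ℕ) (h : Fin n → MvPolynomial (Fin M) k),
    IsW f A G m r (fun j => lin c ^ e j * h j) ∧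
    (∀ j, e j ≤ m ∧ h j ∈ WP G (m - e j) r) ∧
    ∑ j, e j = ∑ i ∈ Finset.range m, Module.finrank k (WS f A G i r)

/-- the forms `X_s X_t` and `X_(J j) X_t` (if `τ j`), `X_(J j) X_s` (otherwise) -/
noncomputable def GG {k : Type} [Field k] {M N : ℕ} (s t : Fin M) (J : Fin N → Fin M)
    (τ : Fin N → Bool) : Option (Fin N) → MvPolynomial (Fin M) k := fun o =>
  o.elim (X s * X t) (fun j => if τ j then X (J j) * X t else X (J j) * X s)

/-- MGB (300 lines; compare `SI/GRW.lean`).  USES nothing.  `H(i, r) = finrank (WS f A (GG s t J τ) i r)`.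

PROOF.  `Γ` = the span of the functions `G_o` of the `GG o` on `A`; `WS f A GG 0 r = Γ^r` (forms of degree `0` are
constants), `WS i r = FS_i Γ^r`.  `θ = f_s f_t = G_none ∈ Γ` has no zeros on `A`: multiplication by `θ` is injective.
(2) `θ Γ^r ⊆ Γ^(r+1)`.  (3) `θ^r ∈ Γ^r`, not `0`.  (4) `Γ^r` is spanned by the products `∏_o G_o^(a_o)`,
`∑ a_o = r`, at most `(r + 1)^(N + 1)`.  (1) Let `D_a`, `P_a` be the data of `IE f A J a`.  On `A`:
`f_a^(D_a) = - ∑ (coefficient) f_a^(D_a - b) ∏_j f_(J j)^(β_j)`, sum over the other monomials, `b = ∑ β_j ≥ 1`, and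
`θ^b ∏_j f_(J j)^(β_j) = (∏_j G_j^(β_j)) f_s^u f_t^w`, `u = ∑_{τ j} β_j`, `w = ∑_{not τ j} β_j`, `u + w = b`
(as `θ f_(J j) = G_j f_s` if `τ j`, and `= G_j f_t` otherwise).  Let `Q_i` be the span of all
`g f_s^u f_t^l ∏_a f_a^(γ a)` with `g ∈ Γ^i`, `u + l + ∑ γ = i`, `γ a < D_a` for all `a`.  Claim: for
`u + l + ∑ γ = i` (all `γ`) and `g ∈ Γ^(u + l)`: `θ^(∑ γ) g f_s^u f_t^l ∏_a f_a^(γ a) ∈ Q_i`.  Strong induction on
`∑ γ`: if all `γ a < D_a`, clear (`θ^(∑ γ) g ∈ Γ^i`); if `γ a ≥ D_a`, replace `f_a^(D_a)`: every term becomes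
`θ^(∑ γ - b) (g ∏_j G_j^(β_j)) f_s^(u + u') f_t^(l + w') ∏ f^(γ')`, `∑ γ' = ∑ γ - b`, `g ∏ G_j^(β_j) ∈ Γ^(u + l + b)`,
`u' + w' = b`.  With `u = l = 0`, `g = 1`: `θ^i FS_i ⊆ Q_i`, `θ^i WS(i, r) ⊆ Q_i Γ^r`, and `Q_i Γ^r` is the sum of at
most `(∏_a D_a) (i + 1)` spaces `(f_s^u f_t^l ∏ f_a^(γ a)) Γ^(i + r)`.  So `D = ∏_a D_a`. -/
def SpecMGB : Prop := ∀ (k : Type) [Field k] (Ω : Type) (M : ℕ) (f : Ω → Fin M → k) (A : Set Ω)
  (s t : Fin M) (N : ℕ) (J : Fin N → Fin M) (τ : Fin N → Bool), A.Nonempty →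
  (∀ ω ∈ A, f ω s ≠ 0 ∧ f ω t ≠ 0) → (∀ a, IE f A J a) →
  ∃ D : ℝ, 0 ≤ D ∧
    (∀ i r : ℕ, (Module.finrank k (WS f A (GG s t J τ) i r) : ℝ) ≤
      D * (i + 1) * Module.finrank k (WS f A (GG s t J τ) 0 (r + i))) ∧
    (∀ r : ℕ, Module.finrank k (WS f A (GG s t J τ) 0 r) ≤
      Module.finrank k (WS f A (GG s t J τ) 0 (r + 1))) ∧
    (∀ r : ℕ, 1 ≤ Module.finrank k (WS f A (GG s t J τ) 0 r)) ∧
    ∀ r : ℕ, Module.finrank k (WS f A (GG s t J τ) 0 r) ≤ (r + 1) ^ (N + 1)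

/-- MGR (180 lines; model `SS/GRO.lean`).  USES nothing.  A growth lemma with a parameter.

PROOF.  `ε ≥ 1/2`: `m = 1`, `r = 0`.  Let `ε < 1/2`, `γ = 1 / (1/2 - ε) = 2 + η`, `η > 0`, `s_m(r) = ∑_{j<m} H j r`, and
suppose `s_m(r) < (1/2 - ε) m H m r` for all `m ≥ 1` and all `r`.  Then `s_{m+1} = s_m + H m r ≥ s_m (1 + γ / m)`.
Let `u_m = s_m / m²`.  For `m ≥ m₁` (`(1+η)/m² + η/(2m³) ≤ η/(2m)`; `m₁` depends only on `η`):
`(1 + 1/m)² (1 + η/(2m)) ≤ 1 + γ/m`, so `u_{m+1} ≥ u_m (1 + η/(2m))`; `u` is increasing for `m ≥ m₁` and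
`u_{m+1} ≥ u_m + (η/2) u_{m₁} / m`, `u_{m₁} ≥ H 0 r / m₁²`.  So (harmonic series) there is `m₂ ≥ 1`, depending only
on `η` and `D`, with `u_{m₂} ≥ 2 (|D| + 1) H 0 r` for all `r`.  But `s_m(r) ≤ ∑_{i<m} D (i + 1) H 0 (r + i) ≤
|D| m² H 0 (r + m)`, so `2 (|D| + 1) H 0 r ≤ |D| H 0 (r + m₂)` and `H 0 (r + m₂) ≥ 2 H 0 r` for all `r`.  So
`2^t ≤ H 0 (t m₂) ≤ (t m₂ + 1)^N` for all `t`, a contradiction for large `t`. -/
def SpecMGR : Prop := ∀ (H : ℕ → ℕ → ℝ) (D : ℝ) (N : ℕ), (∀ i r, 0 ≤ H i r) →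
  (∀ i r : ℕ, H i r ≤ D * (i + 1) * H 0 (r + i)) → (∀ r, H 0 r ≤ H 0 (r + 1)) →
  (∀ r, 1 ≤ H 0 r) → (∀ r : ℕ, H 0 r ≤ ((r : ℝ) + 1) ^ N) → ∀ ε : ℝ, 0 < ε →
  ∃ m r : ℕ, 0 < m ∧ (1 / 2 - ε) * (m * H m r) ≤ ∑ j ∈ Finset.range m, H j r

/-- MCV (240 lines; model `SS/CRV.lean`).  USES TRV (`SS.SpecTRV`), MTR, MSU, MFL.  The moving curve theorem.

PROOF.  Let `ε₁ > 0` with `ε₁ < 1/2`, `1 / (1/2 - ε₁) ≤ 2 + ε / 2`; `m, r` from the hypothesis for `ε₁`;
`H = finrank (WS f A G m r)`, `s = ∑_{j<m} finrank (WS j r) ≥ finrank (WS 0 r) ≥ 1` (`G_i^r` is not `0` on `A`).  For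
`v ∈ S` take the basis `ξ^{e_j} h_j` of MFL for `c v`.  MSU with `ε' = ε / (2 m)`: off a small set
`∑_v ∑_j (m log nrm v f + r log nrm v (gv G f) - log |ξ^{e_j} h_j (f)|_v) ≤ (H + ε') (m ht f + r ht (gv G f)) + C`.
The summand is `e_j val v (c v) f + ((m - e_j) log nrm v f + r log nrm v (gv G f) - log |h_j(f)|_v) ≥
e_j val v (c v) f - C` by MTR for `h_j`.  So
`s ∑_v val v (c v) f ≤ (H + ε') m ht f + (H + ε') r ht (gv G f) + C`; divide by `s ≥ 1`: `H m / s ≤ 2 + ε/2`,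
`ε' m / s ≤ ε/2` (`ht f ≥ 0`, `ht (gv G f) ≥ 0`). -/
def SpecMCV : Prop := ∀ (k : Type) [Field k] [NumberField k] (Ω : Type) (M : ℕ)
  (f : Ω → Fin M → k) (Sm : Set Ω → Prop), SmSys Sm → ∀ A : Set Ω, Gen Sm f A →
  ∀ (ι : Type) [Fintype ι] (G : ι → MvPolynomial (Fin M) k) (d : ℕ), (∀ i, (G i).IsHomogeneous d) →
  (∀ ω ∈ A, f ω ≠ 0 ∧ ∃ i, eval (f ω) (G i) ≠ 0) →
  (∀ ε : ℝ, 0 < ε → ∃ m r : ℕ, 0 < m ∧ (1 / 2 - ε) * (m * Module.finrank k (WS f A G m r)) ≤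
    ∑ j ∈ Finset.range m, (Module.finrank k (WS f A G j r) : ℝ)) →
  ∀ (S : Finset (Place k)) (c : Place k → Fin M → k), (∀ v ∈ S, ∃ ω ∈ A, c v ⬝ᵥ f ω ≠ 0) →
  ∀ ε : ℝ, 0 < ε → ∃ (B : Set Ω) (C : ℝ), 0 ≤ C ∧ Sm B ∧ ∀ ω ∈ A, ω ∉ B →
    (∀ v ∈ S, c v ⬝ᵥ f ω ≠ 0) ∧
    ∑ v ∈ S, val v (c v) (f ω) ≤ (2 + ε) * ht (f ω) + C * (1 + ht (gv G (f ω)))

/-- HGV (100 lines).  USES nothing.

PROOF.  Let `c_j = f_(J j) / f_s` if `τ j`, `c_j = f_(J j) / f_t` otherwise.  `gv GG f = f_s f_t (1, c_1, …, c_N)`, so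
`log nrm v (gv GG f) = log |f_s f_t|_v + log max (1, |c_1|_v, …) ≤ log |f_s f_t|_v + ∑_j log max (1, |c_j|_v)`, and
`log max (1, |c_j|_v) = log nrm v ![f_(J j), f_s] - log |f_s|_v` if `τ j` (`f_t` otherwise).  Sum over all `v`, with
the product formula for `f_s f_t`, `f_s`, `f_t`. -/
def SpecHGV : Prop := ∀ (k : Type) [Field k] [NumberField k] (M : ℕ) (s t : Fin M) (N : ℕ)
  (J : Fin N → Fin M) (τ : Fin N → Bool) (f : Fin M → k), f s ≠ 0 → f t ≠ 0 →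
  ht (gv (GG s t J τ) f) ≤ ∑ j, ht ![f (J j), if τ j then f s else f t]

/-! ## The theorem -/

/-- the vectors of norms of the points over fields of degree `n` -/
def VV {k : Type} [Field k] [NumberField k] {M : ℕ} (Ξ : Fin M → Fin 3 → k) (n : ℕ) :
    Set (Fin M → k) :=
  {f | ∃ (K : Type) (_ : Field K) (_ : NumberField K) (_ : Algebra k K) (x : Fin 3 → K),
    Module.finrank k K = n ∧ (∀ a, evalForm (Ξ a) x ≠ 0) ∧ f = nv Ξ x}

/-- SET (200 lines).  USES TRV (`SS.SpecTRV`), MAX (`SS.SpecMAX`).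

PROOF.  `V = VV Ξ n`, `Ω = Fin M → k`, `W f = ∑_{v ∈ S} ∑_i vl v (e i) f`.  `M > 0` as `q ≥ 3`.  For `f ∈ V` all coordinates are
`≠ 0` (norms of nonzero elements), `ht f ≥ 0`, all `vl v i f ≥ 0`, and `∑_{v ∈ S} vl v i f ≤ ht f + C₁` (TRV, first part,
`c = Pi.single i 1`; `vl` is `val` then).  `Sm B`: there are `0 < η`, `C'` with `W f ≤ (q - η) ht f + C'` for all
`f ∈ B ∩ V`.  `SmSys Sm` (minimum of the `η`, maximum of the `C'`).  If `Sm univ`: first alternative.  Otherwise the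
sets with small complement are a filter, not `⊥`; `U` = an ultrafilter below it (`Ultrafilter.of`): `Sm B → SmU U B`.
MAX for `SmU U` (not `SmU U univ`) and `f = id`: `A'` with `Gen (SmU U) id A'`; `A' ∈ U` as `¬ SmU U A'`.  `V ∈ U` as `Sm Vᶜ`.
`A = A' ∩ V ∈ U`; `Gen (SmU U) id A`: if `P` does not vanish identically on `A` it does not on `A'`, and
`{ω ∈ A : P = 0} ⊆ {ω ∈ A' : P = 0}`.
`unb`: `{f : ht f ≤ C}` is `Sm`: `W f ≤ q ht f + q C₁ ≤ (q - 1) ht f + C + q C₁` for `f ∈ V`; so eventually `C < ht f`.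
Third claim: `{f : W f ≤ (q - η) ht f}` is `Sm` (`C' = 0`).  `int` for `e i`: eventually
`∑_{v ∈ S} vl v (e i) f = W f - ∑_{i' ≠ i} ∑_{v ∈ S} vl v (e i') f ≥ (q - η/2) ht f - (q - 1) (ht f + C₁) ≥ (1 - η) ht f`
(`unb`).  (`e` is injective: `W f = ∑_i`, no use of the image as a sum.) -/
def SpecSET : Prop := ∀ (k : Type) [Field k] [NumberField k] (q M : ℕ) (ℓ : Fin q → Fin 3 → k)
  (Ξ : Fin M → Fin 3 → k) (e : Fin q → Fin M), Cfg ℓ Ξ e → ∀ (n : ℕ) (S : Finset (Place k)),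
  (∃ η C' : ℝ, 0 < η ∧ ∀ f ∈ VV Ξ n,
    ∑ v ∈ S, ∑ i, vl v (e i) f ≤ (q - η) * ht f + C') ∨
  ∃ (U : Ultrafilter (Fin M → k)) (A : Set (Fin M → k)),
    Sys (fun f : Fin M → k => f) S U A (Finset.univ.image e) ∧ A ⊆ VV Ξ n ∧
    ∀ η : ℝ, 0 < η → ∀ᶠ f in (U : Filter (Fin M → k)),
      (q - η) * ht f ≤ ∑ v ∈ S, ∑ i, vl v (e i) f

/-- MLB (220 lines; compare `SI/CRW.lean`, `SI/ABS.lean`).  USES FCH (`SS.SpecFCH`), NRM, LOB (`SI`), CVA, MGB, MGR,
MCV, HGV, SET.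

PROOF.  SET; suppose the second alternative: `U`, `A`.  For injective `J : Fin (2 n + 1) → Fin q` and every `a` NRM for
the lines `ℓ ∘ J` and `ξ = Ξ a` gives `IE id A (e ∘ J) a`.  CVA: `a, b, J`.  `s = e a`, `t = e b`, `τ j` = whether the
first alternative holds.  `G = GG s t (e ∘ J) τ` (homogeneous of degree `2`), `G_none ≠ 0` on `A`.  MGB, MGR
(`H i r = finrank (WS id A G i r)`, `N + 1` for `N`): the growth hypothesis of MCV.  HGV: `ht (gv G f) ≤ ∑_j ht ![..]`,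
so `LO U ht (ht ∘ gv G)` (`2 n + 1` terms).  Let `ε = 1 / (24 n)`.  For every `φ : Place k → Fin M` MCV with
`c v = Pi.single (φ v) 1` (`val v (c v) f = vl v (φ v) f`): off a small set
`∑_{v ∈ S} vl v (φ v) f ≤ (2 + ε) ht f + C (1 + ht (gv G f)) ≤ (2 + 2 ε) ht f + C`.  FCH with `Sm = SmU U` (`SmSys`),
`Φ = Fin M`, `ok = True`: off one small set this holds for all `φ`.  Choose `φ v = a_v` of LOB:
`∑_{v ∈ S} ∑_i vl v (e i) f ≤ (3 n / 2) ((2 + 2 ε) ht f + C) + C = (3 n + 1/8) ht f + C'`.  With the third claim of SET for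
`η = 1/8`: `(q - 1/8) ht f ≤ (3 n + 1/8) ht f + C'` eventually, so `(3/4) ht f ≤ C'` (`q ≥ 3 n + 1`) eventually,
against `unb`. -/
def SpecMLB : Prop := ∀ (k : Type) [Field k] [NumberField k] (q M : ℕ) (ℓ : Fin q → Fin 3 → k)
  (Ξ : Fin M → Fin 3 → k) (e : Fin q → Fin M), Cfg ℓ Ξ e → ∀ n : ℕ, 2 ≤ n → 3 * n + 1 ≤ q →
  ∀ S : Finset (Place k), ∃ η C' : ℝ, 0 < η ∧ ∀ f ∈ VV Ξ n,
    ∑ v ∈ S, ∑ i, vl v (e i) f ≤ (q - η) * ht f + C'

/-- ONE (200 lines).  USES SUB (`SS.SpecSUB`), TRV (`SS.SpecTRV`), LOA (`SI`).  Degree `1`.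

PROOF.  `finrank k K = 1`: `algebraMap k K` is bijective and `N (algebraMap z) = z`; let `x' = N ∘ x ∈ k³`, so
`algebraMap ∘ x' = x`, `N (evalForm c x) = evalForm c x'`, and `f := nv Ξ x = (evalForm (Ξ a) x')_a`.  The coordinates of
`f` are linear forms in `x'`: `log nrm v f ≤ log nrm v x' + κ v` (TRV for functionals on `k³`); and the coordinates of
`x'` are linear combinations of three of the `f_a` (`GP`, `3 ≤ q`), so `log nrm v x' ≤ log nrm v f + κ v`,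
`ht x' ≤ ht f + C`.  Local claim: for every `v ∈ S` there are distinct `i₁, i₂, i₃` with `vl v (e i) f ≤ C` for all other
`i`: as in LOA, at most two `i` have `mu (ℓ i) w x > err w` for the (unique) `w` above `v` (`exists_three_lines`), LOA with
`n = 1` (or directly: if `i₁, i₂, i₃` have the three smallest `|f_(e i)|_v`, then `nrm v f ≤ e^C |f_(e i₃)|_v`, as `i₁, i₂, i₃`
are independent).  So `∑_{v ∈ S} ∑_i vl v (e i) f ≤ ∑_{v ∈ S} ∑_{j=1}^3 vl v (e i_j) f + C`.  SUB in `k³` with the matrices of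
the rows `ℓ i₁, ℓ i₂, ℓ i₃` (`det ≠ 0`), for the finitely many choices of injective triples at the places of `S`, `ε = 1/2`:
off a finite set of proper subspaces `T` of `k³` (`Z` = one nonzero form vanishing on each `T`)
`∑_{v ∈ S} ∑_j (log nrm v x' - log |ℓ_(i_j) x'|_v) ≤ (3 + 1/2) ht x' + C`.  Replace `nrm v x'` by `nrm v f` and
`ht x'` by `ht f`. -/
def SpecONE : Prop := ∀ (k : Type) [Field k] [NumberField k] (q M : ℕ) (ℓ : Fin q → Fin 3 → k)
  (Ξ : Fin M → Fin 3 → k) (e : Fin q → Fin M), Cfg ℓ Ξ e → ∀ S : Finset (Place k),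
  ∃ (Z : Finset (Fin 3 → k)) (C' : ℝ), (∀ L ∈ Z, L ≠ 0) ∧
    ∀ (K : Type) [Field K] [NumberField K] [Algebra k K] (x : Fin 3 → K), Module.finrank k K = 1 →
      (∀ a, evalForm (Ξ a) x ≠ 0) → (∀ L ∈ Z, evalForm L x ≠ 0) →
      ∑ v ∈ S, ∑ i, vl v (e i) (nv Ξ x) ≤ (3 + 1 / 2) * ht (nv Ξ x) + C'

/-- FNG (150 lines; model `SI/FNI.lean`).  USES LNX, PRX (`SI`), MLB, ONE.  THEOREM G.

PROOF.  `δ = 0` is vacuous (`finrank k K ≥ 1`).  LNX: `M, Ξ, e` (`q ≥ 4`).  For `n = 1` ONE gives `Z_1`, and with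
`η_1 = 1/2`: `W ≤ (3 + 1/2) ht f + C ≤ (q - 1/2) ht f + C` (`ht f ≥ 0`, `f = nv Ξ x ≠ 0`).  For `2 ≤ n ≤ δ` MLB: `η_n`, `C_n`
(replace `η_n` by `min η_n 1`, `ht f ≥ 0`).  PRX (second and first inequality, `q - η_n ≥ 0`):
`n m_{D,S} ≤ W + C ≤ (q - η_n) ht f + C ≤ (q - η_n) n h + C'`; divide by `n`.  `η` = the minimum of the `η_n`, `C` = the
maximum of the constants, `Z` = `Z_1` and all `Ξ a` (`Cfg.ne`); `height x ≥ 0` for `x ≠ 0`. -/
def SpecFNG : Prop := ∀ (k : Type) [Field k] [NumberField k] (S : Finset (Place k)) (q δ : ℕ)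
  (ℓ : Fin q → Fin 3 → k), GP ℓ → 3 * δ + 1 ≤ q →
  ∃ (Z : Finset (Fin 3 → k)) (η C : ℝ), (∀ L ∈ Z, L ≠ 0) ∧ 0 < η ∧
    ∀ (K : Type) [Field K] [NumberField K] [Algebra k K] (x : Fin 3 → K), Module.finrank k K ≤ δ →
      x ≠ 0 → (∀ L ∈ Z, evalForm L x ≠ 0) → proximity S ℓ x ≤ (q - η) * height x + C

end Pool.Agent.Lib.MP_d0e829_nt.GP
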