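import Pool.Agent.Lib.MP_d0e829_nt.GP.Spec

/-!
# The gap theorem with uniform constants (specifications of the modules)

THEOREM GU (`SpecFNY`).  For every `δ ≥ 1` there is `θ < 1`, depending only on `δ`, such that for all number
fields `k`, finite sets `S` of places, `q ≥ 3 δ + 1` and lines `ℓ_1, …, ℓ_q` over `k` in general position there
are finitely many lines over `k` and `C` such that every point of degree `≤ δ` off these lines has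
`m_{D,S} ≤ θ q h + C`.

The proof is that of THEOREM G (`GP/Spec.lean`), with explicit constants: all modules are quantitative forms
of modules of `GP/Spec.lean` and `SI/Spec.lean`.

Conventions.  Module `XXX` is the file `GP/XXX.lean`; it imports only `GP.SpecU` (if it uses lemmas of a file
of `GP`, `SI` or `SS`, it may also import that file, for instance the model); namespace
`Pool.Agent.Lib.MP_d0e829_nt.GP`; it proves `theorem specXXX (hYYY : SpecYYY) .. : SpecXXX`, hypotheses in the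
order of `USES`; own lemmas in a namespace `XXXM`.  All docstrings are complete proofs.
-/

set_option autoImplicit false

open NumberField MvPolynomial
open Pool.Agent.Lib.MP_d0e829_nt.SS Pool.Agent.Lib.MP_d0e829_nt.SI

namespace Pool.Agent.Lib.MP_d0e829_nt.GP

open scoped Classical

/-- `IE` with a bound for the degree -/
def IEB {k : Type} [Field k] {Ω : Type} {M N : ℕ} (b : ℕ) (f : Ω → Fin M → k) (A : Set Ω)
    (J : Fin N → Fin M) (a : Fin M) : Prop :=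
  ∃ (D : ℕ) (P : MvPolynomial (Option (Fin N)) k), 0 < D ∧ D ≤ b ∧ P.IsHomogeneous D ∧
    P.coeff (Finsupp.single none D) = 1 ∧
    ∀ ω ∈ A, eval (fun o : Option (Fin N) => o.elim (f ω a) (fun j => f ω (J j))) P = 0

/-- the situation of the proof: the coordinates in `I` are units up to `η₀` -/
structure SysQ {k : Type} [Field k] [NumberField k] {Ω : Type} {M : ℕ} (f : Ω → Fin M → k)
    (S : Finset (Place k)) (U : Ultrafilter Ω) (A : Set Ω) (I : Finset (Fin M)) (η₀ : ℝ) :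
    Prop where
  mem : ∀ᶠ ω in (U : Filter Ω), ω ∈ A
  gen : Gen (SmU U) f A
  ne : ∀ ω ∈ A, ∀ a, f ω a ≠ 0
  pos : 0 < M
  unb : ∀ C : ℝ, ∀ᶠ ω in (U : Filter Ω), C ≤ ht (f ω)
  int : ∀ i ∈ I, ∀ᶠ ω in (U : Filter Ω), ht (f ω) - ∑ v ∈ S, vl v i (f ω) ≤ η₀ * ht (f ω)

/-- DEU (260 lines; adaptation of `SI/DET.lean`).  USES SEG (`SI.SpecSEG`).  The integral equation with a
bound for the degree.

PROOF.  As DET.  `D = finrank (Wm φ m)`, `m = 2 n - 2`, and `Wm φ m` is contained in the space of the forms of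
degree `n m` in the `3 n` variables of `R = MvPolynomial (Fin n × Fin 3) F`, which is spanned by the monomials of
degree `n m`, at most `(n m + 1)^(3 n)`.  `B n = (n (2 n - 2) + 1)^(3 n)` (any function of `n` alone will do; the
bound must not depend on `F, ℓ, ξ`). -/
def SpecDEU : Prop := ∃ B : ℕ → ℕ, ∀ (F : Type) [Field F] (n : ℕ) (ℓ : Fin (2 * n + 1) → Fin 3 → F),
  GP ℓ → ∀ ξ : Fin 3 → F, ∃ (D : ℕ) (P : MvPolynomial (Option (Fin (2 * n + 1))) F), 0 < D ∧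
    D ≤ B n ∧ P.IsHomogeneous D ∧ P.coeff (Finsupp.single none D) = 1 ∧
    ∀ (L : Type) [Field L] [Algebra F L] (x : Fin n → Fin 3 → L),
      aeval (fun o : Option (Fin (2 * n + 1)) => o.elim (∏ t, evalForm ξ (x t))
        (fun j => ∏ t, evalForm (ℓ j) (x t))) P = 0

/-- NRU (60 lines; adaptation of `SI/NRM.lean`).  USES DEU. -/
def SpecNRU : Prop := ∃ B : ℕ → ℕ, ∀ (k : Type) [Field k] [NumberField k] (n : ℕ)
  (ℓ : Fin (2 * n + 1) → Fin 3 → k), GP ℓ → ∀ ξ : Fin 3 → k,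
  ∃ (D : ℕ) (P : MvPolynomial (Option (Fin (2 * n + 1))) k), 0 < D ∧ D ≤ B n ∧
    P.IsHomogeneous D ∧ P.coeff (Finsupp.single none D) = 1 ∧
    ∀ (K : Type) [Field K] [NumberField K] [Algebra k K] (x : Fin 3 → K), Module.finrank k K = n →
      eval (fun o : Option (Fin (2 * n + 1)) => o.elim (Algebra.norm k (evalForm ξ x))
        (fun j => Algebra.norm k (evalForm (ℓ j) x))) P = 0

/-- LNU (70 lines; adaptation of `SI/LNX.lean`).  USES nothing.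

PROOF.  In `SI/LNX.lean` `M` is the cardinality of `Fin q ⊕ (Fin q × Fin q × Fin q × Fin q)`. -/
def SpecLNU : Prop := ∀ (k : Type) [Field k] (q : ℕ) (ℓ : Fin q → Fin 3 → k), 3 ≤ q → GP ℓ →
  ∃ (Ξ : Fin (q + q ^ 4) → Fin 3 → k) (e : Fin q → Fin (q + q ^ 4)), Cfg ℓ Ξ e

/-- UNB (380 lines; adaptation of `GP/UNA.lean`).  USES SUB (`SS.SpecSUB`).

PROOF.  As UNA, with `η₀` in place of `η'`: `ht y ≤ 2 (N + 1) m η₀ ht f + 2 C` eventually, `N + 1 ≤ P.support.card`;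
the constants are `≤ ε ht f` eventually by `unb`. -/
def SpecUNB : Prop := ∀ (k : Type) [Field k] [NumberField k] (Ω : Type) (M : ℕ)
  (f : Ω → Fin M → k) (S : Finset (Place k)) (U : Ultrafilter Ω) (A : Set Ω) (I : Finset (Fin M))
  (η₀ : ℝ), 0 ≤ η₀ → SysQ f S U A I η₀ → ∀ (m : ℕ) (P : MvPolynomial (Fin M) k), P.IsHomogeneous m →
  (∀ s ∈ P.support, ∀ i, s i ≠ 0 → i ∈ I) → (∀ ω ∈ A, eval (f ω) P = 0) →
  ∀ α ∈ P.support, ∃ β ∈ P.support, β ≠ α ∧ ∀ ε : ℝ, 0 < ε → ∀ᶠ ω in (U : Filter Ω),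
    ht ![∏ i, f ω i ^ α i, ∏ i, f ω i ^ β i] ≤ (2 * P.support.card * m * η₀ + ε) * ht (f ω)

/-- HUB (240 lines; adaptation of `GP/HUA.lean`).  USES UNB.

PROOF.  As HUA.  The polynomial `rename ρ P` has degree `D ≤ b` in `N + 1` variables, so its support has at most
`(b + 1)^(N + 1)` elements.  With `y = f_a^D`, `z = f^β` (nonzero) and any finite set `S'` of places:
`∑_{v ∈ S'} |log |y|_v - log |z|_v| ≤ 2 ht ![y, z]`, as `ht ![y, z]` is the sum over all places of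
`max (log |y|_v - log |z|_v) 0`, and also of `max (log |z|_v - log |y|_v) 0` (product formula).  So with
`b' = ∑ β_j ≥ 1` and `lam j = β_j / b'`:
`∑_{v ∈ S'} |log |f_a|_v - ∑_j lam_j log |f_(J j)|_v| ≤ (2 / b') ht ![y, z] ≤ 2 (2 (b + 1)^(N + 1) b η₀ + ε) ht f`, and
`4 (b + 1)^(N + 1) b ≤ 4 (b + 1)^(N + 2)`. -/
def SpecHUB : Prop := ∀ (k : Type) [Field k] [NumberField k] (Ω : Type) (M : ℕ)
  (f : Ω → Fin M → k) (S : Finset (Place k)) (U : Ultrafilter Ω) (A : Set Ω) (I : Finset (Fin M))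
  (η₀ : ℝ), 0 ≤ η₀ → SysQ f S U A I η₀ → ∀ (N b : ℕ) (J : Fin N → Fin M), Function.Injective J →
  (∀ j, J j ∈ I) → ∀ a ∈ I, IEB b f A J a →
  ∃ lam : Fin N → ℝ, (∀ j, 0 ≤ lam j) ∧ ∑ j, lam j = 1 ∧ ∀ (S' : Finset (Place k)) (ε : ℝ), 0 < ε →
    ∀ᶠ ω in (U : Filter Ω), ∑ v ∈ S', |Real.log (absV v (f ω a)) -
      ∑ j, lam j * Real.log (absV v (f ω (J j)))| ≤
        (4 * ((b : ℝ) + 1) ^ (N + 2) * η₀ + ε) * ht (f ω)

/-- CVQ (260 lines; compare `SI/CVX.lean`).  USES nothing.  Convex geometry with an error.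

PROOF.  `τ = ρ² / (4 q)`, `κ = (τ / 8)²` (`q ≥ 1`).  Let `μ c = ∑_i g i c`, `h i c = g i c / μ c` (`0` if `μ c = 0`, and then
all `g i c = 0`), so `g i c = μ c * h i c`, `0 ≤ h i c ≤ 1`.  `⟨x, y⟩ = ∑_c μ c x_c y_c`, `|x|² = ⟨x, x⟩`,
`d(i, i') = |h_i - h_i'|²`.  `|h_i|² ≤ ∑_c μ c h i c ≤ 1`, so `d ≤ 4` and all the norms below are `≤ 2`.  For `J`
injective and `p`, with `lam` of the hypothesis, let `y = ∑_j lam_j h_(J j)`, `e = h_p - y`: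
`|e|² = ∑_c |μ e|² / μ ≤ ∑_c |g p c - ∑ lam_j g (J j) c| ≤ κ` (as `|e c| ≤ 1`).  For every `i₀`:
`∑_j lam_j |h_(J j) - h_i₀|² = |y - h_i₀|² + ∑_j lam_j |h_(J j) - y|²` (`∑ lam = 1`),
`|y - h_i₀|² ≥ |h_p - h_i₀|² - 2 |e| |h_p - h_i₀| ≥ d(i₀, p) - 4 √κ`, and
`|h_(J j) - y|² ≥ d(J j, p) - 4 √κ` in the same way.  If `d(i₀, p)` is maximal (over all `p`):
`d(i₀, p) ≥ ∑_j lam_j d(i₀, J j) ≥ d(i₀, p) - 8 √κ + ∑_j lam_j d(J j, p)`, so `d(J j, p) ≤ 8 √κ = τ` for some `j`.  So at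
most `2 n` indices `i` have `d(i, p) > τ` (otherwise choose `J` among them).  Take such a `p` (`i₀` arbitrary) and
then `p'` with `d(p, p')` maximal, for which the same holds.  If `d(p, p') ≤ 4 τ`: all `i` have `d(i, p) ≤ 4 τ`,
`a = b = p`, `J` arbitrary.  Otherwise `{i : d(i, p) ≤ τ}` and `{i : d(i, p') ≤ τ}` are disjoint (triangle inequality
for `√d`) and have at least `q - 2 n` elements each, together at least `2 q - 4 n ≥ 2 n + 2`: choose `J` in the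
union, `a = p`, `b = p'`.  Finally `∑_c |g i c - g p c| = ∑_c μ c |h i c - h p c| ≤ √(∑ μ) √(d(i, p)) ≤ √(q 4 τ) = ρ`
(Cauchy-Schwarz, `∑_c μ c ≤ q`). -/
def SpecCVQ : Prop := ∀ q n : ℕ, 3 * n + 1 ≤ q → ∀ ρ : ℝ, 0 < ρ → ∃ κ : ℝ, 0 < κ ∧
  ∀ (I : Type) [Fintype I] (g : Fin q → I → ℝ), (∀ i c, 0 ≤ g i c) → (∀ i, ∑ c, g i c ≤ 1) →
  (∀ J : Fin (2 * n + 1) → Fin q, Function.Injective J → ∀ i, ∃ lam : Fin (2 * n + 1) → ℝ,
    (∀ j, 0 ≤ lam j) ∧ ∑ j, lam j = 1 ∧ ∑ c, |g i c - ∑ j, lam j * g (J j) c| ≤ κ) →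
  ∃ (a b : Fin q) (J : Fin (2 * n + 1) → Fin q), Function.Injective J ∧
    ∀ j, ∑ c, |g (J j) c - g a c| ≤ ρ ∨ ∑ c, |g (J j) c - g b c| ≤ ρ

/-- CVB (240 lines; adaptation of `GP/CVA.lean`).  USES TRV (`SS.SpecTRV`), HUB, CVQ.

PROOF.  `κ` = that of CVQ for `ρ / 2`.  As CVA: the limits `L i v` (`v ∈ S`) of `vl v (e i) (f ω) / ht (f ω)` along `U` exist,
`L i v ≥ 0`, `∑_{v ∈ S} L i v ≤ 1` (TRV with `S' = S`: `∑_{v ∈ S} vl v (e i) f ≤ ht f + C`, and `unb`).  HUB (`S' = S`, `N = 2 n + 1`,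
`N + 2 = 2 n + 3`), divided by `ht f`, and `∑ lam = 1`: in the limit
`∑_{v ∈ S} |L i v - ∑_j lam_j L (J j) v| ≤ 4 (b + 1)^(2 n + 3) η₀ + ε` for every `ε > 0`, so it is `≤ κ`.  CVQ with
`{v // v ∈ S}`: `a, b', J`.  If `∑_{v ∈ S} |L (J j) v - L a v| ≤ ρ / 2`, then eventually
`∑_{v ∈ S} |vl v (J j) - vl v a| ≤ ρ ht f`, and as in CVA (see `CVAM.ht_pair_le`)
`ht ![f_(J j), f_a] ≤ ∑_{v ∈ S} |vl v a - vl v (J j)| + (ht f - ∑_{v ∈ S} vl v a) ≤ (ρ + η₀) ht f`. -/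
def SpecCVB : Prop := ∀ q n : ℕ, 3 * n + 1 ≤ q → ∀ ρ : ℝ, 0 < ρ → ∃ κ : ℝ, 0 < κ ∧
  ∀ (k : Type) [Field k] [NumberField k] (Ω : Type) (M : ℕ)
  (f : Ω → Fin M → k) (S : Finset (Place k)) (U : Ultrafilter Ω) (A : Set Ω)
  (e : Fin q → Fin M), Function.Injective e → ∀ (b : ℕ) (η₀ : ℝ), 0 ≤ η₀ →
  4 * ((b : ℝ) + 1) ^ (2 * n + 3) * η₀ < κ → SysQ f S U A (Finset.univ.image e) η₀ →
  (∀ J : Fin (2 * n + 1) → Fin q, Function.Injective J → ∀ a, IEB b f A (fun j => e (J j)) a) →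
  ∃ (a b' : Fin q) (J : Fin (2 * n + 1) → Fin q), Function.Injective J ∧
    ∀ j, (∀ᶠ ω in (U : Filter Ω), ht ![f ω (e (J j)), f ω (e a)] ≤ (ρ + η₀) * ht (f ω)) ∨
      ∀ᶠ ω in (U : Filter Ω), ht ![f ω (e (J j)), f ω (e b')] ≤ (ρ + η₀) * ht (f ω)

/-- MGX (320 lines; adaptation of `GP/MGB.lean`).  USES nothing.

PROOF.  As MGB, `∏_a D_a ≤ b^M`. -/
def SpecMGX : Prop := ∀ (k : Type) [Field k] (Ω : Type) (M : ℕ) (f : Ω → Fin M → k) (A : Set Ω)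
  (s t : Fin M) (N b : ℕ) (J : Fin N → Fin M) (τ : Fin N → Bool), A.Nonempty →
  (∀ ω ∈ A, f ω s ≠ 0 ∧ f ω t ≠ 0) → (∀ a, IEB b f A J a) →
    (∀ i r : ℕ, (Module.finrank k (WS f A (GG s t J τ) i r) : ℝ) ≤
      (b : ℝ) ^ M * (i + 1) * Module.finrank k (WS f A (GG s t J τ) 0 (r + i))) ∧
    (∀ r : ℕ, Module.finrank k (WS f A (GG s t J τ) 0 r) ≤
      Module.finrank k (WS f A (GG s t J τ) 0 (r + 1))) ∧
    (∀ r : ℕ, 1 ≤ Module.finrank k (WS f A (GG s t J τ) 0 r)) ∧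
    ∀ r : ℕ, Module.finrank k (WS f A (GG s t J τ) 0 r) ≤ (r + 1) ^ (N + 1)

/-- MGY (200 lines; adaptation of `GP/MGR.lean`).  USES nothing.

PROOF.  `γ = 2 + η`.  As MGR (`γ` there is `1 / (1/2 - ε)`): if `γ s_m(r) < m H m r` for all `m ≥ 1` and all `r ≤ R`, then
`H 0 (r + m₂) ≥ 2 H 0 r` for all `r ≤ R`, with `m₂` depending only on `η` and `D`.  Choose `t` with
`2^t > (t m₂ + 1)^N` and `R = t m₂`; then `2^t ≤ H 0 (t m₂) ≤ (t m₂ + 1)^N`, a contradiction. -/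
def SpecMGY : Prop := ∀ (D : ℝ) (N : ℕ) (γ : ℝ), 2 < γ → ∃ R : ℕ, ∀ H : ℕ → ℕ → ℝ,
  (∀ i r, 0 ≤ H i r) → (∀ i r : ℕ, H i r ≤ D * (i + 1) * H 0 (r + i)) →
  (∀ r, H 0 r ≤ H 0 (r + 1)) → (∀ r, 1 ≤ H 0 r) → (∀ r : ℕ, H 0 r ≤ ((r : ℝ) + 1) ^ N) →
  ∃ m r : ℕ, 0 < m ∧ r ≤ R ∧ m * H m r ≤ γ * ∑ j ∈ Finset.range m, H j r

/-- MCX (260 lines; adaptation of `GP/MCV.lean`).  USES MTR, MSU, MFL.  The moving curve theorem with explicit
constants.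

PROOF.  As MCV, for the given `m, r`: `H = finrank (WS f A G m r)`, `s = ∑_{j<m} finrank (WS j r) ≥ 1`.  MSU with `ε'` such
that `ε' m ≤ ε`: `s ∑_v val v (c v) f ≤ (H + ε') (m ht f + r ht (gv G f)) + C`; divide by `s`: `H m / s ≤ γ`, `ε' m / s ≤ ε`, and
`m ht f + r ht (gv G f) = m (ht f + (r / m) ht (gv G f)) ≤ m (ht f + r ht (gv G f))` (`m ≥ 1`, heights `≥ 0`). -/
def SpecMCX : Prop := ∀ (k : Type) [Field k] [NumberField k] (Ω : Type) (M : ℕ)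
  (f : Ω → Fin M → k) (Sm : Set Ω → Prop), SmSys Sm → ∀ A : Set Ω, Gen Sm f A →
  ∀ (ι : Type) [Fintype ι] (G : ι → MvPolynomial (Fin M) k) (d : ℕ), (∀ i, (G i).IsHomogeneous d) →
  (∀ ω ∈ A, f ω ≠ 0 ∧ ∃ i, eval (f ω) (G i) ≠ 0) →
  ∀ (γ : ℝ) (m r : ℕ), 0 < m → (m * Module.finrank k (WS f A G m r) : ℝ) ≤
    γ * ∑ j ∈ Finset.range m, (Module.finrank k (WS f A G j r) : ℝ) →
  ∀ (S : Finset (Place k)) (c : Place k → Fin M → k), (∀ v ∈ S, ∃ ω ∈ A, c v ⬝ᵥ f ω ≠ 0) →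
  ∀ ε : ℝ, 0 < ε → ∃ (B : Set Ω) (C : ℝ), Sm B ∧ ∀ ω ∈ A, ω ∉ B →
    (∀ v ∈ S, c v ⬝ᵥ f ω ≠ 0) ∧
    ∑ v ∈ S, val v (c v) (f ω) ≤ (γ + ε) * (ht (f ω) + r * ht (gv G (f ω))) + C

/-- SEX (200 lines; adaptation of `GP/SET.lean`).  USES TRV (`SS.SpecTRV`), MAX (`SS.SpecMAX`).

PROOF.  As SET, with `Sm B`: there is `C'` with `W f ≤ (q - η₀) ht f + C'` for all `f ∈ B ∩ V` (`SmSys` by the maximum of the
`C'`).  `unb`: `{f : ht f ≤ C}` is `Sm`: `W f ≤ q ht f + q C₁ ≤ (q - η₀) ht f + η₀ C + q C₁`.  `{f : W f ≤ (q - η₀) ht f}` is `Sm`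
(`C' = 0`).  `int`: eventually `∑_{v ∈ S} vl v (e i) f ≥ (q - η₀) ht f - (q - 1) (ht f + C₁)`, so
`ht f - ∑ ≤ η₀ ht f + (q - 1) C₁ ≤ 2 η₀ ht f` (`unb`). -/
def SpecSEX : Prop := ∀ (k : Type) [Field k] [NumberField k] (q M : ℕ) (ℓ : Fin q → Fin 3 → k)
  (Ξ : Fin M → Fin 3 → k) (e : Fin q → Fin M), Cfg ℓ Ξ e → ∀ (n : ℕ) (S : Finset (Place k)) (η₀ : ℝ),
  0 < η₀ → (∃ C' : ℝ, ∀ f ∈ VV Ξ n, ∑ v ∈ S, ∑ i, vl v (e i) f ≤ (q - η₀) * ht f + C') ∨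
  ∃ (U : Ultrafilter (Fin M → k)) (A : Set (Fin M → k)),
    SysQ (fun f : Fin M → k => f) S U A (Finset.univ.image e) (2 * η₀) ∧ A ⊆ VV Ξ n ∧
    ∀ᶠ f in (U : Filter (Fin M → k)), (q - η₀) * ht f ≤ ∑ v ∈ S, ∑ i, vl v (e i) f

/-- MLX (260 lines; adaptation of `GP/MLB.lean`).  USES FCH (`SS.SpecFCH`), LOB (`SI.SpecLOB`), HGV, NRU, CVB, MGX,
MGY, MCX, SEX.

PROOF.  Let `B` be the function of NRU, `b = max (B n) 1`, `D = b^(q + q^4)`, `ε = 1 / (24 n)`, `γ = 2 + ε`, `R` from MGY for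
`D`, `N = 2 n + 2`, `γ`.  `ρ = ε / (8 (R + 1) (2 n + 1))`, `κ` from CVB for `ρ`, and `η > 0` with `2 η ≤ ρ`, `η ≤ 1/8`,
`4 (b + 1)^(2 n + 3) (2 η) < κ`.  All this depends only on `q` and `n`.  Now let `k, ℓ, Ξ, e, S` be given; SEX with
`η₀ = η`; suppose the second alternative.  For injective `J : Fin (2 n + 1) → Fin q` and every `a` NRU for the lines
`ℓ ∘ J` and `ξ = Ξ a` gives `IEB b id A (e ∘ J) a` (elements of `VV Ξ n`).  CVB (with `2 η` for `η₀`): `a, b', J`.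
`s = e a`, `t = e b'`, `τ j` = whether the first alternative holds.  `G = GG s t (e ∘ J) τ` (homogeneous of degree `2`),
`G_none ≠ 0` on `A`.  MGX and MGY (`H i r = finrank (WS id A G i r)`, `M = q + q^4`): `m, r`, `r ≤ R`.  HGV:
`ht (gv G f) ≤ ∑_j ht ![..] ≤ (2 n + 1) (ρ + 2 η) ht f ≤ (2 n + 1) 2 ρ ht f` eventually, so
`R ht (gv G f) ≤ (ε / 4) ht f`.  For every `φ : Place k → Fin M` MCX with `c v = Pi.single (φ v) 1`
(`val v (c v) f = vl v (φ v) f`) and `ε`: off a small set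
`∑_{v ∈ S} vl v (φ v) f ≤ (2 + 2 ε) (1 + ε / 4) ht f + C ≤ (2 + 3 ε) ht f + C` (`ε ≤ 1`).  FCH with `Sm = SmU U`: for all `φ`.
Choose `φ v = a_v` of LOB: `W f ≤ (3 n / 2) (2 + 3 ε) ht f + C = (3 n + 3/16) ht f + C`.  With the last claim of SEX:
`(q - 1/8) ht f ≤ (3 n + 3/16) ht f + C` eventually, so `(1/2) ht f ≤ C`, against `unb`. -/
def SpecMLX : Prop := ∀ q n : ℕ, 2 ≤ n → 3 * n + 1 ≤ q → ∃ η : ℝ, 0 < η ∧
  ∀ (k : Type) [Field k] [NumberField k] (ℓ : Fin q → Fin 3 → k)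
  (Ξ : Fin (q + q ^ 4) → Fin 3 → k) (e : Fin q → Fin (q + q ^ 4)), Cfg ℓ Ξ e →
  ∀ S : Finset (Place k), ∃ C' : ℝ, ∀ f ∈ VV Ξ n,
    ∑ v ∈ S, ∑ i, vl v (e i) f ≤ (q - η) * ht f + C'

/-- FNX (150 lines; adaptation of `GP/FNG.lean`).  USES PRX (`SI.SpecPRX`), LNU, MLX, ONE.

PROOF.  As FNG: `η` = the minimum of `1/2` and the `η_n` of MLX (`2 ≤ n ≤ δ`), `1`. -/
def SpecFNX : Prop := ∀ q δ : ℕ, 3 * δ + 1 ≤ q → ∃ η : ℝ, 0 < η ∧
  ∀ (k : Type) [Field k] [NumberField k] (S : Finset (Place k)) (ℓ : Fin q → Fin 3 → k), GP ℓ →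
  ∃ (Z : Finset (Fin 3 → k)) (C : ℝ), (∀ L ∈ Z, L ≠ 0) ∧
    ∀ (K : Type) [Field K] [NumberField K] [Algebra k K] (x : Fin 3 → K), Module.finrank k K ≤ δ →
      x ≠ 0 → (∀ L ∈ Z, evalForm L x ≠ 0) → proximity S ℓ x ≤ (q - η) * height x + C

/-- FNY (120 lines).  USES FNX.  THEOREM GU.

PROOF.  `q₀ = 3 δ + 1`, `η` from FNX for `q₀`, `θ = 1 - η / q₀`.  For `s : Fin q` let `ℓ_s : Fin q₀ → Fin 3 → k`,
`ℓ_s j = ℓ (s + j mod q)` (for instance with `finRotate`, `Fin.add`, or `(s + j) % q`; injective in `j` as `q₀ ≤ q`, so `GP ℓ_s`);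
for every `j` the map `s ↦ s + j mod q` is a bijection of `Fin q`.  `proximity S ℓ x = ∑_i p_i` where `p_i` depends only on
`ℓ i`, so `∑_s proximity S ℓ_s x = q₀ proximity S ℓ x`.  FNX for all `ℓ_s`: `Z` = the union, `C` = the maximum:
`q₀ proximity S ℓ x ≤ q (q₀ - η) height x + q C`; divide by `q₀`. -/
def SpecFNY : Prop := ∀ δ : ℕ, ∃ θ : ℝ, θ < 1 ∧ ∀ (q : ℕ), 3 * δ + 1 ≤ q →
  ∀ (k : Type) [Field k] [NumberField k] (S : Finset (Place k)) (ℓ : Fin q → Fin 3 → k), GP ℓ →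
  ∃ (Z : Finset (Fin 3 → k)) (C : ℝ), (∀ L ∈ Z, L ≠ 0) ∧
    ∀ (K : Type) [Field K] [NumberField K] [Algebra k K] (x : Fin 3 → K), Module.finrank k K ≤ δ →
      x ≠ 0 → (∀ L ∈ Z, evalForm L x ≠ 0) → proximity S ℓ x ≤ θ * q * height x + C

end Pool.Agent.Lib.MP_d0e829_nt.GP
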